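import Mathlib

set_option autoImplicit false

namespace Pool.Agent.Helper17.Landau

open Finset Classical

universe u

theorem egyptian (n : ℕ) : ∀ r : ℚ, 0 < r → ∃ M : ℕ, ∀ {ι : Type u} (s : Finset ι) (m : ι → ℕ),
    s.card = n → (∀ i ∈ s, 0 < m i) → ∑ i ∈ s, 1 / (m i : ℚ) = r → ∀ i ∈ s, m i ≤ M := by
  induction n with
  | zero =>
    intro r hr
    refine ⟨0, ?_⟩
    intro ι s m hs _ hsum
    rw [Finset.card_eq_zero] at hs
    subst hs
    simp at hsum
    exact absurd hsum (ne_of_lt hr)
  | succ n ih =>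
    intro r hr
    -- bound for the smallest denominator
    obtain ⟨J, hJ⟩ := exists_nat_gt ((n + 1 : ℚ) / r)
    have ih' : ∀ j : ℕ, ∃ M : ℕ, 0 < r - 1 / (j : ℚ) → ∀ {ι : Type u} (s : Finset ι) (m : ι → ℕ),
        s.card = n → (∀ i ∈ s, 0 < m i) → ∑ i ∈ s, 1 / (m i : ℚ) = r - 1 / (j : ℚ) →
        ∀ i ∈ s, m i ≤ M := by
      intro j
      by_cases hj : 0 < r - 1 / (j : ℚ)
      · obtain ⟨M, hM⟩ := ih _ hj
        exact ⟨M, fun _ => @hM⟩
      · exact ⟨0, fun h => absurd h hj⟩
    choose Mf hMf using ih'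
    refine ⟨J + ∑ j ∈ range (J + 1), Mf j, ?_⟩
    intro ι s m hs hpos hsum
    -- pick an index with large term
    have hne : s.Nonempty := by
      rw [← Finset.card_pos, hs]; omega
    obtain ⟨i0, hi0, hmin⟩ := Finset.exists_min_image s m hne
    have hm0 : 0 < m i0 := hpos i0 hi0
    have h1 : r ≤ (n + 1 : ℚ) * (1 / (m i0 : ℚ)) := by
      rw [← hsum]
      calc ∑ i ∈ s, 1 / (m i : ℚ) ≤ ∑ _i ∈ s, 1 / (m i0 : ℚ) := by
            refine Finset.sum_le_sum fun i hi => ?_
            apply one_div_le_one_div_of_le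
            · exact_mod_cast hm0
            · exact_mod_cast hmin i hi
        _ = _ := by rw [Finset.sum_const, hs, nsmul_eq_mul]; push_cast; ring
    have h2 : m i0 ≤ J := by
      have h3 : (m i0 : ℚ) ≤ (n + 1 : ℚ) / r := by
        rw [le_div_iff₀ hr]
        have h4 : (0 : ℚ) < m i0 := by exact_mod_cast hm0
        have h5 : r * m i0 ≤ (n + 1 : ℚ) * (1 / (m i0 : ℚ)) * m i0 :=
          mul_le_mul_of_nonneg_right h1 h4.le
        have h6 : (n + 1 : ℚ) * (1 / (m i0 : ℚ)) * m i0 = n + 1 := by field_simp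
        linarith
      have : (m i0 : ℚ) ≤ J := h3.trans hJ.le
      exact_mod_cast this
    intro i hi
    by_cases hii : i = i0
    · subst hii; omega
    · have hsum' : ∑ i ∈ s.erase i0, 1 / (m i : ℚ) = r - 1 / (m i0 : ℚ) := by
        rw [← hsum, ← Finset.add_sum_erase s _ hi0]; ring
      have hcard' : (s.erase i0).card = n := by
        rw [Finset.card_erase_of_mem hi0, hs]; rfl
      have hi' : i ∈ s.erase i0 := Finset.mem_erase.mpr ⟨hii, hi⟩
      have hpos' : 0 < r - 1 / (m i0 : ℚ) := by
        rw [← hsum']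
        refine Finset.sum_pos (fun j hj => ?_) ⟨i, hi'⟩
        have : (0 : ℚ) < m j := by exact_mod_cast hpos j (Finset.mem_of_mem_erase hj)
        positivity
      have h7 := hMf (m i0) hpos' (s.erase i0) m hcard'
        (fun j hj => hpos j (Finset.mem_of_mem_erase hj)) hsum' i hi'
      have h8 : Mf (m i0) ≤ ∑ j ∈ range (J + 1), Mf j :=
        Finset.single_le_sum (f := Mf) (fun _ _ => Nat.zero_le _) (Finset.mem_range.mpr (by omega))
      omega

/-- Landau: the order of a finite group is bounded in terms of its class number. -/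
theorem landau (c : ℕ) : ∃ L : ℕ, ∀ (B : Type u) [Group B] [Finite B],
    Nat.card (ConjClasses B) ≤ c → Nat.card B ≤ L := by
  have h := fun n => egyptian.{u} n 1 one_pos
  choose M hM using h
  refine ⟨∑ n ∈ range (c + 1), M n, ?_⟩
  intro B _ _ hc
  have _ : Fintype B := Fintype.ofFinite B
  set m : ConjClasses B → ℕ := fun x => Nat.card B / Nat.card x.carrier with hm
  have hdvd : ∀ x : ConjClasses B, Nat.card x.carrier ∣ Nat.card B := by
    intro x
    obtain ⟨g, rfl⟩ := ConjClasses.mk_surjective x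
    have := Nat.card_congr (MulAction.orbitEquivQuotientStabilizer (ConjAct B) g)
    rw [ConjAct.orbit_eq_carrier_conjClasses] at this
    rw [this]
    have h2 := Subgroup.card_quotient_dvd_card (MulAction.stabilizer (ConjAct B) g)
    have h3 : Nat.card (ConjAct B) = Nat.card B := Nat.card_congr ConjAct.ofConjAct.toEquiv
    rwa [h3] at h2
  have hcpos : ∀ x : ConjClasses B, 0 < Nat.card x.carrier := by
    intro x
    obtain ⟨g, rfl⟩ := ConjClasses.mk_surjective x
    have : Nonempty (ConjClasses.mk g).carrier := ⟨⟨g, ConjClasses.mem_carrier_mk⟩⟩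
    exact Nat.card_pos
  have hBpos : 0 < Nat.card B := Nat.card_pos
  have hmpos : ∀ x ∈ (univ : Finset (ConjClasses B)), 0 < m x := by
    intro x _
    exact Nat.div_pos (Nat.le_of_dvd hBpos (hdvd x)) (hcpos x)
  have hsum : ∑ x ∈ (univ : Finset (ConjClasses B)), 1 / (m x : ℚ) = 1 := by
    have e1 : ∀ x : ConjClasses B, 1 / (m x : ℚ) = (Nat.card x.carrier : ℚ) / Nat.card B := by
      intro x
      have h1 : (m x : ℚ) = (Nat.card B : ℚ) / Nat.card x.carrier := by
        rw [hm]
        exact Nat.cast_div (hdvd x) (by exact_mod_cast (hcpos x).ne')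
      rw [h1, one_div_div]
    rw [Finset.sum_congr rfl (fun x _ => e1 x), ← Finset.sum_div]
    have e2 : ∑ x : ConjClasses B, (Nat.card x.carrier : ℚ) = Nat.card B := by
      have := Group.sum_card_conj_classes_eq_card B
      rw [finsum_eq_sum_of_fintype] at this
      have h3 : ∀ x : ConjClasses B, x.carrier.ncard = Nat.card x.carrier := by
        intro x; rfl
      simp_rw [h3] at this
      exact_mod_cast this
    rw [e2]
    exact div_self (by exact_mod_cast hBpos.ne')
  have h1 := hM (univ : Finset (ConjClasses B)).card univ m rfl hmpos hsum (ConjClasses.mk 1)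
    (Finset.mem_univ _)
  have h2 : m (ConjClasses.mk 1) = Nat.card B := by
    rw [hm]
    have : (ConjClasses.mk (1 : B)).carrier = {1} := by
      ext y
      rw [ConjClasses.mem_carrier_iff_mk_eq, ConjClasses.mk_eq_mk_iff_isConj, isConj_comm,
        isConj_one_right]
      simp
    simp only [this]
    simp
  rw [h2] at h1
  have h4 : (univ : Finset (ConjClasses B)).card ≤ c := by
    rw [Finset.card_univ, ← Nat.card_eq_fintype_card]; exact hc
  have h5 : M (univ : Finset (ConjClasses B)).card ≤ ∑ n ∈ range (c + 1), M n :=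
    Finset.single_le_sum (f := M) (fun _ _ => Nat.zero_le _) (Finset.mem_range.mpr (by omega))
  omega

end Pool.Agent.Helper17.Landau
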