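import Mathlib

set_option autoImplicit false

namespace Pool.Agent.Helper17.NormalDS

open Finset Classical

universe u

variable {G : Type u} [Group G] [Fintype G]

/-- number of ordered pairs of elements of `D` with given quotient -/
theorem inv_reps (D : Finset G) (lam : ℕ)
    (hrep : ∀ g : G, g ≠ 1 → ((D ×ˢ D).filter (fun p => p.1 * p.2⁻¹ = g)).card = lam)
    (hconj : ∀ g : G, ∀ d ∈ D, g * d * g⁻¹ ∈ D) (g : G) (hg : g ≠ 1) :
    ((D ×ˢ D).filter (fun p => p.1⁻¹ * p.2 = g)).card = lam := by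
  rw [← hrep g hg]
  refine Finset.card_bij' (fun p _ => (p.2, p.2⁻¹ * p.1 * p.2)) (fun p _ => (p.1 * p.2 * p.1⁻¹, p.1))
    ?_ ?_ ?_ ?_
  · intro p hp
    simp only [mem_filter, mem_product] at hp ⊢
    refine ⟨⟨hp.1.2, ?_⟩, ?_⟩
    · have := hconj p.2⁻¹ p.1 hp.1.1
      simpa using this
    · rw [← hp.2]; group
  · intro p hp
    simp only [mem_filter, mem_product] at hp ⊢
    refine ⟨⟨hconj _ _ hp.1.2, hp.1.1⟩, ?_⟩
    rw [← hp.2]; group
  · intro p hp
    ext <;> simp <;> group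
  · intro p hp
    ext <;> simp <;> group

/-- pairs lying in a subgroup -/
theorem pairs_subgroup (D : Finset G) (lam : ℕ)
    (hrep : ∀ g : G, g ≠ 1 → ((D ×ˢ D).filter (fun p => p.1⁻¹ * p.2 = g)).card = lam)
    (H : Subgroup G) :
    ((D ×ˢ D).filter (fun p => p.1⁻¹ * p.2 ∈ H)).card + lam = D.card + lam * Nat.card H := by
  have h1 : ((D ×ˢ D).filter (fun p => p.1⁻¹ * p.2 ∈ H)).card
      = ∑ h ∈ (univ.filter (fun g : G => g ∈ H)),
          ((D ×ˢ D).filter (fun p => p.1⁻¹ * p.2 = h)).card := by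
    rw [Finset.card_eq_sum_card_fiberwise (f := fun p : G × G => p.1⁻¹ * p.2)
      (t := univ.filter (fun g : G => g ∈ H))]
    · refine Finset.sum_congr rfl fun h hh => ?_
      congr 1
      ext p
      simp only [mem_filter, mem_univ, true_and] at hh ⊢
      constructor
      · rintro ⟨⟨a, b⟩, c⟩; exact ⟨a, c⟩
      · rintro ⟨a, c⟩; exact ⟨⟨a, by rw [c]; exact hh⟩, c⟩
    · intro p hp
      simp only [coe_filter, mem_product, Set.mem_setOf_eq, mem_univ, true_and] at hp ⊢
      exact hp.2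
  have h2 : (1 : G) ∈ univ.filter (fun g : G => g ∈ H) := by simp [H.one_mem]
  rw [h1, ← Finset.add_sum_erase _ _ h2]
  have h3 : ((D ×ˢ D).filter (fun p => p.1⁻¹ * p.2 = (1 : G))).card = D.card := by
    symm
    refine Finset.card_bij (fun d _ => (d, d)) ?_ ?_ ?_
    · intro d hd; simp [hd]
    · intro a _ b _ h; simpa using congrArg Prod.fst h
    · intro p hp
      simp only [mem_filter, mem_product] at hp
      have : p.1 = p.2 := by
        have := hp.2
        rwa [inv_mul_eq_one] at this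
      exact ⟨p.1, hp.1.1, by ext <;> simp [this]⟩
  have h4 : ∑ h ∈ (univ.filter (fun g : G => g ∈ H)).erase 1,
      ((D ×ˢ D).filter (fun p => p.1⁻¹ * p.2 = h)).card
      = ((univ.filter (fun g : G => g ∈ H)).erase 1).card * lam := by
    rw [Finset.sum_congr rfl (fun h hh => hrep h (Finset.ne_of_mem_erase hh)), Finset.sum_const,
      smul_eq_mul]
  rw [h3, h4, Finset.card_erase_of_mem h2]
  have h5 : (univ.filter (fun g : G => g ∈ H)).card = Nat.card H := by
    rw [Nat.card_eq_fintype_card, Fintype.card_subtype]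
  rw [h5]
  have h6 : 1 ≤ Nat.card H := Nat.card_pos
  have : (Nat.card H - 1) * lam + lam = lam * Nat.card H := by
    obtain ⟨m, hm⟩ := Nat.exists_eq_add_of_le h6
    rw [hm]; simp; ring
  omega

/-- coset counting function -/
noncomputable def cf (D : Finset G) (H : Subgroup G) (q : G ⧸ H) : ℕ :=
  (D.filter (fun d => (QuotientGroup.mk d : G ⧸ H) = q)).card

theorem sum_cf (D : Finset G) (H : Subgroup G) : ∑ q : G ⧸ H, cf D H q = D.card := by
  unfold cf
  exact (Finset.card_eq_sum_card_fiberwise (f := fun d : G => (QuotientGroup.mk d : G ⧸ H))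
    (t := univ) (fun d _ => by simp)).symm

theorem sum_cf_sq (D : Finset G) (H : Subgroup G) :
    ∑ q : G ⧸ H, cf D H q ^ 2 = ((D ×ˢ D).filter (fun p => p.1⁻¹ * p.2 ∈ H)).card := by
  rw [Finset.card_eq_sum_card_fiberwise
    (f := fun p : G × G => (QuotientGroup.mk p.1 : G ⧸ H)) (t := univ) (fun p _ => by simp)]
  refine Finset.sum_congr rfl fun q _ => ?_
  unfold cf
  rw [sq, ← Finset.card_product]
  congr 1
  ext p
  simp only [mem_product, mem_filter]
  constructor
  · rintro ⟨⟨a, b⟩, c, d⟩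
    refine ⟨⟨⟨a, c⟩, ?_⟩, b⟩
    rw [← QuotientGroup.eq, b, d]
  · rintro ⟨⟨⟨a, c⟩, e⟩, b⟩
    refine ⟨⟨a, b⟩, c, ?_⟩
    rw [← QuotientGroup.eq] at e
    rw [← e, b]

/-- the standing hypotheses -/
structure Hyp (D : Finset G) (lam : ℕ) : Prop where
  rep : ∀ g : G, g ≠ 1 → ((D ×ˢ D).filter (fun p => p.1 * p.2⁻¹ = g)).card = lam
  conj : ∀ g : G, ∀ d ∈ D, g * d * g⁻¹ ∈ D

theorem Hyp.sq_sum {D : Finset G} {lam : ℕ} (h : Hyp D lam) (H : Subgroup G) :
    (∑ q : G ⧸ H, cf D H q ^ 2) + lam = D.card + lam * Nat.card H := by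
  rw [sum_cf_sq]
  exact pairs_subgroup D lam (inv_reps D lam h.rep h.conj) H

theorem Hyp.ksq {D : Finset G} {lam : ℕ} (h : Hyp D lam) :
    D.card ^ 2 + lam = D.card + lam * Nat.card G := by
  have h1 := pairs_subgroup D lam (inv_reps D lam h.rep h.conj) (⊤ : Subgroup G)
  have h2 : ((D ×ˢ D).filter (fun p => p.1⁻¹ * p.2 ∈ (⊤ : Subgroup G))).card = D.card ^ 2 := by
    simp [sq]
  rw [h2] at h1
  have h3 : Nat.card (⊤ : Subgroup G) = Nat.card G := Nat.card_congr Subgroup.topEquiv.toEquiv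
  rw [h3] at h1
  exact h1

theorem Hyp.lam_le {D : Finset G} {lam : ℕ} (h : Hyp D lam) (hG : 1 < Nat.card G) :
    lam ≤ D.card := by
  rw [Nat.card_eq_fintype_card, Fintype.one_lt_card_iff] at hG
  obtain ⟨a, b, hab⟩ := hG
  have : a * b⁻¹ ≠ 1 := by rwa [Ne, mul_inv_eq_one]
  rw [← h.rep _ this]
  refine Finset.card_le_card_of_injOn (fun p => p.1) ?_ ?_
  · intro p hp
    simp only [coe_filter, mem_product] at hp
    exact hp.1.1
  · intro p hp q hq hpq
    simp only [coe_filter, mem_product] at hp hq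
    have h1 : p.1 * p.2⁻¹ = q.1 * q.2⁻¹ := by
      have h2 := hp.2
      have h3 := hq.2
      rw [h2, h3]
    simp only at hpq
    rw [hpq] at h1
    have h2 : p.2 = q.2 := by simpa using h1
    exact Prod.ext hpq h2

/-- every coset contains about the expected number of elements -/
theorem Hyp.coset_dev {D : Finset G} {lam : ℕ} (h : Hyp D lam)
    (H : Subgroup G) (q : G ⧸ H) :
    ((cf D H q : ℝ) - D.card / H.index) ^ 2 ≤ D.card := by
  have hs : 0 < H.index := Nat.pos_of_ne_zero Subgroup.index_ne_zero_of_finite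
  have hcardq : Fintype.card (G ⧸ H) = H.index := by
    rw [Subgroup.index, Nat.card_eq_fintype_card]
  have hv : Nat.card H * H.index = Nat.card G := Subgroup.card_mul_index H
  set s : ℝ := (H.index : ℝ) with hsdef
  set k : ℝ := (D.card : ℝ) with hkdef
  have hs' : 0 < s := by rw [hsdef]; exact_mod_cast hs
  have e1 : (∑ q : G ⧸ H, (cf D H q : ℝ) ^ 2) + lam = k + lam * Nat.card H := by
    have := h.sq_sum H
    rw [hkdef]
    exact_mod_cast this
  have e2 : k ^ 2 + lam = k + lam * (Nat.card H * s) := by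
    have := h.ksq
    rw [← hv] at this
    rw [hkdef, hsdef]
    exact_mod_cast this
  have e3 : (∑ q : G ⧸ H, (cf D H q : ℝ)) = k := by
    have := sum_cf D H
    rw [hkdef]
    exact_mod_cast this
  have e4 : ∑ q : G ⧸ H, ((cf D H q : ℝ) - k / s) ^ 2
      = (∑ q : G ⧸ H, (cf D H q : ℝ) ^ 2) - k ^ 2 / s := by
    have : ∀ q : G ⧸ H, ((cf D H q : ℝ) - k / s) ^ 2
        = (cf D H q : ℝ) ^ 2 - (2 * (k / s)) * (cf D H q : ℝ) + (k / s) ^ 2 := by
      intro q; ring
    rw [Finset.sum_congr rfl (fun q _ => this q), Finset.sum_add_distrib, Finset.sum_sub_distrib,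
      ← Finset.mul_sum, e3, Finset.sum_const, Finset.card_univ, hcardq, nsmul_eq_mul]
    rw [← hsdef]
    field_simp
    ring
  have e5 : ((cf D H q : ℝ) - k / s) ^ 2 ≤ ∑ q : G ⧸ H, ((cf D H q : ℝ) - k / s) ^ 2 :=
    Finset.single_le_sum (f := fun q : G ⧸ H => ((cf D H q : ℝ) - k / s) ^ 2)
      (fun q _ => sq_nonneg _) (Finset.mem_univ q)
  refine e5.trans ?_
  rw [e4]
  have e6 : (∑ q : G ⧸ H, (cf D H q : ℝ) ^ 2) - k ^ 2 / s = (k - lam) - (k - lam) / s := by
    have : (∑ q : G ⧸ H, (cf D H q : ℝ) ^ 2) = k + lam * Nat.card H - lam := by linarith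
    rw [this]
    have e2' : k ^ 2 = k + lam * (Nat.card H * s) - lam := by linarith
    rw [e2']
    field_simp
    ring
  rw [e6]
  by_cases hG : 1 < Nat.card G
  · have h7 : (lam : ℝ) ≤ k := by rw [hkdef]; exact_mod_cast h.lam_le hG
    have h8 : 0 ≤ (k - lam) / s := div_nonneg (by linarith) hs'.le
    have h9 : (0 : ℝ) ≤ lam := Nat.cast_nonneg _
    linarith
  · have h10 : Nat.card G = 1 := by
      have : 0 < Nat.card G := Nat.card_pos
      omega
    have h11 : H.index = 1 := by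
      have : H.index ∣ Nat.card G := Subgroup.index_dvd_card H
      rw [h10] at this
      exact Nat.dvd_one.mp this
    have h12 : s = 1 := by rw [hsdef, h11]; simp
    rw [h12]
    have : 0 ≤ k := by rw [hkdef]; exact Nat.cast_nonneg _
    simp
    exact this

/-- centralizer of one element -/
abbrev C (x : G) : Subgroup G := Subgroup.centralizer {x}

theorem mem_C {x g : G} : g ∈ C x ↔ g * x = x * g := by
  rw [Subgroup.mem_centralizer_singleton_iff]

theorem Hyp.cf_C_le {D : Finset G} {lam : ℕ} (h : Hyp D lam) (x : G) (q : G ⧸ C x)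
    (hq : q ≠ QuotientGroup.mk 1) : cf D (C x) q ≤ lam := by
  obtain ⟨g, rfl⟩ := QuotientGroup.mk_surjective q
  have hg : g ∉ C x := by
    intro hg
    apply hq
    rw [QuotientGroup.eq]
    simpa using hg
  have hc : x * (g * x * g⁻¹)⁻¹ ≠ 1 := by
    intro hc
    apply hg
    rw [mem_C]
    rw [mul_inv_eq_one] at hc
    rw [eq_mul_inv_iff_mul_eq] at hc
    exact hc.symm
  rw [← h.rep _ hc]
  unfold cf
  refine Finset.card_le_card_of_injOn (fun d => (x * d * x⁻¹, d)) ?_ ?_
  · intro d hd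
    simp only [coe_filter] at hd
    obtain ⟨hd1, hd2⟩ := hd
    simp only [coe_filter, mem_product]
    refine ⟨⟨h.conj x d hd1, hd1⟩, ?_⟩
    have h3 : d⁻¹ * g ∈ C x := by rwa [QuotientGroup.eq] at hd2
    rw [mem_C] at h3
    have h4 : d * x * d⁻¹ = g * x * g⁻¹ := by
      have : g = d * (d⁻¹ * g) := by group
      rw [this]
      calc d * x * d⁻¹ = d * (x * (d⁻¹ * g)) * (d⁻¹ * g)⁻¹ * d⁻¹ := by group
        _ = d * ((d⁻¹ * g) * x) * (d⁻¹ * g)⁻¹ * d⁻¹ := by rw [h3]
        _ = _ := by group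
    show x * d * x⁻¹ * d⁻¹ = x * (g * x * g⁻¹)⁻¹
    rw [← h4]; group
  · intro a _ b _ hab
    simpa using congrArg Prod.snd hab

/-- every noncentral class is large -/
theorem Hyp.class_large {D : Finset G} {lam : ℕ} (h : Hyp D lam) (x : G)
    (hx : 2 ≤ (C x).index) :
    (D.card : ℝ) ≤ lam * (C x).index + 2 * Real.sqrt D.card := by
  set s : ℝ := ((C x).index : ℝ) with hs
  set k : ℝ := (D.card : ℝ) with hk
  have hs2 : 2 ≤ s := by rw [hs]; exact_mod_cast hx
  have hk0 : 0 ≤ k := by rw [hk]; exact Nat.cast_nonneg _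
  have h1 := h.coset_dev (C x) (QuotientGroup.mk 1)
  have h2 : (cf D (C x) (QuotientGroup.mk 1) : ℝ) ≤ k / s + Real.sqrt k := by
    have := Real.abs_le_sqrt h1
    have := (abs_le.mp this).2
    linarith
  have h3 : D.card ≤ cf D (C x) (QuotientGroup.mk 1) + ((C x).index - 1) * lam := by
    have h4 := sum_cf D (C x)
    rw [← Finset.add_sum_erase _ _ (Finset.mem_univ (QuotientGroup.mk 1 : G ⧸ C x))] at h4
    have h5 : ∑ q ∈ (univ : Finset (G ⧸ C x)).erase (QuotientGroup.mk 1), cf D (C x) q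
        ≤ ((C x).index - 1) * lam := by
      refine (Finset.sum_le_card_nsmul _ _ lam
        (fun q hq => h.cf_C_le x q (Finset.ne_of_mem_erase hq))).trans ?_
      rw [Finset.card_erase_of_mem (Finset.mem_univ _), smul_eq_mul, Finset.card_univ,
        Subgroup.index, Nat.card_eq_fintype_card]
    omega
  have h6 : k ≤ (k / s + Real.sqrt k) + (s - 1) * lam := by
    have h7 : (D.card : ℝ) ≤ cf D (C x) (QuotientGroup.mk 1) + (((C x).index - 1 : ℕ) : ℝ) * lam := by
      exact_mod_cast h3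
    have h8 : (((C x).index - 1 : ℕ) : ℝ) = s - 1 := by
      rw [Nat.cast_sub (by omega)]; simp [hs]
    rw [h8] at h7
    linarith
  have hr : 0 ≤ Real.sqrt k := Real.sqrt_nonneg _
  have hl : (0 : ℝ) ≤ lam := Nat.cast_nonneg _
  -- multiply by s / (s - 1)
  have h9 : k * (s - 1) ≤ (Real.sqrt k + (s - 1) * lam) * s := by
    have : k * s ≤ ((k / s + Real.sqrt k) + (s - 1) * lam) * s :=
      mul_le_mul_of_nonneg_right h6 (by linarith)
    have e : (k / s) * s = k := by field_simp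
    nlinarith
  have h10 : (Real.sqrt k + (s - 1) * lam) * s ≤ (lam * s + 2 * Real.sqrt k) * (s - 1) := by
    nlinarith [mul_nonneg hr (by linarith : (0:ℝ) ≤ s - 2)]
  have h11 : k * (s - 1) ≤ (lam * s + 2 * Real.sqrt k) * (s - 1) := h9.trans h10
  exact le_of_mul_le_mul_right h11 (by linarith)

end Pool.Agent.Helper17.NormalDS
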