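import Mathlib
import Pool.Agent.Helper17.NormalDS
import Pool.Agent.Helper17.Landau

set_option autoImplicit false

namespace Pool.Agent.Helper17.NormalDS

open Finset Classical

universe u

variable {G : Type u} [Group G] [Fintype G]

/-- the set of conjugates of an element -/
noncomputable def cl (d : G) : Finset G := univ.image (fun g : G => g * d * g⁻¹)

theorem card_cl (d : G) : (cl d).card = (C d).index := by
  have hwd : ∀ a b : G, (QuotientGroup.leftRel (C d)) a b → a * d * a⁻¹ = b * d * b⁻¹ := by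
    intro a b hab
    rw [QuotientGroup.leftRel_apply, mem_C] at hab
    calc a * d * a⁻¹ = a * (d * (a⁻¹ * b)) * (a⁻¹ * b)⁻¹ * a⁻¹ := by group
      _ = a * ((a⁻¹ * b) * d) * (a⁻¹ * b)⁻¹ * a⁻¹ := by rw [hab]
      _ = b * d * b⁻¹ := by group
  let φ : G ⧸ C d → G := Quotient.lift (fun g : G => g * d * g⁻¹) hwd
  have hinj : Function.Injective φ := by
    intro p q hpq
    obtain ⟨a, rfl⟩ := QuotientGroup.mk_surjective p
    obtain ⟨b, rfl⟩ := QuotientGroup.mk_surjective q
    have h1 : a * d * a⁻¹ = b * d * b⁻¹ := hpq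
    rw [QuotientGroup.eq, mem_C]
    calc a⁻¹ * b * d = a⁻¹ * (b * d * b⁻¹) * b := by group
      _ = a⁻¹ * (a * d * a⁻¹) * b := by rw [h1]
      _ = d * (a⁻¹ * b) := by group
  have himg : cl d = univ.image φ := by
    unfold cl
    ext y
    simp only [mem_image, mem_univ, true_and]
    constructor
    · rintro ⟨g, rfl⟩; exact ⟨QuotientGroup.mk g, rfl⟩
    · rintro ⟨q, rfl⟩
      obtain ⟨g, rfl⟩ := QuotientGroup.mk_surjective q
      exact ⟨g, rfl⟩
  rw [himg, Finset.card_image_of_injective _ hinj, Finset.card_univ, Subgroup.index,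
    Nat.card_eq_fintype_card]

theorem index_C_of_noncentral {x : G} (hx : x ∉ Subgroup.center G) : 2 ≤ (C x).index := by
  have h0 : (C x).index ≠ 0 := Subgroup.index_ne_zero_of_finite
  have h1 : (C x).index ≠ 1 := by
    intro h
    rw [Subgroup.index_eq_one] at h
    apply hx
    rw [Subgroup.mem_center_iff]
    intro g
    have : g ∈ C x := by rw [h]; trivial
    rwa [mem_C] at this
  omega

/-- the conjugacy classes of noncentral elements of `D` -/
noncomputable def ncl (D : Finset G) : Finset (ConjClasses G) :=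
  (D.filter (fun d => d ∉ Subgroup.center G)).image ConjClasses.mk

theorem Hyp.few_classes {D : Finset G} {lam : ℕ} (h : Hyp D lam)
    (hk : 2 * ((lam : ℝ) + 1) < Real.sqrt D.card) : (ncl D).card ≤ lam := by
  by_contra hcon
  push Not at hcon
  set k : ℝ := (D.card : ℝ) with hkd
  set κ : ℝ := Real.sqrt k with hκ
  have hk0 : 0 ≤ k := by rw [hkd]; exact Nat.cast_nonneg _
  have hκk : κ * κ = k := Real.mul_self_sqrt hk0
  have hl : (0 : ℝ) ≤ lam := Nat.cast_nonneg _
  have h1 : ∑ c ∈ ncl D, ((D.filter (fun d => d ∉ Subgroup.center G)).filter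
      (fun d => ConjClasses.mk d = c)).card ≤ D.card := by
    rw [← Finset.card_eq_sum_card_fiberwise (f := fun d : G => ConjClasses.mk d)
      (t := ncl D)]
    · exact Finset.card_filter_le _ _
    · intro d hd
      exact Finset.mem_coe.mpr (Finset.mem_image_of_mem _ (Finset.mem_coe.mp hd))
  have h2 : ∀ c ∈ ncl D, k - 2 * κ ≤ lam * (((D.filter (fun d => d ∉ Subgroup.center G)).filter
      (fun d => ConjClasses.mk d = c)).card : ℝ) := by
    intro c hc
    obtain ⟨d, hd, rfl⟩ := Finset.mem_image.mp hc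
    obtain ⟨hdD, hdc⟩ := Finset.mem_filter.mp hd
    have h3 : (cl d).card ≤ ((D.filter (fun d => d ∉ Subgroup.center G)).filter
        (fun d' => ConjClasses.mk d' = ConjClasses.mk d)).card := by
      apply Finset.card_le_card
      intro y hy
      unfold cl at hy
      obtain ⟨g, -, rfl⟩ := Finset.mem_image.mp hy
      have hconj : IsConj d (g * d * g⁻¹) := isConj_iff.mpr ⟨g, rfl⟩
      refine Finset.mem_filter.mpr ⟨Finset.mem_filter.mpr ⟨h.conj g d hdD, ?_⟩, ?_⟩
      · intro hcen
        apply hdc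
        rw [Subgroup.mem_center_iff] at hcen ⊢
        have h5 : g * d * g⁻¹ = d := by
          have := hcen g
          have h6 : g * (g * d * g⁻¹) * g⁻¹ = g * d * g⁻¹ := by rw [this]; group
          have h7 : g * d * g⁻¹ = d := by
            have h8 : g⁻¹ * (g * (g * d * g⁻¹) * g⁻¹) * g = g⁻¹ * (g * d * g⁻¹) * g := by rw [h6]
            have h9 : g⁻¹ * (g * (g * d * g⁻¹) * g⁻¹) * g = g * d * g⁻¹ := by group
            have h10 : g⁻¹ * (g * d * g⁻¹) * g = d := by group
            rw [h9, h10] at h8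
            exact h8
          exact h7
        rw [h5] at hcen
        exact hcen
      · exact (ConjClasses.mk_eq_mk_iff_isConj.mpr hconj).symm
    have h4 := h.class_large d (index_C_of_noncentral hdc)
    rw [card_cl] at h3
    have h5 : ((C d).index : ℝ) ≤ (((D.filter (fun d => d ∉ Subgroup.center G)).filter
        (fun d' => ConjClasses.mk d' = ConjClasses.mk d)).card : ℝ) := by exact_mod_cast h3
    have h6 := mul_le_mul_of_nonneg_left h5 hl
    linarith
  have h3 : ((ncl D).card : ℝ) * (k - 2 * κ) ≤ lam * k := by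
    calc ((ncl D).card : ℝ) * (k - 2 * κ) = ∑ c ∈ ncl D, (k - 2 * κ) := by
          rw [Finset.sum_const, nsmul_eq_mul]
      _ ≤ ∑ c ∈ ncl D, lam * (((D.filter (fun d => d ∉ Subgroup.center G)).filter
            (fun d => ConjClasses.mk d = c)).card : ℝ) := Finset.sum_le_sum h2
      _ = lam * ∑ c ∈ ncl D, (((D.filter (fun d => d ∉ Subgroup.center G)).filter
            (fun d => ConjClasses.mk d = c)).card : ℝ) := by rw [Finset.mul_sum]
      _ ≤ lam * k := by
          apply mul_le_mul_of_nonneg_left _ hl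
          rw [hkd]
          exact_mod_cast h1
  have h4 : (lam : ℝ) + 1 ≤ (ncl D).card := by exact_mod_cast hcon
  have h5 : 0 ≤ k - 2 * κ := by nlinarith
  have h6 : ((lam : ℝ) + 1) * (k - 2 * κ) ≤ lam * k :=
    (mul_le_mul_of_nonneg_right h4 h5).trans h3
  nlinarith

theorem Hyp.center_bound {D : Finset G} {lam : ℕ} (h : Hyp D lam)
    (hk : 4 ≤ Real.sqrt D.card) {x : G} (hx : x ∉ Subgroup.center G) :
    ((D.filter (fun d => d ∈ Subgroup.center G)).card : ℝ) ≤ 2 * lam + Real.sqrt D.card := by
  set k : ℝ := (D.card : ℝ) with hkd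
  set κ : ℝ := Real.sqrt k with hκ
  have hk0 : 0 ≤ k := by rw [hkd]; exact Nat.cast_nonneg _
  have hκk : κ * κ = k := Real.mul_self_sqrt hk0
  have hl : (0 : ℝ) ≤ lam := Nat.cast_nonneg _
  have h1 := h.coset_dev (Subgroup.center G) (QuotientGroup.mk 1)
  have h2 : cf D (Subgroup.center G) (QuotientGroup.mk 1)
      = (D.filter (fun d => d ∈ Subgroup.center G)).card := by
    unfold cf
    congr 1
    ext d
    simp only [mem_filter, and_congr_right_iff]
    intro _
    rw [QuotientGroup.eq]
    simp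
  rw [h2] at h1
  have h3 := (abs_le.mp (Real.abs_le_sqrt h1)).2
  have h4 : Subgroup.center G ≤ C x := by
    intro z hz
    rw [mem_C]
    rw [Subgroup.mem_center_iff] at hz
    exact (hz x).symm
  have h5 : (C x).index ≤ (Subgroup.center G).index :=
    Nat.le_of_dvd (Nat.pos_of_ne_zero Subgroup.index_ne_zero_of_finite)
      (Subgroup.index_dvd_of_le h4)
  have h6 := h.class_large x (index_C_of_noncentral hx)
  have h7 : (0 : ℝ) < (Subgroup.center G).index := by
    exact_mod_cast Nat.pos_of_ne_zero Subgroup.index_ne_zero_of_finite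
  have h8 : ((C x).index : ℝ) ≤ (Subgroup.center G).index := by exact_mod_cast h5
  have h9 : k / (Subgroup.center G).index ≤ 2 * lam := by
    rw [div_le_iff₀ h7]
    have : lam * ((C x).index : ℝ) ≤ lam * (Subgroup.center G).index :=
      mul_le_mul_of_nonneg_left h8 hl
    nlinarith
  linarith

theorem cf_le_of_index {D : Finset G} {lam : ℕ} (h : Hyp D lam) (R : Subgroup G) (q : G ⧸ R) :
    (cf D R q : ℝ) ≤ D.card / R.index + Real.sqrt D.card := by
  have := (abs_le.mp (Real.abs_le_sqrt (h.coset_dev R q))).2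
  linarith

theorem le_cf_of_index {D : Finset G} {lam : ℕ} (h : Hyp D lam) (R : Subgroup G) (q : G ⧸ R) :
    (D.card : ℝ) / R.index - Real.sqrt D.card ≤ cf D R q := by
  have := (abs_le.mp (Real.abs_le_sqrt (h.coset_dev R q))).1
  linarith

/-- a quotient of small order has few conjugacy classes -/
theorem Hyp.classes_quotient {D : Finset G} {lam : ℕ} (h : Hyp D lam)
    (hk : 2 * ((lam : ℝ) + 1) < Real.sqrt D.card) (hk4 : 4 ≤ Real.sqrt D.card)
    {x : G} (hx : x ∉ Subgroup.center G) (R : Subgroup G) [R.Normal]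
    (hR : (R.index : ℝ) ≤ Real.sqrt D.card / 4) :
    Nat.card (ConjClasses (G ⧸ R)) ≤ lam := by
  set k : ℝ := (D.card : ℝ) with hkd
  set κ : ℝ := Real.sqrt k with hκ
  have hk0 : 0 ≤ k := by rw [hkd]; exact Nat.cast_nonneg _
  have hκk : κ * κ = k := Real.mul_self_sqrt hk0
  have hl : (0 : ℝ) ≤ lam := Nat.cast_nonneg _
  have hi : (0 : ℝ) < R.index := by
    exact_mod_cast Nat.pos_of_ne_zero Subgroup.index_ne_zero_of_finite
  have h1 : 4 * κ ≤ k / R.index := by
    rw [le_div_iff₀ hi]
    nlinarith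
  have hZ := h.center_bound hk4 hx
  have key : ∀ q : G ⧸ R, ∃ d ∈ D, d ∉ Subgroup.center G ∧ (QuotientGroup.mk d : G ⧸ R) = q := by
    intro q
    by_contra hcon
    push Not at hcon
    have h2 : cf D R q ≤ (D.filter (fun d => d ∈ Subgroup.center G)).card := by
      unfold cf
      apply Finset.card_le_card
      intro d hd
      obtain ⟨hdD, hdq⟩ := Finset.mem_filter.mp hd
      refine Finset.mem_filter.mpr ⟨hdD, ?_⟩
      by_contra hdc
      exact hcon d hdD hdc hdq
    have h3 : (cf D R q : ℝ) ≤ ((D.filter (fun d => d ∈ Subgroup.center G)).card : ℝ) := by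
      exact_mod_cast h2
    have h4 := le_cf_of_index h R q
    rw [← hkd, ← hκ] at h4 hZ
    linarith
  have hsurj : Function.Surjective (fun c : {c // c ∈ ncl D} =>
      ConjClasses.map (QuotientGroup.mk' R) c.1) := by
    intro y
    obtain ⟨q, rfl⟩ := ConjClasses.mk_surjective y
    obtain ⟨d, hd, hdc, hdq⟩ := key q
    refine ⟨⟨ConjClasses.mk d, Finset.mem_image_of_mem _ (Finset.mem_filter.mpr ⟨hd, hdc⟩)⟩, ?_⟩
    show ConjClasses.mk (QuotientGroup.mk' R d) = ConjClasses.mk q
    rw [QuotientGroup.mk'_apply, hdq]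
  have h5 := Nat.card_le_card_of_surjective _ hsurj
  refine h5.trans ?_
  rw [Nat.card_eq_fintype_card, Fintype.card_coe]
  exact h.few_classes hk

/-- the main structural statement -/
theorem main (lam : ℕ) : ∃ K L : ℕ, ∀ (G : Type u) [Group G] [Fintype G] (D : Finset G),
    Hyp D lam → (∃ a b : G, a * b ≠ b * a) →
    D.card ≤ K ∨ ∃ R : Subgroup G, R.Normal ∧ R ≠ ⊥ ∧ ⁅R, R⁆ = R ∧ R.index ≤ L := by
  obtain ⟨L, hL⟩ := Landau.landau.{u} lam
  refine ⟨(4 * L + 5 * lam * L ^ 2 + 2 * lam + 6) ^ 2, L, ?_⟩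
  intro G _ _ D h hnc
  by_contra hcon
  push Not at hcon
  obtain ⟨hK, hR⟩ := hcon
  obtain ⟨x, y, hxy⟩ := hnc
  have hx : x ∉ Subgroup.center G := by
    intro hx
    rw [Subgroup.mem_center_iff] at hx
    exact hxy (hx y).symm
  set k : ℝ := (D.card : ℝ) with hkd
  set κ : ℝ := Real.sqrt k with hκ
  have hk0 : 0 ≤ k := by rw [hkd]; exact Nat.cast_nonneg _
  have hκk : κ * κ = k := Real.mul_self_sqrt hk0
  have hl : (0 : ℝ) ≤ lam := Nat.cast_nonneg _
  have hLr : (0 : ℝ) ≤ L := Nat.cast_nonneg _
  have hκ0 : 0 ≤ κ := Real.sqrt_nonneg _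
  have hκbig : 4 * (L : ℝ) + 5 * lam * L ^ 2 + 2 * lam + 6 < κ := by
    apply Real.lt_sqrt_of_sq_lt
    rw [hkd]
    exact_mod_cast hK
  have hp1 : 0 ≤ 5 * (lam : ℝ) * L ^ 2 := by positivity
  have hk1 : 2 * ((lam : ℝ) + 1) < κ := by linarith
  have hk4 : 4 ≤ κ := by linarith
  -- choose a normal subgroup of largest index below the threshold
  let S : Finset (Subgroup G) := univ.filter (fun R => R.Normal ∧ (R.index : ℝ) ≤ κ / 4)
  have hSne : S.Nonempty := by
    refine ⟨⊤, Finset.mem_filter.mpr ⟨Finset.mem_univ _, inferInstance, ?_⟩⟩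
    rw [Subgroup.index_top]
    push_cast
    linarith
  obtain ⟨R, hRS, hRmax⟩ := Finset.exists_max_image S (fun R => R.index) hSne
  obtain ⟨-, hRn, hRi⟩ := Finset.mem_filter.mp hRS
  haveI := hRn
  have hcl := h.classes_quotient hk1 hk4 hx R hRi
  have hidx : R.index ≤ L := by
    have := hL (G ⧸ R) hcl
    rwa [Subgroup.index]
  have hipos : 0 < R.index := Nat.pos_of_ne_zero Subgroup.index_ne_zero_of_finite
  have hiposr : (0 : ℝ) < R.index := by exact_mod_cast hipos
  have hidxr : (R.index : ℝ) ≤ L := by exact_mod_cast hidx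
  have hGk : D.card ≤ Nat.card G := by
    rw [Nat.card_eq_fintype_card]; exact Finset.card_le_univ D
  have hκk' : κ ≤ k := by nlinarith
  have hRbot : R ≠ ⊥ := by
    intro hbot
    have : R.index = Nat.card G := by rw [hbot, Subgroup.index_bot]
    have h1 : (D.card : ℝ) ≤ L := by
      have : D.card ≤ L := by omega
      exact_mod_cast this
    rw [← hkd] at h1
    linarith
  have hcomm : ⁅R, R⁆ ≠ R := by
    intro hc
    have := hR R hRn hRbot hc
    omega
  set R' : Subgroup G := ⁅R, R⁆ with hR'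
  haveI hR'n : R'.Normal := Subgroup.commutator_normal R R
  have hR'le : R' ≤ R := Subgroup.commutator_le_right R R
  have hR'lt : R' < R := lt_of_le_of_ne hR'le hcomm
  have hi' : R.index < R'.index := Subgroup.index_strictAnti hR'lt
  have hR'i : κ / 4 < (R'.index : ℝ) := by
    by_contra hc
    push Not at hc
    have : R' ∈ S := Finset.mem_filter.mpr ⟨Finset.mem_univ _, hR'n, hc⟩
    have := hRmax R' this
    omega
  have hi'pos : (0 : ℝ) < R'.index := by linarith
  -- each coset of R' contains at most 5 κ elements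
  have hcos : ∀ q : G ⧸ R', (cf D R' q : ℝ) ≤ 5 * κ := by
    intro q
    have h1 := cf_le_of_index h R' q
    rw [← hkd, ← hκ] at h1
    have h2 : k / R'.index ≤ 4 * κ := by
      rw [div_le_iff₀ hi'pos]
      nlinarith
    linarith
  -- the noncentral part of D in R
  set DR : Finset G := D.filter (fun d => d ∈ R ∧ d ∉ Subgroup.center G) with hDR
  have hDRbig : k / L - κ - (2 * lam + κ) ≤ (DR.card : ℝ) := by
    have h1 := le_cf_of_index h R (QuotientGroup.mk 1)
    rw [← hkd, ← hκ] at h1
    have h2 : cf D R (QuotientGroup.mk 1) ≤ DR.card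
        + (D.filter (fun d => d ∈ Subgroup.center G)).card := by
      unfold cf
      refine (Finset.card_le_card (t := DR ∪ D.filter (fun d => d ∈ Subgroup.center G)) ?_).trans
        (Finset.card_union_le _ _)
      intro d hd
      obtain ⟨hdD, hdq⟩ := Finset.mem_filter.mp hd
      rw [QuotientGroup.eq] at hdq
      have hdR : d ∈ R := by simpa using hdq
      by_cases hdc : d ∈ Subgroup.center G
      · exact Finset.mem_union_right _ (Finset.mem_filter.mpr ⟨hdD, hdc⟩)
      · exact Finset.mem_union_left _ (Finset.mem_filter.mpr ⟨hdD, hdR, hdc⟩)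
    have h3 : (cf D R (QuotientGroup.mk 1) : ℝ) ≤ DR.card
        + ((D.filter (fun d => d ∈ Subgroup.center G)).card : ℝ) := by exact_mod_cast h2
    have h4 := h.center_bound hk4 hx
    rw [← hkd, ← hκ] at h4
    have h5 : k / L ≤ k / R.index := by
      apply div_le_div_of_nonneg_left hk0 hiposr hidxr
    linarith
  -- images of DR in G / R'
  have himg : (DR.image (fun d => (QuotientGroup.mk d : G ⧸ R'))).card ≤ lam * R.index := by
    have hsub : DR.image (fun d => (QuotientGroup.mk d : G ⧸ R'))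
        ⊆ (ncl D).biUnion (fun c => (DR.filter (fun d => ConjClasses.mk d = c)).image
            (fun d => (QuotientGroup.mk d : G ⧸ R'))) := by
      intro q hq
      obtain ⟨d, hd, rfl⟩ := Finset.mem_image.mp hq
      obtain ⟨hdD, hdR, hdc⟩ := Finset.mem_filter.mp hd
      refine Finset.mem_biUnion.mpr ⟨ConjClasses.mk d,
        Finset.mem_image_of_mem _ (Finset.mem_filter.mpr ⟨hdD, hdc⟩), ?_⟩
      exact Finset.mem_image_of_mem _ (Finset.mem_filter.mpr ⟨hd, rfl⟩)
    refine (Finset.card_le_card hsub).trans ?_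
    refine (Finset.card_biUnion_le_card_mul _ _ R.index ?_).trans
      (Nat.mul_le_mul_right _ (h.few_classes hk1))
    intro c hc
    -- the image of one class has at most `index R` elements
    by_cases hne : (DR.filter (fun d => ConjClasses.mk d = c)).Nonempty
    · obtain ⟨d0, hd0⟩ := hne
      obtain ⟨hd0R, hd0c⟩ := Finset.mem_filter.mp hd0
      obtain ⟨-, hd0R', -⟩ := Finset.mem_filter.mp hd0R
      have hwd : ∀ a b : G, (QuotientGroup.leftRel R) a b →
          (QuotientGroup.mk (a * d0 * a⁻¹) : G ⧸ R') = QuotientGroup.mk (b * d0 * b⁻¹) := by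
        intro a b hab
        rw [QuotientGroup.leftRel_apply] at hab
        rw [QuotientGroup.eq]
        have e : (a * d0 * a⁻¹)⁻¹ * (b * d0 * b⁻¹)
            = a * (d0⁻¹ * (a⁻¹ * b) * d0 * (a⁻¹ * b)⁻¹) * a⁻¹ := by group
        rw [e]
        have h6 : d0⁻¹ * (a⁻¹ * b) * d0 * (a⁻¹ * b)⁻¹ ∈ R' := by
          have := Subgroup.commutator_mem_commutator (H₁ := R) (H₂ := R)
            (R.inv_mem hd0R') hab
          rw [commutatorElement_def] at this
          simpa using this
        exact hR'n.conj_mem _ h6 a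
      let φ : G ⧸ R → G ⧸ R' := Quotient.lift
        (fun g : G => (QuotientGroup.mk (g * d0 * g⁻¹) : G ⧸ R')) hwd
      have hsub2 : (DR.filter (fun d => ConjClasses.mk d = c)).image
          (fun d => (QuotientGroup.mk d : G ⧸ R')) ⊆ (univ : Finset (G ⧸ R)).image φ := by
        intro q hq
        obtain ⟨d, hd, rfl⟩ := Finset.mem_image.mp hq
        obtain ⟨-, hdc⟩ := Finset.mem_filter.mp hd
        have hconj : IsConj d0 d := by
          rw [← ConjClasses.mk_eq_mk_iff_isConj, hd0c, hdc]
        obtain ⟨g, hg⟩ := isConj_iff.mp hconj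
        refine Finset.mem_image.mpr ⟨QuotientGroup.mk g, Finset.mem_univ _, ?_⟩
        show (QuotientGroup.mk (g * d0 * g⁻¹) : G ⧸ R') = QuotientGroup.mk d
        rw [hg]
      refine (Finset.card_le_card hsub2).trans (Finset.card_image_le.trans ?_)
      rw [Finset.card_univ, Subgroup.index, Nat.card_eq_fintype_card]
    · rw [Finset.not_nonempty_iff_eq_empty] at hne
      rw [hne]
      simp
  -- count
  have hcount : (DR.card : ℝ) ≤ (lam * R.index : ℕ) * (5 * κ) := by
    have h1 : DR.card = ∑ q ∈ DR.image (fun d => (QuotientGroup.mk d : G ⧸ R')),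
        (DR.filter (fun d => (QuotientGroup.mk d : G ⧸ R') = q)).card :=
      Finset.card_eq_sum_card_fiberwise (fun d hd => by
        exact Finset.mem_coe.mpr (Finset.mem_image_of_mem _ (Finset.mem_coe.mp hd)))
    have h2 : (DR.card : ℝ) = ∑ q ∈ DR.image (fun d => (QuotientGroup.mk d : G ⧸ R')),
        ((DR.filter (fun d => (QuotientGroup.mk d : G ⧸ R') = q)).card : ℝ) := by
      exact_mod_cast h1
    rw [h2]
    calc ∑ q ∈ DR.image (fun d => (QuotientGroup.mk d : G ⧸ R')),
        ((DR.filter (fun d => (QuotientGroup.mk d : G ⧸ R') = q)).card : ℝ)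
        ≤ ∑ q ∈ DR.image (fun d => (QuotientGroup.mk d : G ⧸ R')), (5 * κ) := by
          refine Finset.sum_le_sum fun q _ => ?_
          refine le_trans ?_ (hcos q)
          have : (DR.filter (fun d => (QuotientGroup.mk d : G ⧸ R') = q)).card ≤ cf D R' q := by
            unfold cf
            apply Finset.card_le_card
            intro d hd
            obtain ⟨hd1, hd2⟩ := Finset.mem_filter.mp hd
            exact Finset.mem_filter.mpr ⟨(Finset.mem_filter.mp hd1).1, hd2⟩
          exact_mod_cast this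
      _ = ((DR.image (fun d => (QuotientGroup.mk d : G ⧸ R'))).card : ℝ) * (5 * κ) := by
          rw [Finset.sum_const, nsmul_eq_mul]
      _ ≤ _ := by
          apply mul_le_mul_of_nonneg_right _ (by linarith)
          exact_mod_cast himg
  -- contradiction
  have hLpos : (1 : ℝ) ≤ L := by
    have : 1 ≤ L := by omega
    exact_mod_cast this
  have h8 : ((lam * R.index : ℕ) : ℝ) ≤ lam * L := by
    push_cast
    exact mul_le_mul_of_nonneg_left hidxr hl
  have h9 : k / L - κ - (2 * lam + κ) ≤ lam * L * (5 * κ) :=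
    hDRbig.trans (hcount.trans (mul_le_mul_of_nonneg_right h8 (by linarith)))
  have h10 : k ≤ L * (lam * L * (5 * κ) + κ + (2 * lam + κ)) := by
    have : k / L ≤ lam * L * (5 * κ) + κ + (2 * lam + κ) := by linarith
    rw [div_le_iff₀ (by linarith)] at this
    linarith
  have h11 : L * (lam * L * (5 * κ) + κ + (2 * lam + κ)) ≤ (4 * L + 5 * lam * L ^ 2) * κ := by
    have : 2 * (lam : ℝ) ≤ κ := by linarith
    nlinarith [mul_le_mul_of_nonneg_left this hLr, mul_nonneg hLr hκ0]
  have h12 : (4 * (L : ℝ) + 5 * lam * L ^ 2) * κ < κ * κ := by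
    apply mul_lt_mul_of_pos_right _ (by linarith)
    linarith
  linarith

end Pool.Agent.Helper17.NormalDS
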