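import Mathlib
import Pool.Agent.Helper17.NormalPerfect

set_option autoImplicit false

namespace Pool.Agent.Helper17.NormalDS

open Finset Classical

universe u

variable {G : Type u} [Group G] [Fintype G]

omit [Fintype G] in
/-- conjugation by an element commuting with `z` permutes the pairs representing `z` -/
theorem Hyp.fix_pairs {D : Finset G} {lam : ℕ} (h : Hyp D lam) {x z : G} (hxz : x * z = z * x)
    (hz : z ≠ 1) {a b : G} (ha : a ∈ D) (hb : b ∈ D) (hab : a * b⁻¹ = z) :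
    x ^ lam.factorial * a = a * x ^ lam.factorial ∧
    x ^ lam.factorial * b = b * x ^ lam.factorial := by
  set S : Finset (G × G) := (D ×ˢ D).filter (fun p => p.1 * p.2⁻¹ = z) with hS
  have hSc : S.card = lam := h.rep z hz
  have hmem : ∀ y : G, y * z = z * y → ∀ p ∈ S, (y * p.1 * y⁻¹, y * p.2 * y⁻¹) ∈ S := by
    intro y hy p hp
    rw [hS, mem_filter, mem_product] at hp ⊢
    refine ⟨⟨h.conj y _ hp.1.1, h.conj y _ hp.1.2⟩, ?_⟩
    show y * p.1 * y⁻¹ * (y * p.2 * y⁻¹)⁻¹ = z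
    calc y * p.1 * y⁻¹ * (y * p.2 * y⁻¹)⁻¹ = y * (p.1 * p.2⁻¹) * y⁻¹ := by group
      _ = y * z * y⁻¹ := by rw [hp.2]
      _ = z * y * y⁻¹ := by rw [hy]
      _ = z := by group
  have hxz' : x⁻¹ * z = z * x⁻¹ := by
    calc x⁻¹ * z = x⁻¹ * (z * x) * x⁻¹ := by group
      _ = x⁻¹ * (x * z) * x⁻¹ := by rw [hxz]
      _ = z * x⁻¹ := by group
  let σ : Equiv.Perm S :=
    { toFun := fun p => ⟨(x * p.1.1 * x⁻¹, x * p.1.2 * x⁻¹), hmem x hxz p.1 p.2⟩
      invFun := fun p => ⟨(x⁻¹ * p.1.1 * x⁻¹⁻¹, x⁻¹ * p.1.2 * x⁻¹⁻¹), hmem x⁻¹ hxz' p.1 p.2⟩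
      left_inv := by
        intro p
        apply Subtype.ext
        apply Prod.ext
        · show x⁻¹ * (x * p.1.1 * x⁻¹) * x⁻¹⁻¹ = p.1.1
          group
        · show x⁻¹ * (x * p.1.2 * x⁻¹) * x⁻¹⁻¹ = p.1.2
          group
      right_inv := by
        intro p
        apply Subtype.ext
        apply Prod.ext
        · show x * (x⁻¹ * p.1.1 * x⁻¹⁻¹) * x⁻¹ = p.1.1
          group
        · show x * (x⁻¹ * p.1.2 * x⁻¹⁻¹) * x⁻¹ = p.1.2
          group }
  have hpow : ∀ (n : ℕ) (p : S), ((σ ^ n) p).1 = (x ^ n * p.1.1 * (x ^ n)⁻¹, x ^ n * p.1.2 * (x ^ n)⁻¹) := by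
    intro n
    induction n with
    | zero => intro p; simp
    | succ n ih =>
      intro p
      rw [pow_succ', Equiv.Perm.mul_apply]
      have e : (σ ((σ ^ n) p)).1 = (x * ((σ ^ n) p).1.1 * x⁻¹, x * ((σ ^ n) p).1.2 * x⁻¹) := rfl
      rw [e, ih p]
      apply Prod.ext
      · show x * (x ^ n * p.1.1 * (x ^ n)⁻¹) * x⁻¹ = x ^ (n + 1) * p.1.1 * (x ^ (n + 1))⁻¹
        rw [pow_succ']; group
      · show x * (x ^ n * p.1.2 * (x ^ n)⁻¹) * x⁻¹ = x ^ (n + 1) * p.1.2 * (x ^ (n + 1))⁻¹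
        rw [pow_succ']; group
  have hcard : Fintype.card (Equiv.Perm S) = lam.factorial := by
    rw [Fintype.card_perm, Fintype.card_coe, hSc]
  have hone : σ ^ lam.factorial = 1 := by rw [← hcard]; exact pow_card_eq_one
  have habS : (a, b) ∈ S := by
    rw [hS, mem_filter, mem_product]
    exact ⟨⟨ha, hb⟩, hab⟩
  have h1 := hpow lam.factorial ⟨(a, b), habS⟩
  rw [hone] at h1
  have h2 : a = x ^ lam.factorial * a * (x ^ lam.factorial)⁻¹ := congrArg Prod.fst h1
  have h3 : b = x ^ lam.factorial * b * (x ^ lam.factorial)⁻¹ := congrArg Prod.snd h1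
  constructor
  · conv_rhs => rw [h2]
    group
  · conv_rhs => rw [h3]
    group

/-- if a nontrivial central element is a quotient of two elements of `D`, these are central -/
theorem Hyp.center_pair {D : Finset G} {lam : ℕ} (h : Hyp D lam)
    (hbig : (lam : ℝ) * lam + 2 * Real.sqrt D.card < D.card)
    {a b : G} (ha : a ∈ D) (hb : b ∈ D) (hne : a * b⁻¹ ≠ 1) (hc : a * b⁻¹ ∈ Subgroup.center G) :
    a ∈ Subgroup.center G := by
  by_contra hac
  set c := a * b⁻¹ with hcdef
  have hcen := Subgroup.mem_center_iff.mp hc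
  have hbc : b = c⁻¹ * a := by rw [hcdef]; group
  have h1 : (cl a).card ≤ lam := by
    rw [← h.rep c hne]
    refine Finset.card_le_card_of_injOn (fun y => (y, c⁻¹ * y)) ?_ ?_
    · intro y hy
      obtain ⟨g, -, rfl⟩ := Finset.mem_image.mp (Finset.mem_coe.mp hy)
      refine Finset.mem_coe.mpr (Finset.mem_filter.mpr ⟨Finset.mem_product.mpr ⟨h.conj g a ha, ?_⟩, ?_⟩)
      · have e : c⁻¹ * (g * a * g⁻¹) = g * b * g⁻¹ := by
          rw [hbc]
          have h2 : c⁻¹ * g = g * c⁻¹ := by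
            have := hcen g
            calc c⁻¹ * g = c⁻¹ * (g * c) * c⁻¹ := by group
              _ = c⁻¹ * (c * g) * c⁻¹ := by rw [this]
              _ = g * c⁻¹ := by group
          calc c⁻¹ * (g * a * g⁻¹) = (c⁻¹ * g) * a * g⁻¹ := by group
            _ = (g * c⁻¹) * a * g⁻¹ := by rw [h2]
            _ = _ := by group
        show c⁻¹ * (g * a * g⁻¹) ∈ D
        rw [e]
        exact h.conj g b hb
      · show (g * a * g⁻¹) * (c⁻¹ * (g * a * g⁻¹))⁻¹ = c
        group
    · intro p _ q _ hpq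
      simpa using congrArg Prod.fst hpq
  rw [card_cl] at h1
  have h2 := h.class_large a (index_C_of_noncentral hac)
  have h3 : ((C a).index : ℝ) ≤ lam := by exact_mod_cast h1
  have h4 : (lam : ℝ) * (C a).index ≤ lam * lam :=
    mul_le_mul_of_nonneg_left h3 (Nat.cast_nonneg _)
  linarith

/-- the central part of `D` -/
noncomputable def DZ (D : Finset G) : Finset G := D.filter (fun d => d ∈ Subgroup.center G)

theorem Hyp.count_of_le_one {D : Finset G} {lam : ℕ} (h : Hyp D lam) (H : Subgroup G)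
    (hle : ∀ q : G ⧸ H, q ≠ QuotientGroup.mk 1 → cf D H q ≤ 1) :
    cf D H (QuotientGroup.mk 1) ^ 2 + lam = cf D H (QuotientGroup.mk 1) + lam * Nat.card H := by
  have h1 := h.sq_sum H
  have h2 := sum_cf D H
  rw [← Finset.add_sum_erase _ _ (Finset.mem_univ (QuotientGroup.mk 1 : G ⧸ H))] at h1 h2
  have h4 : ∀ q ∈ (univ : Finset (G ⧸ H)).erase (QuotientGroup.mk 1), cf D H q ^ 2 = cf D H q := by
    intro q hq
    have := hle q (Finset.ne_of_mem_erase hq)
    interval_cases (cf D H q) <;> rfl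
  have e : ∑ q ∈ (univ : Finset (G ⧸ H)).erase (QuotientGroup.mk 1), cf D H q ^ 2
      = ∑ q ∈ (univ : Finset (G ⧸ H)).erase (QuotientGroup.mk 1), cf D H q :=
    Finset.sum_congr rfl h4
  rw [e] at h1
  generalize ∑ q ∈ (univ : Finset (G ⧸ H)).erase (QuotientGroup.mk 1), cf D H q = s at h1 h2
  omega

omit [Fintype G] in
theorem cf_le_one (D : Finset G) (H : Subgroup G) (q : G ⧸ H)
    (hh : ∀ x ∈ D, ∀ y ∈ D, (QuotientGroup.mk x : G ⧸ H) = q → (QuotientGroup.mk y : G ⧸ H) = q →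
      x = y) : cf D H q ≤ 1 := by
  unfold cf
  rw [Finset.card_le_one]
  intro x hx y hy
  obtain ⟨hxD, hxq⟩ := Finset.mem_filter.mp hx
  obtain ⟨hyD, hyq⟩ := Finset.mem_filter.mp hy
  exact hh x hxD y hyD hxq hyq

theorem cf_center (D : Finset G) : cf D (Subgroup.center G) (QuotientGroup.mk 1) = (DZ D).card := by
  unfold cf DZ
  congr 1
  ext d
  simp only [mem_filter, and_congr_right_iff]
  intro _
  rw [QuotientGroup.eq]
  simp

/-- the central part of `D` is a difference set of the centre -/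
theorem Hyp.center_count {D : Finset G} {lam : ℕ} (h : Hyp D lam)
    (hbig : (lam : ℝ) * lam + 2 * Real.sqrt D.card < D.card) :
    (DZ D).card ^ 2 + lam = (DZ D).card + lam * Nat.card (Subgroup.center G) := by
  have key := h.count_of_le_one (Subgroup.center G) ?_
  · rwa [cf_center] at key
  intro q hqne
  apply cf_le_one
  intro x hxD y hyD hxq hyq
  by_contra hxy
  have hxy2 : x⁻¹ * y ∈ Subgroup.center G := by
    rw [← QuotientGroup.eq, hxq, hyq]
  have hcen := Subgroup.mem_center_iff.mp hxy2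
  have hc : y * x⁻¹ ∈ Subgroup.center G := by
    have e : y * x⁻¹ = x * (x⁻¹ * y) * x⁻¹ := by group
    rw [e, hcen x]
    have e2 : x⁻¹ * y * x * x⁻¹ = x⁻¹ * y := by group
    rw [e2]; exact hxy2
  have hne : y * x⁻¹ ≠ 1 := by
    intro h0
    apply hxy
    rw [mul_inv_eq_one] at h0
    exact h0.symm
  have hyc := h.center_pair hbig hyD hxD hne hc
  apply hqne
  rw [← hyq, QuotientGroup.eq]
  simpa using hyc

/-- arithmetic of the case of a single noncentral class -/
theorem arith (k kz m c z lam : ℕ) (hk : k = kz + m) (hm : 1 ≤ m) (hc : 2 ≤ c) (hz : 1 ≤ z)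
    (hlam : 1 ≤ lam) (h1 : kz ^ 2 + lam = kz + lam * z)
    (h2 : k ^ 2 + lam = k + lam * (z * m * c)) : m ≤ 2 * kz := by
  subst hk
  have h1' : (kz : ℤ) ^ 2 + lam = kz + lam * z := by exact_mod_cast h1
  have h2' : ((kz : ℤ) + m) ^ 2 + lam = (kz + m) + lam * (z * m * c) := by exact_mod_cast h2
  have h3 : (m : ℤ) ∣ lam * z := by
    refine ⟨1 + lam * z * c - 2 * kz - m, ?_⟩
    linear_combination h2' - h1'
  obtain ⟨a, ha⟩ := h3
  have hm' : (1 : ℤ) ≤ m := by exact_mod_cast hm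
  have hc' : (2 : ℤ) ≤ c := by exact_mod_cast hc
  have hz' : (1 : ℤ) ≤ z := by exact_mod_cast hz
  have hl' : (1 : ℤ) ≤ lam := by exact_mod_cast hlam
  have hapos : 1 ≤ a := by
    have h0 : 0 < (m : ℤ) * a := by rw [← ha]; positivity
    by_contra hcon
    have : a ≤ 0 := by omega
    nlinarith
  have h4 : (m : ℤ) * (a + 2 * kz + m) = m * (1 + a * m * c) := by
    have e : (lam : ℤ) * (z * m * c) = (m * a) * (m * c) := by rw [← ha]; ring
    rw [e] at h2'
    rw [ha] at h1'
    linear_combination h2' - h1'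
  have h5 : a + 2 * kz + m = 1 + a * m * c := mul_left_cancel₀ (by positivity) h4
  have h6 : (m : ℤ) ≤ 2 * kz := by
    have h7 : a * m * 2 ≤ a * m * c := by
      apply mul_le_mul_of_nonneg_left hc' (by positivity)
    have h8 : a * m ≤ a + 2 * kz + m - 1 - a * m := by linarith
    nlinarith [mul_nonneg (by linarith : (0 : ℤ) ≤ a - 1) (by linarith : (0 : ℤ) ≤ (m : ℤ) - 1)]
  exact_mod_cast h6

/-- the number of pairs with quotient in the centralizer -/
theorem Hyp.pairs_in {D : Finset G} {lam : ℕ} (h : Hyp D lam) (d y : G)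
    (hy : ∀ z, d * z = z * d → z ≠ 1 → ∀ a ∈ D, ∀ b ∈ D, a * b⁻¹ = z → y * a = a * y ∧ y * b = b * y) :
    lam * Nat.card (C d) + (D.filter (fun x => y * x = x * y)).card
      ≤ (D.filter (fun x => y * x = x * y)).card ^ 2 + lam := by
  set E : Finset G := D.filter (fun x => y * x = x * y) with hE
  set T : Finset G := univ.filter (fun g => g ∈ C d ∧ g ≠ 1) with hT
  have hTc : T.card + 1 = Nat.card (C d) := by
    have h1 : (univ.filter (fun g => g ∈ C d)).card = Nat.card (C d) := by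
      rw [Nat.card_eq_fintype_card, Fintype.card_subtype]
    rw [← h1]
    have h2 : univ.filter (fun g => g ∈ C d) = insert 1 T := by
      ext g
      simp only [hT, mem_filter, mem_univ, true_and, mem_insert]
      constructor
      · intro hg
        by_cases h0 : g = 1
        · exact Or.inl h0
        · exact Or.inr ⟨hg, h0⟩
      · rintro (rfl | ⟨hg, -⟩)
        · exact (C d).one_mem
        · exact hg
    rw [h2, Finset.card_insert_of_notMem]
    simp [hT]
  have hQ : ((D ×ˢ D).filter (fun p => p.1 * p.2⁻¹ ∈ T)).card = T.card * lam := by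
    rw [Finset.card_eq_sum_card_fiberwise (f := fun p : G × G => p.1 * p.2⁻¹) (t := T)]
    · rw [← smul_eq_mul, ← Finset.sum_const]
      refine Finset.sum_congr rfl fun z hz => ?_
      have hz1 : z ≠ 1 := (Finset.mem_filter.mp hz).2.2
      rw [← h.rep z hz1]
      congr 1
      ext p
      simp only [mem_filter]
      constructor
      · rintro ⟨⟨h1, -⟩, h2⟩; exact ⟨h1, h2⟩
      · rintro ⟨h1, h2⟩
        refine ⟨⟨h1, ?_⟩, h2⟩
        rw [h2]; exact hz
    · intro p hp
      exact Finset.mem_coe.mpr (Finset.mem_filter.mp (Finset.mem_coe.mp hp)).2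
  have hsub : (D ×ˢ D).filter (fun p => p.1 * p.2⁻¹ ∈ T) ⊆ E.offDiag := by
    intro p hp
    obtain ⟨hpD, hpT⟩ := Finset.mem_filter.mp hp
    obtain ⟨hp1, hp2⟩ := Finset.mem_product.mp hpD
    obtain ⟨-, hpc, hp0⟩ := Finset.mem_filter.mp hpT
    have hz : d * (p.1 * p.2⁻¹) = (p.1 * p.2⁻¹) * d := by
      rw [mem_C] at hpc
      exact hpc.symm
    obtain ⟨e1, e2⟩ := hy _ hz hp0 p.1 hp1 p.2 hp2 rfl
    rw [Finset.mem_offDiag]
    refine ⟨Finset.mem_filter.mpr ⟨hp1, e1⟩, Finset.mem_filter.mpr ⟨hp2, e2⟩, ?_⟩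
    intro h0
    apply hp0
    rw [h0]; group
  have hle := Finset.card_le_card hsub
  rw [hQ, Finset.offDiag_card] at hle
  have hEE : E.card ≤ E.card * E.card := Nat.le_mul_self _
  have h3 : T.card * lam + E.card ≤ E.card ^ 2 := by rw [sq]; omega
  rw [← hTc]
  have e : lam * (T.card + 1) = T.card * lam + lam := by ring
  rw [e]
  omega

/-- real inequality behind the power statement -/
theorem real_ineq (l κ : ℝ) (hl : 1 ≤ l) (hκ : 10 * (l + 1) ^ 2 ≤ κ)
    (h : l * (κ ^ 4 - κ ^ 2) ≤ ((κ + l + 1) ^ 2 + l) * (l * κ ^ 2 - κ ^ 2 + 2 * κ)) : False := by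
  set m : ℝ := l + 1 with hm
  have hlm : l = m - 1 := by rw [hm]; ring
  have hm2 : 2 ≤ m := by linarith
  have hκ40 : 40 ≤ κ := by nlinarith
  have hκpos : 0 < κ := by linarith
  rw [hlm] at h
  have e : (m - 1) * (κ ^ 4 - κ ^ 2) - ((κ + (m - 1) + 1) ^ 2 + (m - 1)) *
      ((m - 1) * κ ^ 2 - κ ^ 2 + 2 * κ)
      = κ * (κ ^ 3 - (2 * m ^ 2 - 4 * m + 2) * κ ^ 2 - (m ^ 3 - m ^ 2 + 2 * m + 1) * κ
        - (2 * m ^ 2 + 2 * m - 2)) := by ring
  have h2 : (2 * m ^ 2 - 4 * m + 2) ≤ κ / 5 := by nlinarith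
  have hm3 : m ^ 2 * 10 ≤ κ := by linarith
  have h3 : (m ^ 3 - m ^ 2 + 2 * m + 1) ≤ κ ^ 2 / 50 := by
    have c1 : m ^ 3 ≤ m ^ 4 / 2 := by
      have : 0 ≤ m ^ 3 := by positivity
      nlinarith
    have c2 : m ^ 4 * 100 ≤ κ ^ 2 := by nlinarith [mul_self_nonneg (m ^ 2)]
    have c3 : 2 * m + 1 ≤ m ^ 4 / 2 + m ^ 2 := by nlinarith [sq_nonneg (m - 2), sq_nonneg (m ^ 2)]
    nlinarith
  have h4 : (2 * m ^ 2 + 2 * m - 2) ≤ κ / 2 := by nlinarith
  have p1 : (2 * m ^ 2 - 4 * m + 2) * κ ^ 2 ≤ κ / 5 * κ ^ 2 :=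
    mul_le_mul_of_nonneg_right h2 (by positivity)
  have p2 : (m ^ 3 - m ^ 2 + 2 * m + 1) * κ ≤ κ ^ 2 / 50 * κ :=
    mul_le_mul_of_nonneg_right h3 (by positivity)
  have hpos : 0 < κ ^ 3 - (2 * m ^ 2 - 4 * m + 2) * κ ^ 2 - (m ^ 3 - m ^ 2 + 2 * m + 1) * κ
        - (2 * m ^ 2 + 2 * m - 2) := by
    have : κ ≤ κ ^ 3 / 10 := by nlinarith
    have e2 : κ / 5 * κ ^ 2 = κ ^ 3 / 5 := by ring
    have e3 : κ ^ 2 / 50 * κ = κ ^ 3 / 50 := by ring
    have : 0 < κ ^ 3 := by positivity
    linarith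
  have := mul_pos hκpos hpos
  linarith

omit [Fintype G] in
theorem mem_cl_self (d : G) [Fintype G] : d ∈ cl d :=
  Finset.mem_image.mpr ⟨1, Finset.mem_univ _, by group⟩

theorem Hyp.cl_subset {D : Finset G} {lam : ℕ} (h : Hyp D lam) {d : G} (hd : d ∈ D) : cl d ⊆ D := by
  intro y hy
  obtain ⟨g, -, rfl⟩ := Finset.mem_image.mp hy
  exact h.conj g d hd

theorem cl_noncentral {d y : G} (hd : d ∉ Subgroup.center G) (hy : y ∈ cl d) :
    y ∉ Subgroup.center G := by
  obtain ⟨g, -, rfl⟩ := Finset.mem_image.mp hy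
  intro hc
  apply hd
  have h1 := Subgroup.mem_center_iff.mp hc g
  have h2 : g * d * g⁻¹ = d := by
    calc g * d * g⁻¹ = g⁻¹ * (g * (g * d * g⁻¹)) := by group
      _ = g⁻¹ * ((g * d * g⁻¹) * g) := by rw [h1]
      _ = d := by group
  rwa [h2] at hc

theorem cl_disjoint {d d' : G} (h : d' ∉ cl d) : Disjoint (cl d) (cl d') := by
  rw [Finset.disjoint_left]
  intro y hy hy'
  apply h
  obtain ⟨g, -, hg⟩ := Finset.mem_image.mp hy
  obtain ⟨g', -, hg'⟩ := Finset.mem_image.mp hy'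
  refine Finset.mem_image.mpr ⟨g'⁻¹ * g, Finset.mem_univ _, ?_⟩
  calc g'⁻¹ * g * d * (g'⁻¹ * g)⁻¹ = g'⁻¹ * (g * d * g⁻¹) * g' := by group
    _ = g'⁻¹ * (g' * d' * g'⁻¹) * g' := by rw [hg, hg']
    _ = d' := by group

/-- a fixed power of every element of `D` is central -/
theorem Hyp.pow_center {D : Finset G} {lam : ℕ} (h : Hyp D lam) (hlam : 1 ≤ lam)
    (hκ : 10 * ((lam : ℝ) + 1) ^ 2 ≤ Real.sqrt D.card) {d : G} (hd : d ∈ D) :
    d ^ lam.factorial ∈ Subgroup.center G := by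
  by_contra hy
  set y : G := d ^ lam.factorial with hyd
  set κ : ℝ := Real.sqrt D.card with hκd
  set k : ℝ := (D.card : ℝ) with hk
  set l : ℝ := (lam : ℝ) with hl
  have hk0 : 0 ≤ k := by rw [hk]; exact Nat.cast_nonneg _
  have hκk : κ * κ = k := Real.mul_self_sqrt hk0
  have hl1 : 1 ≤ l := by rw [hl]; exact_mod_cast hlam
  have hκ40 : 40 ≤ κ := by nlinarith
  have hκ2 : 20 * (l + 1) ≤ κ := by nlinarith
  have hdc : d ∉ Subgroup.center G := by
    intro hc
    exact hy (Subgroup.pow_mem _ hc _)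
  have hbig : l * l + 2 * κ < k := by nlinarith
  -- pairs
  have hP := h.pairs_in d y (fun z hz hz1 a ha b hb hab => h.fix_pairs hz hz1 ha hb hab)
  set E : ℕ := (D.filter (fun x => y * x = x * y)).card with hE
  have hEcf : cf D (C y) (QuotientGroup.mk 1) = E := by
    unfold cf
    rw [hE]
    congr 1
    ext x
    simp only [mem_filter, and_congr_right_iff]
    intro _
    rw [QuotientGroup.eq, mul_one, Subgroup.inv_mem_iff, mem_C]
    exact eq_comm
  have h1 := cf_le_of_index h (C y) (QuotientGroup.mk 1)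
  rw [hEcf, ← hk, ← hκd] at h1
  have h2 := h.class_large y (index_C_of_noncentral hy)
  rw [← hk, ← hκd, ← hl] at h2
  have hsy : (0 : ℝ) < (C y).index := by
    exact_mod_cast Nat.pos_of_ne_zero Subgroup.index_ne_zero_of_finite
  have h3 : k / (C y).index ≤ l + 1 := by
    rw [div_le_iff₀ hsy]
    have : l * k ≤ (l + 1) * (k - 2 * κ) := by nlinarith
    have h4 : (l + 1) * (k - 2 * κ) ≤ (l + 1) * (l * (C y).index) :=
      mul_le_mul_of_nonneg_left (by linarith) (by linarith)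
    nlinarith
  have hEle : (E : ℝ) ≤ κ + l + 1 := by linarith
  have hE0 : (0 : ℝ) ≤ E := Nat.cast_nonneg _
  have hP' : l * (Nat.card (C d) : ℝ) ≤ (κ + l + 1) ^ 2 + l := by
    have e1 : l * (Nat.card (C d) : ℝ) + E ≤ (E : ℝ) ^ 2 + l := by
      rw [hl]; exact_mod_cast hP
    have e2 : (E : ℝ) ^ 2 ≤ (κ + l + 1) ^ 2 := pow_le_pow_left₀ hE0 hEle 2
    linarith
  have hm := card_cl d
  set m : ℕ := (C d).index with hmd
  have hm1 : 2 ≤ m := index_C_of_noncentral hdc
  have hGm : Nat.card (C d) * m = Nat.card G := Subgroup.card_mul_index _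
  have hksq := h.ksq
  have hGl : k ^ 2 - k ≤ ((κ + l + 1) ^ 2 + l) * m := by
    have e1 : k ^ 2 + l = k + l * (Nat.card (C d) * m) := by
      rw [← hGm] at hksq
      rw [hk, hl]; exact_mod_cast hksq
    have e2 : l * (Nat.card (C d) : ℝ) * m ≤ ((κ + l + 1) ^ 2 + l) * m :=
      mul_le_mul_of_nonneg_right hP' (Nat.cast_nonneg _)
    nlinarith
  by_cases hex : ∃ d' ∈ D, d' ∉ Subgroup.center G ∧ d' ∉ cl d
  · obtain ⟨d', hd', hdc', hdcl⟩ := hex
    have h5 : (cl d).card + (cl d').card ≤ D.card := by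
      rw [← Finset.card_union_of_disjoint (cl_disjoint hdcl)]
      exact Finset.card_le_card (Finset.union_subset (h.cl_subset hd) (h.cl_subset hd'))
    have h6 := h.class_large d' (index_C_of_noncentral hdc')
    rw [← card_cl, ← hk, ← hκd, ← hl] at h6
    have h7 : (m : ℝ) + (cl d').card ≤ k := by
      rw [hm] at h5
      rw [hk]; exact_mod_cast h5
    have h8 : l * m ≤ l * k - k + 2 * κ := by nlinarith
    have h9 : l * (k ^ 2 - k) ≤ ((κ + l + 1) ^ 2 + l) * (l * k - k + 2 * κ) := by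
      calc l * (k ^ 2 - k) ≤ l * (((κ + l + 1) ^ 2 + l) * m) :=
            mul_le_mul_of_nonneg_left hGl (by linarith)
        _ = ((κ + l + 1) ^ 2 + l) * (l * m) := by ring
        _ ≤ _ := mul_le_mul_of_nonneg_left h8 (by positivity)
    apply real_ineq l κ hl1 hκ
    have e1 : k = κ ^ 2 := by rw [← hκk]; ring
    rw [e1] at h9
    calc l * (κ ^ 4 - κ ^ 2) = l * ((κ ^ 2) ^ 2 - κ ^ 2) := by ring
      _ ≤ _ := h9
  · push Not at hex
    have hDeq : D = DZ D ∪ cl d := by
      ext x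
      constructor
      · intro hx
        by_cases hc : x ∈ Subgroup.center G
        · exact Finset.mem_union_left _ (Finset.mem_filter.mpr ⟨hx, hc⟩)
        · exact Finset.mem_union_right _ (hex x hx hc)
      · intro hx
        rcases Finset.mem_union.mp hx with hx | hx
        · exact (Finset.mem_filter.mp hx).1
        · exact h.cl_subset hd hx
    have hdis : Disjoint (DZ D) (cl d) := by
      rw [Finset.disjoint_left]
      intro x hx hx'
      exact cl_noncentral hdc hx' (Finset.mem_filter.mp hx).2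
    have hcard : D.card = (DZ D).card + m := by
      conv_lhs => rw [hDeq]
      rw [Finset.card_union_of_disjoint hdis, hm]
    have hcc := h.center_count hbig
    have hrel : (Subgroup.center G).relIndex (C d) * m = (Subgroup.center G).index := by
      apply Subgroup.relIndex_mul_index
      intro z hz
      rw [mem_C]
      rw [Subgroup.mem_center_iff] at hz
      exact (hz d).symm
    set c : ℕ := (Subgroup.center G).relIndex (C d) with hc
    have hc2 : 2 ≤ c := by
      have h0 : c ≠ 0 := by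
        intro h0
        rw [h0, zero_mul] at hrel
        exact Subgroup.index_ne_zero_of_finite hrel.symm
      have h1 : c ≠ 1 := by
        intro h1
        rw [hc, Subgroup.relIndex_eq_one] at h1
        exact hdc (h1 (mem_C.mpr rfl))
      omega
    have hv : Nat.card G = Nat.card (Subgroup.center G) * m * c := by
      rw [← Subgroup.card_mul_index (Subgroup.center G), ← hrel]; ring
    have hz1 : 1 ≤ Nat.card (Subgroup.center G) := Nat.card_pos
    have h9 := arith D.card (DZ D).card m c (Nat.card (Subgroup.center G)) lam hcard (by omega) hc2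
      hz1 hlam hcc (by rw [← hv]; exact hksq)
    have h10 := h.center_bound (by rw [← hk, ← hκd]; linarith) hdc
    have h11 : ((DZ D).card : ℝ) ≤ 2 * l + κ := h10
    have h12 : k ≤ 3 * ((DZ D).card : ℝ) := by
      have : D.card ≤ 3 * (DZ D).card := by omega
      rw [hk]; exact_mod_cast this
    have h13 : κ * κ ≤ 4 * κ := by rw [hκk]; linarith
    have h14 : 40 * κ ≤ κ * κ := mul_le_mul_of_nonneg_right hκ40 (by linarith)
    linarith

/-- the exponent of the central quotient is bounded -/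
theorem Hyp.exp_center {D : Finset G} {lam : ℕ} (h : Hyp D lam) (hlam : 1 ≤ lam)
    (hκ : 10 * ((lam : ℝ) + 1) ^ 2 ≤ Real.sqrt D.card) (z : G) :
    z ^ (lam.factorial * lam.factorial) ∈ Subgroup.center G := by
  set y : G := z ^ lam.factorial with hy
  rw [pow_mul, ← hy]
  by_cases h0 : y = 1
  · rw [h0, one_pow]; exact Subgroup.one_mem _
  have hzy : z * y = y * z := by rw [hy]; exact (Commute.refl z).pow_right _
  have hpos : 0 < ((D ×ˢ D).filter (fun p => p.1 * p.2⁻¹ = y)).card := by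
    rw [h.rep y h0]; omega
  obtain ⟨p, hp⟩ := Finset.card_pos.mp hpos
  obtain ⟨hpD, hpy⟩ := Finset.mem_filter.mp hp
  obtain ⟨hp1, hp2⟩ := Finset.mem_product.mp hpD
  obtain ⟨e1, e2⟩ := h.fix_pairs hzy h0 hp1 hp2 hpy
  rw [← hy] at e1 e2
  have c1 := h.pow_center hlam hκ hp1
  have c2 := h.pow_center hlam hκ hp2
  have hcomm : Commute p.1 (p.2⁻¹) := by
    have h3 : p.1 = y * p.2 := by rw [← hpy]; group
    have h4 : Commute y p.2 := e2
    have h5 : Commute (y * p.2) p.2 := h4.mul_left (Commute.refl _)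
    rw [h3]
    exact h5.inv_right
  have h6 : y ^ lam.factorial = p.1 ^ lam.factorial * (p.2 ^ lam.factorial)⁻¹ := by
    rw [← hpy, hcomm.mul_pow, inv_pow]
  rw [h6]
  exact Subgroup.mul_mem _ c1 (Subgroup.inv_mem _ c2)

end Pool.Agent.Helper17.NormalDS
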