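import Mathlib

set_option autoImplicit false

namespace Pool.Agent.Helper17.Pade

open Finset

/-- `A n = 4 * 9 * ... * (5 n - 1)` -/
def A (n : ℕ) : ℚ := ∏ t ∈ range n, (5 * (t : ℚ) + 4)

/-- `B n = 6 * 11 * ... * (5 n + 1)` -/
def B (n : ℕ) : ℚ := ∏ t ∈ range n, (5 * (t : ℚ) + 6)

theorem A_pos (n : ℕ) : 0 < A n := Finset.prod_pos fun t _ => by positivity

theorem B_pos (n : ℕ) : 0 < B n := Finset.prod_pos fun t _ => by positivity

/-- the coefficients -/
def u (i m : ℕ) : ℚ :=
  5 ^ (i + m) * A (i + m) * B (i + m) / (i.factorial * m.factorial * A i * B m)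

theorem prod_erase_range (f : ℕ → ℚ) (i m : ℕ) :
    ∏ j ∈ (range (i + m + 1)).erase i, f j
      = (∏ j ∈ range i, f j) * ∏ t ∈ range m, f (i + 1 + t) := by
  induction m with
  | zero =>
    rw [add_zero, Finset.range_add_one, Finset.erase_insert (by simp)]
    simp
  | succ m ih =>
    rw [show i + (m + 1) + 1 = (i + m + 1) + 1 by ring, Finset.range_add_one,
      Finset.erase_insert_of_ne (by omega), Finset.prod_insert, ih, Finset.prod_range_succ]
    · rw [show i + m + 1 = i + 1 + m by ring]; ring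
    · simp

theorem F1 (i m : ℕ) : ∏ j ∈ (range (i + m + 1)).erase i, (5 * (i : ℚ) - 5 * (j : ℚ))
      = 5 ^ (i + m) * (-1) ^ m * (i.factorial * m.factorial) := by
  rw [prod_erase_range (fun j => 5 * (i : ℚ) - 5 * (j : ℚ))]
  have h1 : ∏ j ∈ range i, (5 * (i : ℚ) - 5 * (j : ℚ)) = 5 ^ i * i.factorial := by
    rw [← Finset.prod_range_reflect]
    have : ∀ j ∈ range i, (5 * (i : ℚ) - 5 * ((i - 1 - j : ℕ) : ℚ)) = 5 * ((j : ℚ) + 1) := by
      intro j hj
      have hj' : j < i := Finset.mem_range.mp hj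
      have : ((i - 1 - j : ℕ) : ℚ) = i - 1 - j := by
        rw [Nat.sub_sub, Nat.cast_sub (by omega)]
        push_cast; ring
      rw [this]; ring
    rw [Finset.prod_congr rfl this, Finset.prod_mul_distrib, Finset.prod_const, Finset.card_range]
    congr 1
    rw [← Finset.prod_range_add_one_eq_factorial]
    push_cast
    rfl
  have h2 : ∏ t ∈ range m, (5 * (i : ℚ) - 5 * ((i + 1 + t : ℕ) : ℚ))
      = 5 ^ m * (-1) ^ m * m.factorial := by
    have : ∀ t ∈ range m, (5 * (i : ℚ) - 5 * ((i + 1 + t : ℕ) : ℚ)) = (5 * (-1)) * ((t : ℚ) + 1) := by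
      intro t _; push_cast; ring
    rw [Finset.prod_congr rfl this, Finset.prod_mul_distrib, Finset.prod_const, Finset.card_range,
      mul_pow]
    congr 1
    rw [← Finset.prod_range_add_one_eq_factorial]
    push_cast
    rfl
  rw [h1, h2, pow_add]; ring

theorem F2 (i m : ℕ) : ∏ j ∈ range (i + m + 1), (5 * (i : ℚ) - (5 * (j : ℚ) + 1))
      = - ((-1) ^ m * (A i * B m)) := by
  rw [show i + m + 1 = (i + 1) + m by ring, Finset.prod_range_add]
  have h1 : ∏ j ∈ range (i + 1), (5 * (i : ℚ) - (5 * (j : ℚ) + 1)) = - A i := by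
    rw [← Finset.prod_range_reflect]
    have : ∀ j ∈ range (i + 1), (5 * (i : ℚ) - (5 * ((i + 1 - 1 - j : ℕ) : ℚ) + 1))
        = 5 * (j : ℚ) - 1 := by
      intro j hj
      have hj' : j < i + 1 := Finset.mem_range.mp hj
      have : ((i + 1 - 1 - j : ℕ) : ℚ) = i - j := by
        rw [Nat.add_sub_cancel, Nat.cast_sub (by omega)]
      rw [this]; ring
    rw [Finset.prod_congr rfl this, Finset.prod_range_succ']
    unfold A
    have h : ∀ t ∈ range i, (5 * (((t + 1 : ℕ) : ℚ)) - 1) = 5 * (t : ℚ) + 4 := by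
      intro t _; push_cast; ring
    rw [Finset.prod_congr rfl h]
    simp
  have h2 : ∏ t ∈ range m, (5 * (i : ℚ) - (5 * ((i + 1 + t : ℕ) : ℚ) + 1)) = (-1) ^ m * B m := by
    have : ∀ t ∈ range m, (5 * (i : ℚ) - (5 * ((i + 1 + t : ℕ) : ℚ) + 1)) = (-1) * (5 * (t : ℚ) + 6) := by
      intro t _; push_cast; ring
    rw [Finset.prod_congr rfl this, Finset.prod_mul_distrib, Finset.prod_const, Finset.card_range]
    rfl
  rw [h1, h2]; ring

theorem F3 (i m : ℕ) : ∏ j ∈ range (i + m + 1), (5 * (i : ℚ) + 1 - 5 * (j : ℚ))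
      = (-1) ^ m * (B i * A m) := by
  rw [show i + m + 1 = (i + 1) + m by ring, Finset.prod_range_add]
  have h1 : ∏ j ∈ range (i + 1), (5 * (i : ℚ) + 1 - 5 * (j : ℚ)) = B i := by
    rw [← Finset.prod_range_reflect]
    have : ∀ j ∈ range (i + 1), (5 * (i : ℚ) + 1 - 5 * ((i + 1 - 1 - j : ℕ) : ℚ))
        = 5 * (j : ℚ) + 1 := by
      intro j hj
      have hj' : j < i + 1 := Finset.mem_range.mp hj
      have : ((i + 1 - 1 - j : ℕ) : ℚ) = i - j := by
        rw [Nat.add_sub_cancel, Nat.cast_sub (by omega)]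
      rw [this]; ring
    rw [Finset.prod_congr rfl this, Finset.prod_range_succ']
    unfold B
    have h : ∀ t ∈ range i, (5 * (((t + 1 : ℕ) : ℚ)) + 1) = 5 * (t : ℚ) + 6 := by
      intro t _; push_cast; ring
    rw [Finset.prod_congr rfl h]
    simp
  have h2 : ∏ t ∈ range m, (5 * (i : ℚ) + 1 - 5 * ((i + 1 + t : ℕ) : ℚ)) = (-1) ^ m * A m := by
    have : ∀ t ∈ range m, (5 * (i : ℚ) + 1 - 5 * ((i + 1 + t : ℕ) : ℚ)) = (-1) * (5 * (t : ℚ) + 4) := by
      intro t _; push_cast; ring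
    rw [Finset.prod_congr rfl this, Finset.prod_mul_distrib, Finset.prod_const, Finset.card_range]
    rfl
  rw [h1, h2]; ring

/-- the nodes -/
def node : ℕ ⊕ ℕ → ℚ
  | Sum.inl i => 5 * (i : ℚ)
  | Sum.inr i => 5 * (i : ℚ) + 1

theorem node_inj : Function.Injective node := by
  rintro (i | i) (j | j) h
  · have : (5 * (i : ℚ)) = 5 * j := h
    have : i = j := by exact_mod_cast (mul_left_cancel₀ (by norm_num) this)
    rw [this]
  · exfalso
    have : (5 * (i : ℚ)) = 5 * j + 1 := h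
    have : 5 * i = 5 * j + 1 := by exact_mod_cast this
    omega
  · exfalso
    have : (5 * (i : ℚ)) + 1 = 5 * j := h
    have : 5 * i + 1 = 5 * j := by exact_mod_cast this
    omega
  · have : (5 * (i : ℚ)) + 1 = 5 * j + 1 := h
    have : i = j := by
      have h2 : 5 * i + 1 = 5 * j + 1 := by exact_mod_cast this
      omega
    rw [this]

theorem erase_inl (S T : Finset ℕ) (i : ℕ) :
    (S.disjSum T).erase (Sum.inl i) = (S.erase i).disjSum T := by
  ext (x | x) <;> simp

theorem erase_inr (S T : Finset ℕ) (i : ℕ) :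
    (S.disjSum T).erase (Sum.inr i) = S.disjSum (T.erase i) := by
  ext (x | x) <;> simp

open Polynomial in
theorem lagrange_id (n : ℕ) (P : ℚ[X]) (hP : P.natDegree ≤ 2 * n) :
    ∑ i ∈ range (n + 1), (u i (n - i) * P.eval (5 * (i : ℚ))
      - u (n - i) i * P.eval (5 * (i : ℚ) + 1)) = 0 := by
  set S : Finset (ℕ ⊕ ℕ) := (range (n + 1)).disjSum (range (n + 1)) with hS
  have hcard : S.card = 2 * n + 2 := by
    rw [hS, Finset.card_disjSum, Finset.card_range]; ring
  have hdeg : P.degree < S.card := by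
    refine lt_of_le_of_lt Polynomial.degree_le_natDegree ?_
    rw [hcard]
    exact_mod_cast (by omega : P.natDegree < 2 * n + 2)
  have h0 := Lagrange.coeff_eq_sum (s := S) (v := node) (node_inj.injOn) hdeg
  have hc : P.coeff (S.card - 1) = 0 := by
    apply Polynomial.coeff_eq_zero_of_natDegree_lt
    rw [hcard]; omega
  rw [hc, hS, Finset.sum_disjSum] at h0
  have hA := fun k => (A_pos k).ne'
  have hB := fun k => (B_pos k).ne'
  have h1 : ∀ i ∈ range (n + 1), P.eval (node (Sum.inl i)) /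
      ∏ j ∈ ((range (n + 1)).disjSum (range (n + 1))).erase (Sum.inl i), (node (Sum.inl i) - node j)
      = - (P.eval (5 * (i : ℚ)) / (5 ^ n * (i.factorial * (n - i).factorial * A i * B (n - i)))) := by
    intro i hi
    have hi' : i < n + 1 := Finset.mem_range.mp hi
    obtain ⟨m, rfl⟩ : ∃ m, n = i + m := ⟨n - i, by omega⟩
    rw [erase_inl, Finset.prod_disjSum]
    have e1 : ∏ j ∈ (range (i + m + 1)).erase i, (node (Sum.inl i) - node (Sum.inl j))
        = 5 ^ (i + m) * (-1) ^ m * (i.factorial * m.factorial) := F1 i m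
    have e2 : ∏ j ∈ range (i + m + 1), (node (Sum.inl i) - node (Sum.inr j))
        = - ((-1) ^ m * (A i * B m)) := F2 i m
    rw [e1, e2, Nat.add_sub_cancel_left]
    have e3 : 5 ^ (i + m) * (-1 : ℚ) ^ m * (i.factorial * m.factorial) * -((-1) ^ m * (A i * B m))
        = - (5 ^ (i + m) * (i.factorial * m.factorial * A i * B m)) := by
      have : (-1 : ℚ) ^ m * (-1) ^ m = 1 := by rw [← mul_pow]; norm_num
      linear_combination (- (5 ^ (i + m) * (i.factorial * m.factorial * A i * B m))) * this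
    rw [e3, div_neg]
    rfl
  have h2 : ∀ i ∈ range (n + 1), P.eval (node (Sum.inr i)) /
      ∏ j ∈ ((range (n + 1)).disjSum (range (n + 1))).erase (Sum.inr i), (node (Sum.inr i) - node j)
      = P.eval (5 * (i : ℚ) + 1) / (5 ^ n * (i.factorial * (n - i).factorial * B i * A (n - i))) := by
    intro i hi
    have hi' : i < n + 1 := Finset.mem_range.mp hi
    obtain ⟨m, rfl⟩ : ∃ m, n = i + m := ⟨n - i, by omega⟩
    rw [erase_inr, Finset.prod_disjSum]
    have e1 : ∏ j ∈ (range (i + m + 1)).erase i, (node (Sum.inr i) - node (Sum.inr j))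
        = 5 ^ (i + m) * (-1) ^ m * (i.factorial * m.factorial) := by
      rw [← F1 i m]
      refine Finset.prod_congr rfl fun j _ => ?_
      show (5 * (i : ℚ) + 1) - (5 * (j : ℚ) + 1) = _
      ring
    have e2 : ∏ j ∈ range (i + m + 1), (node (Sum.inr i) - node (Sum.inl j))
        = (-1) ^ m * (B i * A m) := F3 i m
    rw [e1, e2, Nat.add_sub_cancel_left]
    have e3 : ((-1 : ℚ) ^ m * (B i * A m)) * (5 ^ (i + m) * (-1 : ℚ) ^ m * (i.factorial * m.factorial))
        = 5 ^ (i + m) * (i.factorial * m.factorial * B i * A m) := by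
      have : (-1 : ℚ) ^ m * (-1) ^ m = 1 := by rw [← mul_pow]; norm_num
      linear_combination (5 ^ (i + m) * (i.factorial * m.factorial * B i * A m)) * this
    rw [e3]
    rfl
  rw [Finset.sum_congr rfl h1, Finset.sum_congr rfl h2, ← Finset.sum_add_distrib] at h0
  have h3 : ∀ i ∈ range (n + 1), (u i (n - i) * P.eval (5 * (i : ℚ))
      - u (n - i) i * P.eval (5 * (i : ℚ) + 1)) = (- (5 ^ (2 * n) * A n * B n)) *
      (- (P.eval (5 * (i : ℚ)) / (5 ^ n * (i.factorial * (n - i).factorial * A i * B (n - i))))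
       + P.eval (5 * (i : ℚ) + 1) / (5 ^ n * (i.factorial * (n - i).factorial * B i * A (n - i)))) := by
    intro i hi
    have hi' : i < n + 1 := Finset.mem_range.mp hi
    obtain ⟨m, rfl⟩ : ∃ m, n = i + m := ⟨n - i, by omega⟩
    rw [Nat.add_sub_cancel_left]
    unfold u
    rw [show m + i = i + m by ring]
    have f1 : (i.factorial : ℚ) ≠ 0 := by positivity
    have f2 : (m.factorial : ℚ) ≠ 0 := by positivity
    have g1 := hA i
    have g2 := hA m
    have g3 := hB i
    have g4 := hB m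
    field_simp
    ring
  rw [Finset.sum_congr rfl h3, ← Finset.mul_sum, ← h0, mul_zero]


theorem fact_dvd (c k : ℕ) : k.factorial ∣ 5 ^ k * ∏ j ∈ range k, (c + 5 * j) := by
  have : Fact (Nat.Prime 5) := ⟨by norm_num⟩
  obtain ⟨e, m, hm, hk⟩ := Nat.exists_eq_pow_mul_and_not_dvd (Nat.factorial_ne_zero k) 5 (by norm_num)
  have he : e ≤ k := by
    have h1 := padicValNat_factorial_le (p := 5) k
    have h2 : padicValNat 5 k.factorial = e := by
      rw [hk]
      have hm0 : m ≠ 0 := by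
        rintro rfl
        simp at hm
      rw [padicValNat.mul (by positivity) hm0, padicValNat.prime_pow,
        padicValNat.eq_zero_of_not_dvd hm, add_zero]
    omega
  have hcop : Nat.Coprime 5 m := (Nat.Prime.coprime_iff_not_dvd (by norm_num)).mpr hm
  have hm0 : m ≠ 0 := by
    rintro rfl
    simp at hm
  have : NeZero m := ⟨hm0⟩
  have hmd : m ∣ ∏ j ∈ range k, (c + 5 * j) := by
    rw [← ZMod.natCast_eq_zero_iff]
    set w : ℕ := ((c : ZMod m) * (5 : ZMod m)⁻¹).val with hw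
    have h5 : (5 : ZMod m) * (5 : ZMod m)⁻¹ = 1 := by
      have := ZMod.coe_mul_inv_eq_one (n := m) 5 hcop
      exact_mod_cast this
    have hwc : (w : ZMod m) = (c : ZMod m) * (5 : ZMod m)⁻¹ := by
      rw [hw, ZMod.natCast_zmod_val]
    have h1 : ((∏ j ∈ range k, (c + 5 * j) : ℕ) : ZMod m)
        = 5 ^ k * ((∏ j ∈ range k, (w + j) : ℕ) : ZMod m) := by
      push_cast
      rw [← Finset.card_range k, ← Finset.prod_const, Finset.card_range, ← Finset.prod_mul_distrib]
      refine Finset.prod_congr rfl fun j _ => ?_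
      rw [hwc]
      linear_combination (-(c : ZMod m)) * h5
    rw [h1]
    have h2 : m ∣ ∏ j ∈ range k, (w + j) := by
      have h3 : m ∣ k.factorial := ⟨5 ^ e, by rw [hk]; ring⟩
      refine h3.trans ?_
      have h4 : ∏ j ∈ range k, (w + j) = w.ascFactorial k := by
        rw [Nat.ascFactorial_eq_prod_range]
      rw [h4]
      exact Nat.factorial_dvd_ascFactorial w k
    rw [(ZMod.natCast_eq_zero_iff _ _).mpr h2, mul_zero]
  rw [hk]
  exact Nat.mul_dvd_mul (pow_dvd_pow 5 he) hmd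

theorem A_add (i m : ℕ) : A (i + m) = A i * ∏ t ∈ range m, (5 * ((i + t : ℕ) : ℚ) + 4) := by
  unfold A
  rw [Finset.prod_range_add]

theorem B_add (i m : ℕ) : B (i + m) = B m * ∏ t ∈ range i, (5 * ((m + t : ℕ) : ℚ) + 6) := by
  unfold B
  rw [add_comm, Finset.prod_range_add]

theorem u_eq (i m : ℕ) : u i m =
    (5 ^ m * (∏ t ∈ range m, (5 * ((i + t : ℕ) : ℚ) + 4)) / m.factorial) *
    (5 ^ i * (∏ t ∈ range i, (5 * ((m + t : ℕ) : ℚ) + 6)) / i.factorial) := by
  unfold u
  have h1 := (A_pos i).ne'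
  have h2 := (B_pos m).ne'
  have f1 : (i.factorial : ℚ) ≠ 0 := by positivity
  have f2 : (m.factorial : ℚ) ≠ 0 := by positivity
  rw [A_add, B_add]
  field_simp
  ring

theorem u_int (i m : ℕ) : ∃ z : ℕ, (z : ℚ) = u i m := by
  obtain ⟨x, hx⟩ := fact_dvd (5 * i + 4) m
  obtain ⟨y, hy⟩ := fact_dvd (5 * m + 6) i
  refine ⟨x * y, ?_⟩
  have f1 : (i.factorial : ℚ) ≠ 0 := by positivity
  have f2 : (m.factorial : ℚ) ≠ 0 := by positivity
  have h1 : (5 ^ m * (∏ t ∈ range m, (5 * ((i + t : ℕ) : ℚ) + 4)) / m.factorial) = x := by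
    rw [div_eq_iff f2]
    have : (((5 ^ m * ∏ j ∈ range m, (5 * i + 4 + 5 * j) : ℕ)) : ℚ) = ((m.factorial * x : ℕ) : ℚ) := by
      rw [hx]
    push_cast at this
    rw [mul_comm (x : ℚ), ← this]
    congr 1
    refine Finset.prod_congr rfl fun t _ => ?_
    push_cast; ring
  have h2 : (5 ^ i * (∏ t ∈ range i, (5 * ((m + t : ℕ) : ℚ) + 6)) / i.factorial) = y := by
    rw [div_eq_iff f1]
    have : (((5 ^ i * ∏ j ∈ range i, (5 * m + 6 + 5 * j) : ℕ)) : ℚ) = ((i.factorial * y : ℕ) : ℚ) := by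
      rw [hy]
    push_cast at this
    rw [mul_comm (y : ℚ), ← this]
    congr 1
    refine Finset.prod_congr rfl fun t _ => ?_
    push_cast; ring
  rw [u_eq, h1, h2]
  push_cast; rfl

theorem u_pos (i m : ℕ) : 0 < u i m := by
  unfold u
  have h1 := A_pos
  have h2 := B_pos
  have := h1 i; have := h1 (i + m); have := h2 m; have := h2 (i + m)
  positivity

theorem u_le (i m : ℕ) : u i m ≤ 30 ^ (i + m) * ((i + m).choose i : ℚ) ^ 2 := by
  rw [u_eq]
  have f1 : (0 : ℚ) < (i.factorial : ℚ) := by positivity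
  have f2 : (0 : ℚ) < (m.factorial : ℚ) := by positivity
  have hch : (((i + m).choose i : ℕ) : ℚ) * i.factorial * m.factorial = (i + m).factorial := by
    have := Nat.add_choose_mul_factorial_mul_factorial i m
    rw [← Nat.choose_symm_add] at this
    exact_mod_cast this
  have hasc : ∀ a b : ℕ, (∏ t ∈ range b, (((a + t : ℕ) : ℚ) + 1)) * a.factorial = (a + b).factorial := by
    intro a b
    have := Nat.factorial_mul_ascFactorial a b
    rw [Nat.ascFactorial_eq_prod_range] at this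
    rw [← this]
    push_cast
    rw [mul_comm]
    congr 1
    refine Finset.prod_congr rfl fun t _ => ?_
    ring
  have h1 : (5 ^ m * (∏ t ∈ range m, (5 * ((i + t : ℕ) : ℚ) + 4)) / m.factorial)
      ≤ 25 ^ m * (i + m).choose i := by
    rw [div_le_iff₀ f2]
    have e1 : ∏ t ∈ range m, (5 * ((i + t : ℕ) : ℚ) + 4) ≤ ∏ t ∈ range m, (5 * (((i + t : ℕ) : ℚ) + 1)) := by
      refine Finset.prod_le_prod (fun t _ => by positivity) (fun t _ => by linarith)
    rw [Finset.prod_mul_distrib, Finset.prod_const, Finset.card_range] at e1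
    have e2 : (∏ t ∈ range m, (((i + t : ℕ) : ℚ) + 1)) = (i + m).choose i * m.factorial := by
      have := hasc i m
      rw [← hch] at this
      have h3 : ((∏ t ∈ range m, (((i + t : ℕ) : ℚ) + 1))) * i.factorial
          = ((i + m).choose i * m.factorial) * i.factorial := by rw [this]; ring
      exact mul_right_cancel₀ f1.ne' h3
    rw [e2] at e1
    calc (5 : ℚ) ^ m * (∏ t ∈ range m, (5 * ((i + t : ℕ) : ℚ) + 4))
        ≤ 5 ^ m * (5 ^ m * ((i + m).choose i * m.factorial)) := by gcongr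
      _ = 25 ^ m * (i + m).choose i * m.factorial := by
          rw [show (25 : ℚ) = 5 * 5 by norm_num, mul_pow]; ring
  have h2 : (5 ^ i * (∏ t ∈ range i, (5 * ((m + t : ℕ) : ℚ) + 6)) / i.factorial)
      ≤ 30 ^ i * (i + m).choose i := by
    rw [div_le_iff₀ f1]
    have e1 : ∏ t ∈ range i, (5 * ((m + t : ℕ) : ℚ) + 6) ≤ ∏ t ∈ range i, (6 * (((m + t : ℕ) : ℚ) + 1)) := by
      refine Finset.prod_le_prod (fun t _ => by positivity) (fun t _ => ?_)
      have : (0 : ℚ) ≤ ((m + t : ℕ) : ℚ) := by positivity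
      linarith
    rw [Finset.prod_mul_distrib, Finset.prod_const, Finset.card_range] at e1
    have e2 : (∏ t ∈ range i, (((m + t : ℕ) : ℚ) + 1)) = (i + m).choose i * i.factorial := by
      have := hasc m i
      rw [add_comm m i, ← hch] at this
      exact mul_right_cancel₀ f2.ne' this
    rw [e2] at e1
    calc (5 : ℚ) ^ i * (∏ t ∈ range i, (5 * ((m + t : ℕ) : ℚ) + 6))
        ≤ 5 ^ i * (6 ^ i * ((i + m).choose i * i.factorial)) := by gcongr
      _ = 30 ^ i * (i + m).choose i * i.factorial := by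
          rw [show (30 : ℚ) = 5 * 6 by norm_num, mul_pow]; ring
  have h3 : (0 : ℚ) ≤ (5 ^ i * (∏ t ∈ range i, (5 * ((m + t : ℕ) : ℚ) + 6)) / i.factorial) := by
    positivity
  calc _ ≤ (25 ^ m * ((i + m).choose i : ℚ)) * (30 ^ i * (i + m).choose i) :=
        mul_le_mul h1 h2 h3 (by positivity)
    _ = (25 ^ m * 30 ^ i) * ((i + m).choose i : ℚ) ^ 2 := by ring
    _ ≤ (30 ^ m * 30 ^ i) * ((i + m).choose i : ℚ) ^ 2 := by gcongr; norm_num
    _ = _ := by rw [pow_add]; ring

theorem sum_u_le (n : ℕ) : ∑ i ∈ range (n + 1), u i (n - i) ≤ 120 ^ n := by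
  have h1 : ∀ i ∈ range (n + 1), u i (n - i) ≤ 30 ^ n * (n.choose i : ℚ) ^ 2 := by
    intro i hi
    have hi' : i < n + 1 := Finset.mem_range.mp hi
    have := u_le i (n - i)
    rwa [show i + (n - i) = n by omega] at this
  refine (Finset.sum_le_sum h1).trans ?_
  rw [← Finset.mul_sum]
  have h2 : ∑ i ∈ range (n + 1), (n.choose i : ℚ) ^ 2 ≤ (∑ i ∈ range (n + 1), (n.choose i : ℚ)) ^ 2 :=
    Finset.sum_sq_le_sq_sum_of_nonneg (fun i _ => by positivity)
  have h3 : (∑ i ∈ range (n + 1), (n.choose i : ℚ)) = 2 ^ n := by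
    exact_mod_cast Nat.sum_range_choose n
  rw [h3] at h2
  calc (30 : ℚ) ^ n * ∑ i ∈ range (n + 1), (n.choose i : ℚ) ^ 2 ≤ 30 ^ n * (2 ^ n) ^ 2 := by gcongr
    _ = 120 ^ n := by
        rw [← pow_mul, mul_comm n 2, pow_mul, ← mul_pow]; norm_num

theorem sum_u_le' (n : ℕ) : ∑ i ∈ range (n + 1), u (n - i) i ≤ 120 ^ n := by
  refine le_trans (le_of_eq ?_) (sum_u_le n)
  rw [← Finset.sum_range_reflect]
  refine Finset.sum_congr rfl fun i hi => ?_
  have hi' : i < n + 1 := Finset.mem_range.mp hi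
  congr 1
  omega

end Pool.Agent.Helper17.Pade
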