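import Mathlib
import Pool.Agent.Helper17.PadeBin

set_option autoImplicit false

namespace Pool.Agent.Helper17.Pade

open Finset Polynomial

noncomputable def U (n : ℕ) : ℚ[X] := ∑ i ∈ range (n + 1), C (u i (n - i)) * X ^ i

noncomputable def V (n : ℕ) : ℚ[X] := ∑ i ∈ range (n + 1), C (u (n - i) i) * X ^ i

noncomputable def W (n : ℕ) : ℚ[X] := (U n).comp (X ^ 5) - X * (V n).comp (X ^ 5)

theorem W_eq (n : ℕ) : W n = ∑ i ∈ range (n + 1), (C (u i (n - i)) * X ^ (5 * i)
    - C (u (n - i) i) * X ^ (5 * i + 1)) := by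
  unfold W U V
  rw [Polynomial.sum_comp, Polynomial.sum_comp, Finset.mul_sum, ← Finset.sum_sub_distrib]
  refine Finset.sum_congr rfl fun i _ => ?_
  simp only [mul_comp, C_comp, pow_comp, X_comp]
  ring

noncomputable def T (n : ℕ) : ℚ[X] := (W n).comp (X + C 1)

theorem T_coeff (n r : ℕ) : (T n).coeff r = ∑ i ∈ range (n + 1),
    (u i (n - i) * ((5 * i).choose r : ℚ) - u (n - i) i * ((5 * i + 1).choose r : ℚ)) := by
  unfold T
  rw [W_eq, Polynomial.sum_comp, Polynomial.finsetSum_coeff]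
  refine Finset.sum_congr rfl fun i _ => ?_
  simp only [sub_comp, mul_comp, C_comp, pow_comp, X_comp, coeff_sub, coeff_C_mul, C_1,
    coeff_X_add_one_pow]

theorem T_coeff_zero (n r : ℕ) (hr : r ≤ 2 * n) : (T n).coeff r = 0 := by
  rw [T_coeff]
  have h := lagrange_id n (descPochhammer ℚ r) (by rw [descPochhammer_natDegree]; exact hr)
  have hf : (r.factorial : ℚ) ≠ 0 := by positivity
  have h1 : ∀ i ∈ range (n + 1), (u i (n - i) * (descPochhammer ℚ r).eval (5 * (i : ℚ))
      - u (n - i) i * (descPochhammer ℚ r).eval (5 * (i : ℚ) + 1))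
      = r.factorial * (u i (n - i) * ((5 * i).choose r : ℚ)
        - u (n - i) i * ((5 * i + 1).choose r : ℚ)) := by
    intro i _
    have e1 : (descPochhammer ℚ r).eval (5 * (i : ℚ)) = r.factorial * ((5 * i).choose r : ℚ) := by
      have := descPochhammer_eval_eq_descFactorial ℚ (5 * i) r
      push_cast at this
      rw [this, Nat.descFactorial_eq_factorial_mul_choose]
      push_cast; rfl
    have e2 : (descPochhammer ℚ r).eval (5 * (i : ℚ) + 1)
        = r.factorial * ((5 * i + 1).choose r : ℚ) := by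
      have := descPochhammer_eval_eq_descFactorial ℚ (5 * i + 1) r
      push_cast at this
      rw [this, Nat.descFactorial_eq_factorial_mul_choose]
      push_cast; rfl
    rw [e1, e2]; ring
  rw [Finset.sum_congr rfl h1, ← Finset.mul_sum] at h
  rcases mul_eq_zero.mp h with h | h
  · exact absurd h hf
  · exact h

theorem T_coeff_large (n r : ℕ) (hr : 5 * n + 1 < r) : (T n).coeff r = 0 := by
  rw [T_coeff]
  refine Finset.sum_eq_zero fun i hi => ?_
  have hi' : i < n + 1 := Finset.mem_range.mp hi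
  rw [Nat.choose_eq_zero_of_lt (by omega), Nat.choose_eq_zero_of_lt (by omega)]
  simp

theorem sum_choose (e N : ℕ) (h : e < N) : ∑ r ∈ range N, (e.choose r : ℚ) = 2 ^ e := by
  have h1 : ∑ r ∈ range (e + 1), (e.choose r : ℚ) = 2 ^ e := by
    exact_mod_cast Nat.sum_range_choose e
  rw [← h1]
  symm
  apply Finset.sum_subset
  · intro r hr
    rw [Finset.mem_range] at hr ⊢
    omega
  · intro r _ hr
    rw [Finset.mem_range, not_lt] at hr
    rw [Nat.choose_eq_zero_of_lt (by omega)]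
    simp

theorem T_abs_sum (n : ℕ) : ∑ r ∈ range (5 * n + 2), |(T n).coeff r| ≤ 3 * 3840 ^ n := by
  have h1 : ∀ r ∈ range (5 * n + 2), |(T n).coeff r| ≤ ∑ i ∈ range (n + 1),
      (u i (n - i) * ((5 * i).choose r : ℚ) + u (n - i) i * ((5 * i + 1).choose r : ℚ)) := by
    intro r _
    rw [T_coeff]
    refine (Finset.abs_sum_le_sum_abs _ _).trans (Finset.sum_le_sum fun i _ => ?_)
    have p1 := (u_pos i (n - i)).le
    have p2 := (u_pos (n - i) i).le
    refine (abs_sub _ _).trans (le_of_eq ?_)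
    rw [abs_of_nonneg (by positivity), abs_of_nonneg (by positivity)]
  refine (Finset.sum_le_sum h1).trans ?_
  rw [Finset.sum_comm]
  have h2 : ∀ i ∈ range (n + 1), ∑ r ∈ range (5 * n + 2),
      (u i (n - i) * ((5 * i).choose r : ℚ) + u (n - i) i * ((5 * i + 1).choose r : ℚ))
      ≤ 32 ^ n * (u i (n - i) + 2 * u (n - i) i) := by
    intro i hi
    have hi' : i < n + 1 := Finset.mem_range.mp hi
    have p1 := (u_pos i (n - i)).le
    have p2 := (u_pos (n - i) i).le
    rw [Finset.sum_add_distrib, ← Finset.mul_sum, ← Finset.mul_sum, sum_choose _ _ (by omega),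
      sum_choose _ _ (by omega)]
    have h3 : (2 : ℚ) ^ (5 * i) ≤ 32 ^ n := by
      rw [pow_mul]
      norm_num
      exact pow_le_pow_right₀ (by norm_num) (by omega)
    have h4 : (2 : ℚ) ^ (5 * i + 1) ≤ 2 * 32 ^ n := by
      rw [pow_succ]; linarith
    nlinarith [mul_le_mul_of_nonneg_left h3 p1, mul_le_mul_of_nonneg_left h4 p2]
  refine (Finset.sum_le_sum h2).trans ?_
  rw [← Finset.mul_sum, Finset.sum_add_distrib, ← Finset.mul_sum]
  have h3 := sum_u_le n
  have h4 := sum_u_le' n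
  calc (32 : ℚ) ^ n * (∑ i ∈ range (n + 1), u i (n - i) + 2 * ∑ i ∈ range (n + 1), u (n - i) i)
      ≤ 32 ^ n * (120 ^ n + 2 * 120 ^ n) := by gcongr
    _ = 3 * 3840 ^ n := by
      rw [show (3840 : ℚ) = 32 * 120 by norm_num, mul_pow]; ring

theorem aeval_W (n : ℕ) (x : ℂ) : aeval x (W n) = ∑ r ∈ range (5 * n + 2),
    (((T n).coeff r : ℚ) : ℂ) * (x - 1) ^ r := by
  have h1 : aeval x (W n) = aeval (x - 1) (T n) := by
    unfold T
    rw [Polynomial.aeval_comp]
    congr 1
    simp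
  rw [h1, Polynomial.aeval_eq_sum_range' (n := 5 * n + 2)]
  · refine Finset.sum_congr rfl fun r _ => ?_
    rw [Algebra.smul_def]
    rfl
  · have h2 : (T n).natDegree ≤ 5 * n + 1 := by
      rw [Polynomial.natDegree_le_iff_coeff_eq_zero]
      intro r hr
      exact T_coeff_large n r hr
    omega

/-- quality of approximation -/
theorem W_bound (n : ℕ) (x : ℂ) (hx : ‖x - 1‖ ≤ 1) :
    ‖aeval x (W n)‖ ≤ 3 * 3840 ^ n * ‖x - 1‖ ^ (2 * n + 1) := by
  rw [aeval_W]
  refine (norm_sum_le _ _).trans ?_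
  have h1 : ∀ r ∈ range (5 * n + 2), ‖(((T n).coeff r : ℚ) : ℂ) * (x - 1) ^ r‖
      ≤ ((|(T n).coeff r| : ℚ) : ℝ) * ‖x - 1‖ ^ (2 * n + 1) := by
    intro r _
    by_cases hr : r ≤ 2 * n
    · rw [T_coeff_zero n r hr]
      simp
    · rw [norm_mul, norm_pow]
      have e1 : ‖(((T n).coeff r : ℚ) : ℂ)‖ = ((|(T n).coeff r| : ℚ) : ℝ) := by
        rw [Complex.norm_ratCast]
        push_cast; rfl
      rw [e1]
      apply mul_le_mul_of_nonneg_left _ (by positivity)
      exact pow_le_pow_of_le_one (norm_nonneg _) hx (by omega)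
  refine (Finset.sum_le_sum h1).trans ?_
  rw [← Finset.sum_mul]
  apply mul_le_mul_of_nonneg_right _ (by positivity)
  have := T_abs_sum n
  exact_mod_cast this

theorem U_natDegree (n : ℕ) : (U n).natDegree ≤ n := by
  unfold U
  refine Polynomial.natDegree_sum_le_of_forall_le _ _ fun i hi => ?_
  have hi' : i < n + 1 := Finset.mem_range.mp hi
  refine (Polynomial.natDegree_C_mul_X_pow_le _ _).trans (by omega)

theorem V_natDegree (n : ℕ) : (V n).natDegree ≤ n := by
  unfold V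
  refine Polynomial.natDegree_sum_le_of_forall_le _ _ fun i hi => ?_
  have hi' : i < n + 1 := Finset.mem_range.mp hi
  refine (Polynomial.natDegree_C_mul_X_pow_le _ _).trans (by omega)

theorem U_coeff (n : ℕ) : (U n).coeff n = u n 0 := by
  unfold U
  rw [Polynomial.finsetSum_coeff, Finset.sum_range_succ, Finset.sum_eq_zero, zero_add]
  · simp
  · intro i hi
    have hi' : i < n := Finset.mem_range.mp hi
    rw [coeff_C_mul_X_pow, if_neg (by omega)]

theorem V_coeff (n : ℕ) : (V n).coeff n = u 0 n := by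
  unfold V
  rw [Polynomial.finsetSum_coeff, Finset.sum_range_succ, Finset.sum_eq_zero, zero_add]
  · simp
  · intro i hi
    have hi' : i < n := Finset.mem_range.mp hi
    rw [coeff_C_mul_X_pow, if_neg (by omega)]

noncomputable def F (n : ℕ) : ℚ[X] := U n * V (n + 1) - U (n + 1) * V n

theorem F_natDegree (n : ℕ) : (F n).natDegree ≤ 2 * n + 1 := by
  unfold F
  refine (Polynomial.natDegree_sub_le _ _).trans (max_le ?_ ?_)
  · refine Polynomial.natDegree_mul_le.trans ?_
    have := U_natDegree n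
    have := V_natDegree (n + 1)
    omega
  · refine Polynomial.natDegree_mul_le.trans ?_
    have := U_natDegree (n + 1)
    have := V_natDegree n
    omega

theorem F_coeff (n : ℕ) : (F n).coeff (2 * n + 1) ≠ 0 := by
  unfold F
  rw [coeff_sub]
  have e1 : (U n * V (n + 1)).coeff (2 * n + 1) = u n 0 * u 0 (n + 1) := by
    rw [show 2 * n + 1 = n + (n + 1) by ring,
      coeff_mul_add_eq_of_natDegree_le (U_natDegree n) (V_natDegree (n + 1)), U_coeff, V_coeff]
  have e2 : (U (n + 1) * V n).coeff (2 * n + 1) = u (n + 1) 0 * u 0 n := by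
    rw [show 2 * n + 1 = (n + 1) + n by ring,
      coeff_mul_add_eq_of_natDegree_le (U_natDegree (n + 1)) (V_natDegree n), U_coeff, V_coeff]
  rw [e1, e2]
  have hA : A (n + 1) = A n * (5 * (n : ℚ) + 4) := by unfold A; rw [Finset.prod_range_succ]
  have hB : B (n + 1) = B n * (5 * (n : ℚ) + 6) := by unfold B; rw [Finset.prod_range_succ]
  have hA0 : A 0 = 1 := by simp [A]
  have hB0 : B 0 = 1 := by simp [B]
  have g1 := (A_pos n).ne'
  have g2 := (B_pos n).ne'
  have f1 : (n.factorial : ℚ) ≠ 0 := by positivity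
  have f2 : ((n + 1).factorial : ℚ) ≠ 0 := by positivity
  have g3 : (5 * (n : ℚ) + 4) ≠ 0 := by positivity
  have g4 : (5 * (n : ℚ) + 6) ≠ 0 := by positivity
  unfold u
  simp only [add_zero, zero_add, hA0, hB0, Nat.factorial_zero, Nat.cast_one, mul_one, one_mul]
  rw [hA, hB]
  have : 5 ^ n * A n * B n / (↑n.factorial * A n) * (5 ^ (n + 1) * (A n * (5 * (n : ℚ) + 4)) *
      (B n * (5 * (n : ℚ) + 6)) / (↑(n + 1).factorial * (B n * (5 * (n : ℚ) + 6)))) -
      5 ^ (n + 1) * (A n * (5 * (n : ℚ) + 4)) * (B n * (5 * (n : ℚ) + 6)) /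
      (↑(n + 1).factorial * (A n * (5 * (n : ℚ) + 4))) *
      (5 ^ n * A n * B n / (↑n.factorial * B n))
      = - (2 * 5 ^ (2 * n + 1) * A n * B n / (n.factorial * (n + 1).factorial)) := by
    field_simp
    ring
  rw [this]
  have := A_pos n
  have := B_pos n
  rw [neg_ne_zero]
  positivity

theorem W_dvd (n : ℕ) : (X - C 1) ^ (2 * n + 1) ∣ W n := by
  rw [Polynomial.X_sub_C_pow_dvd_iff, Polynomial.X_pow_dvd_iff]
  intro d hd
  exact T_coeff_zero n d (by omega)

theorem F_comp (n : ℕ) : (F n).comp (X ^ 5) = W n * (V (n + 1)).comp (X ^ 5)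
    - W (n + 1) * (V n).comp (X ^ 5) := by
  unfold F W
  rw [sub_comp, mul_comp, mul_comp]
  ring

theorem F_dvd (n : ℕ) : (X - C 1) ^ (2 * n + 1) ∣ (F n).comp (X ^ 5) := by
  rw [F_comp]
  refine dvd_sub (Dvd.dvd.mul_right (W_dvd n) _) (Dvd.dvd.mul_right ?_ _)
  exact (pow_dvd_pow _ (by omega)).trans (W_dvd (n + 1))

theorem F_form (n : ℕ) : ∃ c : ℚ, c ≠ 0 ∧ F n = C c * (X - C 1) ^ (2 * n + 1) := by
  have hF : F n ≠ 0 := by
    intro h
    apply F_coeff n
    rw [h]; simp
  obtain ⟨q, hq, hnd⟩ := Polynomial.exists_eq_pow_rootMultiplicity_mul_and_not_dvd (F n) hF 1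
  set m := (F n).rootMultiplicity 1 with hm
  have hX5 : (X ^ 5 - C 1 : ℚ[X]) = (X - C 1) * (X ^ 4 + X ^ 3 + X ^ 2 + X + 1) := by
    rw [C_1]; ring
  have hcomp : (F n).comp (X ^ 5) = (X - C 1) ^ m *
      ((X ^ 4 + X ^ 3 + X ^ 2 + X + 1) ^ m * q.comp (X ^ 5)) := by
    conv_lhs => rw [hq]
    rw [mul_comp, pow_comp, sub_comp, X_comp, C_comp, hX5, mul_pow]
    ring
  have hmge : 2 * n + 1 ≤ m := by
    by_contra hlt
    push Not at hlt
    have h1 : (X - C 1) ^ (m + 1) ∣ (X - C 1 : ℚ[X]) ^ m *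
        ((X ^ 4 + X ^ 3 + X ^ 2 + X + 1) ^ m * q.comp (X ^ 5)) := by
      rw [← hcomp]
      exact (pow_dvd_pow _ (by omega)).trans (F_dvd n)
    rw [pow_succ] at h1
    have h2 : (X - C 1 : ℚ[X]) ∣ ((X ^ 4 + X ^ 3 + X ^ 2 + X + 1) ^ m * q.comp (X ^ 5)) := by
      refine (mul_dvd_mul_iff_left ?_).mp h1
      exact pow_ne_zero _ (Polynomial.X_sub_C_ne_zero 1)
    rw [Polynomial.dvd_iff_isRoot, Polynomial.IsRoot.def, eval_mul, eval_pow, eval_comp] at h2
    simp only [eval_add, eval_pow, eval_X, eval_one, one_pow] at h2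
    rcases mul_eq_zero.mp h2 with h3 | h3
    · have : ((1 : ℚ) + 1 + 1 + 1 + 1) ≠ 0 := by norm_num
      exact pow_ne_zero m this h3
    · apply hnd
      rw [Polynomial.dvd_iff_isRoot]
      exact h3
  have hdv : (X - C 1) ^ (2 * n + 1) ∣ F n := by
    conv_rhs => rw [hq]
    exact Dvd.dvd.mul_right (pow_dvd_pow _ hmge) _
  obtain ⟨r, hr⟩ := hdv
  have hr0 : r ≠ 0 := by
    rintro rfl
    rw [mul_zero] at hr
    exact hF hr
  have hmon : ((X - C 1 : ℚ[X]) ^ (2 * n + 1)).Monic := (Polynomial.monic_X_sub_C 1).pow _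
  have hdegr : r.natDegree = 0 := by
    have h1 := F_natDegree n
    rw [hr, Polynomial.natDegree_mul (hmon.ne_zero) hr0, Polynomial.natDegree_pow,
      Polynomial.natDegree_X_sub_C] at h1
    omega
  obtain ⟨c, hc⟩ := Polynomial.natDegree_eq_zero.mp hdegr
  refine ⟨c, ?_, ?_⟩
  · rintro rfl
    apply hr0
    rw [← hc]; simp
  · rw [hr, ← hc]; ring

theorem F_ne (n : ℕ) (x : ℂ) (hx : x ≠ 1) :
    aeval x (U n) * aeval x (V (n + 1)) - aeval x (U (n + 1)) * aeval x (V n) ≠ 0 := by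
  obtain ⟨c, hc, hF⟩ := F_form n
  have h1 : aeval x (F n) = aeval x (U n) * aeval x (V (n + 1))
      - aeval x (U (n + 1)) * aeval x (V n) := by
    unfold F
    rw [map_sub, map_mul, map_mul]
  rw [← h1, hF, map_mul, map_pow, map_sub, aeval_X, aeval_C, aeval_C]
  simp only [map_one]
  refine mul_ne_zero ?_ (pow_ne_zero _ (sub_ne_zero.mpr hx))
  rw [Ne, map_eq_zero]
  exact hc

end Pool.Agent.Helper17.Pade
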