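import Mathlib
import Pool.Agent.Helper17.PadePoly

set_option autoImplicit false

namespace Pool.Agent.Helper17.Pade

open Finset Polynomial

/-- choice of the degree -/
theorem choose_degree (H1 H2 C : ℝ) (hH1 : 1 ≤ H1) (hH2 : 1 ≤ H2) (hC : 2 ≤ C)
    (hh : C ^ 3 ≤ H1 ^ 5) (h2 : 8 * C ^ 2 * H1 ^ 8 < H2 ^ 2) :
    ∃ n0 : ℕ, ∀ n : ℕ, (n = n0 ∨ n = n0 + 1) →
      (C / H1 ^ 5) ^ (n + 1) * (H1 * H2) < 1 / 2 ∧
      (C * H1 ^ 5) ^ n * C * H1 / H2 ^ 4 < 1 / 2 := by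
  set h : ℝ := H1 ^ 5 with hdef
  have hC0 : 0 < C := by linarith
  have hh0 : 0 < h := by positivity
  have hr : C ^ 2 ≤ h / C := by
    rw [le_div_iff₀ hC0]
    calc C ^ 2 * C = C ^ 3 := by ring
      _ ≤ h := hh
  have hr1 : 1 < h / C := by nlinarith
  have hex : ∃ n : ℕ, 2 * (H1 * H2) < (h / C) ^ (n + 1) := by
    obtain ⟨n, hn⟩ := pow_unbounded_of_one_lt (2 * (H1 * H2)) hr1
    exact ⟨n, hn.trans_le (pow_le_pow_right₀ hr1.le (by omega))⟩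
  classical
  set n0 := Nat.find hex with hn0
  have hspec := Nat.find_spec hex
  rw [← hn0] at hspec
  have hle : (h / C) ^ n0 ≤ 2 * (H1 * H2) := by
    rcases Nat.eq_zero_or_pos n0 with h0 | hpos
    · rw [h0, pow_zero]
      nlinarith
    · have := Nat.find_min hex (m := n0 - 1) (by omega)
      push Not at this
      rwa [show n0 - 1 + 1 = n0 by omega] at this
  have hCh1 : C / h < 1 := by
    rw [div_lt_one hh0]
    have := (lt_div_iff₀ hC0).mp hr1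
    linarith
  have hCh0 : 0 < C / h := by positivity
  refine ⟨n0, fun n hn => ⟨?_, ?_⟩⟩
  · have e1 : (C / h) ^ (n + 1) ≤ (C / h) ^ (n0 + 1) :=
      pow_le_pow_of_le_one hCh0.le hCh1.le (by omega)
    have e2 : (C / h) ^ (n0 + 1) * (h / C) ^ (n0 + 1) = 1 := by
      rw [← mul_pow]
      have : C / h * (h / C) = 1 := by field_simp
      rw [this, one_pow]
    have e3 : 0 < (C / h) ^ (n0 + 1) := by positivity
    have e4 : (C / h) ^ (n0 + 1) * (2 * (H1 * H2)) < 1 := by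
      rw [← e2]
      exact mul_lt_mul_of_pos_left hspec e3
    have e5 : 0 ≤ H1 * H2 := by positivity
    nlinarith [mul_le_mul_of_nonneg_right e1 e5]
  · have hCh : 1 ≤ C * h := by
      have : 1 ≤ h := one_le_pow₀ hH1
      nlinarith
    have e1 : (C * h) ^ n ≤ (C * h) ^ (n0 + 1) := pow_le_pow_right₀ hCh (by omega)
    have e2 : (C * h) ^ n0 ≤ (2 * (H1 * H2)) ^ 2 := by
      have : (C * h) ^ n0 = (h / C) ^ n0 * (C ^ 2) ^ n0 := by
        rw [← mul_pow]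
        congr 1
        field_simp
      rw [this, pow_two (2 * (H1 * H2))]
      apply mul_le_mul hle _ (by positivity) (by positivity)
      exact (pow_le_pow_left₀ (by positivity) hr n0).trans hle
    have e3 : (C * h) ^ n ≤ (2 * (H1 * H2)) ^ 2 * (C * h) := by
      refine e1.trans ?_
      rw [pow_succ]
      exact mul_le_mul_of_nonneg_right e2 (by positivity)
    have hH24 : 0 < H2 ^ 4 := by positivity
    rw [div_lt_iff₀ hH24]
    calc (C * h) ^ n * C * H1 ≤ ((2 * (H1 * H2)) ^ 2 * (C * h)) * C * H1 := by gcongr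
      _ = (1 / 2) * (8 * C ^ 2 * H1 ^ 8) * H2 ^ 2 := by rw [hdef]; ring
      _ < (1 / 2) * (H2 ^ 2) * H2 ^ 2 := by
          apply mul_lt_mul_of_pos_right _ (by positivity)
          linarith
      _ = _ := by ring

variable (O : Subring ℂ)

theorem hom_mem {c : ℕ → ℚ} (hc : ∀ i, ∃ z : ℕ, (z : ℚ) = c i) (n : ℕ) {P Q : ℂ}
    (hP : P ∈ O) (hQ : Q ∈ O) :
    ∑ i ∈ range (n + 1), ((c i : ℚ) : ℂ) * (Q ^ i * P ^ (n - i)) ∈ O := by
  refine O.sum_mem fun i _ => ?_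
  obtain ⟨z, hz⟩ := hc i
  rw [← hz]
  refine O.mul_mem ?_ (O.mul_mem (O.pow_mem hQ i) (O.pow_mem hP _))
  have : (((z : ℚ)) : ℂ) = (z : ℂ) := by push_cast; rfl
  rw [this]
  exact natCast_mem O z

theorem U_hom (n : ℕ) {P Q : ℂ} (hP : P ≠ 0) :
    P ^ n * aeval (Q / P) (U n)
      = ∑ i ∈ range (n + 1), ((u i (n - i) : ℚ) : ℂ) * (Q ^ i * P ^ (n - i)) := by
  unfold U
  rw [map_sum, Finset.mul_sum]
  refine Finset.sum_congr rfl fun i hi => ?_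
  have hi' : i < n + 1 := Finset.mem_range.mp hi
  rw [map_mul, map_pow, aeval_X, aeval_C, div_pow]
  have : P ^ n = P ^ i * P ^ (n - i) := by rw [← pow_add]; congr 1; omega
  rw [this]
  have e : (algebraMap ℚ ℂ) (u i (n - i)) = ((u i (n - i) : ℚ) : ℂ) := rfl
  rw [e]
  field_simp

theorem V_hom (n : ℕ) {P Q : ℂ} (hP : P ≠ 0) :
    P ^ n * aeval (Q / P) (V n)
      = ∑ i ∈ range (n + 1), ((u (n - i) i : ℚ) : ℂ) * (Q ^ i * P ^ (n - i)) := by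
  unfold V
  rw [map_sum, Finset.mul_sum]
  refine Finset.sum_congr rfl fun i hi => ?_
  have hi' : i < n + 1 := Finset.mem_range.mp hi
  rw [map_mul, map_pow, aeval_X, aeval_C, div_pow]
  have : P ^ n = P ^ i * P ^ (n - i) := by rw [← pow_add]; congr 1; omega
  rw [this]
  have e : (algebraMap ℚ ℂ) (u (n - i) i) = ((u (n - i) i : ℚ) : ℂ) := rfl
  rw [e]
  field_simp

theorem V_norm (n : ℕ) {x : ℂ} (hx : ‖x‖ ≤ 1) : ‖aeval x (V n)‖ ≤ 120 ^ n := by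
  unfold V
  rw [map_sum]
  refine (norm_sum_le _ _).trans ?_
  have h1 : ∀ i ∈ range (n + 1), ‖aeval x (C (u (n - i) i) * X ^ i)‖ ≤ ((u (n - i) i : ℚ) : ℝ) := by
    intro i _
    rw [map_mul, map_pow, aeval_X, aeval_C, norm_mul, norm_pow]
    have e : ‖(algebraMap ℚ ℂ) (u (n - i) i)‖ = ((u (n - i) i : ℚ) : ℝ) := by
      show ‖(((u (n - i) i : ℚ)) : ℂ)‖ = _
      rw [Complex.norm_ratCast, abs_of_pos]
      exact_mod_cast u_pos (n - i) i
    rw [e]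
    have hu : (0 : ℝ) ≤ ((u (n - i) i : ℚ) : ℝ) := by exact_mod_cast (u_pos (n - i) i).le
    exact mul_le_of_le_one_right hu (pow_le_one₀ (norm_nonneg _) hx)
  refine (Finset.sum_le_sum h1).trans ?_
  have := sum_u_le' n
  exact_mod_cast this

/-- two solutions of very different sizes are impossible -/
theorem two_solutions (hO : ∀ z ∈ O, z ≠ 0 → 1 ≤ ‖z‖) (a b Δ θ p1 q1 p2 q2 : ℂ) (D1 C : ℝ)
    (ha : a ∈ O) (hb : b ∈ O) (hp1 : p1 ∈ O) (hq1 : q1 ∈ O) (hp2 : p2 ∈ O) (hq2 : q2 ∈ O)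
    (ha0 : a ≠ 0) (hab : ‖a‖ = ‖b‖) (hΔ : Δ ≠ 0) (hD1 : 1 ≤ D1) (hΔD : ‖Δ‖ ≤ D1)
    (hCD : 11520 * D1 ^ 2 ≤ C) (hCA : 120 * ‖a‖ ≤ C)
    (hpq1 : ‖q1‖ = ‖p1‖) (hpq2 : ‖q2‖ = ‖p2‖)
    (heq1 : a * p1 ^ 5 - b * q1 ^ 5 = Δ)
    (hθ : θ ^ 5 = b / a)
    (hx1 : ‖q1 * θ / p1 - 1‖ ≤ ‖Δ‖ / ‖a * p1 ^ 5‖) (hx1' : ‖q1 * θ / p1 - 1‖ ≤ 1)
    (hx2 : ‖q2 * θ / p2 - 1‖ ≤ ‖Δ‖ / ‖a * p2 ^ 5‖)
    (hH1 : C ^ 3 ≤ ‖p1‖ ^ 5) (hH2 : 8 * C ^ 2 * ‖p1‖ ^ 8 < ‖p2‖ ^ 2) : False := by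
  have hC : 2 ≤ C := by nlinarith
  have hp10 : p1 ≠ 0 := by
    rintro rfl
    rw [norm_zero] at hH1
    have : 0 < C ^ 3 := by positivity
    norm_num at hH1
    linarith
  have hp20 : p2 ≠ 0 := by
    rintro rfl
    rw [norm_zero] at hH2
    have : 0 ≤ 8 * C ^ 2 * ‖p1‖ ^ 8 := by positivity
    norm_num at hH2
    linarith
  have hq10 : q1 ≠ 0 := by
    rw [← norm_pos_iff, hpq1]; exact norm_pos_iff.mpr hp10
  have hq20 : q2 ≠ 0 := by
    rw [← norm_pos_iff, hpq2]; exact norm_pos_iff.mpr hp20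
  have h11 : 1 ≤ ‖p1‖ := hO p1 hp1 hp10
  have h12 : 1 ≤ ‖p2‖ := hO p2 hp2 hp20
  have hA1 : 1 ≤ ‖a‖ := hO a ha ha0
  obtain ⟨n0, hn0⟩ := choose_degree ‖p1‖ ‖p2‖ C h11 h12 hC hH1 hH2
  set P : ℂ := a * p1 ^ 5 with hP
  set Q : ℂ := b * q1 ^ 5 with hQ
  have hP0 : P ≠ 0 := mul_ne_zero ha0 (pow_ne_zero _ hp10)
  have hPO : P ∈ O := O.mul_mem ha (O.pow_mem hp1 5)
  have hQO : Q ∈ O := O.mul_mem hb (O.pow_mem hq1 5)
  have hPn : ‖P‖ = ‖a‖ * ‖p1‖ ^ 5 := by rw [hP, norm_mul, norm_pow]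
  have hPQn : ‖Q / P‖ = 1 := by
    rw [norm_div, hPn, hQ, norm_mul, norm_pow, ← hab, hpq1, div_self]
    positivity
  have hPpos : 0 < ‖P‖ := norm_pos_iff.mpr hP0
  set x1 : ℂ := q1 * θ / p1 with hx1d
  set x2 : ℂ := q2 * θ / p2 with hx2d
  have hx15 : x1 ^ 5 = Q / P := by
    rw [hx1d, div_pow, mul_pow, hθ, hQ, hP]
    field_simp
  have hXne : Q / P ≠ 1 := by
    intro h
    rw [div_eq_one_iff_eq hP0] at h
    apply hΔ
    rw [← heq1, h, sub_self]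
  -- the integers
  set E : ℕ → ℂ := fun n => p1 * q2 * (P ^ n * aeval (Q / P) (U n))
    - q1 * p2 * (P ^ n * aeval (Q / P) (V n)) with hE
  have hEO : ∀ n, E n ∈ O := by
    intro n
    simp only [hE]
    rw [U_hom n hP0, V_hom n hP0]
    refine O.sub_mem (O.mul_mem (O.mul_mem hp1 hq2) ?_) (O.mul_mem (O.mul_mem hq1 hp2) ?_)
    · exact hom_mem O (fun i => u_int i (n - i)) n hPO hQO
    · exact hom_mem O (fun i => u_int (n - i) i) n hPO hQO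
  have hEeq : ∀ n, E n = P ^ n * (p1 * q2 * aeval x1 (W n)
      + q1 * p2 * (x2 - 1) * aeval (Q / P) (V n)) := by
    intro n
    simp only [hE]
    have hW : aeval x1 (W n) = aeval (Q / P) (U n) - x1 * aeval (Q / P) (V n) := by
      unfold W
      rw [map_sub, map_mul, aeval_X, Polynomial.aeval_comp, Polynomial.aeval_comp, map_pow,
        aeval_X, hx15]
    rw [hW]
    have e1 : p1 * x1 = q1 * θ := by rw [hx1d]; field_simp
    have e2 : p2 * x2 = q2 * θ := by rw [hx2d]; field_simp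
    linear_combination (P ^ n * q2 * aeval (Q / P) (V n)) * e1
      - (P ^ n * q1 * aeval (Q / P) (V n)) * e2
  have hsmall : ∀ n, (n = n0 ∨ n = n0 + 1) → E n = 0 := by
    intro n hn
    obtain ⟨b1, b2⟩ := hn0 n hn
    by_contra hne
    have hge := hO _ (hEO n) hne
    have hDn0 : 0 ≤ ‖Δ‖ := norm_nonneg _
    have hC0 : 0 < C := by linarith
    have hlt : ‖E n‖ < 1 := by
      rw [hEeq n, norm_mul, norm_pow]
      have t1 : ‖p1 * q2 * aeval x1 (W n)‖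
          ≤ ‖p1‖ * ‖p2‖ * (3 * 3840 ^ n * (D1 / ‖P‖) ^ (2 * n + 1)) := by
        rw [norm_mul, norm_mul, hpq2]
        apply mul_le_mul_of_nonneg_left _ (by positivity)
        refine (W_bound n x1 hx1').trans ?_
        apply mul_le_mul_of_nonneg_left _ (by positivity)
        apply pow_le_pow_left₀ (norm_nonneg _)
        refine hx1.trans ?_
        gcongr
      have t2 : ‖q1 * p2 * (x2 - 1) * aeval (Q / P) (V n)‖
          ≤ ‖p1‖ * ‖p2‖ * (D1 / (‖a‖ * ‖p2‖ ^ 5)) * 120 ^ n := by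
        rw [norm_mul, norm_mul, norm_mul, hpq1]
        apply mul_le_mul _ (V_norm n hPQn.le) (norm_nonneg _) (by positivity)
        apply mul_le_mul_of_nonneg_left _ (by positivity)
        refine hx2.trans ?_
        rw [norm_mul, norm_pow]
        gcongr
      have s1 : ‖P‖ ^ n * (‖p1‖ * ‖p2‖ * (3 * 3840 ^ n * (D1 / ‖P‖) ^ (2 * n + 1)))
          ≤ (C / ‖p1‖ ^ 5) ^ (n + 1) * (‖p1‖ * ‖p2‖) := by
        have e1 : ‖P‖ ^ n * (‖p1‖ * ‖p2‖ * (3 * 3840 ^ n * (D1 / ‖P‖) ^ (2 * n + 1)))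
            = (3 * 3840 ^ n * D1 ^ (2 * n + 1) / ‖P‖ ^ (n + 1)) * (‖p1‖ * ‖p2‖) := by
          rw [div_pow, show 2 * n + 1 = n + (n + 1) by ring, pow_add ‖P‖ n (n + 1)]
          field_simp
        rw [e1]
        apply mul_le_mul_of_nonneg_right _ (by positivity)
        rw [div_pow, ← pow_mul]
        have e2 : ‖p1‖ ^ (5 * (n + 1)) ≤ ‖P‖ ^ (n + 1) := by
          rw [pow_mul]
          apply pow_le_pow_left₀ (by positivity)
          rw [hPn]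
          exact le_mul_of_one_le_left (by positivity) hA1
        have e3 : 3 * 3840 ^ n * D1 ^ (2 * n + 1) ≤ C ^ (n + 1) := by
          calc 3 * 3840 ^ n * D1 ^ (2 * n + 1) ≤ 11520 * 11520 ^ n * D1 ^ (2 * (n + 1)) := by
                have f1 : (3840 : ℝ) ^ n ≤ 11520 ^ n := pow_le_pow_left₀ (by norm_num) (by norm_num) n
                have f2 : D1 ^ (2 * n + 1) ≤ D1 ^ (2 * (n + 1)) := pow_le_pow_right₀ hD1 (by omega)
                have f3 : (3 : ℝ) * 3840 ^ n ≤ 11520 * 11520 ^ n := by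
                  have : (0 : ℝ) ≤ 11520 ^ n := by positivity
                  linarith
                exact mul_le_mul f3 f2 (by positivity) (by positivity)
            _ = (11520 * D1 ^ 2) ^ (n + 1) := by rw [mul_pow, ← pow_mul, pow_succ]; ring
            _ ≤ C ^ (n + 1) := pow_le_pow_left₀ (by positivity) hCD _
        exact div_le_div₀ (by positivity) e3 (by positivity) e2
      have s2 : ‖P‖ ^ n * (‖p1‖ * ‖p2‖ * (D1 / (‖a‖ * ‖p2‖ ^ 5)) * 120 ^ n)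
          ≤ (C * ‖p1‖ ^ 5) ^ n * C * ‖p1‖ / ‖p2‖ ^ 4 := by
        have hp2pos : 0 < ‖p2‖ := by linarith
        have hapos : 0 < ‖a‖ := by linarith
        have e1 : ‖P‖ ^ n * (‖p1‖ * ‖p2‖ * (D1 / (‖a‖ * ‖p2‖ ^ 5)) * 120 ^ n)
            = (120 * ‖a‖ * ‖p1‖ ^ 5) ^ n * (D1 / ‖a‖) * ‖p1‖ / ‖p2‖ ^ 4 := by
          rw [hPn, mul_pow (120 * ‖a‖), mul_pow 120, mul_pow]
          field_simp
        rw [e1]
        have f1 : (120 * ‖a‖ * ‖p1‖ ^ 5) ^ n ≤ (C * ‖p1‖ ^ 5) ^ n := by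
          apply pow_le_pow_left₀ (by positivity)
          gcongr
        have f2 : D1 / ‖a‖ ≤ C := by
          have : D1 / ‖a‖ ≤ D1 := div_le_self (by linarith) hA1
          nlinarith
        have f3 : 0 ≤ D1 / ‖a‖ := by positivity
        gcongr
      calc ‖P‖ ^ n * ‖p1 * q2 * aeval x1 (W n) + q1 * p2 * (x2 - 1) * aeval (Q / P) (V n)‖
          ≤ ‖P‖ ^ n * (‖p1‖ * ‖p2‖ * (3 * 3840 ^ n * (D1 / ‖P‖) ^ (2 * n + 1))
            + ‖p1‖ * ‖p2‖ * (D1 / (‖a‖ * ‖p2‖ ^ 5)) * 120 ^ n) := by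
            apply mul_le_mul_of_nonneg_left _ (by positivity)
            exact (norm_add_le _ _).trans (add_le_add t1 t2)
        _ = ‖P‖ ^ n * (‖p1‖ * ‖p2‖ * (3 * 3840 ^ n * (D1 / ‖P‖) ^ (2 * n + 1)))
            + ‖P‖ ^ n * (‖p1‖ * ‖p2‖ * (D1 / (‖a‖ * ‖p2‖ ^ 5)) * 120 ^ n) := by ring
        _ ≤ (C / ‖p1‖ ^ 5) ^ (n + 1) * (‖p1‖ * ‖p2‖)
            + (C * ‖p1‖ ^ 5) ^ n * C * ‖p1‖ / ‖p2‖ ^ 4 := add_le_add s1 s2
        _ < 1 := by linarith
    linarith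
  have z1 := hsmall n0 (Or.inl rfl)
  have z2 := hsmall (n0 + 1) (Or.inr rfl)
  simp only [hE] at z1 z2
  have hPn0 : P ^ n0 ≠ 0 := pow_ne_zero _ hP0
  have hPn1 : P ^ (n0 + 1) ≠ 0 := pow_ne_zero _ hP0
  have w1 : p1 * q2 * aeval (Q / P) (U n0) = q1 * p2 * aeval (Q / P) (V n0) := by
    have : P ^ n0 * (p1 * q2 * aeval (Q / P) (U n0) - q1 * p2 * aeval (Q / P) (V n0)) = 0 := by
      rw [← z1]; ring
    rcases mul_eq_zero.mp this with h | h
    · exact absurd h hPn0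
    · exact sub_eq_zero.mp h
  have w2 : p1 * q2 * aeval (Q / P) (U (n0 + 1)) = q1 * p2 * aeval (Q / P) (V (n0 + 1)) := by
    have : P ^ (n0 + 1) * (p1 * q2 * aeval (Q / P) (U (n0 + 1))
        - q1 * p2 * aeval (Q / P) (V (n0 + 1))) = 0 := by
      rw [← z2]; ring
    rcases mul_eq_zero.mp this with h | h
    · exact absurd h hPn1
    · exact sub_eq_zero.mp h
  apply F_ne n0 (Q / P) hXne
  have hpq : p1 * q2 ≠ 0 := mul_ne_zero hp10 hq20
  apply mul_left_cancel₀ hpq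
  rw [mul_zero]
  linear_combination (aeval (Q / P) (V (n0 + 1))) * w1 - (aeval (Q / P) (V n0)) * w2

end Pool.Agent.Helper17.Pade
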