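import Mathlib
import Pool.Agent.Helper17.ThueBin

set_option autoImplicit false

namespace Pool.Agent.Helper17.Pade

open Filter Topology

theorem near_one {x y : ℂ} (hx : ‖x - 1‖ ≤ 1 / 10) (hy : 1 - x ^ 5 = y) : ‖x - 1‖ ≤ ‖y‖ := by
  have h1 : y = (1 - x) * (1 + x + x ^ 2 + x ^ 3 + x ^ 4) := by rw [← hy]; ring
  have h2 : 1 ≤ ‖1 + x + x ^ 2 + x ^ 3 + x ^ 4‖ := by
    set t : ℂ := x - 1 with ht
    have hx1 : x = 1 + t := by rw [ht]; ring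
    have e : 1 + x + x ^ 2 + x ^ 3 + x ^ 4 = 5 + (10 * t + 10 * t ^ 2 + 5 * t ^ 3 + t ^ 4) := by
      rw [hx1]; ring
    rw [e]
    have h3 : ‖(10 * t + 10 * t ^ 2 + 5 * t ^ 3 + t ^ 4 : ℂ)‖ ≤ 2 := by
      have n1 : ‖t‖ ^ 2 ≤ 1 / 100 := by
        calc ‖t‖ ^ 2 ≤ (1 / 10) ^ 2 := pow_le_pow_left₀ (norm_nonneg _) hx 2
          _ = _ := by norm_num
      have n2 : ‖t‖ ^ 3 ≤ 1 / 1000 := by
        calc ‖t‖ ^ 3 ≤ (1 / 10) ^ 3 := pow_le_pow_left₀ (norm_nonneg _) hx 3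
          _ = _ := by norm_num
      have n3 : ‖t‖ ^ 4 ≤ 1 / 10000 := by
        calc ‖t‖ ^ 4 ≤ (1 / 10) ^ 4 := pow_le_pow_left₀ (norm_nonneg _) hx 4
          _ = _ := by norm_num
      calc ‖(10 * t + 10 * t ^ 2 + 5 * t ^ 3 + t ^ 4 : ℂ)‖
          ≤ ‖(10 * t : ℂ)‖ + ‖(10 * t ^ 2 : ℂ)‖ + ‖(5 * t ^ 3 : ℂ)‖ + ‖(t ^ 4 : ℂ)‖ := by
            refine (norm_add_le _ _).trans ?_
            gcongr
            refine (norm_add_le _ _).trans ?_
            gcongr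
            exact norm_add_le _ _
        _ = 10 * ‖t‖ + 10 * ‖t‖ ^ 2 + 5 * ‖t‖ ^ 3 + ‖t‖ ^ 4 := by
            simp only [norm_mul, norm_pow, Complex.norm_ofNat]
        _ ≤ 2 := by linarith
    have h4 : ‖(5 : ℂ)‖ ≤ ‖5 + (10 * t + 10 * t ^ 2 + 5 * t ^ 3 + t ^ 4)‖
        + ‖(10 * t + 10 * t ^ 2 + 5 * t ^ 3 + t ^ 4 : ℂ)‖ := by
      have := norm_sub_le (5 + (10 * t + 10 * t ^ 2 + 5 * t ^ 3 + t ^ 4))
        (10 * t + 10 * t ^ 2 + 5 * t ^ 3 + t ^ 4)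
      rwa [add_sub_cancel_right] at this
    rw [Complex.norm_ofNat] at h4
    linarith
  rw [h1, norm_mul, norm_sub_rev 1 x]
  exact le_mul_of_one_le_right (norm_nonneg _) h2

theorem thue_seq (O : Subring ℂ) (hO : ∀ z ∈ O, z ≠ 0 → 1 ≤ ‖z‖) (a b Δ : ℂ)
    (ha : a ∈ O) (hb : b ∈ O) (ha0 : a ≠ 0) (hab : ‖a‖ = ‖b‖) (hΔ : Δ ≠ 0)
    (p q : ℕ → ℂ) (hp : ∀ i, p i ∈ O) (hq : ∀ i, q i ∈ O) (hpq : ∀ i, ‖q i‖ = ‖p i‖)
    (heq : ∀ i, a * p i ^ 5 - b * q i ^ 5 = Δ)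
    (hlim : Tendsto (fun i => ‖p i‖) atTop atTop) : False := by
  -- pass to a tail where p ≠ 0
  obtain ⟨N, hN⟩ := (hlim.eventually_ge_atTop 1).exists_forall_of_atTop
  have hp0 : ∀ i, p (i + N) ≠ 0 := by
    intro i h
    have := hN (i + N) (by omega)
    rw [h, norm_zero] at this
    norm_num at this
  have hq0 : ∀ i, q (i + N) ≠ 0 := by
    intro i
    rw [← norm_pos_iff, hpq]
    exact norm_pos_iff.mpr (hp0 i)
  have hmem : ∀ i, p (i + N) / q (i + N) ∈ Metric.sphere (0 : ℂ) 1 := by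
    intro i
    rw [mem_sphere_zero_iff_norm, norm_div, hpq, div_self]
    exact (norm_pos_iff.mpr (hp0 i)).ne'
  obtain ⟨θ, hθs, φ, hφ, hφl⟩ := (isCompact_sphere (0 : ℂ) 1).tendsto_subseq hmem
  have hθn : ‖θ‖ = 1 := by rwa [mem_sphere_zero_iff_norm] at hθs
  have hθ0 : θ ≠ 0 := by
    rintro rfl
    rw [norm_zero] at hθn
    norm_num at hθn
  have hlim2 : Tendsto (fun i => ‖p (φ i + N)‖) atTop atTop :=
    hlim.comp ((tendsto_add_atTop_nat N).comp hφ.tendsto_atTop)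
  -- the limit satisfies a θ^5 = b
  have hzero : Tendsto (fun i => Δ / q (φ i + N) ^ 5) atTop (𝓝 0) := by
    rw [tendsto_zero_iff_norm_tendsto_zero]
    have e : (fun i => ‖Δ / q (φ i + N) ^ 5‖) = fun i => ‖Δ‖ / (‖p (φ i + N)‖ ^ 5) := by
      funext i
      rw [norm_div, norm_pow, hpq]
    rw [e]
    exact Tendsto.div_atTop tendsto_const_nhds
      ((tendsto_pow_atTop (by norm_num : (5 : ℕ) ≠ 0)).comp hlim2)
  have hθ5' : a * θ ^ 5 - b = 0 := by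
    have l1 : Tendsto (fun i => a * (p (φ i + N) / q (φ i + N)) ^ 5 - b) atTop
        (𝓝 (a * θ ^ 5 - b)) := by
      have := hφl.pow 5
      exact (this.const_mul a).sub_const b
    have l2 : (fun i => a * (p (φ i + N) / q (φ i + N)) ^ 5 - b) = fun i => Δ / q (φ i + N) ^ 5 := by
      funext i
      have := hq0 (φ i)
      rw [← heq (φ i + N)]
      field_simp
    rw [l2] at l1
    exact tendsto_nhds_unique l1 hzero
  have hθ5 : θ ^ 5 = b / a := by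
    rw [eq_div_iff ha0]
    linear_combination hθ5'
  -- x i tends to 1
  have hx : Tendsto (fun i => q (φ i + N) * θ / p (φ i + N)) atTop (𝓝 1) := by
    have e : (fun i => q (φ i + N) * θ / p (φ i + N)) = fun i => θ / (p (φ i + N) / q (φ i + N)) := by
      funext i
      have := hq0 (φ i)
      have := hp0 (φ i)
      field_simp
    rw [e]
    have := (tendsto_const_nhds (x := θ)).div hφl hθ0
    rwa [div_self hθ0] at this
  have hx' : ∀ᶠ i in atTop, ‖q (φ i + N) * θ / p (φ i + N) - 1‖ ≤ 1 / 10 := by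
    have := (tendsto_iff_norm_sub_tendsto_zero.mp hx).eventually_le_const
      (by norm_num : (0 : ℝ) < 1 / 10)
    exact this
  have hb5 : ∀ i, ‖q (φ i + N) * θ / p (φ i + N) - 1‖ ≤ 1 / 10 →
      ‖q (φ i + N) * θ / p (φ i + N) - 1‖ ≤ ‖Δ‖ / ‖a * p (φ i + N) ^ 5‖ := by
    intro i hi
    rw [← norm_div]
    apply near_one hi
    have := hp0 (φ i)
    rw [← heq (φ i + N), div_pow, mul_pow, hθ5]
    field_simp
  set D1 : ℝ := max 1 ‖Δ‖ with hD1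
  set C : ℝ := 11520 * D1 ^ 2 + 120 * ‖a‖ with hC
  have hD11 : 1 ≤ D1 := le_max_left _ _
  have hDΔ : ‖Δ‖ ≤ D1 := le_max_right _ _
  obtain ⟨i, hi1, hi2⟩ := (hx'.and (((tendsto_pow_atTop (by norm_num : (5 : ℕ) ≠ 0)).comp
    hlim2).eventually_ge_atTop (C ^ 3))).exists
  obtain ⟨j, hj1, hj2⟩ := (hx'.and (((tendsto_pow_atTop (by norm_num : (2 : ℕ) ≠ 0)).comp
    hlim2).eventually_gt_atTop (8 * C ^ 2 * ‖p (φ i + N)‖ ^ 8))).exists
  refine two_solutions O hO a b Δ θ (p (φ i + N)) (q (φ i + N)) (p (φ j + N)) (q (φ j + N)) D1 C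
    ha hb (hp _) (hq _) (hp _) (hq _) ha0 hab hΔ hD11 hDΔ ?_ ?_ (hpq _) (hpq _) (heq _) hθ5
    (hb5 i hi1) (by linarith) (hb5 j hj1) hi2 hj2
  · have : 0 ≤ 120 * ‖a‖ := by positivity
    linarith
  · have : 0 ≤ 11520 * D1 ^ 2 := by positivity
    linarith

end Pool.Agent.Helper17.Pade
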