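import Mathlib
import Pool.Agent.Helper17.ThueSeq

set_option autoImplicit false

namespace Pool.Agent.Helper17.Smooth

open Filter Topology ComplexConjugate

/-- the square root of `-D` in the upper half plane -/
noncomputable def rt (D : ℕ) : ℂ := ((Real.sqrt D : ℝ) : ℂ) * Complex.I

theorem rt_sq (D : ℕ) : rt D * rt D = -(D : ℂ) := by
  unfold rt
  have h : ((Real.sqrt D : ℝ) : ℂ) * ((Real.sqrt D : ℝ) : ℂ) = (D : ℂ) := by
    rw [← Complex.ofReal_mul, Real.mul_self_sqrt (Nat.cast_nonneg D)]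
    simp
  have h2 : Complex.I * Complex.I = -1 := Complex.I_mul_I
  linear_combination Complex.I * Complex.I * h + (D : ℂ) * h2

theorem conj_rt (D : ℕ) : conj (rt D) = - rt D := by
  unfold rt
  rw [map_mul, Complex.conj_ofReal, Complex.conj_I]
  ring

/-- the ring `ℤ[√(-D)]` -/
noncomputable def O (D : ℕ) : Subring ℂ where
  carrier := {z | ∃ x y : ℤ, z = x + y * rt D}
  mul_mem' := by
    rintro _ _ ⟨x, y, rfl⟩ ⟨z, w, rfl⟩
    refine ⟨x * z - D * (y * w), x * w + y * z, ?_⟩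
    push_cast
    linear_combination ((y : ℂ) * w) * rt_sq D
  one_mem' := ⟨1, 0, by simp⟩
  add_mem' := by
    rintro _ _ ⟨x, y, rfl⟩ ⟨z, w, rfl⟩
    refine ⟨x + z, y + w, ?_⟩
    push_cast; ring
  zero_mem' := ⟨0, 0, by simp⟩
  neg_mem' := by
    rintro _ ⟨x, y, rfl⟩
    refine ⟨-x, -y, ?_⟩
    push_cast; ring

theorem mem_O {D : ℕ} {z : ℂ} : z ∈ O D ↔ ∃ x y : ℤ, z = x + y * rt D := Iff.rfl

theorem rt_mem (D : ℕ) : rt D ∈ O D := ⟨0, 1, by simp⟩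

theorem norm_sq_form (D : ℕ) (x y : ℤ) :
    ‖(x : ℂ) + y * rt D‖ ^ 2 = (x : ℝ) ^ 2 + D * (y : ℝ) ^ 2 := by
  rw [← Complex.normSq_eq_norm_sq, Complex.normSq_apply]
  have h1 : ((x : ℂ) + y * rt D).re = x := by simp [rt]
  have h2 : ((x : ℂ) + y * rt D).im = y * Real.sqrt D := by simp [rt]
  rw [h1, h2]
  have := Real.mul_self_sqrt (Nat.cast_nonneg (α := ℝ) D)
  linear_combination ((y : ℝ) * y) * this

theorem conj_mem {D : ℕ} {z : ℂ} (hz : z ∈ O D) : conj z ∈ O D := by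
  obtain ⟨x, y, rfl⟩ := hz
  refine ⟨x, -y, ?_⟩
  rw [map_add, map_mul, conj_rt]
  simp

theorem one_le_norm {D : ℕ} (hD : 0 < D) : ∀ z ∈ O D, z ≠ 0 → 1 ≤ ‖z‖ := by
  rintro _ ⟨x, y, rfl⟩ hz
  have h1 := norm_sq_form D x y
  have h2 : (1 : ℝ) ≤ (x : ℝ) ^ 2 + D * (y : ℝ) ^ 2 := by
    have h3 : (1 : ℤ) ≤ x ^ 2 + D * y ^ 2 := by
      by_contra hc
      push Not at hc
      have hD' : (1 : ℤ) ≤ D := by exact_mod_cast hD
      have hy : y ^ 2 = 0 := by nlinarith [sq_nonneg x, sq_nonneg y]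
      have hx : x ^ 2 = 0 := by nlinarith [sq_nonneg x, sq_nonneg y]
      have hy' : y = 0 := by simpa using hy
      have hx' : x = 0 := by simpa using hx
      apply hz
      rw [hx', hy']; simp
    exact_mod_cast h3
  rw [← h1] at h2
  by_contra hc
  push Not at hc
  have : ‖(x : ℂ) + y * rt D‖ ^ 2 < 1 := by
    have h0 : 0 ≤ ‖(x : ℂ) + y * rt D‖ := norm_nonneg _
    nlinarith
  linarith

theorem finite_ball {D : ℕ} (hD : 0 < D) (R : ℕ) : {z : ℂ | z ∈ O D ∧ ‖z‖ ^ 2 ≤ R}.Finite := by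
  have hf : (Set.Icc (-(R : ℤ)) R ×ˢ Set.Icc (-(R : ℤ)) R).Finite :=
    (Set.finite_Icc _ _).prod (Set.finite_Icc _ _)
  refine (hf.image (fun p : ℤ × ℤ => (p.1 : ℂ) + p.2 * rt D)).subset ?_
  rintro _ ⟨⟨x, y, rfl⟩, hz⟩
  rw [norm_sq_form] at hz
  have h1 : x ^ 2 + D * y ^ 2 ≤ R := by exact_mod_cast hz
  have hD' : (1 : ℤ) ≤ D := by exact_mod_cast hD
  have hx : x ^ 2 ≤ R := by nlinarith [sq_nonneg y]
  have hy : y ^ 2 ≤ R := by nlinarith [sq_nonneg x, sq_nonneg y]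
  have hb : ∀ w : ℤ, w ^ 2 ≤ R → -(R : ℤ) ≤ w ∧ w ≤ R := by
    intro w hw
    constructor
    · by_contra hc
      push Not at hc
      nlinarith
    · by_contra hc
      push Not at hc
      nlinarith
  exact ⟨(x, y), ⟨⟨(hb x hx).1, (hb x hx).2⟩, ⟨(hb y hy).1, (hb y hy).2⟩⟩, rfl⟩

/-- smooth numbers are, up to a bounded factor, fifth powers -/
theorem fifth_power (B N : ℕ) (hN : N ≠ 0) (h : ∀ p, p.Prime → p ∣ N → p ≤ B) :
    ∃ r n : ℕ, N = r * n ^ 5 ∧ r ≤ B.factorial ^ 4 := by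
  refine ⟨∏ p ∈ N.primeFactors, p ^ (N.factorization p % 5),
    ∏ p ∈ N.primeFactors, p ^ (N.factorization p / 5), ?_, ?_⟩
  · rw [← Finset.prod_pow, ← Finset.prod_mul_distrib]
    conv_lhs => rw [← Nat.prod_factorization_pow_eq_self hN]
    rw [Finsupp.prod, Nat.support_factorization]
    refine Finset.prod_congr rfl fun p _ => ?_
    rw [← pow_mul, ← pow_add]
    congr 1
    omega
  · calc ∏ p ∈ N.primeFactors, p ^ (N.factorization p % 5)
        ≤ ∏ p ∈ N.primeFactors, p ^ 4 := by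
          refine Finset.prod_le_prod' fun p hp => ?_
          have : 1 ≤ p := (Nat.prime_of_mem_primeFactors hp).one_lt.le
          exact Nat.pow_le_pow_right this (by omega)
      _ = (∏ p ∈ N.primeFactors, p) ^ 4 := by rw [Finset.prod_pow]
      _ ≤ B.factorial ^ 4 := by
          apply Nat.pow_le_pow_left
          have hB : B.factorial = ∏ i ∈ Finset.Icc 1 B, i := by
            rw [Nat.factorial_eq_prod_range_add_one, Finset.range_eq_Ico,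
              Finset.prod_Ico_add' (fun i => i) 0 B 1, zero_add]
            rfl
          rw [hB]
          apply Finset.prod_le_prod_of_subset_of_one_le'
          · intro p hp
            rw [Finset.mem_Icc]
            exact ⟨(Nat.prime_of_mem_primeFactors hp).one_lt.le,
              h p (Nat.prime_of_mem_primeFactors hp) (Nat.dvd_of_mem_primeFactors hp)⟩
          · intro i hi _
            exact (Finset.mem_Icc.mp hi).1

/-- Thue's lemma -/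
theorem thue_lemma (n : ℕ) (hn : 0 < n) (X : ℤ) :
    ∃ x y : ℤ, (x ≠ 0 ∨ y ≠ 0) ∧ x ^ 2 ≤ n ∧ y ^ 2 ≤ n ∧ (n : ℤ) ∣ x - y * X := by
  have : NeZero n := ⟨hn.ne'⟩
  set m := Nat.sqrt n with hm
  let f : Fin (m + 1) × Fin (m + 1) → ZMod n := fun p => ((p.1 : ℕ) : ZMod n) - ((p.2 : ℕ) : ZMod n) * (X : ZMod n)
  have hcard : Fintype.card (ZMod n) < Fintype.card (Fin (m + 1) × Fin (m + 1)) := by
    rw [ZMod.card, Fintype.card_prod, Fintype.card_fin]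
    exact Nat.lt_succ_sqrt n
  obtain ⟨p, q, hpq, hf⟩ := Fintype.exists_ne_map_eq_of_card_lt f hcard
  have hsq : ∀ i j : Fin (m + 1), (((i : ℕ) : ℤ) - ((j : ℕ) : ℤ)) ^ 2 ≤ n := by
    intro i j
    have h1 : ((i : ℕ) : ℤ) ≤ m := by have := i.2; omega
    have h2 : ((j : ℕ) : ℤ) ≤ m := by have := j.2; omega
    have h3 : (m : ℤ) * m ≤ n := by exact_mod_cast Nat.sqrt_le n
    have h4 : (0 : ℤ) ≤ ((i : ℕ) : ℤ) := by positivity
    have h5 : (0 : ℤ) ≤ ((j : ℕ) : ℤ) := by positivity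
    have h6 : |((i : ℕ) : ℤ) - ((j : ℕ) : ℤ)| ≤ m := by rw [abs_le]; constructor <;> linarith
    have h7 : (((i : ℕ) : ℤ) - ((j : ℕ) : ℤ)) ^ 2 ≤ (m : ℤ) ^ 2 := by
      rw [← sq_abs]
      exact pow_le_pow_left₀ (abs_nonneg _) h6 2
    nlinarith
  refine ⟨((p.1 : ℕ) : ℤ) - ((q.1 : ℕ) : ℤ), ((p.2 : ℕ) : ℤ) - ((q.2 : ℕ) : ℤ), ?_, hsq _ _, hsq _ _, ?_⟩
  · by_contra hc
    push Not at hc
    apply hpq
    obtain ⟨h1, h2⟩ := hc
    refine Prod.ext ?_ ?_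
    · apply Fin.ext; omega
    · apply Fin.ext; omega
  · rw [← ZMod.intCast_zmod_eq_zero_iff_dvd]
    push_cast
    have hf' : ((p.1 : ℕ) : ZMod n) - ((p.2 : ℕ) : ZMod n) * (X : ZMod n)
        = ((q.1 : ℕ) : ZMod n) - ((q.2 : ℕ) : ZMod n) * (X : ZMod n) := hf
    linear_combination hf'

theorem key (D B : ℕ) (hD : 0 < D) (X : ℕ) (h : ∀ p, p.Prime → p ∣ X ^ 2 + D → p ≤ B) :
    ∃ (r : ℕ) (β δ : ℂ), 0 < r ∧ r ≤ B.factorial ^ 4 ∧ β ∈ O D ∧ δ ∈ O D ∧ δ ≠ 0 ∧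
      ‖δ‖ ^ 2 ≤ ((B.factorial ^ 4 * (1 + D) ^ 5 : ℕ) : ℝ) ∧
      (r : ℂ) * β ^ 5 = ((X : ℂ) + rt D) * δ := by
  obtain ⟨r, n, hrn, hr⟩ := fifth_power B (X ^ 2 + D) (by omega) h
  have hn : 0 < n := by
    rcases Nat.eq_zero_or_pos n with h0 | h0
    · rw [h0] at hrn; simp at hrn; omega
    · exact h0
  have hr0 : 0 < r := by
    rcases Nat.eq_zero_or_pos r with h0 | h0
    · rw [h0] at hrn; simp at hrn; omega
    · exact h0
  obtain ⟨x, y, hxy, hx, hy, t, ht⟩ := thue_lemma n hn X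
  set ξ : ℂ := (X : ℂ) + rt D with hξ
  set c : ℂ := (n : ℂ) * (t : ℂ) with hc
  set β : ℂ := (x : ℂ) + y * rt D with hβ
  have hβO : β ∈ O D := ⟨x, y, rfl⟩
  have hcO : c ∈ O D := ⟨n * t, 0, by rw [hc]; push_cast; ring⟩
  have hξO : ξ ∈ O D := ⟨X, 1, by rw [hξ]; push_cast; ring⟩
  have hβc : β = c + y * ξ := by
    have : (x : ℂ) - y * X = n * t := by exact_mod_cast congrArg (Int.cast : ℤ → ℂ) ht
    rw [hβ, hc, hξ]
    linear_combination this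
  have hξξ : ξ * conj ξ = (r : ℂ) * n ^ 5 := by
    have h1 : ((X ^ 2 + D : ℕ) : ℂ) = ((r * n ^ 5 : ℕ) : ℂ) := by rw [hrn]
    push_cast at h1
    rw [← h1, hξ, map_add, conj_rt, Complex.conj_natCast]
    linear_combination (-1 : ℂ) * rt_sq D
  set η : ℂ := y * (β ^ 4 + β ^ 3 * c + β ^ 2 * c ^ 2 + β * c ^ 3 + c ^ 4) with hη
  have hηO : η ∈ O D := by
    rw [hη]
    refine (O D).mul_mem (intCast_mem _ y) ?_
    refine (O D).add_mem ((O D).add_mem ((O D).add_mem ((O D).add_mem ?_ ?_) ?_) ?_) ?_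
    · exact (O D).pow_mem hβO 4
    · exact (O D).mul_mem ((O D).pow_mem hβO 3) hcO
    · exact (O D).mul_mem ((O D).pow_mem hβO 2) ((O D).pow_mem hcO 2)
    · exact (O D).mul_mem hβO ((O D).pow_mem hcO 3)
    · exact (O D).pow_mem hcO 4
  set δ : ℂ := r * η + (t : ℂ) ^ 5 * conj ξ with hδ
  have hδO : δ ∈ O D := by
    rw [hδ]
    refine (O D).add_mem ((O D).mul_mem (natCast_mem _ r) hηO) ((O D).mul_mem ?_ (conj_mem hξO))
    exact (O D).pow_mem (intCast_mem _ t) 5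
  have hmain : (r : ℂ) * β ^ 5 = ξ * δ := by
    have e1 : β ^ 5 - c ^ 5 = ξ * η := by
      have : β ^ 5 - c ^ 5 = (β - c) * (β ^ 4 + β ^ 3 * c + β ^ 2 * c ^ 2 + β * c ^ 3 + c ^ 4) := by
        ring
      rw [this, hη]
      have e2 : β - c = y * ξ := by rw [hβc]; ring
      rw [e2]; ring
    have e3 : (r : ℂ) * c ^ 5 = (t : ℂ) ^ 5 * (ξ * conj ξ) := by
      rw [hξξ, hc]; ring
    rw [hδ]
    linear_combination (r : ℂ) * e1 + e3
  have hβ0 : β ≠ 0 := by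
    intro h0
    have h1 := norm_sq_form D x y
    rw [← hβ, h0, norm_zero] at h1
    have h2 : (x : ℤ) ^ 2 + D * y ^ 2 = 0 := by
      have : (0 : ℝ) ^ 2 = (x : ℝ) ^ 2 + D * (y : ℝ) ^ 2 := h1
      have h3 : (x : ℝ) ^ 2 + D * (y : ℝ) ^ 2 = 0 := by rw [← this]; norm_num
      exact_mod_cast h3
    have hD' : (1 : ℤ) ≤ D := by exact_mod_cast hD
    have hy0 : y ^ 2 = 0 := by nlinarith [sq_nonneg x, sq_nonneg y]
    have hx0 : x ^ 2 = 0 := by nlinarith [sq_nonneg x, sq_nonneg y]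
    rcases hxy with h4 | h4
    · apply h4; simpa using hx0
    · apply h4; simpa using hy0
  have hδ0 : δ ≠ 0 := by
    intro h0
    rw [h0, mul_zero] at hmain
    rcases mul_eq_zero.mp hmain with h1 | h1
    · have : r = 0 := by exact_mod_cast h1
      omega
    · exact hβ0 (pow_eq_zero_iff (by norm_num) |>.mp h1)
  refine ⟨r, β, δ, hr0, hr, hβO, hδO, hδ0, ?_, hmain⟩
  -- norm bound
  have hξn : ‖ξ‖ ^ 2 = (r : ℝ) * n ^ 5 := by
    have := norm_sq_form D X 1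
    have e : ((X : ℤ) : ℂ) + ((1 : ℤ) : ℂ) * rt D = ξ := by rw [hξ]; push_cast; ring
    rw [e] at this
    rw [this]
    have h1 : ((X ^ 2 + D : ℕ) : ℝ) = ((r * n ^ 5 : ℕ) : ℝ) := by rw [hrn]
    push_cast at h1
    rw [← h1]; push_cast; ring
  have hβn : ‖β‖ ^ 2 ≤ (1 + D) * n := by
    rw [hβ, norm_sq_form]
    have h1 : (x : ℝ) ^ 2 ≤ n := by exact_mod_cast hx
    have h2 : (y : ℝ) ^ 2 ≤ n := by exact_mod_cast hy
    have h3 : (0 : ℝ) ≤ D := Nat.cast_nonneg _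
    nlinarith [mul_le_mul_of_nonneg_left h2 h3]
  have hnn : ‖ξ‖ ^ 2 * ‖δ‖ ^ 2 = (r : ℝ) ^ 2 * (‖β‖ ^ 2) ^ 5 := by
    have h1 : ‖(r : ℂ) * β ^ 5‖ = ‖ξ * δ‖ := by rw [hmain]
    rw [norm_mul, norm_mul, norm_pow, Complex.norm_natCast] at h1
    calc ‖ξ‖ ^ 2 * ‖δ‖ ^ 2 = (‖ξ‖ * ‖δ‖) ^ 2 := by ring
      _ = ((r : ℝ) * ‖β‖ ^ 5) ^ 2 := by rw [h1]
      _ = _ := by ring
  rw [hξn] at hnn
  have hrpos : (0 : ℝ) < r := by exact_mod_cast hr0
  have hnpos : (0 : ℝ) < n := by exact_mod_cast hn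
  have h5 : (r : ℝ) * n ^ 5 * ‖δ‖ ^ 2 ≤ (r : ℝ) * n ^ 5 * (r * (1 + D) ^ 5) := by
    rw [hnn]
    calc (r : ℝ) ^ 2 * (‖β‖ ^ 2) ^ 5 ≤ r ^ 2 * ((1 + D) * n) ^ 5 := by gcongr
      _ = _ := by ring
  have h6 : ‖δ‖ ^ 2 ≤ r * (1 + D) ^ 5 := le_of_mul_le_mul_left h5 (by positivity)
  refine h6.trans ?_
  push_cast
  have h7 : (r : ℝ) ≤ (B.factorial : ℝ) ^ 4 := by exact_mod_cast hr
  gcongr

/-- For fixed `D > 0` and `B` there are only finitely many `X` such that all prime factors of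
`X ^ 2 + D` are at most `B`. -/
theorem polya (D B : ℕ) (hD : 0 < D) :
    {X : ℕ | ∀ p : ℕ, p.Prime → p ∣ X ^ 2 + D → p ≤ B}.Finite := by
  by_contra hinf
  have hinf' : {X : ℕ | ∀ p : ℕ, p.Prime → p ∣ X ^ 2 + D → p ≤ B}.Infinite := hinf
  set S := {X : ℕ | ∀ p : ℕ, p.Prime → p ∣ X ^ 2 + D → p ≤ B} with hS
  have : Infinite S := hinf'.to_subtype
  choose! r β δ h1 h2 h3 h4 h5 h6 h7 using fun (X : ℕ) (hX : X ∈ S) => key D B hD X hX
  have hfinR : Finite (Fin (B.factorial ^ 4 + 1) × {z : ℂ | z ∈ O D ∧ ‖z‖ ^ 2 ≤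
      ((B.factorial ^ 4 * (1 + D) ^ 5 : ℕ) : ℝ)}) := by
    have := (finite_ball hD (B.factorial ^ 4 * (1 + D) ^ 5)).to_subtype
    infer_instance
  let f : S → Fin (B.factorial ^ 4 + 1) × {z : ℂ | z ∈ O D ∧ ‖z‖ ^ 2 ≤
      ((B.factorial ^ 4 * (1 + D) ^ 5 : ℕ) : ℝ)} := fun X =>
    (⟨r X.1, Nat.lt_succ_of_le (h2 X.1 X.2)⟩, ⟨δ X.1, h4 X.1 X.2, h6 X.1 X.2⟩)
  obtain ⟨⟨⟨r0, hr0⟩, ⟨δ0, hδ0⟩⟩, hfib⟩ := Finite.exists_infinite_fiber f
  let g : ℕ ↪ (f ⁻¹' {(⟨⟨r0, hr0⟩, ⟨δ0, hδ0⟩⟩ : Fin (B.factorial ^ 4 + 1) ×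
      {z : ℂ | z ∈ O D ∧ ‖z‖ ^ 2 ≤ ((B.factorial ^ 4 * (1 + D) ^ 5 : ℕ) : ℝ)})}) :=
    Infinite.natEmbedding _
  set x : ℕ → ℕ := fun i => ((g i).1).1 with hx
  have hxinj : Function.Injective x := by
    intro i j hij
    apply g.injective
    apply Subtype.ext
    apply Subtype.ext
    exact hij
  have hxS : ∀ i, x i ∈ S := fun i => ((g i).1).2
  have hfx : ∀ i, r (x i) = r0 ∧ δ (x i) = δ0 := by
    intro i
    have h := (g i).2
    rw [Set.mem_preimage, Set.mem_singleton_iff] at h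
    have ha := congrArg (fun p => (p.1 : ℕ)) h
    have hb := congrArg (fun p => (p.2 : ℂ)) h
    exact ⟨ha, hb⟩
  have hxlim : Tendsto x atTop atTop := hxinj.nat_tendsto_atTop
  have hr0pos : 0 < r0 := by
    have := h1 (x 0) (hxS 0)
    rwa [(hfx 0).1] at this
  have hδ0ne : δ0 ≠ 0 := by
    have := h5 (x 0) (hxS 0)
    rwa [(hfx 0).2] at this
  have hmain : ∀ i, (r0 : ℂ) * β (x i) ^ 5 = ((x i : ℂ) + rt D) * δ0 := by
    intro i
    have := h7 (x i) (hxS i)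
    rwa [(hfx i).1, (hfx i).2] at this
  have hr0c : (r0 : ℂ) ≠ 0 := by exact_mod_cast hr0pos.ne'
  have hrt0 : rt D ≠ 0 := by
    intro h0
    have := rt_sq D
    rw [h0, mul_zero] at this
    have h1 : (D : ℂ) = 0 := by linear_combination this
    have : D = 0 := by exact_mod_cast h1
    omega
  refine Pade.thue_seq (O D) (one_le_norm hD) (conj δ0) δ0 (conj δ0 * δ0 * (2 * rt D) / r0)
    (conj_mem hδ0.1) hδ0.1 ?_ ?_ ?_ (fun i => β (x i)) (fun i => conj (β (x i)))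
    (fun i => h3 (x i) (hxS i)) (fun i => conj_mem (h3 (x i) (hxS i))) ?_ ?_ ?_
  · simpa using hδ0ne
  · exact Complex.norm_conj _
  · refine div_ne_zero (mul_ne_zero (mul_ne_zero (by simpa using hδ0ne) hδ0ne)
      (mul_ne_zero two_ne_zero hrt0)) hr0c
  · intro i; exact Complex.norm_conj _
  · intro i
    have e1 := hmain i
    have e2 := congrArg (starRingEnd ℂ) e1
    simp only [map_mul, map_pow, map_add, Complex.conj_natCast, conj_rt] at e2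
    rw [eq_div_iff hr0c]
    linear_combination (conj δ0) * e1 - δ0 * e2
  · rw [tendsto_atTop]
    intro M
    have hev : ∀ᶠ i in atTop, (r0 : ℝ) * (max M 0) ^ 5 < (x i : ℝ) := by
      have : Tendsto (fun i => (x i : ℝ)) atTop atTop := tendsto_natCast_atTop_atTop.comp hxlim
      exact this.eventually_gt_atTop _
    filter_upwards [hev] with i hi
    by_contra hlt
    push Not at hlt
    have e1 := congrArg norm (hmain i)
    rw [norm_mul, norm_mul, norm_pow, Complex.norm_natCast] at e1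
    have hδn : 1 ≤ ‖δ0‖ := one_le_norm hD δ0 hδ0.1 hδ0ne
    have hxn : (x i : ℝ) ≤ ‖(x i : ℂ) + rt D‖ := by
      have h2 := norm_sq_form D (x i) 1
      have e : (((x i : ℕ) : ℤ) : ℂ) + ((1 : ℤ) : ℂ) * rt D = (x i : ℂ) + rt D := by push_cast; ring
      rw [e] at h2
      have h3 : (x i : ℝ) ^ 2 ≤ ‖(x i : ℂ) + rt D‖ ^ 2 := by
        rw [h2]
        have : (0 : ℝ) ≤ D := Nat.cast_nonneg _
        push_cast
        nlinarith
      exact le_of_sq_le_sq h3 (norm_nonneg _) |> fun h => h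
    have h8 : (x i : ℝ) ≤ r0 * ‖β (x i)‖ ^ 5 := by
      rw [e1]
      calc (x i : ℝ) = x i * 1 := by ring
        _ ≤ ‖(x i : ℂ) + rt D‖ * ‖δ0‖ := by gcongr
    have h9 : ‖β (x i)‖ ^ 5 ≤ (max M 0) ^ 5 := by
      apply pow_le_pow_left₀ (norm_nonneg _)
      exact hlt.le.trans (le_max_left _ _)
    have h10 : (r0 : ℝ) * ‖β (x i)‖ ^ 5 ≤ r0 * (max M 0) ^ 5 :=
      mul_le_mul_of_nonneg_left h9 (Nat.cast_nonneg _)
    linarith

end Pool.Agent.Helper17.Smooth
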