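import Mathlib
import Pool.Agent.Helper17.NormalExp
import Pool.Agent.Helper17.SmoothQuad

set_option autoImplicit false

namespace Pool.Agent.Helper17.NormalDS

open Finset Classical

universe u

variable {G : Type u} [Group G] [Fintype G]

theorem Hyp.prime_le {D : Finset G} {lam : ℕ} (h : Hyp D lam) (hlam : 1 ≤ lam)
    (hκ : 10 * ((lam : ℝ) + 1) ^ 2 ≤ Real.sqrt D.card) {p : ℕ} (hp : p.Prime)
    (hpd : p ∣ (Subgroup.center G).index) : p ≤ lam := by
  have : Fact p.Prime := ⟨hp⟩
  obtain ⟨q, hq⟩ := exists_prime_orderOf_dvd_card' (G := G ⧸ Subgroup.center G) p hpd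
  obtain ⟨g, rfl⟩ := QuotientGroup.mk_surjective q
  have h1 := h.exp_center hlam hκ g
  have h2 : (QuotientGroup.mk g : G ⧸ Subgroup.center G) ^ (lam.factorial * lam.factorial) = 1 := by
    rw [← QuotientGroup.mk_pow, QuotientGroup.eq_one_iff]
    exact h1
  have h3 := orderOf_dvd_of_pow_eq_one h2
  rw [hq] at h3
  rcases (Nat.Prime.dvd_mul hp).mp h3 with h4 | h4
  · exact (Nat.Prime.dvd_factorial hp).mp h4
  · exact (Nat.Prime.dvd_factorial hp).mp h4

theorem perfect_pow (R : Type u) [Group R] [Finite R] (hR : commutator R = ⊤) (g : R) :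
    g ^ (Subgroup.center R).index = 1 := by
  have h1 : commutator R ≤ (MonoidHom.transferCenterPow R).ker := by
    rw [commutator_def, Subgroup.commutator_le]
    intro a _ b _
    rw [MonoidHom.mem_ker, map_commutatorElement, commutatorElement_eq_one_iff_mul_comm]
    apply Subtype.ext
    exact Subgroup.mem_center_iff.mp (MonoidHom.transferCenterPow R b).2 _
  rw [hR] at h1
  have h2 : MonoidHom.transferCenterPow R g = 1 := h1 (Subgroup.mem_top g)
  have h3 := MonoidHom.transferCenterPow_apply g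
  rw [h2] at h3
  exact h3.symm

theorem prime_perfect (R : Subgroup G) (hR : ⁅R, R⁆ = R) {p : ℕ} (hp : p.Prime)
    (hpd : p ∣ Nat.card R) : p ∣ (Subgroup.center G).index := by
  have : Fact p.Prime := ⟨hp⟩
  have hcomm : commutator R = ⊤ := by
    have h1 := Subgroup.map_subtype_commutator R
    rw [hR] at h1
    rw [eq_top_iff]
    intro x _
    have hx : (x : G) ∈ (commutator R).map R.subtype := by rw [h1]; exact x.2
    obtain ⟨y, hy, hyx⟩ := Subgroup.mem_map.mp hx
    have : y = x := Subtype.ext hyx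
    rwa [← this]
  obtain ⟨g, hg⟩ := exists_prime_orderOf_dvd_card' (G := R) p hpd
  have h1 := perfect_pow R hcomm g
  have h2 := orderOf_dvd_of_pow_eq_one h1
  rw [hg] at h2
  have h3 : (Subgroup.center R).index ∣ ((Subgroup.center G).subgroupOf R).index := by
    apply Subgroup.index_dvd_of_le
    intro x hx
    rw [Subgroup.mem_subgroupOf] at hx
    rw [Subgroup.mem_center_iff] at hx ⊢
    intro y
    apply Subtype.ext
    exact hx y
  have h4 : (Subgroup.center G).relIndex R ∣ (Subgroup.center G).index :=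
    Subgroup.relIndex_dvd_index_of_normal _ _
  exact h2.trans (h3.trans h4)

/-- finiteness for all nonabelian groups -/
theorem finite_main (lam : ℕ) : ∃ K : ℕ, ∀ (G : Type u) [Group G] [Fintype G] (D : Finset G),
    Hyp D lam → (∃ a b : G, a * b ≠ b * a) → D.card ≤ K := by
  rcases Nat.eq_zero_or_pos lam with h0 | hlam
  · refine ⟨1, ?_⟩
    intro G _ _ D h _
    have h1 := h.ksq
    rw [h0] at h1
    simp only [add_zero, zero_mul] at h1
    by_contra hc
    push Not at hc
    nlinarith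
  obtain ⟨K0, L, hKL⟩ := main.{u} lam
  set B : ℕ := max lam L + 2 with hB
  have hfin := Smooth.polya (4 * lam - 1) B (by omega)
  obtain ⟨X0, hX0⟩ := hfin.bddAbove
  refine ⟨K0 + (10 * (lam + 1) ^ 2) ^ 2 + X0, ?_⟩
  intro G _ _ D h hnc
  by_contra hcon
  push Not at hcon
  have hκ : 10 * ((lam : ℝ) + 1) ^ 2 ≤ Real.sqrt D.card := by
    apply Real.le_sqrt_of_sq_le
    have : (10 * (lam + 1) ^ 2) ^ 2 ≤ D.card := by omega
    exact_mod_cast this
  rcases hKL G D h hnc with h1 | ⟨R, hRn, hRbot, hRR, hRi⟩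
  · omega
  have hprimes : ∀ p : ℕ, p.Prime → p ∣ Nat.card G → p ≤ max lam L := by
    intro p hp hpd
    rw [← Subgroup.card_mul_index R] at hpd
    rcases (Nat.Prime.dvd_mul hp).mp hpd with h2 | h2
    · exact (h.prime_le hlam hκ hp (prime_perfect R hRR hp h2)).trans (le_max_left _ _)
    · have h3 : p ≤ R.index := Nat.le_of_dvd (Nat.pos_of_ne_zero Subgroup.index_ne_zero_of_finite) h2
      exact (h3.trans hRi).trans (le_max_right _ _)
  have hkpos : 1 ≤ D.card := by omega
  have hksq := h.ksq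
  have heq : (2 * D.card - 1) ^ 2 + (4 * lam - 1) = 4 * (lam * Nat.card G) := by
    obtain ⟨k, hk⟩ : ∃ k, D.card = k + 1 := ⟨D.card - 1, by omega⟩
    rw [hk] at hksq ⊢
    obtain ⟨l, hl⟩ : ∃ l, lam = l + 1 := ⟨lam - 1, by omega⟩
    rw [hl] at hksq ⊢
    have e1 : 2 * (k + 1) - 1 = 2 * k + 1 := by omega
    have e2 : 4 * (l + 1) - 1 = 4 * l + 3 := by omega
    rw [e1, e2]
    nlinarith
  have hmem : 2 * D.card - 1 ∈ {X : ℕ | ∀ p : ℕ, p.Prime → p ∣ X ^ 2 + (4 * lam - 1) → p ≤ B} := by
    intro p hp hpd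
    rw [heq] at hpd
    rcases (Nat.Prime.dvd_mul hp).mp hpd with h2 | h2
    · have : p ∣ 2 ^ 2 := h2
      have h3 : p ∣ 2 := hp.dvd_of_dvd_pow this
      have h4 : p ≤ 2 := Nat.le_of_dvd (by norm_num) h3
      omega
    · rcases (Nat.Prime.dvd_mul hp).mp h2 with h3 | h3
      · have h4 : p ≤ lam := Nat.le_of_dvd hlam h3
        have := le_max_left lam L
        omega
      · have := hprimes p hp h3
        omega
  have := hX0 hmem
  omega

end Pool.Agent.Helper17.NormalDS
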