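import Mathlib
import Pool.Agent.Helper17.NormalFinite

set_option autoImplicit false

namespace Pool.Agent.Helper17.Twist

open Finset Classical
open Pool.Agent.Helper17.NormalDS (cf sum_cf sum_cf_sq pairs_subgroup)

universe u v

section level1

variable {G : Type u} [Group G] [Fintype G]

/-- deviation of the coset counts of a difference set -/
theorem dev (D : Finset G) (lam : ℕ)
    (hrep : ∀ g : G, g ≠ 1 → ((D ×ˢ D).filter (fun p => p.1⁻¹ * p.2 = g)).card = lam)
    (H : Subgroup G) (q : G ⧸ H) :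
    ((cf D H q : ℝ) - D.card / H.index) ^ 2 ≤ D.card := by
  have hs : 0 < H.index := Nat.pos_of_ne_zero Subgroup.index_ne_zero_of_finite
  have hcardq : Fintype.card (G ⧸ H) = H.index := by
    rw [Subgroup.index, Nat.card_eq_fintype_card]
  have hv : Nat.card H * H.index = Nat.card G := Subgroup.card_mul_index H
  set s : ℝ := (H.index : ℝ) with hsdef
  set k : ℝ := (D.card : ℝ) with hkdef
  have hs' : 0 < s := by rw [hsdef]; exact_mod_cast hs
  have e1 : (∑ q : G ⧸ H, (cf D H q : ℝ) ^ 2) + lam = k + lam * Nat.card H := by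
    have := pairs_subgroup D lam hrep H
    rw [← sum_cf_sq] at this
    rw [hkdef]
    exact_mod_cast this
  have hksq : D.card ^ 2 + lam = D.card + lam * Nat.card G := by
    have h1 := pairs_subgroup D lam hrep (⊤ : Subgroup G)
    have h2 : ((D ×ˢ D).filter (fun p => p.1⁻¹ * p.2 ∈ (⊤ : Subgroup G))).card = D.card ^ 2 := by
      simp [sq]
    rw [h2] at h1
    have h3 : Nat.card (⊤ : Subgroup G) = Nat.card G := Nat.card_congr Subgroup.topEquiv.toEquiv
    rw [h3] at h1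
    exact h1
  have e2 : k ^ 2 + lam = k + lam * (Nat.card H * s) := by
    have := hksq
    rw [← hv] at this
    rw [hkdef, hsdef]
    exact_mod_cast this
  have e3 : (∑ q : G ⧸ H, (cf D H q : ℝ)) = k := by
    have := sum_cf D H
    rw [hkdef]
    exact_mod_cast this
  have e4 : ∑ q : G ⧸ H, ((cf D H q : ℝ) - k / s) ^ 2
      = (∑ q : G ⧸ H, (cf D H q : ℝ) ^ 2) - k ^ 2 / s := by
    have : ∀ q : G ⧸ H, ((cf D H q : ℝ) - k / s) ^ 2
        = (cf D H q : ℝ) ^ 2 - (2 * (k / s)) * (cf D H q : ℝ) + (k / s) ^ 2 := by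
      intro q; ring
    rw [Finset.sum_congr rfl (fun q _ => this q), Finset.sum_add_distrib, Finset.sum_sub_distrib,
      ← Finset.mul_sum, e3, Finset.sum_const, Finset.card_univ, hcardq, nsmul_eq_mul]
    rw [← hsdef]
    field_simp
    ring
  have e5 : ((cf D H q : ℝ) - k / s) ^ 2 ≤ ∑ q : G ⧸ H, ((cf D H q : ℝ) - k / s) ^ 2 :=
    Finset.single_le_sum (f := fun q : G ⧸ H => ((cf D H q : ℝ) - k / s) ^ 2)
      (fun q _ => sq_nonneg _) (Finset.mem_univ q)
  refine e5.trans ?_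
  rw [e4]
  have e6 : (∑ q : G ⧸ H, (cf D H q : ℝ) ^ 2) - k ^ 2 / s = (k - lam) - (k - lam) / s := by
    have : (∑ q : G ⧸ H, (cf D H q : ℝ) ^ 2) = k + lam * Nat.card H - lam := by linarith
    rw [this]
    have e2' : k ^ 2 = k + lam * (Nat.card H * s) - lam := by linarith
    rw [e2']
    field_simp
    ring
  rw [e6]
  by_cases hG : 1 < Nat.card G
  · have h7 : (lam : ℝ) ≤ k := by
      have h8 : lam ≤ D.card := by
        rw [Nat.card_eq_fintype_card, Fintype.one_lt_card_iff] at hG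
        obtain ⟨a, b, hab⟩ := hG
        have : a⁻¹ * b ≠ 1 := by rwa [Ne, inv_mul_eq_one]
        rw [← hrep _ this]
        refine Finset.card_le_card_of_injOn (fun p => p.1) ?_ ?_
        · intro p hp
          simp only [coe_filter, mem_product] at hp
          exact hp.1.1
        · intro p hp q hq hpq
          simp only [coe_filter, mem_product] at hp hq
          have h1 : p.1⁻¹ * p.2 = q.1⁻¹ * q.2 := by
            have h2 := hp.2
            have h3 := hq.2
            rw [h2, h3]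
          simp only at hpq
          rw [hpq] at h1
          have h2 : p.2 = q.2 := by simpa using h1
          exact Prod.ext hpq h2
      rw [hkdef]; exact_mod_cast h8
    have h8 : 0 ≤ (k - lam) / s := div_nonneg (by linarith) hs'.le
    have h9 : (0 : ℝ) ≤ lam := Nat.cast_nonneg _
    linarith
  · have h10 : Nat.card G = 1 := by
      have : 0 < Nat.card G := Nat.card_pos
      omega
    have h11 : H.index = 1 := by
      have : H.index ∣ Nat.card G := Subgroup.index_dvd_card H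
      rw [h10] at this
      exact Nat.dvd_one.mp this
    have h12 : s = 1 := by rw [hsdef, h11]; simp
    rw [h12]
    have : 0 ≤ k := by rw [hkdef]; exact Nat.cast_nonneg _
    simp
    exact this

end level1

variable {G : Type u} [Group G] [Fintype G] {Γ : Type v} [Group Γ]

/-- a conjugation-invariant difference set in a coset of a group -/
structure THyp (ι : G →* Γ) (D : Finset Γ) (lam : ℕ) : Prop where
  inj : Function.Injective ι
  diff : ∀ a ∈ D, ∀ b ∈ D, ∃ g, a * b⁻¹ = ι g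
  diff' : ∀ a ∈ D, ∀ b ∈ D, ∃ g, a⁻¹ * b = ι g
  rep : ∀ g : G, g ≠ 1 → ((D ×ˢ D).filter (fun p => p.1 * p.2⁻¹ = ι g)).card = lam
  conjG : ∀ g, ∀ d ∈ D, ι g * d * (ι g)⁻¹ ∈ D
  conjD : ∀ a ∈ D, ∀ d ∈ D, a * d * a⁻¹ ∈ D

/-- the setwise stabilizer of `D` under conjugation -/
def Nm (D : Finset Γ) : Subgroup Γ where
  carrier := {x | ∀ d, x * d * x⁻¹ ∈ D ↔ d ∈ D}
  mul_mem' := by
    intro x y hx hy d
    rw [← hy d, ← hx (y * d * y⁻¹)]
    have : x * y * d * (x * y)⁻¹ = x * (y * d * y⁻¹) * x⁻¹ := by group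
    rw [this]
  one_mem' := by intro d; simp
  inv_mem' := by
    intro x hx d
    rw [← hx (x⁻¹ * d * x⁻¹⁻¹)]
    have : x * (x⁻¹ * d * x⁻¹⁻¹) * x⁻¹ = d := by group
    rw [this]

theorem mem_Nm_of {D : Finset Γ} {x : Γ} (h : ∀ d ∈ D, x * d * x⁻¹ ∈ D) : x ∈ Nm D := by
  intro d
  refine ⟨fun hd => ?_, h d⟩
  have himg : D.image (fun d => x * d * x⁻¹) = D := by
    apply Finset.eq_of_subset_of_card_le
    · intro y hy
      obtain ⟨e, he, rfl⟩ := Finset.mem_image.mp hy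
      exact h e he
    · rw [Finset.card_image_of_injective]
      intro a b hab
      simpa using hab
  rw [← himg] at hd
  obtain ⟨e, he, hed⟩ := Finset.mem_image.mp hd
  have : e = d := by simpa using hed
  rwa [← this]

/-- elements of `G` commuting with `x` -/
def CG (ι : G →* Γ) (x : Γ) : Subgroup G := (Subgroup.centralizer {x}).comap ι

omit [Fintype G] in
theorem mem_CG {ι : G →* Γ} {x : Γ} {g : G} : g ∈ CG ι x ↔ ι g * x = x * ι g := by
  unfold CG
  rw [Subgroup.mem_comap, Subgroup.mem_centralizer_singleton_iff]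

/-- the orbit of `x` -/
noncomputable def orb (ι : G →* Γ) (x : Γ) : Finset Γ := univ.image (fun g : G => ι g * x * (ι g)⁻¹)

theorem card_orb (ι : G →* Γ) (x : Γ) : (orb ι x).card = (CG ι x).index := by
  have hwd : ∀ a b : G, (QuotientGroup.leftRel (CG ι x)) a b →
      ι a * x * (ι a)⁻¹ = ι b * x * (ι b)⁻¹ := by
    intro a b hab
    rw [QuotientGroup.leftRel_apply, mem_CG, map_mul, map_inv] at hab
    calc ι a * x * (ι a)⁻¹ = ι a * (x * ((ι a)⁻¹ * ι b)) * ((ι a)⁻¹ * ι b)⁻¹ * (ι a)⁻¹ := by group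
      _ = ι a * (((ι a)⁻¹ * ι b) * x) * ((ι a)⁻¹ * ι b)⁻¹ * (ι a)⁻¹ := by rw [hab]
      _ = ι b * x * (ι b)⁻¹ := by group
  let φ : G ⧸ CG ι x → Γ := Quotient.lift (fun g : G => ι g * x * (ι g)⁻¹) hwd
  have hinj : Function.Injective φ := by
    intro p q hpq
    obtain ⟨a, rfl⟩ := QuotientGroup.mk_surjective p
    obtain ⟨b, rfl⟩ := QuotientGroup.mk_surjective q
    have h1 : ι a * x * (ι a)⁻¹ = ι b * x * (ι b)⁻¹ := hpq
    rw [QuotientGroup.eq, mem_CG, map_mul, map_inv]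
    calc (ι a)⁻¹ * ι b * x = (ι a)⁻¹ * (ι b * x * (ι b)⁻¹) * ι b := by group
      _ = (ι a)⁻¹ * (ι a * x * (ι a)⁻¹) * ι b := by rw [h1]
      _ = x * ((ι a)⁻¹ * ι b) := by group
  have himg : orb ι x = univ.image φ := by
    unfold orb
    ext y
    simp only [mem_image, mem_univ, true_and]
    constructor
    · rintro ⟨g, rfl⟩; exact ⟨QuotientGroup.mk g, rfl⟩
    · rintro ⟨q, rfl⟩
      obtain ⟨g, rfl⟩ := QuotientGroup.mk_surjective q
      exact ⟨g, rfl⟩
  rw [himg, Finset.card_image_of_injective _ hinj, Finset.card_univ, Subgroup.index,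
    Nat.card_eq_fintype_card]

theorem THyp.fix_pairs {ι : G →* Γ} {D : Finset Γ} {lam : ℕ} (h : THyp ι D lam) {x : Γ}
    (hx : x ∈ Nm D) {z : G} (hxz : x * ι z = ι z * x)
    (hz : z ≠ 1) {a b : Γ} (ha : a ∈ D) (hb : b ∈ D) (hab : a * b⁻¹ = ι z) :
    x ^ lam.factorial * a = a * x ^ lam.factorial ∧
    x ^ lam.factorial * b = b * x ^ lam.factorial := by
  set S : Finset (Γ × Γ) := (D ×ˢ D).filter (fun p => p.1 * p.2⁻¹ = ι z) with hS
  have hSc : S.card = lam := h.rep z hz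
  have hmem : ∀ y : Γ, y ∈ Nm D → y * ι z = ι z * y → ∀ p ∈ S,
      (y * p.1 * y⁻¹, y * p.2 * y⁻¹) ∈ S := by
    intro y hyN hy p hp
    rw [hS, mem_filter, mem_product] at hp ⊢
    refine ⟨⟨(hyN _).mpr hp.1.1, (hyN _).mpr hp.1.2⟩, ?_⟩
    show y * p.1 * y⁻¹ * (y * p.2 * y⁻¹)⁻¹ = ι z
    calc y * p.1 * y⁻¹ * (y * p.2 * y⁻¹)⁻¹ = y * (p.1 * p.2⁻¹) * y⁻¹ := by group
      _ = y * ι z * y⁻¹ := by rw [hp.2]
      _ = ι z * y * y⁻¹ := by rw [hy]
      _ = ι z := by group
  have hxz' : x⁻¹ * ι z = ι z * x⁻¹ := by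
    calc x⁻¹ * ι z = x⁻¹ * (ι z * x) * x⁻¹ := by group
      _ = x⁻¹ * (x * ι z) * x⁻¹ := by rw [hxz]
      _ = ι z * x⁻¹ := by group
  let σ : Equiv.Perm S :=
    { toFun := fun p => ⟨(x * p.1.1 * x⁻¹, x * p.1.2 * x⁻¹), hmem x hx hxz p.1 p.2⟩
      invFun := fun p => ⟨(x⁻¹ * p.1.1 * x⁻¹⁻¹, x⁻¹ * p.1.2 * x⁻¹⁻¹),
        hmem x⁻¹ (Subgroup.inv_mem _ hx) hxz' p.1 p.2⟩
      left_inv := by
        intro p
        apply Subtype.ext
        apply Prod.ext
        · show x⁻¹ * (x * p.1.1 * x⁻¹) * x⁻¹⁻¹ = p.1.1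
          group
        · show x⁻¹ * (x * p.1.2 * x⁻¹) * x⁻¹⁻¹ = p.1.2
          group
      right_inv := by
        intro p
        apply Subtype.ext
        apply Prod.ext
        · show x * (x⁻¹ * p.1.1 * x⁻¹⁻¹) * x⁻¹ = p.1.1
          group
        · show x * (x⁻¹ * p.1.2 * x⁻¹⁻¹) * x⁻¹ = p.1.2
          group }
  have hpow : ∀ (n : ℕ) (p : S), ((σ ^ n) p).1 = (x ^ n * p.1.1 * (x ^ n)⁻¹, x ^ n * p.1.2 * (x ^ n)⁻¹) := by
    intro n
    induction n with
    | zero => intro p; simp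
    | succ n ih =>
      intro p
      rw [pow_succ', Equiv.Perm.mul_apply]
      have e : (σ ((σ ^ n) p)).1 = (x * ((σ ^ n) p).1.1 * x⁻¹, x * ((σ ^ n) p).1.2 * x⁻¹) := rfl
      rw [e, ih p]
      apply Prod.ext
      · show x * (x ^ n * p.1.1 * (x ^ n)⁻¹) * x⁻¹ = x ^ (n + 1) * p.1.1 * (x ^ (n + 1))⁻¹
        rw [pow_succ']; group
      · show x * (x ^ n * p.1.2 * (x ^ n)⁻¹) * x⁻¹ = x ^ (n + 1) * p.1.2 * (x ^ (n + 1))⁻¹
        rw [pow_succ']; group
  have hcard : Fintype.card (Equiv.Perm S) = lam.factorial := by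
    rw [Fintype.card_perm, Fintype.card_coe, hSc]
  have hone : σ ^ lam.factorial = 1 := by rw [← hcard]; exact pow_card_eq_one
  have habS : (a, b) ∈ S := by
    rw [hS, mem_filter, mem_product]
    exact ⟨⟨ha, hb⟩, hab⟩
  have h1 := hpow lam.factorial ⟨(a, b), habS⟩
  rw [hone] at h1
  have h2 : a = x ^ lam.factorial * a * (x ^ lam.factorial)⁻¹ := congrArg Prod.fst h1
  have h3 : b = x ^ lam.factorial * b * (x ^ lam.factorial)⁻¹ := congrArg Prod.snd h1
  constructor
  · conv_rhs => rw [h2]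
    group
  · conv_rhs => rw [h3]
    group

/-- the translate of `D` into `G` -/
noncomputable def pull (ι : G →* Γ) (D : Finset Γ) (t : Γ) : Finset G :=
  univ.filter (fun g => t * ι g ∈ D)

theorem mem_pull {ι : G →* Γ} {D : Finset Γ} {t : Γ} {g : G} : g ∈ pull ι D t ↔ t * ι g ∈ D := by
  unfold pull
  simp

theorem THyp.card_pull {ι : G →* Γ} {D : Finset Γ} {lam : ℕ} (h : THyp ι D lam) {t : Γ}
    (ht : t ∈ D) : (pull ι D t).card = D.card := by
  refine Finset.card_bij (fun g _ => t * ι g) ?_ ?_ ?_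
  · intro g hg; exact mem_pull.mp hg
  · intro a _ b _ hab
    exact h.inj (mul_left_cancel hab)
  · intro d hd
    obtain ⟨g, hg⟩ := h.diff' t ht d hd
    have e : t * ι g = d := by rw [← hg]; group
    exact ⟨g, mem_pull.mpr (by rw [e]; exact hd), e⟩

theorem THyp.rep' {ι : G →* Γ} {D : Finset Γ} {lam : ℕ} (h : THyp ι D lam) (g : G) (hg : g ≠ 1) :
    ((D ×ˢ D).filter (fun p => p.1⁻¹ * p.2 = ι g)).card = lam := by
  rw [← h.rep g hg]
  refine Finset.card_bij' (fun p _ => (p.2, p.2⁻¹ * p.1 * p.2)) (fun p _ => (p.1 * p.2 * p.1⁻¹, p.1))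
    ?_ ?_ ?_ ?_
  · intro p hp
    simp only [mem_filter, mem_product] at hp ⊢
    refine ⟨⟨hp.1.2, ?_⟩, ?_⟩
    · have hN : p.2 ∈ Nm D := mem_Nm_of (h.conjD p.2 hp.1.2)
      have := (Subgroup.inv_mem _ hN) p.1
      rw [inv_inv] at this
      exact this.mpr hp.1.1
    · rw [← hp.2]; group
  · intro p hp
    simp only [mem_filter, mem_product] at hp ⊢
    refine ⟨⟨h.conjD _ hp.1.1 _ hp.1.2, hp.1.1⟩, ?_⟩
    rw [← hp.2]; group
  · intro p hp
    ext <;> simp <;> group
  · intro p hp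
    ext <;> simp <;> group

theorem THyp.pull_rep {ι : G →* Γ} {D : Finset Γ} {lam : ℕ} (h : THyp ι D lam) {t : Γ}
    (ht : t ∈ D) (g : G) (hg : g ≠ 1) :
    ((pull ι D t ×ˢ pull ι D t).filter (fun p => p.1⁻¹ * p.2 = g)).card = lam := by
  rw [← h.rep' g hg]
  refine Finset.card_bij (fun p _ => (t * ι p.1, t * ι p.2)) ?_ ?_ ?_
  · intro p hp
    obtain ⟨hp1, hp2⟩ := Finset.mem_filter.mp hp
    obtain ⟨ha, hb⟩ := Finset.mem_product.mp hp1
    refine Finset.mem_filter.mpr ⟨Finset.mem_product.mpr ⟨mem_pull.mp ha, mem_pull.mp hb⟩, ?_⟩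
    show (t * ι p.1)⁻¹ * (t * ι p.2) = ι g
    rw [← hp2, map_mul, map_inv]; group
  · intro p _ q _ hpq
    have h1 := congrArg Prod.fst hpq
    have h2 := congrArg Prod.snd hpq
    exact Prod.ext (h.inj (mul_left_cancel h1)) (h.inj (mul_left_cancel h2))
  · intro p hp
    obtain ⟨hp1, hp2⟩ := Finset.mem_filter.mp hp
    obtain ⟨ha, hb⟩ := Finset.mem_product.mp hp1
    obtain ⟨g1, hg1⟩ := h.diff' t ht p.1 ha
    obtain ⟨g2, hg2⟩ := h.diff' t ht p.2 hb
    have e1 : t * ι g1 = p.1 := by rw [← hg1]; group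
    have e2 : t * ι g2 = p.2 := by rw [← hg2]; group
    refine ⟨(g1, g2), Finset.mem_filter.mpr ⟨Finset.mem_product.mpr
      ⟨mem_pull.mpr (by rw [e1]; exact ha), mem_pull.mpr (by rw [e2]; exact hb)⟩, ?_⟩,
      Prod.ext e1 e2⟩
    apply h.inj
    show ι (g1⁻¹ * g2) = ι g
    rw [map_mul, map_inv, ← hg1, ← hg2, ← hp2]; group

theorem THyp.ksq {ι : G →* Γ} {D : Finset Γ} {lam : ℕ} (h : THyp ι D lam) (hD : D.Nonempty) :
    D.card ^ 2 + lam = D.card + lam * Nat.card G := by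
  obtain ⟨t, ht⟩ := hD
  have h1 := pairs_subgroup (pull ι D t) lam (h.pull_rep ht) (⊤ : Subgroup G)
  have h2 : ((pull ι D t ×ˢ pull ι D t).filter (fun p => p.1⁻¹ * p.2 ∈ (⊤ : Subgroup G))).card
      = (pull ι D t).card ^ 2 := by
    simp [sq]
  rw [h2, h.card_pull ht] at h1
  have h3 : Nat.card (⊤ : Subgroup G) = Nat.card G := Nat.card_congr Subgroup.topEquiv.toEquiv
  rw [h3] at h1
  exact h1

theorem THyp.cf_pull_le {ι : G →* Γ} {D : Finset Γ} {lam : ℕ} (h : THyp ι D lam) {t : Γ}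
    {x : Γ} (hx : x ∈ Nm D) (q : G ⧸ CG ι x)
    (hq : ∀ g : G, (QuotientGroup.mk g : G ⧸ CG ι x) = q → (t * ι g) * x ≠ x * (t * ι g)) :
    cf (pull ι D t) (CG ι x) q ≤ lam := by
  rcases Nat.eq_zero_or_pos (cf (pull ι D t) (CG ι x) q) with h0 | hpos
  · omega
  unfold cf at hpos
  obtain ⟨g, hg⟩ := Finset.card_pos.mp hpos
  obtain ⟨hgD, hgq⟩ := Finset.mem_filter.mp hg
  rw [mem_pull] at hgD
  have hne := hq g hgq
  have hxg : x * (t * ι g) * x⁻¹ ∈ D := (hx _).mpr hgD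
  obtain ⟨z, hz⟩ := h.diff _ hgD _ hxg
  have hz1 : z ≠ 1 := by
    intro h0
    rw [h0, map_one, mul_inv_eq_one] at hz
    apply hne
    calc t * ι g * x = x * (t * ι g) * x⁻¹ * x := by rw [← hz]
      _ = x * (t * ι g) := by group
  rw [← h.rep z hz1]
  unfold cf
  refine Finset.card_le_card_of_injOn (fun e => (t * ι e, x * (t * ι e) * x⁻¹)) ?_ ?_
  · intro e he
    obtain ⟨heD, heq⟩ := Finset.mem_filter.mp (Finset.mem_coe.mp he)
    rw [mem_pull] at heD
    refine Finset.mem_coe.mpr (Finset.mem_filter.mpr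
      ⟨Finset.mem_product.mpr ⟨heD, (hx _).mpr heD⟩, ?_⟩)
    show t * ι e * (x * (t * ι e) * x⁻¹)⁻¹ = ι z
    rw [← hz]
    have h3 : e⁻¹ * g ∈ CG ι x := by
      rw [← QuotientGroup.eq, heq, hgq]
    rw [mem_CG, map_mul, map_inv] at h3
    have h4 : ι e * x * (ι e)⁻¹ = ι g * x * (ι g)⁻¹ := by
      calc ι e * x * (ι e)⁻¹ = ι e * (x * ((ι e)⁻¹ * ι g)) * ((ι e)⁻¹ * ι g)⁻¹ * (ι e)⁻¹ := by group
        _ = ι e * (((ι e)⁻¹ * ι g) * x) * ((ι e)⁻¹ * ι g)⁻¹ * (ι e)⁻¹ := by rw [h3]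
        _ = _ := by group
    calc t * ι e * (x * (t * ι e) * x⁻¹)⁻¹ = t * (ι e * x * (ι e)⁻¹) * t⁻¹ * x⁻¹ := by group
      _ = t * (ι g * x * (ι g)⁻¹) * t⁻¹ * x⁻¹ := by rw [h4]
      _ = t * ι g * (x * (t * ι g) * x⁻¹)⁻¹ := by group
  · intro a _ b _ hab
    have := congrArg Prod.fst hab
    exact h.inj (mul_left_cancel this)

theorem THyp.exists_special {ι : G →* Γ} {D : Finset Γ} {lam : ℕ} (h : THyp ι D lam) (t : Γ)
    {x : Γ} (hx : x ∈ Nm D) :
    ∃ q0 : G ⧸ CG ι x, ∀ q, q ≠ q0 → cf (pull ι D t) (CG ι x) q ≤ lam := by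
  by_cases hex : ∃ g : G, (t * ι g) * x = x * (t * ι g)
  · obtain ⟨g, hg⟩ := hex
    refine ⟨QuotientGroup.mk g, ?_⟩
    intro q hq
    apply h.cf_pull_le hx
    intro g' hg' hcon
    apply hq
    rw [← hg', QuotientGroup.eq, mem_CG, map_mul, map_inv]
    have e1 : ι g * x * (ι g)⁻¹ = t⁻¹ * x * t := by
      calc ι g * x * (ι g)⁻¹ = t⁻¹ * (t * ι g * x) * (ι g)⁻¹ := by group
        _ = t⁻¹ * (x * (t * ι g)) * (ι g)⁻¹ := by rw [hg]
        _ = _ := by group
    have e2 : ι g' * x * (ι g')⁻¹ = t⁻¹ * x * t := by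
      calc ι g' * x * (ι g')⁻¹ = t⁻¹ * (t * ι g' * x) * (ι g')⁻¹ := by group
        _ = t⁻¹ * (x * (t * ι g')) * (ι g')⁻¹ := by rw [hcon]
        _ = _ := by group
    calc (ι g')⁻¹ * ι g * x = (ι g')⁻¹ * (ι g * x * (ι g)⁻¹) * ι g := by group
      _ = (ι g')⁻¹ * (ι g' * x * (ι g')⁻¹) * ι g := by rw [e1, e2]
      _ = x * ((ι g')⁻¹ * ι g) := by group
  · push Not at hex
    refine ⟨QuotientGroup.mk 1, ?_⟩
    intro q _
    apply h.cf_pull_le hx
    intro g _
    exact hex g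

theorem THyp.cf_le {ι : G →* Γ} {D : Finset Γ} {lam : ℕ} (h : THyp ι D lam) {t : Γ}
    (ht : t ∈ D) (H : Subgroup G) (q : G ⧸ H) :
    (cf (pull ι D t) H q : ℝ) ≤ D.card / H.index + Real.sqrt D.card := by
  have h1 := dev (pull ι D t) lam (h.pull_rep ht) H q
  rw [h.card_pull ht] at h1
  have := Real.abs_le_sqrt h1
  have := (abs_le.mp this).2
  linarith

/-- large orbits -/
theorem THyp.class_large {ι : G →* Γ} {D : Finset Γ} {lam : ℕ} (h : THyp ι D lam)
    (hD : D.Nonempty) {x : Γ} (hxN : x ∈ Nm D) (hx : 2 ≤ (CG ι x).index) :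
    (D.card : ℝ) ≤ lam * (CG ι x).index + 2 * Real.sqrt D.card := by
  obtain ⟨t, ht⟩ := hD
  set s : ℝ := ((CG ι x).index : ℝ) with hs
  set k : ℝ := (D.card : ℝ) with hk
  have hs2 : 2 ≤ s := by rw [hs]; exact_mod_cast hx
  have hk0 : 0 ≤ k := by rw [hk]; exact Nat.cast_nonneg _
  obtain ⟨q0, hq0⟩ := h.exists_special t hxN
  have h2 : (cf (pull ι D t) (CG ι x) q0 : ℝ) ≤ k / s + Real.sqrt k := h.cf_le ht _ _
  have h3 : D.card ≤ cf (pull ι D t) (CG ι x) q0 + ((CG ι x).index - 1) * lam := by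
    have h4 := sum_cf (pull ι D t) (CG ι x)
    rw [h.card_pull ht] at h4
    rw [← Finset.add_sum_erase _ _ (Finset.mem_univ q0)] at h4
    have h5 : ∑ q ∈ (univ : Finset (G ⧸ CG ι x)).erase q0, cf (pull ι D t) (CG ι x) q
        ≤ ((CG ι x).index - 1) * lam := by
      refine (Finset.sum_le_card_nsmul _ _ lam
        (fun q hq => hq0 q (Finset.ne_of_mem_erase hq))).trans ?_
      rw [Finset.card_erase_of_mem (Finset.mem_univ _), smul_eq_mul, Finset.card_univ,
        Subgroup.index, Nat.card_eq_fintype_card]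
    omega
  have h6 : k ≤ (k / s + Real.sqrt k) + (s - 1) * lam := by
    have h7 : (D.card : ℝ) ≤ cf (pull ι D t) (CG ι x) q0
        + (((CG ι x).index - 1 : ℕ) : ℝ) * lam := by
      exact_mod_cast h3
    have h8 : (((CG ι x).index - 1 : ℕ) : ℝ) = s - 1 := by
      rw [Nat.cast_sub (by omega)]; simp [hs]
    rw [h8] at h7
    linarith
  have hr : 0 ≤ Real.sqrt k := Real.sqrt_nonneg _
  have hl : (0 : ℝ) ≤ lam := Nat.cast_nonneg _
  have h9 : k * (s - 1) ≤ (Real.sqrt k + (s - 1) * lam) * s := by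
    have : k * s ≤ ((k / s + Real.sqrt k) + (s - 1) * lam) * s :=
      mul_le_mul_of_nonneg_right h6 (by linarith)
    have e : (k / s) * s = k := by field_simp
    nlinarith
  have h10 : (Real.sqrt k + (s - 1) * lam) * s ≤ (lam * s + 2 * Real.sqrt k) * (s - 1) := by
    nlinarith [mul_nonneg hr (by linarith : (0:ℝ) ≤ s - 2)]
  have h11 : k * (s - 1) ≤ (lam * s + 2 * Real.sqrt k) * (s - 1) := h9.trans h10
  exact le_of_mul_le_mul_right h11 (by linarith)

/-- few elements of `D` commute with `x` -/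
theorem THyp.comm_few {ι : G →* Γ} {D : Finset Γ} {lam : ℕ} (h : THyp ι D lam) (x : Γ) :
    ((D.filter (fun d => x * d = d * x)).card : ℝ) ≤
      D.card / (CG ι x).index + Real.sqrt D.card := by
  rcases Finset.eq_empty_or_nonempty (D.filter (fun d => x * d = d * x)) with h0 | ⟨t, ht⟩
  · rw [h0]
    simp only [card_empty, CharP.cast_eq_zero]
    positivity
  · obtain ⟨htD, htx⟩ := Finset.mem_filter.mp ht
    have h1 := h.cf_le htD (CG ι x) (QuotientGroup.mk 1)
    refine le_trans ?_ h1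
    have h2 : (D.filter (fun d => x * d = d * x)).card ≤ cf (pull ι D t) (CG ι x) (QuotientGroup.mk 1) := by
      unfold cf
      have hch : ∀ d ∈ D, ∃ g, t * ι g = d := by
        intro d hd
        obtain ⟨g, hg⟩ := h.diff' t htD d hd
        exact ⟨g, by rw [← hg]; group⟩
      choose! f hf using hch
      refine Finset.card_le_card_of_injOn f ?_ ?_
      · intro d hd
        obtain ⟨hdD, hdx⟩ := Finset.mem_filter.mp (Finset.mem_coe.mp hd)
        have e := hf d hdD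
        refine Finset.mem_coe.mpr (Finset.mem_filter.mpr ⟨mem_pull.mpr (by rw [e]; exact hdD), ?_⟩)
        rw [QuotientGroup.eq, mul_one, Subgroup.inv_mem_iff, mem_CG]
        have e2 : ι (f d) = t⁻¹ * d := by rw [eq_inv_mul_iff_mul_eq]; exact e
        rw [e2]
        have e3 : t⁻¹ * x = x * t⁻¹ := by
          calc t⁻¹ * x = t⁻¹ * (x * t) * t⁻¹ := by group
            _ = t⁻¹ * (t * x) * t⁻¹ := by rw [htx]
            _ = x * t⁻¹ := by group
        calc t⁻¹ * d * x = t⁻¹ * (d * x) := by group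
          _ = t⁻¹ * (x * d) := by rw [hdx]
          _ = (t⁻¹ * x) * d := by group
          _ = (x * t⁻¹) * d := by rw [e3]
          _ = x * (t⁻¹ * d) := by group
      · intro a ha b hb hab
        have haD := (Finset.mem_filter.mp (Finset.mem_coe.mp ha)).1
        have hbD := (Finset.mem_filter.mp (Finset.mem_coe.mp hb)).1
        rw [← hf a haD, ← hf b hbD, hab]
    exact_mod_cast h2

/-- the number of pairs with quotient in the centralizer -/
theorem THyp.pairs_in {ι : G →* Γ} {D : Finset Γ} {lam : ℕ} (h : THyp ι D lam) (d y : Γ)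
    (hy : ∀ z : G, d * ι z = ι z * d → z ≠ 1 → ∀ a ∈ D, ∀ b ∈ D, a * b⁻¹ = ι z →
      y * a = a * y ∧ y * b = b * y) :
    lam * Nat.card (CG ι d) + (D.filter (fun x => y * x = x * y)).card
      ≤ (D.filter (fun x => y * x = x * y)).card ^ 2 + lam := by
  set E : Finset Γ := D.filter (fun x => y * x = x * y) with hE
  set T : Finset G := univ.filter (fun g => g ∈ CG ι d ∧ g ≠ 1) with hT
  have hTc : T.card + 1 = Nat.card (CG ι d) := by
    have h1 : (univ.filter (fun g => g ∈ CG ι d)).card = Nat.card (CG ι d) := by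
      rw [Nat.card_eq_fintype_card, Fintype.card_subtype]
    rw [← h1]
    have h2 : univ.filter (fun g => g ∈ CG ι d) = insert 1 T := by
      ext g
      simp only [hT, mem_filter, mem_univ, true_and, mem_insert]
      constructor
      · intro hg
        by_cases h0 : g = 1
        · exact Or.inl h0
        · exact Or.inr ⟨hg, h0⟩
      · rintro (rfl | ⟨hg, -⟩)
        · exact (CG ι d).one_mem
        · exact hg
    rw [h2, Finset.card_insert_of_notMem]
    simp [hT]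
  have hQ : ((D ×ˢ D).filter (fun p => ∃ z ∈ T, p.1 * p.2⁻¹ = ι z)).card = T.card * lam := by
    have hU : (D ×ˢ D).filter (fun p => ∃ z ∈ T, p.1 * p.2⁻¹ = ι z)
        = T.biUnion (fun z => (D ×ˢ D).filter (fun p => p.1 * p.2⁻¹ = ι z)) := by
      ext p
      simp only [mem_filter, mem_biUnion]
      constructor
      · rintro ⟨hp, z, hz, hpz⟩
        exact ⟨z, hz, hp, hpz⟩
      · rintro ⟨z, hz, hp, hpz⟩
        exact ⟨hp, z, hz, hpz⟩
    rw [hU, Finset.card_biUnion]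
    · rw [Finset.sum_congr rfl (fun z hz => h.rep z (Finset.mem_filter.mp hz).2.2),
        Finset.sum_const, smul_eq_mul]
    · intro z _ z' _ hzz
      rw [Function.onFun, Finset.disjoint_left]
      intro p hp hp'
      apply hzz
      apply h.inj
      rw [← (Finset.mem_filter.mp hp).2, ← (Finset.mem_filter.mp hp').2]
  have hsub : (D ×ˢ D).filter (fun p => ∃ z ∈ T, p.1 * p.2⁻¹ = ι z) ⊆ E.offDiag := by
    intro p hp
    obtain ⟨hpD, z, hzT, hpz⟩ := Finset.mem_filter.mp hp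
    obtain ⟨hp1, hp2⟩ := Finset.mem_product.mp hpD
    obtain ⟨-, hpc, hp0⟩ := Finset.mem_filter.mp hzT
    have hz : d * ι z = ι z * d := by
      rw [mem_CG] at hpc
      exact hpc.symm
    obtain ⟨e1, e2⟩ := hy _ hz hp0 p.1 hp1 p.2 hp2 hpz
    rw [Finset.mem_offDiag]
    refine ⟨Finset.mem_filter.mpr ⟨hp1, e1⟩, Finset.mem_filter.mpr ⟨hp2, e2⟩, ?_⟩
    intro h0
    apply hp0
    apply h.inj
    rw [← hpz, h0, map_one]; group
  have hle := Finset.card_le_card hsub
  rw [hQ, Finset.offDiag_card] at hle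
  have hEE : E.card ≤ E.card * E.card := Nat.le_mul_self _
  have h3 : T.card * lam + E.card ≤ E.card ^ 2 := by rw [sq]; omega
  rw [← hTc]
  have e : lam * (T.card + 1) = T.card * lam + lam := by ring
  rw [e]
  omega

/-- `x` commutes with `ι G` iff the index is one -/
theorem index_CG {ι : G →* Γ} {x : Γ} (hx : ¬ ∀ g, ι g * x = x * ι g) : 2 ≤ (CG ι x).index := by
  have h0 : (CG ι x).index ≠ 0 := Subgroup.index_ne_zero_of_finite
  have h1 : (CG ι x).index ≠ 1 := by
    intro h1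
    rw [Subgroup.index_eq_one] at h1
    apply hx
    intro g
    rw [← mem_CG, h1]
    exact Subgroup.mem_top g
  omega

omit [Fintype G] in
theorem orb_subset [Fintype G] {ι : G →* Γ} {D : Finset Γ} {lam : ℕ} (h : THyp ι D lam) {d : Γ}
    (hd : d ∈ D) : orb ι d ⊆ D := by
  intro y hy
  obtain ⟨g, -, rfl⟩ := Finset.mem_image.mp hy
  exact h.conjG g d hd

theorem orb_disjoint {ι : G →* Γ} {d d' : Γ} (h : d' ∉ orb ι d) : Disjoint (orb ι d) (orb ι d') := by
  rw [Finset.disjoint_left]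
  intro y hy hy'
  apply h
  obtain ⟨g, -, hg⟩ := Finset.mem_image.mp hy
  obtain ⟨g', -, hg'⟩ := Finset.mem_image.mp hy'
  refine Finset.mem_image.mpr ⟨g'⁻¹ * g, Finset.mem_univ _, ?_⟩
  rw [map_mul, map_inv]
  calc (ι g')⁻¹ * ι g * d * ((ι g')⁻¹ * ι g)⁻¹ = (ι g')⁻¹ * (ι g * d * (ι g)⁻¹) * ι g' := by group
    _ = (ι g')⁻¹ * (ι g' * d' * (ι g')⁻¹) * ι g' := by rw [hg, hg']
    _ = d' := by group

/-- in the case where no element of `D` centralizes `G`, a fixed power of every element of `D`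
centralizes `G` -/
theorem THyp.pow_center {ι : G →* Γ} {D : Finset Γ} {lam : ℕ} (h : THyp ι D lam) (hlam : 1 ≤ lam)
    (hκ : 10 * ((lam : ℝ) + 1) ^ 2 ≤ Real.sqrt D.card)
    (hB : ∀ d ∈ D, ¬ ∀ g, ι g * d = d * ι g) {d : Γ} (hd : d ∈ D) :
    ∀ g, ι g * d ^ lam.factorial = d ^ lam.factorial * ι g := by
  by_contra hy
  set y : Γ := d ^ lam.factorial with hyd
  set κ : ℝ := Real.sqrt D.card with hκd
  set k : ℝ := (D.card : ℝ) with hk
  set l : ℝ := (lam : ℝ) with hl
  have hk0 : 0 ≤ k := by rw [hk]; exact Nat.cast_nonneg _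
  have hκk : κ * κ = k := Real.mul_self_sqrt hk0
  have hl1 : 1 ≤ l := by rw [hl]; exact_mod_cast hlam
  have hκ40 : 40 ≤ κ := by nlinarith
  have hκ2 : 20 * (l + 1) ≤ κ := by nlinarith
  have hdc : ¬ ∀ g, ι g * d = d * ι g := hB d hd
  have hDne : D.Nonempty := ⟨d, hd⟩
  have hdN : d ∈ Nm D := mem_Nm_of (h.conjD d hd)
  have hyN : y ∈ Nm D := Subgroup.pow_mem _ hdN _
  have hbig : l * l + 2 * κ < k := by nlinarith
  have hP := h.pairs_in d y (fun z hz hz1 a ha b hb hab => h.fix_pairs hdN hz hz1 ha hb hab)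
  set E : ℕ := (D.filter (fun x => y * x = x * y)).card with hE
  have h1 := h.comm_few y
  rw [← hE, ← hk, ← hκd] at h1
  have h2 := h.class_large hDne hyN (index_CG hy)
  rw [← hk, ← hκd, ← hl] at h2
  have hsy : (0 : ℝ) < (CG ι y).index := by
    exact_mod_cast Nat.pos_of_ne_zero Subgroup.index_ne_zero_of_finite
  have h3 : k / (CG ι y).index ≤ l + 1 := by
    rw [div_le_iff₀ hsy]
    have : l * k ≤ (l + 1) * (k - 2 * κ) := by nlinarith
    have h4 : (l + 1) * (k - 2 * κ) ≤ (l + 1) * (l * (CG ι y).index) :=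
      mul_le_mul_of_nonneg_left (by linarith) (by linarith)
    nlinarith
  have hEle : (E : ℝ) ≤ κ + l + 1 := by linarith
  have hE0 : (0 : ℝ) ≤ E := Nat.cast_nonneg _
  have hP' : l * (Nat.card (CG ι d) : ℝ) ≤ (κ + l + 1) ^ 2 + l := by
    have e1 : l * (Nat.card (CG ι d) : ℝ) + E ≤ (E : ℝ) ^ 2 + l := by
      rw [hl]; exact_mod_cast hP
    have e2 : (E : ℝ) ^ 2 ≤ (κ + l + 1) ^ 2 := pow_le_pow_left₀ hE0 hEle 2
    linarith
  have hm := card_orb ι d
  set m : ℕ := (CG ι d).index with hmd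
  have hm1 : 2 ≤ m := index_CG hdc
  have hGm : Nat.card (CG ι d) * m = Nat.card G := Subgroup.card_mul_index _
  have hksq := h.ksq hDne
  have hGl : k ^ 2 - k ≤ ((κ + l + 1) ^ 2 + l) * m := by
    have e1 : k ^ 2 + l = k + l * (Nat.card (CG ι d) * m) := by
      rw [← hGm] at hksq
      rw [hk, hl]; exact_mod_cast hksq
    have e2 : l * (Nat.card (CG ι d) : ℝ) * m ≤ ((κ + l + 1) ^ 2 + l) * m :=
      mul_le_mul_of_nonneg_right hP' (Nat.cast_nonneg _)
    nlinarith
  by_cases hex : ∃ d' ∈ D, d' ∉ orb ι d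
  · obtain ⟨d', hd', hdcl⟩ := hex
    have h5 : (orb ι d).card + (orb ι d').card ≤ D.card := by
      rw [← Finset.card_union_of_disjoint (orb_disjoint hdcl)]
      exact Finset.card_le_card (Finset.union_subset (orb_subset h hd) (orb_subset h hd'))
    have h6 := h.class_large hDne (mem_Nm_of (h.conjD d' hd')) (index_CG (hB d' hd'))
    rw [← card_orb, ← hk, ← hκd, ← hl] at h6
    have h7 : (m : ℝ) + (orb ι d').card ≤ k := by
      rw [hm] at h5
      rw [hk]; exact_mod_cast h5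
    have h8 : l * m ≤ l * k - k + 2 * κ := by nlinarith
    have h9 : l * (k ^ 2 - k) ≤ ((κ + l + 1) ^ 2 + l) * (l * k - k + 2 * κ) := by
      calc l * (k ^ 2 - k) ≤ l * (((κ + l + 1) ^ 2 + l) * m) :=
            mul_le_mul_of_nonneg_left hGl (by linarith)
        _ = ((κ + l + 1) ^ 2 + l) * (l * m) := by ring
        _ ≤ _ := mul_le_mul_of_nonneg_left h8 (by positivity)
    apply Pool.Agent.Helper17.NormalDS.real_ineq l κ hl1 hκ
    have e1 : k = κ ^ 2 := by rw [← hκk]; ring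
    rw [e1] at h9
    calc l * (κ ^ 4 - κ ^ 2) = l * ((κ ^ 2) ^ 2 - κ ^ 2) := by ring
      _ ≤ _ := h9
  · push Not at hex
    have hDeq : D = orb ι d := Finset.Subset.antisymm hex (orb_subset h hd)
    have hcard : D.card = m := by rw [← hm, ← hDeq]
    have hdvd : D.card ∣ lam := by
      have e1 : D.card ^ 2 + lam = D.card + lam * (Nat.card (CG ι d) * D.card) := by
        rw [hcard, hGm, ← hcard]; exact hksq
      have e2 : D.card ∣ D.card ^ 2 + lam := by
        rw [e1]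
        exact Dvd.dvd.add (dvd_refl _) (Dvd.intro_left (lam * Nat.card (CG ι d)) (by ring))
      have e3 : D.card ∣ D.card ^ 2 := Dvd.intro_left D.card (by ring)
      exact (Nat.dvd_add_right e3).mp e2
    have hle := Nat.le_of_dvd (by omega) hdvd
    have : k ≤ l := by rw [hk, hl]; exact_mod_cast hle
    nlinarith

/-- in that case the exponent of `G` is bounded modulo the centre -/
theorem THyp.exp_center {ι : G →* Γ} {D : Finset Γ} {lam : ℕ} (h : THyp ι D lam) (hlam : 1 ≤ lam)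
    (hκ : 10 * ((lam : ℝ) + 1) ^ 2 ≤ Real.sqrt D.card)
    (hB : ∀ d ∈ D, ¬ ∀ g, ι g * d = d * ι g) (z : G) :
    z ^ (lam.factorial * lam.factorial) ∈ Subgroup.center G := by
  set y : G := z ^ lam.factorial with hy
  rw [pow_mul, ← hy]
  by_cases h0 : y = 1
  · rw [h0, one_pow]; exact Subgroup.one_mem _
  have hzy : ι z * ι y = ι y * ι z := by
    rw [← map_mul, ← map_mul, hy]
    congr 1
    exact (Commute.refl z).pow_right _
  have hzN : ι z ∈ Nm D := mem_Nm_of (h.conjG z)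
  have hpos : 0 < ((D ×ˢ D).filter (fun p => p.1 * p.2⁻¹ = ι y)).card := by
    rw [h.rep y h0]; omega
  obtain ⟨p, hp⟩ := Finset.card_pos.mp hpos
  obtain ⟨hpD, hpy⟩ := Finset.mem_filter.mp hp
  obtain ⟨hp1, hp2⟩ := Finset.mem_product.mp hpD
  obtain ⟨e1, e2⟩ := h.fix_pairs hzN hzy h0 hp1 hp2 hpy
  rw [← map_pow, ← hy] at e1 e2
  have c1 := h.pow_center hlam hκ hB hp1
  have c2 := h.pow_center hlam hκ hB hp2
  have hcomm : Commute p.1 (p.2⁻¹) := by
    have h3 : p.1 = ι y * p.2 := by rw [← hpy]; group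
    have h4 : Commute (ι y) p.2 := e2
    have h5 : Commute (ι y * p.2) p.2 := h4.mul_left (Commute.refl _)
    rw [h3]
    exact h5.inv_right
  have h6 : ι (y ^ lam.factorial) = p.1 ^ lam.factorial * (p.2 ^ lam.factorial)⁻¹ := by
    rw [map_pow, ← hpy, hcomm.mul_pow, inv_pow]
  rw [Subgroup.mem_center_iff]
  intro g
  apply h.inj
  rw [map_mul, map_mul, h6]
  have d1 : Commute (ι g) (p.1 ^ lam.factorial) := c1 g
  have d2 : Commute (ι g) (p.2 ^ lam.factorial) := c2 g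
  exact d1.mul_right d2.inv_right

/-- in that case the centre is trivial -/
theorem THyp.center_trivial {ι : G →* Γ} {D : Finset Γ} {lam : ℕ} (h : THyp ι D lam)
    (hlam : 1 ≤ lam)
    (hκ : 10 * ((lam : ℝ) + 1) ^ 2 ≤ Real.sqrt D.card)
    (hB : ∀ d ∈ D, ¬ ∀ g, ι g * d = d * ι g) {z : G} (hz : z ∈ Subgroup.center G) : z = 1 := by
  by_contra hne
  set κ : ℝ := Real.sqrt D.card with hκd
  set k : ℝ := (D.card : ℝ) with hk
  set l : ℝ := (lam : ℝ) with hl
  have hk0 : 0 ≤ k := by rw [hk]; exact Nat.cast_nonneg _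
  have hκk : κ * κ = k := Real.mul_self_sqrt hk0
  have hl1 : 1 ≤ l := by rw [hl]; exact_mod_cast hlam
  have hκ2 : 20 * (l + 1) ≤ κ := by nlinarith
  have hbig : l * l + 2 * κ < k := by nlinarith
  have hpos : 0 < ((D ×ˢ D).filter (fun p => p.1 * p.2⁻¹ = ι z)).card := by
    rw [h.rep z hne]; omega
  obtain ⟨p, hp⟩ := Finset.card_pos.mp hpos
  obtain ⟨hpD, hpz⟩ := Finset.mem_filter.mp hp
  obtain ⟨hp1, hp2⟩ := Finset.mem_product.mp hpD
  have hcen : ∀ g, ι z * ι g = ι g * ι z := by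
    intro g
    rw [← map_mul, ← map_mul, (Subgroup.mem_center_iff.mp hz g)]
  have h1 : (orb ι p.1).card ≤ lam := by
    rw [← h.rep z hne]
    refine Finset.card_le_card_of_injOn (fun y => (y, (ι z)⁻¹ * y)) ?_ ?_
    · intro y hy
      obtain ⟨g, -, rfl⟩ := Finset.mem_image.mp (Finset.mem_coe.mp hy)
      refine Finset.mem_coe.mpr (Finset.mem_filter.mpr
        ⟨Finset.mem_product.mpr ⟨h.conjG g _ hp1, ?_⟩, ?_⟩)
      · show (ι z)⁻¹ * (ι g * p.1 * (ι g)⁻¹) ∈ D
        have e0 : (ι z)⁻¹ * ι g = ι g * (ι z)⁻¹ := by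
          calc (ι z)⁻¹ * ι g = (ι z)⁻¹ * (ι g * ι z) * (ι z)⁻¹ := by group
            _ = (ι z)⁻¹ * (ι z * ι g) * (ι z)⁻¹ := by rw [hcen]
            _ = ι g * (ι z)⁻¹ := by group
        have e : (ι z)⁻¹ * (ι g * p.1 * (ι g)⁻¹) = ι g * p.2 * (ι g)⁻¹ := by
          calc (ι z)⁻¹ * (ι g * p.1 * (ι g)⁻¹) = ((ι z)⁻¹ * ι g) * p.1 * (ι g)⁻¹ := by group
            _ = (ι g * (ι z)⁻¹) * p.1 * (ι g)⁻¹ := by rw [e0]
            _ = ι g * ((ι z)⁻¹ * p.1) * (ι g)⁻¹ := by group
            _ = ι g * p.2 * (ι g)⁻¹ := by rw [← hpz]; group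
        rw [e]
        exact h.conjG g _ hp2
      · show (ι g * p.1 * (ι g)⁻¹) * ((ι z)⁻¹ * (ι g * p.1 * (ι g)⁻¹))⁻¹ = ι z
        group
    · intro a _ b _ hab
      simpa using congrArg Prod.fst hab
  rw [card_orb] at h1
  have h2 := h.class_large ⟨_, hp1⟩ (mem_Nm_of (h.conjD _ hp1)) (index_CG (hB _ hp1))
  have h3 : ((CG ι p.1).index : ℝ) ≤ lam := by exact_mod_cast h1
  have h4 : (lam : ℝ) * (CG ι p.1).index ≤ lam * lam :=
    mul_le_mul_of_nonneg_left h3 (Nat.cast_nonneg _)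
  linarith

theorem THyp.primes {ι : G →* Γ} {D : Finset Γ} {lam : ℕ} (h : THyp ι D lam)
    (hlam : 1 ≤ lam)
    (hκ : 10 * ((lam : ℝ) + 1) ^ 2 ≤ Real.sqrt D.card)
    (hB : ∀ d ∈ D, ¬ ∀ g, ι g * d = d * ι g) {p : ℕ} (hp : p.Prime) (hpd : p ∣ Nat.card G) :
    p ≤ lam := by
  have : Fact p.Prime := ⟨hp⟩
  obtain ⟨g, hg⟩ := exists_prime_orderOf_dvd_card' (G := G) p hpd
  have h1 := h.center_trivial hlam hκ hB (h.exp_center hlam hκ hB g)
  have h3 := orderOf_dvd_of_pow_eq_one h1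
  rw [hg] at h3
  rcases (Nat.Prime.dvd_mul hp).mp h3 with h4 | h4
  · exact (Nat.Prime.dvd_factorial hp).mp h4
  · exact (Nat.Prime.dvd_factorial hp).mp h4

/-- the twisted finiteness theorem -/
theorem twist_main (lam : ℕ) : ∃ K : ℕ, ∀ (G : Type u) [Group G] [Fintype G] (Γ : Type v) [Group Γ]
    (ι : G →* Γ) (D : Finset Γ),
    THyp ι D lam → (∃ a b : G, a * b ≠ b * a) → D.card ≤ K := by
  rcases Nat.eq_zero_or_pos lam with h0 | hlam
  · refine ⟨1, ?_⟩
    intro G _ _ Γ _ ι D h _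
    rcases Finset.eq_empty_or_nonempty D with h2 | h2
    · rw [h2]; simp
    have h1 := h.ksq h2
    rw [h0] at h1
    simp only [add_zero, zero_mul] at h1
    by_contra hc
    push Not at hc
    nlinarith
  obtain ⟨K0, hK0⟩ := Pool.Agent.Helper17.NormalDS.finite_main.{u} lam
  set B : ℕ := lam + 2 with hB
  have hfin := Smooth.polya (4 * lam - 1) B (by omega)
  obtain ⟨X0, hX0⟩ := hfin.bddAbove
  refine ⟨K0 + (10 * (lam + 1) ^ 2) ^ 2 + X0, ?_⟩
  intro G _ _ Γ _ ι D h hnc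
  by_contra hcon
  push Not at hcon
  have hκ : 10 * ((lam : ℝ) + 1) ^ 2 ≤ Real.sqrt D.card := by
    apply Real.le_sqrt_of_sq_le
    have : (10 * (lam + 1) ^ 2) ^ 2 ≤ D.card := by omega
    exact_mod_cast this
  by_cases hA : ∃ a ∈ D, ∀ g, ι g * a = a * ι g
  · obtain ⟨a, haD, ha⟩ := hA
    have hyp : Pool.Agent.Helper17.NormalDS.Hyp (pull ι D a) lam := by
      refine ⟨?_, ?_⟩
      · intro g hg
        rw [← h.rep g hg]
        refine Finset.card_bij (fun p _ => (a * ι p.1, a * ι p.2)) ?_ ?_ ?_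
        · intro p hp
          obtain ⟨hp1, hp2⟩ := Finset.mem_filter.mp hp
          obtain ⟨hx, hy⟩ := Finset.mem_product.mp hp1
          refine Finset.mem_filter.mpr ⟨Finset.mem_product.mpr ⟨mem_pull.mp hx, mem_pull.mp hy⟩, ?_⟩
          show a * ι p.1 * (a * ι p.2)⁻¹ = ι g
          rw [← hp2, map_mul, map_inv]
          have e2 : a * ι p.1 = ι p.1 * a := (ha p.1).symm
          have e3 : a * ι p.2 = ι p.2 * a := (ha p.2).symm
          rw [e2, e3]; group
        · intro p _ q _ hpq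
          have h1 := congrArg Prod.fst hpq
          have h2 := congrArg Prod.snd hpq
          exact Prod.ext (h.inj (mul_left_cancel h1)) (h.inj (mul_left_cancel h2))
        · intro p hp
          obtain ⟨hp1, hp2⟩ := Finset.mem_filter.mp hp
          obtain ⟨hx, hy⟩ := Finset.mem_product.mp hp1
          obtain ⟨g1, hg1⟩ := h.diff' a haD p.1 hx
          obtain ⟨g2, hg2⟩ := h.diff' a haD p.2 hy
          have e1 : a * ι g1 = p.1 := by rw [← hg1]; group
          have e2 : a * ι g2 = p.2 := by rw [← hg2]; group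
          refine ⟨(g1, g2), Finset.mem_filter.mpr ⟨Finset.mem_product.mpr
            ⟨mem_pull.mpr (by rw [e1]; exact hx), mem_pull.mpr (by rw [e2]; exact hy)⟩, ?_⟩,
            Prod.ext e1 e2⟩
          apply h.inj
          show ι (g1 * g2⁻¹) = ι g
          have e3 : a * ι g1 = ι g1 * a := (ha g1).symm
          have e4 : a * ι g2 = ι g2 * a := (ha g2).symm
          rw [map_mul, map_inv, ← hp2, ← e1, ← e2, e3, e4]; group
      · intro g d hd
        rw [mem_pull] at hd ⊢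
        have e := h.conjG g _ hd
        have e2 : a * ι (g * d * g⁻¹) = ι g * (a * ι d) * (ι g)⁻¹ := by
          rw [map_mul, map_mul, map_inv]
          calc a * (ι g * ι d * (ι g)⁻¹) = (a * ι g) * ι d * (ι g)⁻¹ := by group
            _ = (ι g * a) * ι d * (ι g)⁻¹ := by rw [ha]
            _ = _ := by group
        rw [e2]
        exact e
    have h1 := hK0 G (pull ι D a) hyp hnc
    rw [h.card_pull haD] at h1
    omega
  · push Not at hA
    have hBB : ∀ d ∈ D, ¬ ∀ g, ι g * d = d * ι g := by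
      intro d hd hall
      obtain ⟨g, hg⟩ := hA d hd
      exact hg (hall g)
    have hDne : D.Nonempty := by
      rw [← Finset.card_pos]; omega
    have hksq := h.ksq hDne
    have hkpos : 1 ≤ D.card := by omega
    have heq : (2 * D.card - 1) ^ 2 + (4 * lam - 1) = 4 * (lam * Nat.card G) := by
      obtain ⟨k, hk⟩ : ∃ k, D.card = k + 1 := ⟨D.card - 1, by omega⟩
      rw [hk] at hksq ⊢
      obtain ⟨l, hl⟩ : ∃ l, lam = l + 1 := ⟨lam - 1, by omega⟩
      rw [hl] at hksq ⊢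
      have e1 : 2 * (k + 1) - 1 = 2 * k + 1 := by omega
      have e2 : 4 * (l + 1) - 1 = 4 * l + 3 := by omega
      rw [e1, e2]
      nlinarith
    have hmem : 2 * D.card - 1 ∈
        {X : ℕ | ∀ p : ℕ, p.Prime → p ∣ X ^ 2 + (4 * lam - 1) → p ≤ B} := by
      intro p hp hpd
      rw [heq] at hpd
      rcases (Nat.Prime.dvd_mul hp).mp hpd with h2 | h2
      · have : p ∣ 2 ^ 2 := h2
        have h3 : p ∣ 2 := hp.dvd_of_dvd_pow this
        have h4 : p ≤ 2 := Nat.le_of_dvd (by norm_num) h3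
        omega
      · rcases (Nat.Prime.dvd_mul hp).mp h2 with h3 | h3
        · have h4 : p ≤ lam := Nat.le_of_dvd hlam h3
          omega
        · have := h.primes hlam hκ hBB hp h3
          omega
    have := hX0 hmem
    omega

end Pool.Agent.Helper17.Twist
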