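import Mathlib
import Pool.Agent.Helper17.Twist

set_option autoImplicit false

namespace Pool.Agent.Helper17.Bireg

open Finset Classical

universe u

theorem mf {α : Type*} {p : α → Prop} {inst : DecidablePred p} {s : Finset α} {a : α} :
    a ∈ @Finset.filter α p inst s ↔ a ∈ s ∧ p a := Finset.mem_filter

theorem image_inst {X : Type*} {i1 i2 : DecidableEq X} (σ : Equiv.Perm X) (b : Finset X)
    (S : Finset (Finset X)) (h : @Finset.image X X i1 σ b ∈ S) : @Finset.image X X i2 σ b ∈ S := by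
  have e : @Finset.image X X i2 σ b = @Finset.image X X i1 σ b := by
    ext x
    simp only [Finset.mem_image]
  rw [e]; exact h

section design

variable {X : Type u} [Fintype X]

/-- in a symmetric design two blocks meet in `lam` points -/
theorem dual (𝓑 : Finset (Finset X)) (k lam : ℕ) (hk : ∀ b ∈ 𝓑, b.card = k)
    (hr : ∀ x : X, (𝓑.filter (fun b => x ∈ b)).card = k)
    (hl : ∀ x y : X, x ≠ y → (𝓑.filter (fun b => x ∈ b ∧ y ∈ b)).card = lam)
    (hv : 𝓑.card = Fintype.card X)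
    (hkv : (k : ℤ) * k + lam = k + lam * Fintype.card X) :
    ∀ b ∈ 𝓑, ∀ b' ∈ 𝓑, b ≠ b' → (b ∩ b').card = lam := by
  intro b0 hb0 b1 hb1 hne
  have hcard : ∀ b : Finset X, ((b0 ∩ b).card : ℤ) = ∑ x ∈ b0, if x ∈ b then (1 : ℤ) else 0 := by
    intro b
    rw [← Finset.filter_mem_eq_inter, Finset.card_filter]
    push_cast
    rfl
  have h1 : ∑ b ∈ 𝓑, ((b0 ∩ b).card : ℤ) = k * k := by
    simp only [hcard]
    rw [Finset.sum_comm]
    have : ∀ x ∈ b0, ∑ b ∈ 𝓑, (if x ∈ b then (1 : ℤ) else 0) = k := by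
      intro x _
      rw [← hr x, Finset.card_filter]
      push_cast
      rfl
    rw [Finset.sum_congr rfl this, Finset.sum_const, hk b0 hb0]
    simp
  have h2 : ∑ b ∈ 𝓑, ((b0 ∩ b).card : ℤ) ^ 2 = k * (k + (k - 1) * lam) := by
    have e : ∀ b ∈ 𝓑, ((b0 ∩ b).card : ℤ) ^ 2
        = ∑ x ∈ b0, ∑ y ∈ b0, (if x ∈ b ∧ y ∈ b then (1 : ℤ) else 0) := by
      intro b _
      rw [hcard, sq, Finset.sum_mul_sum]
      refine Finset.sum_congr rfl fun x _ => Finset.sum_congr rfl fun y _ => ?_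
      by_cases hx : x ∈ b <;> by_cases hy : y ∈ b <;> simp [hx, hy]
    rw [Finset.sum_congr rfl e, Finset.sum_comm]
    have e2 : ∀ x ∈ b0, ∑ b ∈ 𝓑, ∑ y ∈ b0, (if x ∈ b ∧ y ∈ b then (1 : ℤ) else 0)
        = k + (k - 1) * lam := by
      intro x hx
      rw [Finset.sum_comm, ← Finset.add_sum_erase _ _ hx]
      have e3 : ∑ b ∈ 𝓑, (if x ∈ b ∧ x ∈ b then (1 : ℤ) else 0) = k := by
        rw [← hr x, Finset.card_filter]
        push_cast
        simp
      have e4 : ∀ y ∈ b0.erase x, ∑ b ∈ 𝓑, (if x ∈ b ∧ y ∈ b then (1 : ℤ) else 0) = lam := by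
        intro y hy
        rw [← hl x y (Finset.ne_of_mem_erase hy).symm, Finset.card_filter]
        push_cast
        rfl
      rw [e3, Finset.sum_congr rfl e4, Finset.sum_const, Finset.card_erase_of_mem hx, hk b0 hb0]
      have hk1 : 1 ≤ k := by
        rw [← hk b0 hb0]
        exact Finset.card_pos.mpr ⟨x, hx⟩
      rw [nsmul_eq_mul, Nat.cast_sub hk1]
      push_cast
      ring
    rw [Finset.sum_congr rfl e2, Finset.sum_const, hk b0 hb0]
    simp
  rw [← Finset.add_sum_erase _ _ hb0] at h1 h2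
  rw [Finset.inter_self, hk b0 hb0] at h1 h2
  have h3 : ∑ b ∈ 𝓑.erase b0, (((b0 ∩ b).card : ℤ) - lam) ^ 2 = 0 := by
    have e : ∀ b ∈ 𝓑.erase b0, (((b0 ∩ b).card : ℤ) - lam) ^ 2
        = ((b0 ∩ b).card : ℤ) ^ 2 - 2 * lam * ((b0 ∩ b).card : ℤ) + lam ^ 2 := by
      intro b _; ring
    rw [Finset.sum_congr rfl e, Finset.sum_add_distrib, Finset.sum_sub_distrib, ← Finset.mul_sum,
      Finset.sum_const, Finset.card_erase_of_mem hb0, hv, nsmul_eq_mul]
    have hv1 : 1 ≤ Fintype.card X := by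
      rw [← hv]; exact Finset.card_pos.mpr ⟨b0, hb0⟩
    rw [Nat.cast_sub hv1]
    push_cast
    linear_combination h2 - 2 * lam * h1 - lam * hkv
  have h4 := (Finset.sum_eq_zero_iff_of_nonneg (fun b _ => sq_nonneg _)).mp h3 b1
    (Finset.mem_erase.mpr ⟨hne.symm, hb1⟩)
  have h5 : ((b0 ∩ b1).card : ℤ) - lam = 0 := by
    exact pow_eq_zero_iff (two_ne_zero) |>.mp h4
  have h6 : ((b0 ∩ b1).card : ℤ) = lam := by linarith
  exact_mod_cast h6

/-- the parameters of a symmetric design -/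
theorem param (𝓑 : Finset (Finset X)) (k lam : ℕ) (hk : ∀ b ∈ 𝓑, b.card = k)
    (hr : ∀ x : X, (𝓑.filter (fun b => x ∈ b)).card = k)
    (hl : ∀ x y : X, x ≠ y → (𝓑.filter (fun b => x ∈ b ∧ y ∈ b)).card = lam) (x : X) :
    (k : ℤ) * k + lam = k + lam * Fintype.card X := by
  have h1 : ∑ y : X, ∑ b ∈ 𝓑.filter (fun b => x ∈ b), (if y ∈ b then (1 : ℤ) else 0) = k * k := by
    rw [Finset.sum_comm]
    have e : ∀ b ∈ 𝓑.filter (fun b => x ∈ b), ∑ y : X, (if y ∈ b then (1 : ℤ) else 0) = k := by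
      intro b hb
      rw [← hk b (Finset.mem_filter.mp hb).1]
      simp
    rw [Finset.sum_congr rfl e, Finset.sum_const, hr x]
    simp
  rw [← Finset.add_sum_erase _ _ (Finset.mem_univ x)] at h1
  have e1 : ∑ b ∈ 𝓑.filter (fun b => x ∈ b), (if x ∈ b then (1 : ℤ) else 0) = k := by
    rw [← hr x, Finset.card_eq_sum_ones]
    push_cast
    refine Finset.sum_congr rfl fun b hb => ?_
    rw [if_pos (Finset.mem_filter.mp hb).2]
  have e2 : ∀ y ∈ (univ : Finset X).erase x,
      ∑ b ∈ 𝓑.filter (fun b => x ∈ b), (if y ∈ b then (1 : ℤ) else 0) = lam := by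
    intro y hy
    rw [← hl x y (Finset.ne_of_mem_erase hy).symm, ← Finset.filter_filter, Finset.card_filter]
    push_cast
    rfl
  rw [e1, Finset.sum_congr rfl e2, Finset.sum_const, Finset.card_erase_of_mem (Finset.mem_univ x),
    nsmul_eq_mul, Finset.card_univ] at h1
  have hv1 : 1 ≤ Fintype.card X := Fintype.card_pos_iff.mpr ⟨x⟩
  rw [Nat.cast_sub hv1] at h1
  push_cast at h1
  linarith

/-- double counting of flags -/
theorem replication (𝓑 : Finset (Finset X)) (k r : ℕ) (hk : ∀ b ∈ 𝓑, b.card = k)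
    (hr : ∀ x : X, (𝓑.filter (fun b => x ∈ b)).card = r) (hv : 𝓑.card = Fintype.card X)
    (hX : 0 < Fintype.card X) : r = k := by
  have h1 : ∑ x : X, ∑ b ∈ 𝓑, (if x ∈ b then 1 else 0) = Fintype.card X * r := by
    have e : ∀ x ∈ (univ : Finset X), ∑ b ∈ 𝓑, (if x ∈ b then 1 else 0) = r := by
      intro x _
      rw [← hr x, Finset.card_filter]
    rw [Finset.sum_congr rfl e, Finset.sum_const, Finset.card_univ, smul_eq_mul]
  rw [Finset.sum_comm] at h1
  have e : ∀ b ∈ 𝓑, ∑ x : X, (if x ∈ b then 1 else 0) = k := by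
    intro b hb
    rw [← hk b hb]
    simp
  rw [Finset.sum_congr rfl e, Finset.sum_const, hv, smul_eq_mul] at h1
  exact (Nat.eq_of_mul_eq_mul_left hX h1).symm

end design

section group

variable {G : Type u} [Group G] [Fintype G]

/-- left translate -/
noncomputable def L (g : G) (b : Finset G) : Finset G := b.image (fun x => g * x)

/-- right translate -/
noncomputable def R (g : G) (b : Finset G) : Finset G := b.image (fun x => x * g)

omit [Fintype G] in
theorem mem_L {g x : G} {b : Finset G} : x ∈ L g b ↔ g⁻¹ * x ∈ b := by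
  unfold L
  rw [Finset.mem_image]
  constructor
  · rintro ⟨y, hy, rfl⟩; simpa using hy
  · intro h; exact ⟨_, h, by group⟩

omit [Fintype G] in
theorem mem_R {g x : G} {b : Finset G} : x ∈ R g b ↔ x * g⁻¹ ∈ b := by
  unfold R
  rw [Finset.mem_image]
  constructor
  · rintro ⟨y, hy, rfl⟩; simpa using hy
  · intro h; exact ⟨_, h, by group⟩

/-- total intersection of a set with its left translates -/
theorem sum_L (D : Finset G) : ∑ g : G, (D ∩ L g D).card = D.card * D.card := by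
  have h : ∀ g : G, (D ∩ L g D).card = ∑ x ∈ D, if g⁻¹ * x ∈ D then 1 else 0 := by
    intro g
    rw [← Finset.filter_mem_eq_inter, Finset.card_filter]
    refine Finset.sum_congr rfl fun x _ => ?_
    simp only [mem_L]
  simp only [h]
  rw [Finset.sum_comm]
  have e : ∀ x ∈ D, ∑ g : G, (if g⁻¹ * x ∈ D then 1 else 0) = D.card := by
    intro x _
    rw [← Finset.card_filter]
    refine Finset.card_bij (fun g _ => g⁻¹ * x) ?_ ?_ ?_
    · intro g hg; exact (Finset.mem_filter.mp hg).2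
    · intro a _ b _ hab; simpa using hab
    · intro d hd
      exact ⟨x * d⁻¹, Finset.mem_filter.mpr ⟨Finset.mem_univ _, by simpa using hd⟩, by simp⟩
  rw [Finset.sum_congr rfl e, Finset.sum_const, smul_eq_mul]

theorem sum_R (D : Finset G) : ∑ g : G, (D ∩ R g D).card = D.card * D.card := by
  have h : ∀ g : G, (D ∩ R g D).card = ∑ x ∈ D, if x * g⁻¹ ∈ D then 1 else 0 := by
    intro g
    rw [← Finset.filter_mem_eq_inter, Finset.card_filter]
    refine Finset.sum_congr rfl fun x _ => ?_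
    simp only [mem_R]
  simp only [h]
  rw [Finset.sum_comm]
  have e : ∀ x ∈ D, ∑ g : G, (if x * g⁻¹ ∈ D then 1 else 0) = D.card := by
    intro x _
    rw [← Finset.card_filter]
    refine Finset.card_bij (fun g _ => x * g⁻¹) ?_ ?_ ?_
    · intro g hg; exact (Finset.mem_filter.mp hg).2
    · intro a _ b _ hab; simpa using hab
    · intro d hd
      exact ⟨d⁻¹ * x, Finset.mem_filter.mpr ⟨Finset.mem_univ _, by simpa using hd⟩, by simp⟩
  rw [Finset.sum_congr rfl e, Finset.sum_const, smul_eq_mul]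

/-- a family of translates with constant intersections has trivial stabilizer -/
theorem stab_trivial (D : Finset G) (lam : ℕ) (T : G → Finset G) (h1 : T 1 = D)
    (hsum : ∑ g : G, (D ∩ T g).card = D.card * D.card)
    (hint : ∀ g : G, T g ≠ D → (D ∩ T g).card = lam)
    (hlt : lam < D.card)
    (hkv : (D.card : ℤ) * D.card + lam = D.card + lam * Fintype.card G) :
    ∀ g : G, T g = D → g = 1 := by
  set S : Finset G := univ.filter (fun g => T g = D) with hS
  have e1 : ∑ g : G, ((D ∩ T g).card : ℤ) = D.card * D.card := by exact_mod_cast hsum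
  have e2 : ∀ g : G, ((D ∩ T g).card : ℤ) = lam + (if T g = D then ((D.card : ℤ) - lam) else 0) := by
    intro g
    by_cases hg : T g = D
    · rw [if_pos hg, hg, Finset.inter_self]; ring
    · rw [if_neg hg, hint g hg]; ring
  simp only [e2] at e1
  rw [Finset.sum_add_distrib, Finset.sum_const, ← Finset.sum_filter, Finset.sum_const,
    Finset.card_univ, nsmul_eq_mul, nsmul_eq_mul, ← hS] at e1
  have e3 : ((S.card : ℤ) - 1) * ((D.card : ℤ) - lam) = 0 := by linear_combination e1 + hkv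
  have e4 : ((D.card : ℤ) - lam) ≠ 0 := by
    have : (lam : ℤ) < D.card := by exact_mod_cast hlt
    omega
  have e5 : (S.card : ℤ) - 1 = 0 := by
    rcases mul_eq_zero.mp e3 with h | h
    · exact h
    · exact absurd h e4
  have e6 : S.card = 1 := by
    have : (S.card : ℤ) = 1 := by linarith
    exact_mod_cast this
  intro g hg
  have m1 : (1 : G) ∈ S := Finset.mem_filter.mpr ⟨Finset.mem_univ _, h1⟩
  have m2 : g ∈ S := Finset.mem_filter.mpr ⟨Finset.mem_univ _, hg⟩
  rw [Finset.card_eq_one] at e6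
  obtain ⟨a, ha⟩ := e6
  rw [ha, Finset.mem_singleton] at m1 m2
  rw [m1, m2]

omit [Fintype G] in
theorem L_L (g h : G) (b : Finset G) : L g (L h b) = L (g * h) b := by
  ext x; simp only [mem_L]; rw [mul_inv_rev, mul_assoc]

omit [Fintype G] in
theorem R_R (g h : G) (b : Finset G) : R g (R h b) = R (h * g) b := by
  ext x; simp only [mem_R]; rw [mul_inv_rev, mul_assoc]

omit [Fintype G] in
theorem L_R (g h : G) (b : Finset G) : L g (R h b) = R h (L g b) := by
  ext x; simp only [mem_R, mem_L]; rw [mul_assoc]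

omit [Fintype G] in
theorem L_one (b : Finset G) : L 1 b = b := by ext x; simp [mem_L]

omit [Fintype G] in
theorem R_one (b : Finset G) : R 1 b = b := by ext x; simp [mem_R]

/-- the automorphism attached to a block -/
theorem exists_aut (𝓑 : Finset (Finset G)) (D : Finset G) (hD : D ∈ 𝓑)
    (hv : 𝓑.card = Fintype.card G)
    (hL : ∀ g, ∀ b ∈ 𝓑, L g b ∈ 𝓑) (hR : ∀ g, ∀ b ∈ 𝓑, R g b ∈ 𝓑)
    (sL : ∀ g : G, L g D = D → g = 1) (sR : ∀ g : G, R g D = D → g = 1) :
    ∃ φ : G ≃* G, ∀ g, L g D = R (φ g) D := by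
  have injR : ∀ a b : G, R a D = R b D → a = b := by
    intro a b hab
    have : R (a * b⁻¹) D = D := by
      rw [← R_R, hab, R_R]; simp [R_one]
    exact mul_inv_eq_one.mp (sR _ this)
  have injL : ∀ a b : G, L a D = L b D → a = b := by
    intro a b hab
    have : L (b⁻¹ * a) D = D := by
      rw [← L_L, hab, L_L]; simp [L_one]
    exact (inv_mul_eq_one.mp (sL _ this)).symm
  have himg : (univ : Finset G).image (fun g => R g D) = 𝓑 := by
    apply Finset.eq_of_subset_of_card_le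
    · intro b hb
      obtain ⟨g, -, rfl⟩ := Finset.mem_image.mp hb
      exact hR g D hD
    · rw [Finset.card_image_of_injective _ (fun a b hab => injR a b hab), hv, Finset.card_univ]
  have hex : ∀ g : G, ∃ h : G, L g D = R h D := by
    intro g
    have := hL g D hD
    rw [← himg] at this
    obtain ⟨h, -, hh⟩ := Finset.mem_image.mp this
    exact ⟨h, hh.symm⟩
  choose f hf using hex
  have fmul : ∀ a b, f (a * b) = f a * f b := by
    intro a b
    apply injR
    rw [← hf, ← L_L, hf b, L_R, hf a, R_R]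
  have finj : Function.Injective f := by
    intro a b hab
    apply injL
    rw [hf, hf, hab]
  have fbij : Function.Bijective f := Finite.injective_iff_bijective.mp finj
  exact ⟨MulEquiv.ofBijective (MonoidHom.mk' f fmul) fbij, hf⟩

theorem hr_group (𝓑 : Finset (Finset G)) (k : ℕ) (hk : ∀ b ∈ 𝓑, b.card = k)
    (hv : 𝓑.card = Fintype.card G) (hL : ∀ g, ∀ b ∈ 𝓑, L g b ∈ 𝓑) :
    ∀ x : G, (𝓑.filter (fun b => x ∈ b)).card = k := by
  have hX : 0 < Fintype.card G := Fintype.card_pos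
  have hr0 : ∀ x : G, (𝓑.filter (fun b => x ∈ b)).card = (𝓑.filter (fun b => (1 : G) ∈ b)).card := by
    intro x
    refine Finset.card_bij (fun b _ => L x⁻¹ b) ?_ ?_ ?_
    · intro b hb
      obtain ⟨h1, h2⟩ := Finset.mem_filter.mp hb
      exact Finset.mem_filter.mpr ⟨hL _ _ h1, by rw [mem_L]; simpa using h2⟩
    · intro a _ b _ hab
      have := congrArg (L x) hab
      simpa [L_L, L_one] using this
    · intro b hb
      obtain ⟨h1, h2⟩ := Finset.mem_filter.mp hb
      exact ⟨L x b, Finset.mem_filter.mpr ⟨hL _ _ h1, by rw [mem_L]; simpa using h2⟩,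
        by simp [L_L, L_one]⟩
  have hrk := replication 𝓑 k _ hk hr0 hv hX
  intro x; rw [hr0, hrk]

theorem bireg_twist (𝓑 : Finset (Finset G)) (k lam : ℕ) (hk : ∀ b ∈ 𝓑, b.card = k)
    (hl : ∀ x y : G, x ≠ y → (𝓑.filter (fun b => x ∈ b ∧ y ∈ b)).card = lam)
    (hv : 𝓑.card = Fintype.card G)
    (hL : ∀ g, ∀ b ∈ 𝓑, L g b ∈ 𝓑) (hR : ∀ g, ∀ b ∈ 𝓑, R g b ∈ 𝓑) (hlt : lam < k) :
    ∃ D : Finset (Equiv.Perm G), D.card = k ∧
      Pool.Agent.Helper17.Twist.THyp (MulAction.toPermHom G G) D lam := by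
  have hX : 0 < Fintype.card G := Fintype.card_pos
  have hr := hr_group 𝓑 k hk hv hL
  have hkv := param 𝓑 k lam hk hr hl (1 : G)
  have hdual := dual 𝓑 k lam hk hr hl hv hkv
  obtain ⟨D, hD⟩ : 𝓑.Nonempty := by rw [← Finset.card_pos, hv]; exact hX
  have hDk : D.card = k := hk D hD
  have sL : ∀ g : G, L g D = D → g = 1 := by
    apply stab_trivial D lam (fun g => L g D) (L_one D) (sum_L D)
    · intro g hg
      exact hdual D hD _ (hL g D hD) (Ne.symm hg)
    · rw [hDk]; exact hlt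
    · rw [hDk]; exact hkv
  have sR : ∀ g : G, R g D = D → g = 1 := by
    apply stab_trivial D lam (fun g => R g D) (R_one D) (sum_R D)
    · intro g hg
      exact hdual D hD _ (hR g D hD) (Ne.symm hg)
    · rw [hDk]; exact hlt
    · rw [hDk]; exact hkv
  obtain ⟨φ, hφ⟩ := exists_aut 𝓑 D hD hv hL hR sL sR
  have hconj : ∀ g : G, ∀ d ∈ D, g * d * (φ g)⁻¹ ∈ D := by
    intro g d hd
    have h1 : g * d ∈ L g D := by rw [mem_L]; simpa using hd
    rw [hφ, mem_R] at h1
    exact h1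
  have hφD : ∀ d ∈ D, φ d ∈ D := by
    intro d hd
    have := hconj d⁻¹ d hd
    simpa using this
  -- the twisted set
  set P : Equiv.Perm G := φ.toEquiv with hP
  set ι : G →* Equiv.Perm G := MulAction.toPermHom G G with hι
  have hιx : ∀ g x : G, ι g x = g * x := fun g x => rfl
  have hPx : ∀ x : G, P x = φ x := fun x => rfl
  have hιinj : Function.Injective ι := by
    intro a b hab
    have := congrArg (fun e : Equiv.Perm G => e 1) hab
    simpa [hιx] using this
  have hPι : ∀ g : G, P * ι g = ι (φ g) * P := by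
    intro g
    ext x
    simp only [Equiv.Perm.mul_apply, hιx, hPx, map_mul]
  refine ⟨D.image (fun d => ι d * P), ?_, ?_⟩
  · rw [Finset.card_image_of_injective, hDk]
    intro a b hab
    exact hιinj (mul_right_cancel hab)
  refine ⟨hιinj, ?_, ?_, ?_, ?_, ?_⟩
  · intro a ha b hb
    obtain ⟨x, -, rfl⟩ := Finset.mem_image.mp ha
    obtain ⟨y, -, rfl⟩ := Finset.mem_image.mp hb
    refine ⟨x * y⁻¹, ?_⟩
    rw [map_mul, map_inv]; group
  · intro a ha b hb
    obtain ⟨x, -, rfl⟩ := Finset.mem_image.mp ha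
    obtain ⟨y, -, rfl⟩ := Finset.mem_image.mp hb
    refine ⟨φ.symm (x⁻¹ * y), ?_⟩
    have h1 := hPι (φ.symm (x⁻¹ * y))
    rw [MulEquiv.apply_symm_apply, map_mul ι, map_inv] at h1
    calc (ι x * P)⁻¹ * (ι y * P) = P⁻¹ * (((ι x)⁻¹ * ι y) * P) := by group
      _ = P⁻¹ * (P * ι (φ.symm (x⁻¹ * y))) := by rw [h1]
      _ = ι (φ.symm (x⁻¹ * y)) := by group
  · intro g hg
    have hne : L g D ≠ D := fun h => hg (sL g h)
    have h1 := hdual D hD _ (hL g D hD) (Ne.symm hne)
    rw [← h1]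
    symm
    refine Finset.card_bij (fun x _ => (ι x * P, ι (g⁻¹ * x) * P)) ?_ ?_ ?_
    · intro x hx
      obtain ⟨hx1, hx2⟩ := Finset.mem_inter.mp hx
      rw [mem_L] at hx2
      refine mf.mpr ⟨Finset.mem_product.mpr ⟨Finset.mem_image.mpr ⟨x, hx1, rfl⟩,
        Finset.mem_image.mpr ⟨_, hx2, rfl⟩⟩, ?_⟩
      show ι x * P * (ι (g⁻¹ * x) * P)⁻¹ = ι g
      rw [map_mul, map_inv]; group
    · intro a _ b _ hab
      exact hιinj (mul_right_cancel (congrArg Prod.fst hab))
    · intro p hp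
      obtain ⟨hp1, hp2⟩ := mf.mp hp
      obtain ⟨ha, hb⟩ := Finset.mem_product.mp hp1
      obtain ⟨x, hx, hxp⟩ := Finset.mem_image.mp ha
      obtain ⟨y, hy, hyp⟩ := Finset.mem_image.mp hb
      have e : x * y⁻¹ = g := by
        apply hιinj
        rw [map_mul, map_inv, ← hp2, ← hxp, ← hyp]; group
      have e2 : y = g⁻¹ * x := by rw [← e]; group
      refine ⟨x, Finset.mem_inter.mpr ⟨hx, by rw [mem_L, ← e2]; exact hy⟩, ?_⟩
      rw [← e2]
      exact Prod.ext hxp hyp
  · intro g d hd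
    obtain ⟨x, hx, rfl⟩ := Finset.mem_image.mp hd
    refine Finset.mem_image.mpr ⟨g * x * (φ g)⁻¹, hconj g x hx, ?_⟩
    have h1 := hPι g⁻¹
    rw [map_inv φ] at h1
    calc ι (g * x * (φ g)⁻¹) * P = ι g * ι x * (ι (φ g)⁻¹ * P) := by
          rw [map_mul, map_mul]; group
      _ = ι g * ι x * (P * ι g⁻¹) := by rw [h1]
      _ = ι g * (ι x * P) * (ι g)⁻¹ := by rw [map_inv]; group
  · intro a ha d hd
    obtain ⟨y, hy, rfl⟩ := Finset.mem_image.mp ha
    obtain ⟨x, hx, rfl⟩ := Finset.mem_image.mp hd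
    refine Finset.mem_image.mpr ⟨y * φ x * (φ y)⁻¹, hconj y _ (hφD x hx), ?_⟩
    have h1 := hPι y⁻¹
    rw [map_inv φ] at h1
    have h2 := hPι x
    calc ι (y * φ x * (φ y)⁻¹) * P = ι y * ι (φ x) * (ι (φ y)⁻¹ * P) := by
          rw [map_mul, map_mul]; group
      _ = ι y * ι (φ x) * (P * ι y⁻¹) := by rw [h1]
      _ = ι y * (ι (φ x) * P) * (ι y)⁻¹ := by rw [map_inv]; group
      _ = ι y * (P * ι x) * (ι y)⁻¹ := by rw [h2]
      _ = ι y * P * (ι x * P) * (ι y * P)⁻¹ := by group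

end group

/-- finiteness for biregular symmetric designs -/
theorem bireg_main (lam : ℕ) (hlam : 1 ≤ lam) : ∃ K : ℕ, ∀ (G : Type u) [Group G] [Fintype G]
    (𝓑 : Finset (Finset G)) (k : ℕ), (∀ b ∈ 𝓑, b.card = k) →
    (∀ x y : G, x ≠ y → (𝓑.filter (fun b => x ∈ b ∧ y ∈ b)).card = lam) →
    𝓑.card = Fintype.card G →
    (∀ g, ∀ b ∈ 𝓑, L g b ∈ 𝓑) → (∀ g, ∀ b ∈ 𝓑, R g b ∈ 𝓑) →
    (∃ a b : G, a * b ≠ b * a) → Fintype.card G ≤ K := by
  obtain ⟨K, hK⟩ := Pool.Agent.Helper17.Twist.twist_main.{u, u} lam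
  refine ⟨(K + lam) ^ 2 + lam, ?_⟩
  intro G _ _ 𝓑 k hk hl hv hL hR hnc
  have hkK : k ≤ K + lam := by
    by_contra hcon
    push Not at hcon
    obtain ⟨D, hD, hT⟩ := bireg_twist 𝓑 k lam hk hl hv hL hR (by omega)
    have := hK G (Equiv.Perm G) _ D hT hnc
    omega
  have hr := hr_group 𝓑 k hk hv hL
  have hkv := param 𝓑 k lam hk hr hl (1 : G)
  have h1 : k * k + lam = k + lam * Fintype.card G := by exact_mod_cast hkv
  have h2 : Fintype.card G ≤ lam * Fintype.card G := Nat.le_mul_of_pos_left _ hlam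
  have h3 : k * k ≤ (K + lam) ^ 2 := by rw [sq]; exact Nat.mul_le_mul hkK hkK
  omega

/-- finiteness for symmetric designs with commuting transitive groups -/
theorem commuting_main (lam : ℕ) (hlam : 1 ≤ lam) : ∃ K : ℕ, ∀ (X : Type u) [Fintype X]
    (𝓑 : Finset (Finset X)) (k : ℕ) (A C : Subgroup (Equiv.Perm X)),
    𝓑.card = Fintype.card X → (∀ b ∈ 𝓑, b.card = k) →
    (∀ x y : X, x ≠ y → (𝓑.filter (fun b => x ∈ b ∧ y ∈ b)).card = lam) →
    (∀ σ ∈ A, ∀ b ∈ 𝓑, b.image σ ∈ 𝓑) → (∀ σ ∈ C, ∀ b ∈ 𝓑, b.image σ ∈ 𝓑) →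
    (∀ x y : X, ∃ σ ∈ A, σ x = y) → (∀ x y : X, ∃ σ ∈ C, σ x = y) →
    (∀ σ ∈ A, ∀ τ ∈ C, σ * τ = τ * σ) → (∃ σ ∈ A, ∃ τ ∈ A, σ * τ ≠ τ * σ) →
    Fintype.card X ≤ K := by
  obtain ⟨K, hK⟩ := bireg_main.{u} lam hlam
  refine ⟨K, ?_⟩
  intro X _ 𝓑 k A C hv hk hl hA hC tA tC hcomm hnc
  obtain ⟨σ0, hσ0, τ0, hτ0, hne0⟩ := hnc
  have hXne : Nonempty X := by
    by_contra hX
    rw [not_nonempty_iff] at hX
    exact hne0 (Subsingleton.elim _ _)
  obtain ⟨x0⟩ := hXne
  letI : Fintype A := Fintype.ofFinite A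
  have hinj : Function.Injective (fun a : A => a.1 x0) := by
    intro a b hab
    apply Subtype.ext
    ext y
    obtain ⟨τ, hτ, hτy⟩ := tC x0 y
    have h1 : a.1 (τ x0) = τ (a.1 x0) := by
      have := hcomm a.1 a.2 τ hτ
      exact congrArg (fun e : Equiv.Perm X => e x0) this
    have h2 : b.1 (τ x0) = τ (b.1 x0) := by
      have := hcomm b.1 b.2 τ hτ
      exact congrArg (fun e : Equiv.Perm X => e x0) this
    rw [← hτy, h1, h2]
    exact congrArg τ hab
  have hsurj : Function.Surjective (fun a : A => a.1 x0) := by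
    intro y
    obtain ⟨σ, hσ, h⟩ := tA x0 y
    exact ⟨⟨σ, hσ⟩, h⟩
  let e : A ≃ X := Equiv.ofBijective _ ⟨hinj, hsurj⟩
  have he : ∀ a : A, e a = a.1 x0 := fun a => rfl
  let pb : Finset X → Finset A := fun b => b.image e.symm
  have mem_pb : ∀ (a : A) (b : Finset X), a ∈ pb b ↔ e a ∈ b := by
    intro a b
    show a ∈ b.image e.symm ↔ _
    rw [Finset.mem_image]
    constructor
    · rintro ⟨x, hx, rfl⟩; simpa using hx
    · intro h; exact ⟨e a, h, by simp⟩
  have pbinj : Function.Injective pb := Finset.image_injective e.symm.injective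
  have mem_im : ∀ (σ : Equiv.Perm X) (b : Finset X) (x : X), x ∈ b.image σ ↔ σ⁻¹ x ∈ b := by
    intro σ b x
    rw [Finset.mem_image]
    constructor
    · rintro ⟨y, hy, rfl⟩; simpa using hy
    · intro h; exact ⟨_, h, by simp⟩
  have hcard := hK A (𝓑.image pb) k ?_ ?_ ?_ ?_ ?_ ?_
  · rw [Fintype.card_congr e] at hcard
    exact hcard
  · intro b hb
    obtain ⟨b', hb', rfl⟩ := Finset.mem_image.mp hb
    show (b'.image e.symm).card = k
    rw [Finset.card_image_of_injective _ e.symm.injective, hk b' hb']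
  · intro x y hxy
    rw [← hl (e x) (e y) (fun h => hxy (e.injective h))]
    symm
    refine Finset.card_bij (fun b _ => pb b) ?_ ?_ ?_
    · intro b hb
      obtain ⟨h1, h2, h3⟩ := mf.mp hb
      exact mf.mpr ⟨Finset.mem_image_of_mem _ h1, (mem_pb _ _).mpr h2, (mem_pb _ _).mpr h3⟩
    · intro a _ b _ hab; exact pbinj hab
    · intro b hb
      obtain ⟨h1, h2, h3⟩ := mf.mp hb
      obtain ⟨b', hb', rfl⟩ := Finset.mem_image.mp h1
      exact ⟨b', mf.mpr ⟨hb', (mem_pb _ _).mp h2, (mem_pb _ _).mp h3⟩, rfl⟩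
  · rw [Finset.card_image_of_injective _ pbinj, hv, Fintype.card_congr e]
  · intro g b hb
    obtain ⟨b', hb', rfl⟩ := Finset.mem_image.mp hb
    have h1 : L g (pb b') = pb (b'.image g.1) := by
      ext a
      rw [mem_L, mem_pb, mem_pb, mem_im, he, he]
      rfl
    rw [h1]
    exact Finset.mem_image_of_mem _ (hA g.1 g.2 b' hb')
  · intro g b hb
    obtain ⟨b', hb', rfl⟩ := Finset.mem_image.mp hb
    obtain ⟨c, hc, hcx⟩ := tC x0 (g⁻¹.1 x0)
    have h1 : R g (pb b') = pb (b'.image (c⁻¹ : Equiv.Perm X)) := by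
      ext a
      rw [mem_R, mem_pb, mem_pb, mem_im, he, he, inv_inv]
      have h2 : (a * g⁻¹).1 x0 = c (a.1 x0) := by
        have h3 : (a * g⁻¹).1 x0 = a.1 (g⁻¹.1 x0) := rfl
        rw [h3, ← hcx]
        have := hcomm a.1 a.2 c hc
        exact congrArg (fun e : Equiv.Perm X => e x0) this
      rw [h2]
    rw [h1]
    exact Finset.mem_image_of_mem _ (hC _ (Subgroup.inv_mem _ hc) b' hb')
  · refine ⟨⟨σ0, hσ0⟩, ⟨τ0, hτ0⟩, ?_⟩
    intro h
    exact hne0 (congrArg Subtype.val h)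

end Pool.Agent.Helper17.Bireg
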