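import Mathlib

set_option autoImplicit false

namespace Pool.Agent.Helper17.DihQ

open Finset Matrix

/-- the trace of an idempotent rational matrix is a natural number -/
theorem trace_idem {n : Type*} [Fintype n] [DecidableEq n] (E : Matrix n n ℚ) (hE : E * E = E) :
    ∃ r : ℕ, E.trace = r := by
  have h1 : IsIdempotentElem (Matrix.toLin' E) := by
    show Matrix.toLin' E * Matrix.toLin' E = Matrix.toLin' E
    rw [Module.End.mul_eq_comp, ← Matrix.toLin'_mul, hE]
  have h2 := (LinearMap.IsIdempotentElem.isProj_range _ h1).trace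
  rw [Matrix.trace_toLin'_eq] at h2
  exact ⟨_, h2⟩

/-- the arithmetic at the end -/
theorem arith (w QA α β k s lam u e r : ℤ) (hs : s ≠ 0) (hlam : 1 ≤ lam) (hu : 1 ≤ u)
    (h1 : α + β = k) (h2 : α - β = s) (hk : k = s ^ 2 + lam) (h3 : lam * u * w = 2 * (α * β))
    (hQ : QA = α + e) (he0 : 0 ≤ e) (he1 : e ≤ lam * (u - 1))
    (hr : w * QA - α ^ 2 = s ^ 2 * r) : |s| ≤ lam ^ 2 * (2 * u - 1) + lam := by
  set Y : ℤ := 2 * e - lam * (u - 1) - s * (2 * u - 1) with hY
  have hα : 2 * α = k + s := by linarith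
  have hβ : 2 * β = k - s := by linarith
  have hdiv : s ^ 2 ∣ lam ^ 2 * Y := by
    have e1 : 2 * (lam * u * w) = k ^ 2 - s ^ 2 := by
      rw [h3]
      linear_combination (2 * β) * hα + (k + s) * hβ
    have e2 : 4 * (lam * u) * (w * QA - α ^ 2) = (k ^ 2 - s ^ 2) * (k + s + 2 * e)
        - lam * u * (k + s) ^ 2 := by
      have : 4 * (lam * u) * (w * QA - α ^ 2) = (2 * (lam * u * w)) * (2 * QA)
          - lam * u * (2 * α) ^ 2 := by ring
      rw [this, e1, hα, hQ]
      linear_combination (k ^ 2 - s ^ 2) * hα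
    rw [hr] at e2
    refine ⟨4 * (lam * u) * r - ((s ^ 2 + 2 * lam - 1) * (lam + s + 2 * e + s ^ 2) + lam ^ 2
      - lam * u * (1 + s ^ 2 + 2 * lam + 2 * s)), ?_⟩
    rw [hk] at e2
    rw [hY]
    linear_combination -e2
  have hYb : |2 * e - lam * (u - 1)| ≤ lam * (u - 1) := by
    rw [abs_le]
    constructor <;> linarith
  have hspos : 0 < |s| := abs_pos.mpr hs
  have hs2 : s ^ 2 = |s| ^ 2 := (sq_abs s).symm
  have hu0 : 0 ≤ lam * (u - 1) := by
    apply mul_nonneg <;> linarith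
  have h2u : |s * (2 * u - 1)| = |s| * (2 * u - 1) := by
    rw [abs_mul, abs_of_nonneg (by linarith : (0 : ℤ) ≤ 2 * u - 1)]
  by_cases hY0 : Y = 0
  · have h5 : 2 * e - lam * (u - 1) = s * (2 * u - 1) := by linarith
    rw [h5, h2u] at hYb
    have h6 : |s| * 1 ≤ |s| * (2 * u - 1) := mul_le_mul_of_nonneg_left (by linarith) hspos.le
    have h7 : lam * (u - 1) ≤ lam ^ 2 * (2 * u - 1) := by nlinarith
    linarith
  · have h5 : s ^ 2 ≤ |lam ^ 2 * Y| := by
      apply Int.le_of_dvd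
      · rw [abs_pos]
        exact mul_ne_zero (pow_ne_zero _ (by linarith)) hY0
      · rwa [dvd_abs]
    have h6 : |Y| ≤ lam * (u - 1) + |s| * (2 * u - 1) := by
      rw [hY]
      calc |2 * e - lam * (u - 1) - s * (2 * u - 1)|
          ≤ |2 * e - lam * (u - 1)| + |s * (2 * u - 1)| := abs_sub _ _
        _ ≤ _ := by rw [h2u]; linarith
    rw [abs_mul, abs_of_nonneg (by positivity : (0 : ℤ) ≤ lam ^ 2)] at h5
    have h7 : |s| ^ 2 ≤ lam ^ 2 * (lam * (u - 1) + |s| * (2 * u - 1)) := by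
      rw [← hs2]
      exact h5.trans (mul_le_mul_of_nonneg_left h6 (by positivity))
    by_contra hcon
    push Not at hcon
    -- |s| > lam^2 (2u-1) + lam
    have h8 : |s| * (lam ^ 2 * (2 * u - 1) + lam) ≤ |s| * |s| :=
      mul_le_mul_of_nonneg_left hcon.le hspos.le
    have h9 : |s| * lam ≤ lam ^ 2 * (lam * (u - 1)) := by nlinarith
    have h10 : (lam ^ 2 * (2 * u - 1) + lam) * lam < |s| * lam := by
      apply mul_lt_mul_of_pos_right hcon (by linarith)
    nlinarith [mul_nonneg (by positivity : (0 : ℤ) ≤ lam ^ 2) (by linarith : (0 : ℤ) ≤ lam * u)]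

section conv

variable {H : Type*} [Group H] [Fintype H] [DecidableEq H]

/-- the convolution matrix -/
def M (X : H → ℚ) : Matrix H H ℚ := Matrix.of fun i j => X (i * j⁻¹)

/-- the all-one matrix -/
def J (H : Type*) : Matrix H H ℚ := Matrix.of fun _ _ => 1

theorem M_comm (hc : ∀ a b : H, a * b = b * a) (X Y : H → ℚ) : M X * M Y = M Y * M X := by
  ext i j
  rw [Matrix.mul_apply, Matrix.mul_apply]
  refine Fintype.sum_equiv ((Equiv.inv H).trans (Equiv.mulRight (i * j))) _ _ ?_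
  intro l
  show X (i * l⁻¹) * Y (l * j⁻¹) = Y (i * (l⁻¹ * (i * j))⁻¹) * X (l⁻¹ * (i * j) * j⁻¹)
  have e1 : i * (l⁻¹ * (i * j))⁻¹ = l * j⁻¹ := by
    rw [_root_.mul_inv_rev, _root_.mul_inv_rev, inv_inv, hc (j⁻¹ * i⁻¹) l, hc j⁻¹ i⁻¹]
    rw [← mul_assoc i, hc i l, mul_assoc l, mul_inv_cancel_left]
  have e2 : l⁻¹ * (i * j) * j⁻¹ = i * l⁻¹ := by
    rw [mul_assoc, mul_inv_cancel_right, hc]
  rw [e1, e2]; ring

theorem M_transpose (X : H → ℚ) : (M X)ᵀ = M (fun h => X h⁻¹) := by
  ext i j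
  show X (j * i⁻¹) = X ((i * j⁻¹)⁻¹)
  congr 1
  group

theorem M_mul_J (X : H → ℚ) : M X * J H = (∑ h, X h) • J H := by
  ext i j
  rw [Matrix.mul_apply, Matrix.smul_apply]
  show ∑ l, X (i * l⁻¹) * 1 = (∑ h, X h) * 1
  rw [mul_one]
  refine Fintype.sum_equiv ((Equiv.inv H).trans (Equiv.mulLeft i)) _ _ ?_
  intro l
  show X (i * l⁻¹) * 1 = X (i * l⁻¹)
  rw [mul_one]

theorem J_mul_M (X : H → ℚ) : J H * M X = (∑ h, X h) • J H := by
  ext i j
  rw [Matrix.mul_apply, Matrix.smul_apply]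
  show ∑ l, 1 * X (l * j⁻¹) = (∑ h, X h) * 1
  rw [mul_one]
  refine Fintype.sum_equiv (Equiv.mulRight j⁻¹) _ _ ?_
  intro l
  show 1 * X (l * j⁻¹) = X (l * j⁻¹)
  rw [one_mul]

theorem J_mul_J : J H * J H = (Fintype.card H : ℚ) • J H := by
  ext i j
  rw [Matrix.mul_apply, Matrix.smul_apply]
  show ∑ _l : H, (1 : ℚ) * 1 = (Fintype.card H : ℚ) * 1
  simp

theorem sum_inv (X : H → ℚ) : ∑ h, X h⁻¹ = ∑ h, X h :=
  Fintype.sum_equiv (Equiv.inv H) _ _ (fun _ => rfl)

/-- the matrix identity and its consequence -/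
theorem matrix_core (hc : ∀ a b : H, a * b = b * a) (A B : H → ℚ) (n c : ℚ) (hn : n ≠ 0)
    (h1 : ∀ g, ∑ h, A (g * h) * A h + ∑ h, B (g * h) * B h = (if g = 1 then n else 0) + c)
    (h2 : ∀ g, ∑ h, A h * B (g * h⁻¹) = c / 2) :
    ((∑ h, A h) * (∑ h, B h) = c / 2 * Fintype.card H) ∧
    (((∑ h, A h) - (∑ h, B h)) ^ 2 = n) ∧
    ∃ r : ℕ, (Fintype.card H : ℚ) * (∑ h, A h ^ 2) - (∑ h, A h) ^ 2 = n * r := by
  set w : ℚ := (Fintype.card H : ℚ) with hw
  set α := ∑ h, A h with hα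
  set β := ∑ h, B h with hβ
  have hw0 : w ≠ 0 := by
    rw [hw]
    have : 0 < Fintype.card H := Fintype.card_pos
    exact_mod_cast this.ne'
  set P := M A * (M A)ᵀ with hP
  set R := M B * (M B)ᵀ with hR
  have hPij : ∀ i j, P i j = ∑ h, A (i * j⁻¹ * h) * A h := by
    intro i j
    rw [hP, Matrix.mul_apply]
    refine Fintype.sum_equiv ((Equiv.inv H).trans (Equiv.mulLeft j)) _ _ ?_
    intro l
    show A (i * l⁻¹) * A (j * l⁻¹) = A (i * j⁻¹ * (j * l⁻¹)) * A (j * l⁻¹)
    congr 2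
    group
  have hRij : ∀ i j, R i j = ∑ h, B (i * j⁻¹ * h) * B h := by
    intro i j
    rw [hR, Matrix.mul_apply]
    refine Fintype.sum_equiv ((Equiv.inv H).trans (Equiv.mulLeft j)) _ _ ?_
    intro l
    show B (i * l⁻¹) * B (j * l⁻¹) = B (i * j⁻¹ * (j * l⁻¹)) * B (j * l⁻¹)
    congr 2
    group
  have hPR : P + R = n • (1 : Matrix H H ℚ) + c • J H := by
    ext i j
    rw [Matrix.add_apply, hPij, hRij, h1]
    rw [Matrix.add_apply, Matrix.smul_apply, Matrix.smul_apply, Matrix.one_apply]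
    show _ = n * (if i = j then 1 else 0) + c * 1
    by_cases hij : i = j
    · subst hij; simp
    · have : i * j⁻¹ ≠ 1 := by rwa [Ne, mul_inv_eq_one]
      simp [hij, this]
  have hAB : M A * M B = (c / 2) • J H := by
    ext i j
    rw [Matrix.mul_apply, Matrix.smul_apply]
    show ∑ l, A (i * l⁻¹) * B (l * j⁻¹) = c / 2 * 1
    rw [mul_one, ← h2 (i * j⁻¹)]
    refine Fintype.sum_equiv ((Equiv.inv H).trans (Equiv.mulLeft i)) _ _ ?_
    intro l
    show A (i * l⁻¹) * B (l * j⁻¹) = A (i * l⁻¹) * B (i * j⁻¹ * (i * l⁻¹)⁻¹)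
    congr 2
    rw [_root_.mul_inv_rev, inv_inv, hc (i * j⁻¹), ← mul_assoc, mul_assoc l i⁻¹ i, inv_mul_cancel, mul_one]
  have hcomm := M_comm hc
  have hJT : (J H)ᵀ = J H := rfl
  have hPRm : P * R = (c ^ 2 / 4 * w) • J H := by
    have e1 : P * R = (M A * M B) * ((M A)ᵀ * (M B)ᵀ) := by
      rw [hP, hR, M_transpose A]
      calc M A * M (fun h => A h⁻¹) * (M B * (M B)ᵀ)
          = M A * (M (fun h => A h⁻¹) * M B) * (M B)ᵀ := by simp only [Matrix.mul_assoc]
        _ = M A * (M B * M (fun h => A h⁻¹)) * (M B)ᵀ := by rw [hcomm (fun h => A h⁻¹) B]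
        _ = _ := by simp only [Matrix.mul_assoc]
    have e2 : (M A)ᵀ * (M B)ᵀ = (c / 2) • J H := by
      rw [← Matrix.transpose_mul, hcomm B A, hAB, Matrix.transpose_smul, hJT]
    rw [e1, hAB, e2, Matrix.smul_mul, Matrix.mul_smul, J_mul_J, smul_smul, smul_smul]
    congr 1
    rw [← hw]; ring
  have hMAJ : M A * J H = α • J H := M_mul_J A
  have hMAtJ : (M A)ᵀ * J H = α • J H := by rw [M_transpose, M_mul_J, sum_inv]
  have hJMA : J H * M A = α • J H := J_mul_M A
  have hJMAt : J H * (M A)ᵀ = α • J H := by rw [M_transpose, J_mul_M, sum_inv]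
  have hPJ : P * J H = (α ^ 2) • J H := by
    rw [hP, Matrix.mul_assoc, hMAtJ, Matrix.mul_smul, hMAJ, smul_smul, sq]
  have hJP : J H * P = (α ^ 2) • J H := by
    rw [hP, ← Matrix.mul_assoc, hJMA, Matrix.smul_mul, hJMAt, smul_smul, sq]
  have hRJ : R * J H = (β ^ 2) • J H := by
    rw [hR, Matrix.mul_assoc, M_transpose, M_mul_J, sum_inv, Matrix.mul_smul, M_mul_J, smul_smul, sq]
  -- scalar consequences
  have hone : (1 : H) = 1 := rfl
  have hab : α * β = c / 2 * w := by
    have e1 : (M A * M B) * J H = (c / 2 * w) • J H := by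
      rw [hAB, Matrix.smul_mul, J_mul_J, smul_smul]
    have e2 : (M A * M B) * J H = (α * β) • J H := by
      rw [Matrix.mul_assoc, M_mul_J B, Matrix.mul_smul, M_mul_J A, smul_smul, mul_comm]
    rw [e1] at e2
    have := congrFun (congrFun e2 1) 1
    simpa [J] using this.symm
  have hab2 : α ^ 2 + β ^ 2 = n + c * w := by
    have e1 : (P + R) * J H = (α ^ 2 + β ^ 2) • J H := by
      rw [Matrix.add_mul, hPJ, hRJ, add_smul]
    have e2 : (P + R) * J H = (n + c * w) • J H := by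
      rw [hPR, Matrix.add_mul, Matrix.smul_mul, Matrix.one_mul, Matrix.smul_mul, J_mul_J, smul_smul,
        add_smul]
    rw [e1] at e2
    have := congrFun (congrFun e2 1) 1
    simpa [J] using this
  have hdiff : (α - β) ^ 2 = n := by
    have : (α - β) ^ 2 = α ^ 2 + β ^ 2 - 2 * (α * β) := by ring
    rw [this, hab2, hab]; ring
  refine ⟨hab, hdiff, ?_⟩
  -- quadratic identity for P
  have hPP : P * P = n • P + (c * α ^ 2 - c ^ 2 / 4 * w) • J H := by
    have e1 : P * (P + R) = n • P + (c * α ^ 2) • J H := by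
      rw [hPR, Matrix.mul_add, Matrix.mul_smul, Matrix.mul_one, Matrix.mul_smul, hPJ, smul_smul]
    rw [Matrix.mul_add, hPRm] at e1
    rw [sub_smul, ← add_sub_assoc, ← e1, add_sub_cancel_right]
  set a : ℚ := α ^ 2 / w with ha
  have hE0 : (P - a • J H) * (P - a • J H) = n • (P - a • J H) := by
    have e1 : (P - a • J H) * (P - a • J H)
        = P * P - a • (P * J H) - (a • (J H * P) - (a * a) • (J H * J H)) := by
      rw [Matrix.sub_mul, Matrix.mul_sub, Matrix.mul_sub, Matrix.mul_smul, Matrix.smul_mul,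
        Matrix.smul_mul, Matrix.mul_smul, smul_smul]
    rw [e1, hPP, hPJ, hJP, J_mul_J]
    ext i j
    simp only [Matrix.sub_apply, Matrix.add_apply, Matrix.smul_apply, smul_eq_mul, J, Matrix.of_apply]
    rw [← hw]
    have hc2 : c * w = 2 * (α * β) := by rw [hab]; ring
    have key : c * α ^ 2 - c ^ 2 / 4 * w - 2 * (a * α ^ 2) + a * a * w + n * a = 0 := by
      have e3 : (c * α ^ 2 - c ^ 2 / 4 * w - 2 * (a * α ^ 2) + a * a * w + n * a) * w = 0 := by
        have haw : a * w = α ^ 2 := by rw [ha]; field_simp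
        have : (c * α ^ 2 - c ^ 2 / 4 * w - 2 * (a * α ^ 2) + a * a * w + n * a) * w
            = (c * w) * α ^ 2 - (c * w) ^ 2 / 4 - 2 * (a * w) * α ^ 2 + (a * w) ^ 2 + n * (a * w) := by
          ring
        rw [this, hc2, haw, ← hdiff]
        ring
      rcases mul_eq_zero.mp e3 with h | h
      · exact h
      · exact absurd h hw0
    linear_combination key
  set E : Matrix H H ℚ := n⁻¹ • (P - a • J H) with hE
  have hEE : E * E = E := by
    rw [hE, Matrix.smul_mul, Matrix.mul_smul, hE0, smul_smul, smul_smul]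
    congr 1
    field_simp
  obtain ⟨r, hr⟩ := trace_idem E hEE
  refine ⟨r, ?_⟩
  have htrP : P.trace = w * ∑ h, A h ^ 2 := by
    rw [Matrix.trace]
    have : ∀ i, P.diag i = ∑ h, A h ^ 2 := by
      intro i
      rw [Matrix.diag_apply, hPij]
      refine Finset.sum_congr rfl fun h _ => ?_
      rw [mul_inv_cancel, one_mul, sq]
    rw [Finset.sum_congr rfl (fun i _ => this i), Finset.sum_const, Finset.card_univ, nsmul_eq_mul]
  have htrJ : (J H).trace = w := by
    rw [Matrix.trace]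
    simp [J, Matrix.diag, hw]
  have htr : E.trace = n⁻¹ * (w * (∑ h, A h ^ 2) - α ^ 2) := by
    rw [hE, Matrix.trace_smul, Matrix.trace_sub, Matrix.trace_smul, htrP, htrJ, smul_eq_mul,
      smul_eq_mul, ha]
    congr 2
    field_simp
  rw [htr] at hr
  rw [← hr]
  field_simp

end conv

section core

variable {Q : Type*} [Group Q] [Fintype Q] [DecidableEq Q]

theorem split_sum (H : Subgroup Q) [DecidablePred (· ∈ H)] (hidx : H.index = 2) (t : Q) (ht : t ∉ H)
    (F : Q → ℚ) : ∑ y : Q, F y = ∑ h : H, F h + ∑ h : H, F (h * t) := by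
  rw [← Finset.sum_filter_add_sum_filter_not univ (fun y => y ∈ H)]
  congr 1
  · refine Finset.sum_bij' (fun y hy => (⟨y, (Finset.mem_filter.mp hy).2⟩ : H)) (fun h _ => (h : Q))
      ?_ ?_ ?_ ?_ ?_
    · intro y _; exact Finset.mem_univ _
    · intro h _; exact Finset.mem_filter.mpr ⟨Finset.mem_univ _, h.2⟩
    · intro y _; rfl
    · intro h _; rfl
    · intro y _; rfl
  · have hmem : ∀ y, y ∉ H → y * t⁻¹ ∈ H := by
      intro y hy
      rw [Subgroup.mul_mem_iff_of_index_two hidx, Subgroup.inv_mem_iff]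
      exact ⟨fun h => absurd h hy, fun h => absurd h ht⟩
    refine Finset.sum_bij' (fun y hy => (⟨y * t⁻¹, hmem y (Finset.mem_filter.mp hy).2⟩ : H))
      (fun h _ => (h : Q) * t) ?_ ?_ ?_ ?_ ?_
    · intro y _; exact Finset.mem_univ _
    · intro h _
      refine Finset.mem_filter.mpr ⟨Finset.mem_univ _, ?_⟩
      rw [Subgroup.mul_mem_iff_of_index_two hidx]
      intro h2
      exact ht (h2.mp h.2)
    · intro y _
      show y * t⁻¹ * t = y
      group
    · intro h _
      apply Subtype.ext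
      show (h : Q) * t * t⁻¹ = h
      group
    · intro y _
      show F y = F (y * t⁻¹ * t)
      congr 1
      group

/-- the statement for weighted functions on a generalized dihedral group -/
theorem core (H : Subgroup Q) (hidx : H.index = 2) (hinv : ∀ x, x ∉ H → x * x = 1)
    (f : Q → ℕ) (n lam u k : ℕ) (hn : 0 < n) (hlam : 1 ≤ lam) (hu : 1 ≤ u)
    (hcorr : ∀ g, ∑ y, f (g * y) * f y = (if g = 1 then n else 0) + lam * u)
    (hsum : ∑ y, f y = k) (hk : k = n + lam) :
    n ≤ (lam ^ 2 * (2 * u - 1) + lam) ^ 2 := by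
  classical
  -- an element outside H
  obtain ⟨t, ht⟩ : ∃ t, t ∉ H := by
    by_contra hc
    push Not at hc
    have : H = ⊤ := by
      rw [eq_top_iff]; intro x _; exact hc x
    rw [this, Subgroup.index_top] at hidx
    norm_num at hidx
  have htt : t * t = 1 := hinv t ht
  have hti : t⁻¹ = t := inv_eq_of_mul_eq_one_left htt
  have hht : ∀ h : Q, h ∈ H → t * h * t = h⁻¹ := by
    intro h hh
    have h1 : h * t ∉ H := by
      rw [Subgroup.mul_mem_iff_of_index_two hidx]
      intro h2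
      exact ht (h2.mp hh)
    have h2 := hinv _ h1
    calc t * h * t = h⁻¹ * (h * t * (h * t)) := by group
      _ = h⁻¹ := by rw [h2, mul_one]
  have hc : ∀ a b : H, a * b = b * a := by
    intro a b
    apply Subtype.ext
    show (a : Q) * b = b * a
    have h1 := hht _ (H.mul_mem a.2 b.2)
    have h2 : t * ((a : Q) * b) * t = (t * a * t) * (t * b * t) := by
      calc t * ((a : Q) * b) * t = t * a * (1 * b * t) := by group
        _ = t * a * ((t * t) * b * t) := by rw [htt]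
        _ = _ := by group
    rw [h2, hht _ a.2, hht _ b.2] at h1
    have h3 := congrArg (fun x : Q => x⁻¹) h1
    simp only [_root_.mul_inv_rev, inv_inv] at h3
    exact h3.symm
  set A : H → ℚ := fun h => (f h : ℚ) with hA
  set B : H → ℚ := fun h => (f (h * t) : ℚ) with hB
  have hcorr' : ∀ g, ∑ y, (f (g * y) : ℚ) * f y = (if g = 1 then (n : ℚ) else 0) + lam * u := by
    intro g
    have := hcorr g
    have h2 : ((∑ y, f (g * y) * f y : ℕ) : ℚ) = (((if g = 1 then n else 0) + lam * u : ℕ) : ℚ) := by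
      rw [this]
    push_cast at h2
    rw [h2]
  have h1 : ∀ g : H, ∑ h, A (g * h) * A h + ∑ h, B (g * h) * B h
      = (if g = 1 then (n : ℚ) else 0) + (lam : ℚ) * u := by
    intro g
    have e1 := hcorr' g
    rw [split_sum H hidx t ht] at e1
    have e2 : (if (g : Q) = 1 then (n : ℚ) else 0) = if g = 1 then (n : ℚ) else 0 := by
      by_cases h : g = 1
      · simp [h]
      · have : (g : Q) ≠ 1 := fun h' => h (Subtype.ext h')
        simp [h, this]
    rw [e2] at e1
    rw [← e1]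
    congr 1
    refine Finset.sum_congr rfl fun h _ => ?_
    show (f ((g : Q) * h * t) : ℚ) * f (h * t) = f ((g : Q) * (h * t)) * f (h * t)
    rw [mul_assoc]
  have h2 : ∀ g : H, ∑ h, A h * B (g * h⁻¹) = ((lam : ℚ) * u) / 2 := by
    intro g
    have hgt : (g : Q) * t ≠ 1 := by
      intro h0
      apply ht
      have : t = (g : Q)⁻¹ := by
        rw [eq_inv_iff_mul_eq_one, mul_eq_one_comm]
        exact h0
      rw [this]
      exact H.inv_mem g.2
    have e1 := hcorr' ((g : Q) * t)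
    rw [if_neg hgt, zero_add, split_sum H hidx t ht] at e1
    have e2 : ∑ h : H, (f ((g : Q) * t * h) : ℚ) * f h = ∑ h, A h * B (g * h⁻¹) := by
      refine Finset.sum_congr rfl fun h _ => ?_
      show (f ((g : Q) * t * h) : ℚ) * f h = f h * f ((g : Q) * (h : Q)⁻¹ * t)
      have : (g : Q) * t * h = (g : Q) * (h : Q)⁻¹ * t := by
        calc (g : Q) * t * h = (g : Q) * (t * h * t) * t⁻¹ := by group
          _ = (g : Q) * (h : Q)⁻¹ * t := by rw [hht _ h.2, hti]
      rw [this]; ring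
    have e3 : ∑ h : H, (f ((g : Q) * t * (h * t)) : ℚ) * f (h * t) = ∑ h, A h * B (g * h⁻¹) := by
      refine Fintype.sum_equiv ((Equiv.inv H).trans (Equiv.mulLeft g)) _ _ ?_
      intro h
      show (f ((g : Q) * t * (h * t)) : ℚ) * f (h * t)
        = f ((g : Q) * (h : Q)⁻¹) * f ((g * (g * h⁻¹)⁻¹ : H) * t)
      have e4 : (g : Q) * t * (h * t) = (g : Q) * (h : Q)⁻¹ := by
        calc (g : Q) * t * (h * t) = (g : Q) * (t * h * t) := by group
          _ = _ := by rw [hht _ h.2]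
      have e5 : g * (g * h⁻¹)⁻¹ = h := by
        rw [_root_.mul_inv_rev, inv_inv, hc h g⁻¹, mul_inv_cancel_left]
      rw [e4, e5]
    rw [e2, e3] at e1
    linarith
  have hn0 : (n : ℚ) ≠ 0 := by exact_mod_cast hn.ne'
  obtain ⟨m1, m2, r, m3⟩ := matrix_core hc A B n ((lam : ℚ) * u) hn0 h1 h2
  -- natural number quantities
  set α : ℤ := ∑ h : H, (f h : ℤ) with hα
  set β : ℤ := ∑ h : H, (f (h * t) : ℤ) with hβ
  set QA : ℤ := ∑ h : H, (f h : ℤ) ^ 2 with hQA
  have c1 : (∑ h, A h) = (α : ℚ) := by rw [hα]; push_cast; rfl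
  have c2 : (∑ h, B h) = (β : ℚ) := by rw [hβ]; push_cast; rfl
  have c3 : (∑ h, A h ^ 2) = (QA : ℚ) := by rw [hQA]; push_cast; rfl
  rw [c1, c2] at m1 m2
  rw [c1, c3] at m3
  have hαβ : α + β = k := by
    have e1 : (∑ y, (f y : ℚ)) = (k : ℚ) := by exact_mod_cast hsum
    rw [split_sum H hidx t ht] at e1
    have : ((α : ℚ)) + β = k := by rw [← e1, ← c1, ← c2]
    exact_mod_cast this
  have hs2 : (α - β) ^ 2 = n := by exact_mod_cast m2
  have hs0 : α - β ≠ 0 := by
    intro h0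
    rw [h0] at hs2
    norm_num at hs2
    omega
  have m1' : (lam : ℤ) * u * (Fintype.card H) = 2 * (α * β) := by
    have : (lam : ℚ) * u * (Fintype.card H) = 2 * (α * β) := by rw [m1]; ring
    exact_mod_cast this
  have m3' : (Fintype.card H : ℤ) * QA - α ^ 2 = (α - β) ^ 2 * r := by
    rw [hs2]
    exact_mod_cast m3
  have hQA0 : 0 ≤ QA - α := by
    rw [hQA, hα, ← Finset.sum_sub_distrib]
    refine Finset.sum_nonneg fun h _ => ?_
    have : (0 : ℤ) ≤ f h := Nat.cast_nonneg _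
    rcases Nat.eq_zero_or_pos (f h) with h0 | h0
    · rw [h0]; norm_num
    · have : (1 : ℤ) ≤ f h := by exact_mod_cast h0
      nlinarith
  have hQA1 : QA - α ≤ (lam : ℤ) * (u - 1) := by
    have e1 : (∑ y : Q, ((f y : ℚ) * f y)) = n + (lam : ℚ) * u := by
      have := hcorr' 1
      rw [if_pos rfl] at this
      rw [← this]
      refine Finset.sum_congr rfl fun y _ => ?_
      rw [one_mul]
    have e2 : (∑ y : Q, ((f y : ℚ))) = k := by exact_mod_cast hsum
    have e3 : (∑ y : Q, ((f y : ℚ) * f y - f y)) = (lam : ℚ) * (u - 1) := by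
      rw [Finset.sum_sub_distrib, e1, e2, hk]
      push_cast; ring
    rw [split_sum H hidx t ht (fun y => (f y : ℚ) * f y - f y)] at e3
    have e4 : (0 : ℚ) ≤ ∑ h : H, ((f (h * t) : ℚ) * f (h * t) - f (h * t)) := by
      refine Finset.sum_nonneg fun h _ => ?_
      rcases Nat.eq_zero_or_pos (f (h * t)) with h0 | h0
      · rw [h0]; norm_num
      · have : (1 : ℚ) ≤ f (h * t) := by exact_mod_cast h0
        nlinarith
    have e5 : (∑ h : H, ((f h : ℚ) * f h - f h)) = ((QA - α : ℤ) : ℚ) := by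
      rw [Finset.sum_sub_distrib, hQA, hα]
      push_cast
      congr 1
      refine Finset.sum_congr rfl fun h _ => ?_
      rw [sq]
    have e6 : ((QA - α : ℤ) : ℚ) ≤ (lam : ℚ) * (u - 1) := by
      rw [← e5]; linarith
    exact_mod_cast e6
  have hfin := arith (Fintype.card H) QA α β k (α - β) lam u (QA - α) r hs0 (by exact_mod_cast hlam)
    (by exact_mod_cast hu) hαβ rfl (by rw [hs2, hk]; push_cast; ring) m1' (by ring) hQA0 hQA1 m3'
  have hb : (n : ℤ) ≤ ((lam : ℤ) ^ 2 * (2 * u - 1) + lam) ^ 2 := by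
    rw [← hs2, ← sq_abs]
    exact pow_le_pow_left₀ (abs_nonneg _) hfin 2
  have hcast : (((lam ^ 2 * (2 * u - 1) + lam) ^ 2 : ℕ) : ℤ) = ((lam : ℤ) ^ 2 * (2 * u - 1) + lam) ^ 2 := by
    have : ((2 * u - 1 : ℕ) : ℤ) = 2 * u - 1 := by
      rw [Nat.cast_sub (by omega)]; push_cast; ring
    push_cast
    rw [this]
  rw [← hcast] at hb
  exact_mod_cast hb

end core

end Pool.Agent.Helper17.DihQ
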