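import Mathlib
import Pool.Agent.Helper17.DihQuot

set_option autoImplicit false

namespace Pool.Agent.Helper17.DihQ

open Finset

theorem final {G : Type*} [Group G] [Fintype G] [DecidableEq G] (D : Finset G) (lam : ℕ)
    (hlam : 1 ≤ lam)
    (hrep : ∀ g : G, g ≠ 1 → ((D ×ˢ D).filter (fun p => p.1 * p.2⁻¹ = g)).card = lam)
    (N K : Subgroup G) (hN : N.Normal) (hNK : N ≤ K) (hK : K.index = 2)
    (hinv : ∀ x, x ∉ K → x * x ∈ N) :
    D.card ≤ lam + (lam ^ 2 * (2 * Nat.card N - 1) + lam) ^ 2 := by
  classical
  by_contra hcon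
  push Not at hcon
  set u : ℕ := Nat.card N with hu
  have hu1 : 1 ≤ u := Nat.card_pos
  obtain ⟨n, hn⟩ : ∃ n, D.card = n + lam := ⟨D.card - lam, by omega⟩
  have hnpos : 0 < n := by
    have : 0 < (lam ^ 2 * (2 * u - 1) + lam) ^ 2 := by positivity
    omega
  let f : G ⧸ N → ℕ := fun q => (D.filter (fun d => (QuotientGroup.mk d : G ⧸ N) = q)).card
  -- pairs with quotient in a given coset
  have hpairs : ∀ g : G ⧸ N, ((D ×ˢ D).filter
      (fun p => (QuotientGroup.mk (p.1 * p.2⁻¹) : G ⧸ N) = g)).card
      = (if g = 1 then n else 0) + lam * u := by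
    intro g
    have h0 : ∀ z : G, ((D ×ˢ D).filter (fun p => p.1 * p.2⁻¹ = z)).card
        = (if z = 1 then n else 0) + lam := by
      intro z
      by_cases hz : z = 1
      · rw [hz, if_pos rfl, ← hn]
        symm
        refine Finset.card_bij (fun d _ => (d, d)) ?_ ?_ ?_
        · intro d hd; simp [hd]
        · intro a _ b _ h; simpa using congrArg Prod.fst h
        · intro p hp
          simp only [mem_filter, mem_product] at hp
          have : p.1 = p.2 := by
            have := hp.2
            rwa [mul_inv_eq_one] at this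
          exact ⟨p.1, hp.1.1, by ext <;> simp [this]⟩
      · rw [hrep z hz, if_neg hz, zero_add]
    rw [Finset.card_eq_sum_card_fiberwise (f := fun p : G × G => p.1 * p.2⁻¹)
      (t := univ.filter (fun z : G => (QuotientGroup.mk z : G ⧸ N) = g))]
    · have h1 : ∀ z ∈ univ.filter (fun z : G => (QuotientGroup.mk z : G ⧸ N) = g),
          (((D ×ˢ D).filter (fun p => (QuotientGroup.mk (p.1 * p.2⁻¹) : G ⧸ N) = g)).filter
            (fun p => p.1 * p.2⁻¹ = z)).card = (if z = 1 then n else 0) + lam := by
        intro z hz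
        rw [← h0 z]
        congr 1
        ext p
        simp only [mem_filter, mem_univ, true_and] at hz ⊢
        constructor
        · rintro ⟨⟨a, -⟩, b⟩; exact ⟨a, b⟩
        · rintro ⟨a, b⟩; exact ⟨⟨a, by rw [b]; exact hz⟩, b⟩
      rw [Finset.sum_congr rfl h1, Finset.sum_add_distrib, Finset.sum_const]
      have hcard : (univ.filter (fun z : G => (QuotientGroup.mk z : G ⧸ N) = g)).card = u := by
        obtain ⟨a, rfl⟩ := QuotientGroup.mk_surjective g
        rw [hu, Nat.card_eq_fintype_card, ← Finset.card_univ]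
        refine Finset.card_bij' (fun z hz => (⟨a⁻¹ * z, by
          have := (Finset.mem_filter.mp hz).2
          rwa [eq_comm, QuotientGroup.eq] at this⟩ : N)) (fun z _ => a * z) ?_ ?_ ?_ ?_
        · intro z _; exact Finset.mem_univ _
        · intro z _
          refine Finset.mem_filter.mpr ⟨Finset.mem_univ _, ?_⟩
          rw [eq_comm, QuotientGroup.eq]
          simp
        · intro z _
          show a * (a⁻¹ * z) = z
          group
        · intro z _
          apply Subtype.ext
          show a⁻¹ * (a * (z : G)) = z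
          group
      rw [hcard, smul_eq_mul, mul_comm u lam]
      congr 1
      by_cases hg : g = 1
      · rw [if_pos hg, Finset.sum_ite_eq' (univ.filter _) (1 : G)]
        rw [if_pos]
        refine Finset.mem_filter.mpr ⟨Finset.mem_univ _, ?_⟩
        rw [hg]; rfl
      · rw [if_neg hg, Finset.sum_ite_eq' (univ.filter _) (1 : G)]
        rw [if_neg]
        intro h1
        apply hg
        rw [← (Finset.mem_filter.mp h1).2]; rfl
    · intro p hp
      refine Finset.mem_coe.mpr (Finset.mem_filter.mpr ⟨Finset.mem_univ _, ?_⟩)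
      exact (Finset.mem_filter.mp (Finset.mem_coe.mp hp)).2
  have hcorr : ∀ g, ∑ y, f (g * y) * f y = (if g = 1 then n else 0) + lam * u := by
    intro g
    rw [← hpairs g]
    rw [Finset.card_eq_sum_card_fiberwise
      (f := fun p : G × G => (QuotientGroup.mk p.2 : G ⧸ N)) (t := univ) (fun p _ => by simp)]
    refine Finset.sum_congr rfl fun y _ => ?_
    show (D.filter _).card * (D.filter _).card = _
    rw [← Finset.card_product]
    congr 1
    ext p
    simp only [mem_product, mem_filter]
    constructor
    · rintro ⟨⟨a, b⟩, c, d⟩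
      refine ⟨⟨⟨a, c⟩, ?_⟩, d⟩
      rw [QuotientGroup.mk_mul, QuotientGroup.mk_inv, b, d]
      group
    · rintro ⟨⟨⟨a, c⟩, e⟩, d⟩
      refine ⟨⟨a, ?_⟩, c, d⟩
      rw [QuotientGroup.mk_mul, QuotientGroup.mk_inv, d] at e
      rw [← e]
      group
  have hsum : ∑ y, f y = D.card := by
    exact (Finset.card_eq_sum_card_fiberwise (f := fun d : G => (QuotientGroup.mk d : G ⧸ N))
      (t := univ) (fun d _ => by simp)).symm
  -- the subgroup of index two in the quotient
  set H : Subgroup (G ⧸ N) := K.map (QuotientGroup.mk' N) with hH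
  have hidx : H.index = 2 := by
    rw [hH, Subgroup.index_map_eq _ (QuotientGroup.mk'_surjective N)]
    · exact hK
    · rw [QuotientGroup.ker_mk']; exact hNK
  have hinv' : ∀ x, x ∉ H → x * x = 1 := by
    intro x hx
    obtain ⟨g, rfl⟩ := QuotientGroup.mk_surjective x
    have hg : g ∉ K := by
      intro hg
      exact hx (Subgroup.mem_map.mpr ⟨g, hg, rfl⟩)
    rw [← QuotientGroup.mk_mul, QuotientGroup.eq_one_iff]
    exact hinv g hg
  have := core H hidx hinv' f n lam u D.card hnpos hlam hu1 hcorr hsum hn
  omega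

end Pool.Agent.Helper17.DihQ
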