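import Mathlib
import Pool.Agent.Helper17.NormalPerfect

set_option autoImplicit false

namespace Pool.Agent.Helper17.NormalDS

open Finset Classical

universe u

variable {G : Type u} [Group G] [Fintype G]

theorem real_contra (κ l k m1 : ℝ) (hκk : κ * κ = k) (hκ40 : 40 ≤ κ) (hl2 : 2 ≤ l)
    (hκ10 : 10 * l ^ 2 ≤ κ) (hm1 : k / 2 - κ ≤ m1)
    (b5 : m1 ^ 2 * (k - 2 * κ) ≤ l ^ 2 * k * (2 * κ * (k - 2 * κ) + 2 * l * k)) : False := by
  have e : k - 2 * κ = κ * (κ - 2) := by rw [← hκk]; ring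
  have hκp : 0 < κ := by linarith
  have h2 : 0 ≤ κ - 2 := by linarith
  have hm0 : κ * (κ - 2) / 2 ≤ m1 := by
    have : k / 2 - κ = κ * (κ - 2) / 2 := by rw [← hκk]; ring
    linarith
  have h0 : 0 ≤ κ * (κ - 2) / 2 := by positivity
  have hsq : (κ * (κ - 2) / 2) ^ 2 ≤ m1 ^ 2 := pow_le_pow_left₀ h0 hm0 2
  rw [e, ← hκk] at b5
  have b6 : (κ * (κ - 2) / 2) ^ 2 * (κ * (κ - 2)) ≤
      l ^ 2 * (κ * κ) * (2 * κ * (κ * (κ - 2)) + 2 * l * (κ * κ)) :=
    (mul_le_mul_of_nonneg_right hsq (by positivity)).trans b5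
  have b7 : (κ - 2) ^ 3 ≤ 8 * l ^ 2 * κ * (κ - 2 + l) := by
    have c1 : κ ^ 3 * ((κ - 2) ^ 3) ≤ κ ^ 3 * (8 * l ^ 2 * κ * (κ - 2 + l)) := by
      have e1 : κ ^ 3 * ((κ - 2) ^ 3) = 4 * ((κ * (κ - 2) / 2) ^ 2 * (κ * (κ - 2))) := by ring
      have e2 : κ ^ 3 * (8 * l ^ 2 * κ * (κ - 2 + l))
          = 4 * (l ^ 2 * (κ * κ) * (2 * κ * (κ * (κ - 2)) + 2 * l * (κ * κ))) := by ring
      rw [e1, e2]
      linarith
    exact le_of_mul_le_mul_left c1 (by positivity)
  have c1 : 8 * l ^ 2 ≤ (4 / 5) * κ := by linarith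
  have c2 : l ≤ κ / 20 := by nlinarith
  have c3 : 0 ≤ κ - 2 + l := by linarith
  have b8 : 8 * l ^ 2 * κ * (κ - 2 + l) ≤ (4 / 5) * κ * κ * (κ - 2 + κ / 20) := by
    have d1 : 8 * l ^ 2 * κ ≤ (4 / 5) * κ * κ := mul_le_mul_of_nonneg_right c1 hκp.le
    have d2 : κ - 2 + l ≤ κ - 2 + κ / 20 := by linarith
    exact mul_le_mul d1 d2 c3 (by positivity)
  have b9 : (κ - 2) ^ 3 ≤ (4 / 5) * κ * κ * (κ - 2 + κ / 20) := b7.trans b8
  have e3 : (4 / 5) * κ * κ * (κ - 2 + κ / 20) - (κ - 2) ^ 3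
      = - (κ ^ 2 * (16 * κ - 440) / 100 + 12 * κ - 8) := by ring
  have : 0 < κ ^ 2 * (16 * κ - 440) / 100 + 12 * κ - 8 := by
    have : 0 ≤ κ ^ 2 * (16 * κ - 440) / 100 := by
      apply div_nonneg _ (by norm_num)
      apply mul_nonneg (by positivity)
      linarith
    linarith
  linarith

/-- if a central commutator of an element of `D` is nontrivial then `D` is small -/
theorem Hyp.central_comm {D : Finset G} {lam : ℕ} (h : Hyp D lam)
    (hbig : (lam : ℝ) * lam + 2 * Real.sqrt D.card < D.card)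
    {d x : G} (hd : d ∈ D) (hc : x * d * x⁻¹ * d⁻¹ ∈ Subgroup.center G) :
    x * d * x⁻¹ * d⁻¹ = 1 := by
  by_contra hne
  set c := x * d * x⁻¹ * d⁻¹ with hcdef
  have hcd : c * d = x * d * x⁻¹ := by rw [hcdef]; group
  have hcen := Subgroup.mem_center_iff.mp hc
  have h1 : (cl d).card ≤ lam := by
    rw [← h.rep c hne]
    refine Finset.card_le_card_of_injOn (fun y => (c * y, y)) ?_ ?_
    · intro y hy
      obtain ⟨g, -, rfl⟩ := Finset.mem_image.mp (Finset.mem_coe.mp hy)
      refine Finset.mem_coe.mpr (Finset.mem_filter.mpr ⟨Finset.mem_product.mpr ⟨?_, h.conj g d hd⟩, ?_⟩)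
      · have e : c * (g * d * g⁻¹) = g * (x * d * x⁻¹) * g⁻¹ := by
          rw [← hcd]
          have := hcen g
          calc c * (g * d * g⁻¹) = (c * g) * d * g⁻¹ := by group
            _ = (g * c) * d * g⁻¹ := by rw [this]
            _ = _ := by group
        show c * (g * d * g⁻¹) ∈ D
        rw [e]
        exact h.conj g _ (h.conj x d hd)
      · show c * (g * d * g⁻¹) * (g * d * g⁻¹)⁻¹ = c
        group
    · intro a _ b _ hab
      simpa using congrArg Prod.snd hab
  rw [card_cl] at h1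
  have hdn : d ∉ Subgroup.center G := by
    intro hdc
    apply hne
    have := Subgroup.mem_center_iff.mp hdc x
    rw [hcdef, this]
    group
  have h2 := h.class_large d (index_C_of_noncentral hdn)
  have h3 : ((C d).index : ℝ) ≤ lam := by exact_mod_cast h1
  have h4 : (lam : ℝ) * (C d).index ≤ lam * lam :=
    mul_le_mul_of_nonneg_left h3 (Nat.cast_nonneg _)
  linarith

theorem Hyp.lam_v_le {D : Finset G} {lam : ℕ} (h : Hyp D lam) (hG : 1 < Nat.card G) :
    (lam : ℝ) * Nat.card G ≤ (D.card : ℝ) ^ 2 := by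
  have h1 := h.ksq
  have h2 := h.lam_le hG
  have h3 : lam * Nat.card G ≤ D.card ^ 2 := by omega
  exact_mod_cast h3

section abelian

variable {D : Finset G} {lam : ℕ} (h : Hyp D lam) (N : Subgroup G) [N.Normal]
  (hcomm : ∀ a ∈ N, ∀ b ∈ N, a * b = b * a)

/-- centralizer of N -/
abbrev CN (N : Subgroup G) : Subgroup G := Subgroup.centralizer (N : Set G)

theorem mem_CN {N : Subgroup G} {g : G} : g ∈ CN N ↔ ∀ x ∈ N, x * g = g * x := by
  rw [Subgroup.mem_centralizer_iff]
  rfl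

include hcomm in
theorem N_le_CN : N ≤ CN N := by
  intro a ha
  rw [mem_CN]
  intro x hx
  exact hcomm x hx a ha

include h in
/-- a coset of `CN` through an element of `D` not centralizing `N` has at most `lam` elements -/
theorem coset_le {d x : G} (hd : d ∈ D) (hx : x ∈ N) (hne : x * d * x⁻¹ * d⁻¹ ≠ 1) :
    (D.filter (fun d' => (QuotientGroup.mk d' : G ⧸ CN N) = QuotientGroup.mk d)).card ≤ lam := by
  rw [← h.rep _ hne]
  refine Finset.card_le_card_of_injOn (fun y => (x * y * x⁻¹, y)) ?_ ?_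
  · intro y hy
    obtain ⟨hyD, hyq⟩ := Finset.mem_filter.mp (Finset.mem_coe.mp hy)
    refine Finset.mem_coe.mpr (Finset.mem_filter.mpr ⟨Finset.mem_product.mpr ⟨h.conj x y hyD, hyD⟩, ?_⟩)
    show x * y * x⁻¹ * y⁻¹ = x * d * x⁻¹ * d⁻¹
    have h1 : y⁻¹ * d ∈ CN N := by rwa [QuotientGroup.eq] at hyq
    have h2 := mem_CN.mp h1 x⁻¹ (N.inv_mem hx)
    have e1 : d = y * (y⁻¹ * d) := by group
    calc x * y * x⁻¹ * y⁻¹ = x * y * (x⁻¹ * (y⁻¹ * d)) * (y⁻¹ * d)⁻¹ * y⁻¹ := by group
      _ = x * y * ((y⁻¹ * d) * x⁻¹) * (y⁻¹ * d)⁻¹ * y⁻¹ := by rw [h2]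
      _ = x * d * x⁻¹ * d⁻¹ := by group
  · intro a _ b _ hab
    simpa using congrArg Prod.snd hab

/-- the finset of elements of N -/
noncomputable def Nf (N : Subgroup G) : Finset G := univ.filter (fun x => x ∈ N)

omit [N.Normal] in
theorem card_Nf : (Nf N).card = Nat.card N := by
  unfold Nf
  rw [Nat.card_eq_fintype_card, Fintype.card_subtype]

include h hcomm in
theorem card_N_le {d x : G} (hd : d ∈ D) (hx : x ∈ N) (hne : x * d * x⁻¹ * d⁻¹ ≠ 1) :
    Nat.card N ≤ lam * ((Nf N).filter (fun y => d * y = y * d)).card := by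
  have h1 := coset_le h N hd hx hne
  rw [← card_Nf]
  have himg : ((Nf N).image (fun y => y * d * y⁻¹)).card ≤ lam := by
    refine (Finset.card_le_card ?_).trans h1
    intro z hz
    obtain ⟨y, hy, rfl⟩ := Finset.mem_image.mp hz
    have hyN : y ∈ N := (Finset.mem_filter.mp hy).2
    refine Finset.mem_filter.mpr ⟨h.conj y d hd, ?_⟩
    rw [QuotientGroup.eq]
    have e : (y * d * y⁻¹)⁻¹ * d = y * (d⁻¹ * y⁻¹ * d) := by group
    rw [e]
    apply N_le_CN N hcomm
    refine N.mul_mem hyN ?_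
    have := (inferInstance : N.Normal).conj_mem y⁻¹ (N.inv_mem hyN) d⁻¹
    simpa using this
  have h2 : (Nf N).card = ∑ z ∈ (Nf N).image (fun y => y * d * y⁻¹),
      ((Nf N).filter (fun y => y * d * y⁻¹ = z)).card :=
    Finset.card_eq_sum_card_fiberwise (fun y hy => by
      exact Finset.mem_coe.mpr (Finset.mem_image_of_mem _ (Finset.mem_coe.mp hy)))
  rw [h2]
  calc ∑ z ∈ (Nf N).image (fun y => y * d * y⁻¹), ((Nf N).filter (fun y => y * d * y⁻¹ = z)).card
      ≤ ∑ _z ∈ (Nf N).image (fun y => y * d * y⁻¹),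
          ((Nf N).filter (fun y => d * y = y * d)).card := by
        refine Finset.sum_le_sum fun z hz => ?_
        obtain ⟨y0, hy0, rfl⟩ := Finset.mem_image.mp hz
        have hy0N : y0 ∈ N := (Finset.mem_filter.mp hy0).2
        refine Finset.card_le_card_of_injOn (fun y => y0⁻¹ * y) ?_ ?_
        · intro y hy
          obtain ⟨hyN, hyz⟩ := Finset.mem_filter.mp (Finset.mem_coe.mp hy)
          have hyN' : y ∈ N := (Finset.mem_filter.mp hyN).2
          refine Finset.mem_coe.mpr (Finset.mem_filter.mpr ⟨Finset.mem_filter.mpr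
            ⟨Finset.mem_univ _, N.mul_mem (N.inv_mem hy0N) hyN'⟩, ?_⟩)
          show d * (y0⁻¹ * y) = y0⁻¹ * y * d
          have hyz' : y * d * y⁻¹ = y0 * d * y0⁻¹ := hyz
          calc d * (y0⁻¹ * y) = y0⁻¹ * (y0 * d * y0⁻¹) * y := by group
            _ = y0⁻¹ * (y * d * y⁻¹) * y := by rw [hyz']
            _ = y0⁻¹ * y * d := by group
        · intro a _ b _ hab
          simpa using hab
    _ = ((Nf N).image (fun y => y * d * y⁻¹)).card *
          ((Nf N).filter (fun y => d * y = y * d)).card := by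
        rw [Finset.sum_const, smul_eq_mul]
    _ ≤ _ := Nat.mul_le_mul_right _ himg

/-- the part of `D` not centralizing `N` -/
noncomputable def D1 (D : Finset G) (N : Subgroup G) : Finset G := D.filter (fun d => d ∉ CN N)

omit [N.Normal] in
theorem D1_spec {d : G} (hd : d ∈ D1 D N) :
    d ∈ D ∧ ∃ x ∈ N, x * d * x⁻¹ * d⁻¹ ≠ 1 := by
  obtain ⟨hdD, hdn⟩ := Finset.mem_filter.mp hd
  refine ⟨hdD, ?_⟩
  rw [mem_CN] at hdn
  push Not at hdn
  obtain ⟨x, hx, hxd⟩ := hdn
  refine ⟨x, hx, ?_⟩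
  intro h1
  apply hxd
  have h2 : x * d * x⁻¹ * d⁻¹ * d * x = 1 * d * x := by rw [h1]
  calc x * d = x * d * x⁻¹ * d⁻¹ * d * x := by group
    _ = 1 * d * x := h2
    _ = d * x := by group

include h in
theorem card_D1_le : (D1 D N).card ≤ lam * Nat.card N := by
  have hch : ∀ d : G, ∃ x : G, d ∈ D1 D N → (x ∈ N ∧ x * d * x⁻¹ * d⁻¹ ≠ 1) := by
    intro d
    by_cases hd : d ∈ D1 D N
    · obtain ⟨-, x, hx, hxd⟩ := D1_spec N hd
      exact ⟨x, fun _ => ⟨hx, hxd⟩⟩
    · exact ⟨1, fun hc => absurd hc hd⟩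
  choose f hf using hch
  have h1 : (D1 D N).card = ∑ c ∈ Nf N,
      ((D1 D N).filter (fun d => f d * d * (f d)⁻¹ * d⁻¹ = c)).card := by
    apply Finset.card_eq_sum_card_fiberwise
    intro d hd
    have hd' := hf d (Finset.mem_coe.mp hd)
    refine Finset.mem_coe.mpr (Finset.mem_filter.mpr ⟨Finset.mem_univ _, ?_⟩)
    show f d * d * (f d)⁻¹ * d⁻¹ ∈ N
    have e : f d * d * (f d)⁻¹ * d⁻¹ = f d * (d * (f d)⁻¹ * d⁻¹) := by group
    rw [e]
    exact N.mul_mem hd'.1 ((inferInstance : N.Normal).conj_mem _ (N.inv_mem hd'.1) d)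
  rw [h1, ← card_Nf, mul_comm, ← smul_eq_mul]
  refine Finset.sum_le_card_nsmul _ _ _ ?_
  intro c _
  by_cases hc : c = 1
  · have : (D1 D N).filter (fun d => f d * d * (f d)⁻¹ * d⁻¹ = c) = ∅ := by
      rw [Finset.filter_eq_empty_iff]
      intro d hd
      rw [hc]
      exact (hf d hd).2
    rw [this]; simp
  · rw [← h.rep c hc]
    refine Finset.card_le_card_of_injOn (fun y => (f y * y * (f y)⁻¹, y)) ?_ ?_
    · intro y hy
      obtain ⟨hy1, hyc⟩ := Finset.mem_filter.mp (Finset.mem_coe.mp hy)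
      have hyD := (Finset.mem_filter.mp hy1).1
      exact Finset.mem_coe.mpr (Finset.mem_filter.mpr
        ⟨Finset.mem_product.mpr ⟨h.conj _ y hyD, hyD⟩, hyc⟩)
    · intro a _ b _ hab
      simpa using congrArg Prod.snd hab

/-- commuting pairs (x, g) with x in N -/
noncomputable def CP (N : Subgroup G) : Finset (G × G) :=
  ((Nf N) ×ˢ (univ : Finset G)).filter (fun p => p.2 * p.1 = p.1 * p.2)

omit [N.Normal] in
theorem card_CP_left : (CP N).card = ∑ x ∈ Nf N, Nat.card (C x) := by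
  have h1 : (CP N).card = ∑ x ∈ Nf N, ((CP N).filter (fun p => p.1 = x)).card :=
    Finset.card_eq_sum_card_fiberwise (fun p hp => by
      exact Finset.mem_coe.mpr
        (Finset.mem_product.mp (Finset.mem_filter.mp (Finset.mem_coe.mp hp)).1).1)
  rw [h1]
  refine Finset.sum_congr rfl fun x hx => ?_
  rw [Nat.card_eq_fintype_card, Fintype.card_subtype]
  refine Finset.card_bij' (fun p _ => p.2) (fun g _ => (x, g)) ?_ ?_ ?_ ?_
  · intro p hp
    obtain ⟨hp1, hp2⟩ := Finset.mem_filter.mp hp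
    obtain ⟨hp3, hp4⟩ := Finset.mem_filter.mp hp1
    refine Finset.mem_filter.mpr ⟨Finset.mem_univ _, ?_⟩
    rw [mem_C, ← hp2]; exact hp4
  · intro g hg
    obtain ⟨-, hg⟩ := Finset.mem_filter.mp hg
    rw [mem_C] at hg
    exact Finset.mem_filter.mpr ⟨Finset.mem_filter.mpr
      ⟨Finset.mem_product.mpr ⟨hx, Finset.mem_univ _⟩, hg⟩, rfl⟩
  · intro p hp
    obtain ⟨hp1, hp2⟩ := Finset.mem_filter.mp hp
    exact Prod.ext hp2.symm rfl
  · intro g hg; rfl

omit [N.Normal] in
theorem card_CP_right : (CP N).card =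
    ∑ g : G, ((Nf N).filter (fun y => g * y = y * g)).card := by
  have h1 : (CP N).card = ∑ g : G, ((CP N).filter (fun p => p.2 = g)).card :=
    Finset.card_eq_sum_card_fiberwise (fun p _ => by simp)
  rw [h1]
  refine Finset.sum_congr rfl fun g _ => ?_
  refine Finset.card_bij' (fun p _ => p.1) (fun x _ => (x, g)) ?_ ?_ ?_ ?_
  · intro p hp
    obtain ⟨hp1, hp2⟩ := Finset.mem_filter.mp hp
    obtain ⟨hp3, hp4⟩ := Finset.mem_filter.mp hp1
    refine Finset.mem_filter.mpr ⟨(Finset.mem_product.mp hp3).1, ?_⟩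
    rw [← hp2]; exact hp4
  · intro x hx
    obtain ⟨hx1, hx2⟩ := Finset.mem_filter.mp hx
    exact Finset.mem_filter.mpr ⟨Finset.mem_filter.mpr
      ⟨Finset.mem_product.mpr ⟨hx1, Finset.mem_univ _⟩, hx2⟩, rfl⟩
  · intro p hp
    obtain ⟨hp1, hp2⟩ := Finset.mem_filter.mp hp
    exact Prod.ext rfl hp2.symm
  · intro x hx; rfl

include h hcomm in
/-- lower bound for the number of commuting pairs -/
theorem CP_lower : (D1 D N).card * Nat.card (CN N) * Nat.card N ≤ lam ^ 2 * (CP N).card := by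
  -- the union of cosets
  set Q : Finset (G ⧸ CN N) := (D1 D N).image (fun d => (QuotientGroup.mk d : G ⧸ CN N)) with hQ
  set U : Finset G := univ.filter (fun g => (QuotientGroup.mk g : G ⧸ CN N) ∈ Q) with hU
  have h1 : (D1 D N).card ≤ lam * Q.card := by
    have e1 : (D1 D N).card = ∑ q ∈ Q, ((D1 D N).filter
        (fun d => (QuotientGroup.mk d : G ⧸ CN N) = q)).card :=
      Finset.card_eq_sum_card_fiberwise (fun d hd => by
        exact Finset.mem_coe.mpr (Finset.mem_image_of_mem _ (Finset.mem_coe.mp hd)))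
    rw [e1, mul_comm, ← smul_eq_mul]
    refine Finset.sum_le_card_nsmul _ _ _ ?_
    intro q hq
    obtain ⟨d, hd, rfl⟩ := Finset.mem_image.mp hq
    obtain ⟨hdD, x, hx, hne⟩ := D1_spec N hd
    refine (Finset.card_le_card ?_).trans (coset_le h N hdD hx hne)
    intro y hy
    obtain ⟨hy1, hy2⟩ := Finset.mem_filter.mp hy
    exact Finset.mem_filter.mpr ⟨(Finset.mem_filter.mp hy1).1, hy2⟩
  have h2 : U.card = Q.card * Nat.card (CN N) := by
    have e1 : U.card = ∑ q ∈ Q, (U.filter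
        (fun d => (QuotientGroup.mk d : G ⧸ CN N) = q)).card :=
      Finset.card_eq_sum_card_fiberwise (fun d hd => by
        exact Finset.mem_coe.mpr (Finset.mem_filter.mp (Finset.mem_coe.mp hd)).2)
    rw [e1]
    rw [← smul_eq_mul, ← Finset.sum_const]
    refine Finset.sum_congr rfl fun q hq => ?_
    obtain ⟨g, rfl⟩ := QuotientGroup.mk_surjective q
    rw [Nat.card_eq_fintype_card, Fintype.card_subtype]
    refine Finset.card_bij' (fun y _ => g⁻¹ * y) (fun y _ => g * y) ?_ ?_ ?_ ?_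
    · intro y hy
      obtain ⟨-, hy2⟩ := Finset.mem_filter.mp hy
      refine Finset.mem_filter.mpr ⟨Finset.mem_univ _, ?_⟩
      rw [eq_comm, QuotientGroup.eq] at hy2
      exact hy2
    · intro y hy
      obtain ⟨-, hy2⟩ := Finset.mem_filter.mp hy
      have e : (QuotientGroup.mk (g * y) : G ⧸ CN N) = QuotientGroup.mk g := by
        rw [eq_comm, QuotientGroup.eq]
        simpa using hy2
      refine Finset.mem_filter.mpr ⟨Finset.mem_filter.mpr ⟨Finset.mem_univ _, ?_⟩, e⟩
      rw [e]; exact hq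
    · intro y _; group
    · intro y _; group
  have h3 : U.card * Nat.card N ≤ lam * (CP N).card := by
    rw [card_CP_right, Finset.mul_sum]
    calc U.card * Nat.card N = ∑ g ∈ U, Nat.card N := by rw [Finset.sum_const, smul_eq_mul]
      _ ≤ ∑ g ∈ U, lam * ((Nf N).filter (fun y => g * y = y * g)).card := by
          refine Finset.sum_le_sum fun g hg => ?_
          obtain ⟨-, hg2⟩ := Finset.mem_filter.mp hg
          obtain ⟨d, hd, hdg⟩ := Finset.mem_image.mp hg2
          obtain ⟨hdD, x, hx, hne⟩ := D1_spec N hd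
          have h4 := card_N_le h N hcomm hdD hx hne
          have h5 : (Nf N).filter (fun y => d * y = y * d) = (Nf N).filter (fun y => g * y = y * g) := by
            apply Finset.filter_congr
            intro y hy
            have hyN : y ∈ N := (Finset.mem_filter.mp hy).2
            rw [QuotientGroup.eq] at hdg
            have h6 := mem_CN.mp hdg y hyN
            constructor
            · intro h7
              calc g * y = d * ((d⁻¹ * g) * y) := by group
                _ = d * (y * (d⁻¹ * g)) := by rw [h6]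
                _ = (d * y) * (d⁻¹ * g) := by group
                _ = (y * d) * (d⁻¹ * g) := by rw [h7]
                _ = y * g := by group
            · intro h7
              have h8 : (d⁻¹ * g)⁻¹ * y = y * (d⁻¹ * g)⁻¹ := by
                calc (d⁻¹ * g)⁻¹ * y = (d⁻¹ * g)⁻¹ * (y * (d⁻¹ * g)) * (d⁻¹ * g)⁻¹ := by group
                  _ = (d⁻¹ * g)⁻¹ * ((d⁻¹ * g) * y) * (d⁻¹ * g)⁻¹ := by rw [h6]
                  _ = y * (d⁻¹ * g)⁻¹ := by group
              calc d * y = g * ((d⁻¹ * g)⁻¹ * y) := by group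
                _ = g * (y * (d⁻¹ * g)⁻¹) := by rw [h8]
                _ = (g * y) * (d⁻¹ * g)⁻¹ := by group
                _ = (y * g) * (d⁻¹ * g)⁻¹ := by rw [h7]
                _ = y * d := by group
          rw [h5] at h4
          exact h4
      _ ≤ ∑ g : G, lam * ((Nf N).filter (fun y => g * y = y * g)).card :=
          Finset.sum_le_sum_of_subset (Finset.subset_univ _)
  calc (D1 D N).card * Nat.card (CN N) * Nat.card N
      ≤ (lam * Q.card) * Nat.card (CN N) * Nat.card N := by gcongr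
    _ = lam * (U.card * Nat.card N) := by rw [h2]; ring
    _ ≤ lam * (lam * (CP N).card) := Nat.mul_le_mul_left _ h3
    _ = _ := by ring

include h in
/-- upper bound for the number of commuting pairs -/
theorem CP_upper (hpos : 2 * Real.sqrt D.card ≤ D.card) :
    ((CP N).card : ℝ) * (D.card - 2 * Real.sqrt D.card) ≤
      (((Nf N).filter (fun x => x ∈ Subgroup.center G)).card : ℝ) * Nat.card G
        * (D.card - 2 * Real.sqrt D.card) + Nat.card N * (lam * Nat.card G) := by
  set β : ℝ := D.card - 2 * Real.sqrt D.card with hβ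
  have hβ0 : 0 ≤ β := by rw [hβ]; linarith
  rw [card_CP_left]
  rw [← Finset.sum_filter_add_sum_filter_not (Nf N) (fun x => x ∈ Subgroup.center G)]
  push_cast
  rw [add_mul]
  apply add_le_add
  · apply mul_le_mul_of_nonneg_right _ hβ0
    rw [← nsmul_eq_mul]
    refine Finset.sum_le_card_nsmul _ _ _ ?_
    intro x _
    exact_mod_cast Nat.card_le_card_of_injective _ (Subtype.val_injective)
  · rw [Finset.sum_mul]
    have h1 : ∀ x ∈ (Nf N).filter (fun x => ¬ x ∈ Subgroup.center G),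
        (Nat.card (C x) : ℝ) * β ≤ lam * Nat.card G := by
      intro x hx
      obtain ⟨-, hxc⟩ := Finset.mem_filter.mp hx
      have h2 := h.class_large x (index_C_of_noncentral hxc)
      have h3 : Nat.card (C x) * (C x).index = Nat.card G := Subgroup.card_mul_index _
      have h4 : (Nat.card (C x) : ℝ) * (C x).index = Nat.card G := by exact_mod_cast h3
      have h5 : β ≤ lam * (C x).index := by rw [hβ]; linarith
      calc (Nat.card (C x) : ℝ) * β ≤ (Nat.card (C x) : ℝ) * (lam * (C x).index) :=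
            mul_le_mul_of_nonneg_left h5 (Nat.cast_nonneg _)
        _ = lam * (Nat.card (C x) * (C x).index) := by ring
        _ = _ := by rw [h4]
    refine (Finset.sum_le_card_nsmul _ _ _ h1).trans ?_
    rw [nsmul_eq_mul]
    apply mul_le_mul_of_nonneg_right _ (by positivity)
    rw [← card_Nf]
    exact_mod_cast Finset.card_filter_le _ _

include h in
theorem D1_lower (hN : ¬ N ≤ Subgroup.center G) :
    (D.card : ℝ) / 2 - Real.sqrt D.card ≤ (D1 D N).card := by
  have h1 := cf_le_of_index h (CN N) (QuotientGroup.mk 1)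
  have hidx : 2 ≤ (CN N).index := by
    have h0 : (CN N).index ≠ 0 := Subgroup.index_ne_zero_of_finite
    have h1 : (CN N).index ≠ 1 := by
      intro h1
      rw [Subgroup.index_eq_one] at h1
      apply hN
      intro x hx
      rw [Subgroup.mem_center_iff]
      intro g
      have : g ∈ CN N := by rw [h1]; trivial
      exact (mem_CN.mp this x hx).symm
    omega
  have h2 : cf D (CN N) (QuotientGroup.mk 1) = (D.filter (fun d => d ∈ CN N)).card := by
    unfold cf
    congr 1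
    ext d
    simp only [mem_filter, and_congr_right_iff]
    intro _
    rw [QuotientGroup.eq]
    simp
  have h3 : (D.filter (fun d => d ∈ CN N)).card + (D1 D N).card = D.card := by
    unfold D1
    exact Finset.card_filter_add_card_filter_not _
  have h4 : ((D.filter (fun d => d ∈ CN N)).card : ℝ) + (D1 D N).card = D.card := by
    exact_mod_cast h3
  rw [h2] at h1
  have h5 : (D.card : ℝ) / (CN N).index ≤ D.card / 2 := by
    apply div_le_div_of_nonneg_left (Nat.cast_nonneg _) (by norm_num)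
    exact_mod_cast hidx
  linarith

/-- elements commuting with x modulo the center -/
noncomputable def Hx (x : G) : Subgroup G :=
  (Subgroup.centralizer {(QuotientGroup.mk x : G ⧸ Subgroup.center G)}).comap
    (QuotientGroup.mk' (Subgroup.center G))

omit [Fintype G] in
theorem mem_Hx {x g : G} : g ∈ Hx x ↔ (x * g)⁻¹ * (g * x) ∈ Subgroup.center G := by
  unfold Hx
  rw [Subgroup.mem_comap, Subgroup.mem_centralizer_singleton_iff, QuotientGroup.mk'_apply,
    ← QuotientGroup.mk_mul, ← QuotientGroup.mk_mul, eq_comm, QuotientGroup.eq]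

theorem index_Hx {x : G} (hx : x ∈ N) :
    (Hx x).index * ((Nf N).filter (fun x => x ∈ Subgroup.center G)).card ≤ Nat.card N := by
  rw [← card_Nf, Subgroup.index, Nat.card_eq_fintype_card, ← Finset.card_univ,
    ← Finset.card_product]
  refine Finset.card_le_card_of_injOn
    (fun p : (G ⧸ Hx x) × G => (Quotient.out p.1) * x * (Quotient.out p.1)⁻¹ * p.2) ?_ ?_
  · intro p hp
    obtain ⟨-, hp2⟩ := Finset.mem_product.mp (Finset.mem_coe.mp hp)
    obtain ⟨hp3, -⟩ := Finset.mem_filter.mp hp2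
    have hp4 : p.2 ∈ N := (Finset.mem_filter.mp hp3).2
    exact Finset.mem_coe.mpr (Finset.mem_filter.mpr ⟨Finset.mem_univ _,
      N.mul_mem ((inferInstance : N.Normal).conj_mem x hx _) hp4⟩)
  · intro p hp q hq hpq
    obtain ⟨-, hp2⟩ := Finset.mem_product.mp (Finset.mem_coe.mp hp)
    obtain ⟨-, hp3⟩ := Finset.mem_filter.mp hp2
    obtain ⟨-, hq2⟩ := Finset.mem_product.mp (Finset.mem_coe.mp hq)
    obtain ⟨-, hq3⟩ := Finset.mem_filter.mp hq2
    have hpq' : (Quotient.out p.1) * x * (Quotient.out p.1)⁻¹ * p.2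
        = (Quotient.out q.1) * x * (Quotient.out q.1)⁻¹ * q.2 := hpq
    set g := Quotient.out p.1 with hg
    set k := Quotient.out q.1 with hk
    have h1 : p.1 = q.1 := by
      rw [← QuotientGroup.out_eq' p.1, ← QuotientGroup.out_eq' q.1, QuotientGroup.eq, mem_Hx]
      rw [← hg, ← hk]
      -- g⁻¹ k x (g⁻¹ k)⁻¹ = x p.2 q.2⁻¹
      have h2 : k * x * k⁻¹ = g * x * g⁻¹ * (p.2 * q.2⁻¹) := by
        calc k * x * k⁻¹ = k * x * k⁻¹ * q.2 * q.2⁻¹ := by group
          _ = g * x * g⁻¹ * p.2 * q.2⁻¹ := by rw [hpq']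
          _ = _ := by group
      have hz : p.2 * q.2⁻¹ ∈ Subgroup.center G :=
        Subgroup.mul_mem _ hp3 (Subgroup.inv_mem _ hq3)
      have hz' := Subgroup.mem_center_iff.mp hz
      have h3 : (x * (g⁻¹ * k))⁻¹ * (g⁻¹ * k * x) = p.2 * q.2⁻¹ := by
        calc (x * (g⁻¹ * k))⁻¹ * (g⁻¹ * k * x)
            = (g⁻¹ * k)⁻¹ * x⁻¹ * g⁻¹ * (k * x * k⁻¹) * k := by group
          _ = (g⁻¹ * k)⁻¹ * x⁻¹ * g⁻¹ * (g * x * g⁻¹ * (p.2 * q.2⁻¹)) * k := by rw [h2]
          _ = k⁻¹ * ((p.2 * q.2⁻¹) * k) := by group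
          _ = k⁻¹ * (k * (p.2 * q.2⁻¹)) := by rw [hz' k]
          _ = _ := by group
      rw [h3]; exact hz
    refine Prod.ext h1 ?_
    have h4 : g = k := by rw [hg, hk, h1]
    rw [h4] at hpq'
    exact mul_left_cancel hpq'

include h in
theorem quot_bound (hbig : (lam : ℝ) * lam + 2 * Real.sqrt D.card < D.card)
    {x : G} (hx : x ∈ N) (hxc : x ∉ Subgroup.center G) :
    (D.card : ℝ) * ((Nf N).filter (fun x => x ∈ Subgroup.center G)).card / Nat.card N ≤
      2 * Real.sqrt D.card + lam * D.card / (D.card - 2 * Real.sqrt D.card) := by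
  set κ : ℝ := Real.sqrt D.card with hκ
  set k : ℝ := (D.card : ℝ) with hk
  have hκ0 : 0 ≤ κ := Real.sqrt_nonneg _
  have hl : (0 : ℝ) ≤ lam := Nat.cast_nonneg _
  have hβ : 0 < k - 2 * κ := by nlinarith
  have h1 := le_cf_of_index h (Hx x) (QuotientGroup.mk 1)
  have h2 := cf_le_of_index h (C x) (QuotientGroup.mk 1)
  rw [← hκ, ← hk] at h1 h2
  have h3 : cf D (Hx x) (QuotientGroup.mk 1) ≤ cf D (C x) (QuotientGroup.mk 1) := by
    unfold cf
    apply Finset.card_le_card
    intro d hd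
    obtain ⟨hdD, hdq⟩ := Finset.mem_filter.mp hd
    refine Finset.mem_filter.mpr ⟨hdD, ?_⟩
    rw [QuotientGroup.eq] at hdq ⊢
    rw [mul_one] at hdq ⊢
    have hdH : d ∈ Hx x := by simpa using (Hx x).inv_mem hdq
    rw [mem_Hx] at hdH
    have h4 : x * d * x⁻¹ * d⁻¹ ∈ Subgroup.center G := by
      have h5 := Subgroup.inv_mem _ hdH
      have h6 := (inferInstance : (Subgroup.center G).Normal).conj_mem _ h5 (d * x)
      have e : d * x * ((x * d)⁻¹ * (d * x))⁻¹ * (d * x)⁻¹ = x * d * x⁻¹ * d⁻¹ := by group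
      rwa [e] at h6
    have h7 := h.central_comm hbig hdD h4
    have h8 : d ∈ C x := by
      rw [mem_C]
      have h2 : x * d * x⁻¹ * d⁻¹ * d * x = 1 * d * x := by rw [h7]
      calc d * x = 1 * d * x := by group
        _ = x * d * x⁻¹ * d⁻¹ * d * x := h2.symm
        _ = x * d := by group
    exact (C x).inv_mem h8
  have h4 : (cf D (Hx x) (QuotientGroup.mk 1) : ℝ) ≤ cf D (C x) (QuotientGroup.mk 1) := by
    exact_mod_cast h3
  have h5 := h.class_large x (index_C_of_noncentral hxc)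
  rw [← hκ, ← hk] at h5
  have hip : (0 : ℝ) < (C x).index := by
    exact_mod_cast Nat.pos_of_ne_zero Subgroup.index_ne_zero_of_finite
  have hk0 : 0 ≤ k := by rw [hk]; exact Nat.cast_nonneg _
  have h6 : k / (C x).index ≤ lam * k / (k - 2 * κ) := by
    rw [div_le_div_iff₀ hip hβ]
    have : k - 2 * κ ≤ lam * (C x).index := by linarith
    nlinarith [mul_le_mul_of_nonneg_left this hk0]
  have hHp : (0 : ℝ) < (Hx x).index := by
    exact_mod_cast Nat.pos_of_ne_zero Subgroup.index_ne_zero_of_finite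
  have hNp : (0 : ℝ) < Nat.card N := by exact_mod_cast Nat.card_pos
  have h7 : k * ((Nf N).filter (fun x => x ∈ Subgroup.center G)).card / Nat.card N
      ≤ k / (Hx x).index := by
    rw [div_le_div_iff₀ hNp hHp]
    have h8 : ((Hx x).index : ℝ) * ((Nf N).filter (fun x => x ∈ Subgroup.center G)).card
        ≤ Nat.card N := by exact_mod_cast index_Hx N hx
    nlinarith [mul_le_mul_of_nonneg_left h8 hk0]
  linarith

include h hcomm in
theorem final (hlam : 1 ≤ lam) (hN : ¬ N ≤ Subgroup.center G) : D.card < 100 * lam ^ 4 := by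
  by_contra hcon
  push Not at hcon
  set κ : ℝ := Real.sqrt D.card with hκ
  set k : ℝ := (D.card : ℝ) with hk
  have hk0 : 0 ≤ k := by rw [hk]; exact Nat.cast_nonneg _
  have hκk : κ * κ = k := Real.mul_self_sqrt hk0
  have hκ0 : 0 ≤ κ := Real.sqrt_nonneg _
  have hl : (1 : ℝ) ≤ lam := by exact_mod_cast hlam
  have hκ10 : 10 * (lam : ℝ) ^ 2 ≤ κ := by
    apply Real.le_sqrt_of_sq_le
    have : ((100 * lam ^ 4 : ℕ) : ℝ) ≤ (D.card : ℝ) := by exact_mod_cast hcon
    push_cast at this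
    nlinarith
  have hκ10' : 10 ≤ κ := by nlinarith
  obtain ⟨x, hxN, hxc⟩ : ∃ x ∈ N, x ∉ Subgroup.center G := by
    by_contra hc
    push Not at hc
    exact hN hc
  have hm1 := D1_lower h N hN
  rw [← hκ, ← hk] at hm1
  set m1 : ℝ := ((D1 D N).card : ℝ) with hm1d
  have hm1pos : 0 < m1 := by nlinarith
  have hlam2 : (2 : ℝ) ≤ lam := by
    by_contra hc
    have hc' : lam = 1 := by
      have : (lam : ℝ) < 2 := by linarith
      have : lam < 2 := by exact_mod_cast this
      omega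
    have hne : (D1 D N).Nonempty := by
      rw [← Finset.card_pos]
      rw [hm1d] at hm1pos
      exact_mod_cast hm1pos
    obtain ⟨d, hd⟩ := hne
    obtain ⟨hdD, y, hy, hyd⟩ := D1_spec N hd
    have h1 := card_N_le h N hcomm hdD hy hyd
    rw [hc', one_mul, ← card_Nf] at h1
    have h2 : (Nf N).filter (fun y => d * y = y * d) = Nf N :=
      Finset.eq_of_subset_of_card_le (Finset.filter_subset _ _) h1
    have h3 : y ∈ (Nf N).filter (fun y => d * y = y * d) := by
      rw [h2]; exact Finset.mem_filter.mpr ⟨Finset.mem_univ _, hy⟩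
    obtain ⟨-, h4⟩ := Finset.mem_filter.mp h3
    apply hyd
    rw [← h4]; group
  have hβ : 0 < k - 2 * κ := by nlinarith
  have hll : (lam : ℝ) * lam ≤ κ / 10 := by nlinarith
  have hbig : (lam : ℝ) * lam + 2 * κ < k := by nlinarith
  have hq := quot_bound h N hbig hxN hxc
  rw [← hκ, ← hk] at hq
  have hup := CP_upper h N (by rw [← hκ, ← hk]; linarith)
  rw [← hκ, ← hk] at hup
  have hlow := CP_lower h N hcomm
  have hG : 1 < Nat.card G := by
    rw [Nat.card_eq_fintype_card, Fintype.one_lt_card_iff]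
    refine ⟨x, 1, ?_⟩
    intro hx1
    apply hxc
    rw [hx1]; exact Subgroup.one_mem _
  have hlv := h.lam_v_le hG
  rw [← hk] at hlv
  have hm1' := card_D1_le h N
  have hNCN : Nat.card N ≤ Nat.card (CN N) := Subgroup.card_le_of_le (N_le_CN N hcomm)
  set ν : ℝ := (Nat.card N : ℝ) with hν
  set νz : ℝ := (((Nf N).filter (fun x => x ∈ Subgroup.center G)).card : ℝ) with hνz
  set v : ℝ := (Nat.card G : ℝ) with hv
  set cN : ℝ := (Nat.card (CN N) : ℝ) with hcN
  set P : ℝ := ((CP N).card : ℝ) with hP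
  have hνpos : 0 < ν := by rw [hν]; exact_mod_cast Nat.card_pos
  have hvpos : 0 < v := by rw [hv]; exact_mod_cast Nat.card_pos
  have hνz0 : 0 ≤ νz := by rw [hνz]; exact Nat.cast_nonneg _
  have a1 : m1 * cN * ν ≤ lam ^ 2 * P := by
    rw [hm1d, hcN, hν, hP]; exact_mod_cast hlow
  have a2 : m1 ≤ lam * ν := by rw [hm1d, hν]; exact_mod_cast hm1'
  have a3 : ν ≤ cN := by rw [hν, hcN]; exact_mod_cast hNCN
  have hlpos : (0 : ℝ) < lam := by linarith
  -- ρ = νz / ν
  set ρ : ℝ := νz / ν with hρ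
  have hρν : ρ * ν = νz := by rw [hρ]; field_simp
  have b1 : m1 * cN * (k - 2 * κ) ≤ lam ^ 2 * v * (ρ * (k - 2 * κ) + lam) := by
    have c1 : m1 * cN * ν * (k - 2 * κ) ≤ lam ^ 2 * (νz * v * (k - 2 * κ) + ν * (lam * v)) := by
      calc m1 * cN * ν * (k - 2 * κ) ≤ lam ^ 2 * P * (k - 2 * κ) :=
            mul_le_mul_of_nonneg_right a1 hβ.le
        _ = lam ^ 2 * (P * (k - 2 * κ)) := by ring
        _ ≤ _ := mul_le_mul_of_nonneg_left hup (by positivity)
    rw [← hρν] at c1
    have c2 : m1 * cN * (k - 2 * κ) * ν ≤ lam ^ 2 * v * (ρ * (k - 2 * κ) + lam) * ν := by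
      calc m1 * cN * (k - 2 * κ) * ν = m1 * cN * ν * (k - 2 * κ) := by ring
        _ ≤ _ := c1
        _ = _ := by ring
    exact le_of_mul_le_mul_right c2 hνpos
  have hρ0 : 0 ≤ ρ := div_nonneg hνz0 hνpos.le
  have b2 : m1 ^ 2 * (k - 2 * κ) ≤ lam ^ 2 * k ^ 2 * (ρ * (k - 2 * κ) + lam) := by
    have c1 : m1 ≤ lam * cN := a2.trans (mul_le_mul_of_nonneg_left a3 hlpos.le)
    calc m1 ^ 2 * (k - 2 * κ) = m1 * m1 * (k - 2 * κ) := by ring
      _ ≤ m1 * (lam * cN) * (k - 2 * κ) := by gcongr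
      _ = lam * (m1 * cN * (k - 2 * κ)) := by ring
      _ ≤ lam * (lam ^ 2 * v * (ρ * (k - 2 * κ) + lam)) :=
          mul_le_mul_of_nonneg_left b1 hlpos.le
      _ = lam ^ 2 * (lam * v) * (ρ * (k - 2 * κ) + lam) := by ring
      _ ≤ _ := by gcongr
  have b3 : ρ * k ≤ 2 * κ + lam * k / (k - 2 * κ) := by
    have : k * νz / ν = ρ * k := by rw [hρ]; ring
    linarith
  have b4 : ρ * k * (k - 2 * κ) ≤ 2 * κ * (k - 2 * κ) + lam * k := by
    have := mul_le_mul_of_nonneg_right b3 hβ.le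
    have e : (2 * κ + lam * k / (k - 2 * κ)) * (k - 2 * κ) = 2 * κ * (k - 2 * κ) + lam * k := by
      field_simp
    linarith
  have b5 : m1 ^ 2 * (k - 2 * κ) ≤ lam ^ 2 * k * (2 * κ * (k - 2 * κ) + 2 * lam * k) := by
    calc m1 ^ 2 * (k - 2 * κ) ≤ lam ^ 2 * k ^ 2 * (ρ * (k - 2 * κ) + lam) := b2
      _ = lam ^ 2 * k * (ρ * k * (k - 2 * κ) + lam * k) := by ring
      _ ≤ lam ^ 2 * k * ((2 * κ * (k - 2 * κ) + lam * k) + lam * k) := by gcongr
      _ = _ := by ring
  have hκ40 : 40 ≤ κ := by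
    have h4 : (4 : ℝ) ≤ (lam : ℝ) ^ 2 := by nlinarith only [hlam2]
    linarith
  exact real_contra κ lam k m1 hκk hκ40 hlam2 hκ10 hm1 b5

end abelian

end Pool.Agent.Helper17.NormalDS
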