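import Pool.Agent.Helper34.PN.Defs

/-!
Row GAP of the project PN (MP_08bd45_co): blow-up of weights.   [helper17]
-/

namespace Pool.Agent.Helper34.PN

open Finset

/-- The property of the blow-up. -/
theorem good_blowup {α : Type} [DecidableEq α] (m : ℕ) (X : Finset α) (H : Finset (Finset α))
    (hG : Good X H m) (n : α → ℕ) (H' : Finset (Finset ((_ : α) × ℕ)))
    (hH' : ∀ E' ∈ H', ∃ E ∈ H, E' = (X.sigma (fun x => range (n x))).filter (fun p => p.1 ∈ E)) :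
    Good (X.sigma (fun x => range (n x))) H' m := by
  intro Y hY
  obtain ⟨R₁, hR₁, hE₁⟩ := hG (X.filter (fun x => (Y.filter (fun p => p.1 = x)).card = 1))
    (filter_subset _ _)
  set X₁ := X.filter (fun x => (Y.filter (fun p => p.1 = x)).card = 1) with hX₁
  refine ⟨Y.filter (fun p => p.1 ∈ R₁ ∨ (p.1 ∉ X₁ ∧ ∀ q ∈ Y, q.1 = p.1 → p.2 ≤ q.2)),
    filter_subset _ _, ?_⟩
  intro E' hE' hm
  obtain ⟨E, hE, rfl⟩ := hH' E' hE'
  have hYX : ∀ p ∈ Y, p.1 ∈ X := fun p hp => (mem_sigma.1 (hY hp)).1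
  by_cases hA : ∃ x ∈ E, 2 ≤ (Y.filter (fun p => p.1 = x)).card
  · obtain ⟨x, hxE, hx2⟩ := hA
    have hx1 : x ∉ X₁ := by
      intro h
      have := (mem_filter.1 h).2
      omega
    have hne : (Y.filter (fun p => p.1 = x)).Nonempty := card_pos.1 (by omega)
    obtain ⟨p, hp, hpmin⟩ := exists_min_image _ (fun p : (_ : α) × ℕ => p.2) hne
    obtain ⟨q, hq, hqp⟩ := exists_mem_ne
      (show 1 < (Y.filter (fun p => p.1 = x)).card by omega) p
    obtain ⟨hpY, hpx⟩ := mem_filter.1 hp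
    obtain ⟨hqY, hqx⟩ := mem_filter.1 hq
    refine ⟨⟨p, ?_⟩, ⟨q, ?_⟩⟩
    · refine mem_inter.2 ⟨mem_filter.2 ⟨hY hpY, by rw [hpx]; exact hxE⟩, mem_filter.2 ⟨hpY, Or.inr ⟨?_, ?_⟩⟩⟩
      · rw [hpx]; exact hx1
      · intro q' hq' hqq
        exact hpmin q' (mem_filter.2 ⟨hq', hqq.trans hpx⟩)
    · refine mem_inter.2 ⟨mem_filter.2 ⟨hY hqY, by rw [hqx]; exact hxE⟩, mem_sdiff.2 ⟨hqY, ?_⟩⟩
      intro hqR
      rcases (mem_filter.1 hqR).2 with h | h
      · rw [hqx] at h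
        exact hx1 (hR₁ h)
      · have h1 : q.2 ≤ p.2 := h.2 p hpY (hpx.trans hqx.symm)
        have h2 : p.2 ≤ q.2 := hpmin q hq
        apply hqp
        exact Sigma.ext (hqx.trans hpx.symm) (heq_of_eq (le_antisymm h1 h2))
  · have hA' : ∀ x ∈ E, (Y.filter (fun p => p.1 = x)).card ≤ 1 := by
      intro x hx
      by_contra h
      exact hA ⟨x, hx, by omega⟩
    have hcard : (((X.sigma (fun x => range (n x))).filter (fun p => p.1 ∈ E)) ∩ Y).card
        ≤ (E ∩ X₁).card := by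
      apply card_le_card_of_injOn (fun p => p.1)
      · intro p hp
        obtain ⟨hp1, hpY⟩ := mem_inter.1 (mem_coe.1 hp)
        have hpE := (mem_filter.1 hp1).2
        refine mem_coe.2 (mem_inter.2 ⟨hpE, mem_filter.2 ⟨hYX p hpY, ?_⟩⟩)
        have h1 := hA' p.1 hpE
        have h2 : 0 < (Y.filter (fun q => q.1 = p.1)).card :=
          card_pos.2 ⟨p, mem_filter.2 ⟨hpY, rfl⟩⟩
        show (Y.filter (fun q => q.1 = p.1)).card = 1
        omega
      · intro p hp q hq hpq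
        obtain ⟨hp1, hpY⟩ := mem_inter.1 (mem_coe.1 hp)
        obtain ⟨hq1, hqY⟩ := mem_inter.1 (mem_coe.1 hq)
        have hpE := (mem_filter.1 hp1).2
        have h1 := hA' p.1 hpE
        exact card_le_one.1 h1 p (mem_filter.2 ⟨hpY, rfl⟩) q (mem_filter.2 ⟨hqY, hpq.symm⟩)
    obtain ⟨⟨x, hx⟩, ⟨y, hy⟩⟩ := hE₁ E hE (hm.trans hcard)
    obtain ⟨hxE, hxR⟩ := mem_inter.1 hx
    obtain ⟨hyE, hyR⟩ := mem_inter.1 hy
    obtain ⟨hyX₁, hyR'⟩ := mem_sdiff.1 hyR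
    have hget : ∀ z ∈ X₁, ∃ p ∈ Y, p.1 = z := by
      intro z hz
      have h1 := (mem_filter.1 hz).2
      obtain ⟨p, hp⟩ := card_pos.1 (by rw [h1]; exact one_pos)
      exact ⟨p, (mem_filter.1 hp).1, (mem_filter.1 hp).2⟩
    obtain ⟨p, hpY, hpx⟩ := hget x (hR₁ hxR)
    obtain ⟨q, hqY, hqy⟩ := hget y hyX₁
    refine ⟨⟨p, ?_⟩, ⟨q, ?_⟩⟩
    · exact mem_inter.2 ⟨mem_filter.2 ⟨hY hpY, by rw [hpx]; exact hxE⟩,
        mem_filter.2 ⟨hpY, Or.inl (by rw [hpx]; exact hxR)⟩⟩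
    · refine mem_inter.2 ⟨mem_filter.2 ⟨hY hqY, by rw [hqy]; exact hyE⟩, mem_sdiff.2 ⟨hqY, ?_⟩⟩
      intro hqR
      rcases (mem_filter.1 hqR).2 with h | h
      · rw [hqy] at h
        exact hyR' h
      · rw [hqy] at h
        exact h.1 hyX₁

/-- GAP from NETS: linear nets for weights. -/
theorem gap_of_nets (m : ℕ)
    (hnets : ∃ C : ℕ, 1 ≤ C ∧ ∀ (α : Type) [DecidableEq α] (X : Finset α) (H : Finset (Finset α))
      (s : ℕ), 1 ≤ s → Good X H m → (∀ E ∈ H, s ≤ (E ∩ X).card) →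
      ∃ T : Finset α, T ⊆ X ∧ s * T.card ≤ C * X.card ∧ ∀ E ∈ H, (E ∩ T).Nonempty) :
    ∃ C : ℕ, 1 ≤ C ∧ ∀ (α : Type) [DecidableEq α] (X : Finset α) (H : Finset (Finset α))
      (w : α → ℝ), Good X H m → (∀ x ∈ X, 0 ≤ w x) →
      ∃ T : Finset α, T ⊆ X ∧ (T.card : ℝ) ≤ C * ∑ x ∈ X, w x ∧
        ∀ E ∈ H, 1 ≤ ∑ x ∈ X.filter (fun x => x ∈ E), w x → (E ∩ T).Nonempty := by
  classical
  obtain ⟨C, hC, hn⟩ := hnets
  refine ⟨2 * C, by omega, ?_⟩
  intro α _ X H w hG hw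
  set s : ℕ := X.card + 1 with hs
  let n : α → ℕ := fun x => ⌊2 * (s : ℝ) * w x⌋₊
  set X' : Finset ((_ : α) × ℕ) := X.sigma (fun x => range (n x)) with hX'
  set H' : Finset (Finset ((_ : α) × ℕ)) :=
    (H.filter (fun E => 1 ≤ ∑ x ∈ X.filter (fun x => x ∈ E), w x)).image
      (fun E => X'.filter (fun p => p.1 ∈ E)) with hH'
  have hspos : (0 : ℝ) < s := by
    rw [hs]
    positivity
  have hG' : Good X' H' m := by
    apply good_blowup m X H hG n H'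
    intro E' hE'
    obtain ⟨E, hE, rfl⟩ := mem_image.1 hE'
    exact ⟨E, (mem_filter.1 hE).1, rfl⟩
  have hbig : ∀ E' ∈ H', s ≤ (E' ∩ X').card := by
    intro E' hE'
    obtain ⟨E, hE, rfl⟩ := mem_image.1 hE'
    obtain ⟨-, hE1⟩ := mem_filter.1 hE
    have h1 : X'.filter (fun p => p.1 ∈ E) ∩ X' =
        (X.filter (fun x => x ∈ E)).sigma (fun x => range (n x)) := by
      ext p
      simp only [hX', mem_inter, mem_filter, mem_sigma]
      tauto
    rw [h1, card_sigma]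
    have h2 : (s : ℝ) ≤ ((∑ x ∈ X.filter (fun x => x ∈ E), (range (n x)).card : ℕ) : ℝ) := by
      push_cast
      have h3 : ∑ x ∈ X.filter (fun x => x ∈ E), (2 * (s : ℝ) * w x - 1) ≤
          ∑ x ∈ X.filter (fun x => x ∈ E), ((range (n x)).card : ℝ) := by
        apply sum_le_sum
        intro x _
        rw [card_range]
        exact (Nat.sub_one_lt_floor _).le
      refine le_trans ?_ h3
      rw [sum_sub_distrib, ← mul_sum, sum_const, nsmul_eq_mul, mul_one]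
      have h4 : ((X.filter (fun x => x ∈ E)).card : ℝ) ≤ (X.card : ℝ) := by
        exact_mod_cast card_le_card (filter_subset _ _)
      have h5 : (s : ℝ) = X.card + 1 := by
        rw [hs]
        push_cast
        ring
      nlinarith [mul_le_mul_of_nonneg_left hE1 (by positivity : (0 : ℝ) ≤ 2 * s)]
    exact_mod_cast h2
  obtain ⟨T', hT'X, hT'c, hT'h⟩ := hn _ X' H' s (by omega) hG' hbig
  refine ⟨T'.image (fun p => p.1), ?_, ?_, ?_⟩
  · intro x hx
    obtain ⟨p, hp, rfl⟩ := mem_image.1 hx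
    exact (mem_sigma.1 (hT'X hp)).1
  · have h1 : ((T'.image (fun p => p.1)).card : ℝ) ≤ (T'.card : ℝ) := by
      exact_mod_cast card_image_le
    refine h1.trans ?_
    have h2 : (X'.card : ℝ) ≤ 2 * s * ∑ x ∈ X, w x := by
      rw [hX', card_sigma, mul_sum]
      push_cast
      apply sum_le_sum
      intro x hx
      rw [card_range]
      exact Nat.floor_le (mul_nonneg (by positivity) (hw x hx))
    have h3 : (s : ℝ) * (T'.card : ℝ) ≤ C * (X'.card : ℝ) := by exact_mod_cast hT'c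
    have h4 : (s : ℝ) * (T'.card : ℝ) ≤ s * (((2 * C : ℕ) : ℝ) * ∑ x ∈ X, w x) := by
      refine h3.trans ((mul_le_mul_of_nonneg_left h2 (by positivity)).trans (le_of_eq ?_))
      push_cast
      ring
    exact le_of_mul_le_mul_left h4 hspos
  · intro E hE hE1
    obtain ⟨p, hp⟩ := hT'h (X'.filter (fun p => p.1 ∈ E))
      (mem_image.2 ⟨E, mem_filter.2 ⟨hE, hE1⟩, rfl⟩)
    obtain ⟨hp1, hp2⟩ := mem_inter.1 hp
    exact ⟨p.1, mem_inter.2 ⟨(mem_filter.1 hp1).2, mem_image.2 ⟨p, hp2, rfl⟩⟩⟩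

end Pool.Agent.Helper34.PN
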