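import Mathlib
import Pool.Agent.Helper17.Bireg

set_option autoImplicit false

namespace Pool.Agent.Helper17.Revers

open Finset Classical

universe u

variable {G : Type u} [CommGroup G] [Fintype G]

/-- indicator of a set in the group ring -/
noncomputable def ind (p : ℕ) (D : Finset G) : MonoidAlgebra (ZMod p) G :=
  ∑ d ∈ D, MonoidAlgebra.single d 1

/-- sum of all elements -/
noncomputable def T (p : ℕ) (G : Type u) [CommGroup G] [Fintype G] : MonoidAlgebra (ZMod p) G :=
  ∑ g : G, MonoidAlgebra.single g 1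

theorem coeff_sum {p : ℕ} {ι : Type*} (s : Finset ι) (f : ι → G) (x : G) :
    (∑ i ∈ s, (MonoidAlgebra.single (f i) (1 : ZMod p) : MonoidAlgebra (ZMod p) G)).coeff x
      = ((s.filter (fun i => f i = x)).card : ZMod p) := by
  rw [MonoidAlgebra.coeff_sum]
  rw [Finsupp.finsetSum_apply]
  simp only [MonoidAlgebra.coeff_single_apply]
  rw [Finset.sum_ite, Finset.sum_const_zero, add_zero, Finset.sum_const, nsmul_eq_mul, mul_one]

theorem coeff_ind (p : ℕ) (D : Finset G) (x : G) :
    (ind p D).coeff x = if x ∈ D then 1 else 0 := by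
  unfold ind
  rw [coeff_sum D (fun d => d) x]
  by_cases hx : x ∈ D
  · rw [if_pos hx]
    have : D.filter (fun i => i = x) = {x} := by
      ext y; simp only [mem_filter, mem_singleton]
      constructor
      · rintro ⟨-, h⟩; exact h
      · rintro rfl; exact ⟨hx, rfl⟩
    rw [this]; simp
  · rw [if_neg hx]
    have : D.filter (fun i => i = x) = ∅ := by
      ext y; simp only [mem_filter, notMem_empty, iff_false, not_and]
      rintro hy rfl; exact hx hy
    rw [this]; simp

theorem coeff_T (p : ℕ) (x : G) : (T p G).coeff x = 1 := by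
  have := coeff_ind p (univ : Finset G) x
  rw [if_pos (Finset.mem_univ x)] at this
  exact this

theorem single_T (p : ℕ) (g : G) : MonoidAlgebra.single g 1 * T p G = T p G := by
  unfold T
  rw [Finset.mul_sum]
  simp only [MonoidAlgebra.single_mul_single, mul_one]
  exact Fintype.sum_equiv (Equiv.mulLeft g) _ _ (fun x => rfl)

theorem ind_T (p : ℕ) (D : Finset G) : ind p D * T p G = (D.card : ZMod p) • T p G := by
  unfold ind
  rw [Finset.sum_mul]
  simp only [single_T]
  rw [Finset.sum_const]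
  rw [← Nat.cast_smul_eq_nsmul (ZMod p)]

theorem T_T (p : ℕ) (hv : p ∣ Fintype.card G) : T p G * T p G = 0 := by
  have h := ind_T p (univ : Finset G)
  have e : ind p (univ : Finset G) = T p G := rfl
  rw [e, Finset.card_univ, (ZMod.natCast_eq_zero_iff _ _).mpr hv, zero_smul] at h
  exact h

/-- powers of `n + lam T` -/
theorem pow_nT (p : ℕ) (hv : p ∣ Fintype.card G) (a b : ZMod p) (q : ℕ) :
    ∃ c : ZMod p, (algebraMap (ZMod p) (MonoidAlgebra (ZMod p) G) a
        + algebraMap (ZMod p) (MonoidAlgebra (ZMod p) G) b * T p G) ^ q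
      = algebraMap (ZMod p) (MonoidAlgebra (ZMod p) G) (a ^ q)
        + algebraMap (ZMod p) (MonoidAlgebra (ZMod p) G) c * T p G := by
  induction q with
  | zero => exact ⟨0, by simp [MonoidAlgebra.one_def]⟩
  | succ q ih =>
    obtain ⟨c, hc⟩ := ih
    refine ⟨a ^ q * b + c * a, ?_⟩
    rw [pow_succ, hc]
    simp only [map_mul, map_add, map_pow]
    linear_combination (algebraMap (ZMod p) (MonoidAlgebra (ZMod p) G) c *
      algebraMap (ZMod p) (MonoidAlgebra (ZMod p) G) b) * T_T p hv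

/-- the group ring equation -/
theorem ind_sq (p : ℕ) (D : Finset G) (lam : ℕ) (g : G)
    (hrep : ∀ x : G, x ≠ 1 → ((D ×ˢ D).filter (fun q => q.1 * q.2⁻¹ = x)).card = lam)
    (hinv : ∀ d ∈ D, g * d⁻¹ ∈ D) :
    ind p D * ind p D = MonoidAlgebra.single g 1 *
      (algebraMap (ZMod p) (MonoidAlgebra (ZMod p) G) ((D.card : ZMod p) - lam)
        + algebraMap (ZMod p) (MonoidAlgebra (ZMod p) G) (lam : ZMod p) * T p G) := by
  have himg : D.image (fun d => g * d⁻¹) = D := by
    apply Finset.eq_of_subset_of_card_le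
    · intro y hy
      obtain ⟨e, he, rfl⟩ := Finset.mem_image.mp hy
      exact hinv e he
    · rw [Finset.card_image_of_injective]
      intro a b hab
      simpa using hab
  have e1 : MonoidAlgebra.single g 1 * ∑ d ∈ D, MonoidAlgebra.single d⁻¹ 1 = ind p D := by
    rw [Finset.mul_sum]
    simp only [MonoidAlgebra.single_mul_single, mul_one]
    conv_rhs => rw [← himg]
    unfold ind
    rw [Finset.sum_image]
    intro a _ b _ hab
    simpa using hab
  have e2 : ind p D * ind p D
      = MonoidAlgebra.single g 1 * ((∑ d ∈ D, MonoidAlgebra.single d⁻¹ 1) * ind p D) := by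
    rw [← mul_assoc, e1]
  rw [e2]
  congr 1
  unfold ind
  rw [mul_comm, Finset.sum_mul_sum, ← Finset.sum_product']
  simp only [MonoidAlgebra.single_mul_single, mul_one]
  rw [← Algebra.smul_def, Algebra.algebraMap_eq_smul_one]
  ext x
  rw [coeff_sum (D ×ˢ D) (fun q => q.1 * q.2⁻¹) x]
  simp only [MonoidAlgebra.coeff_add, MonoidAlgebra.coeff_smul, Finsupp.add_apply,
    Finsupp.smul_apply, coeff_T, smul_eq_mul, mul_one]
  rw [MonoidAlgebra.one_def, MonoidAlgebra.coeff_single_apply]
  by_cases hx : x = 1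
  · subst hx
    have : ((D ×ˢ D).filter (fun q => q.1 * q.2⁻¹ = 1)).card = D.card := by
      symm
      refine Finset.card_bij (fun d _ => (d, d)) ?_ ?_ ?_
      · intro d hd; simp [hd]
      · intro a _ b _ h; simpa using congrArg Prod.fst h
      · intro q hq
        obtain ⟨hq1, hq2⟩ := Finset.mem_filter.mp hq
        obtain ⟨ha, hb⟩ := Finset.mem_product.mp hq1
        rw [mul_inv_eq_one] at hq2
        exact ⟨q.1, ha, Prod.ext rfl hq2⟩
    rw [this]; simp
  · rw [hrep x hx, if_neg (fun h => hx h.symm)]; ring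

/-- the structure of `D` modulo an odd prime divisor of `v` not dividing the order -/
theorem dichotomy (p : ℕ) (hp : p.Prime) (hodd : p ≠ 2) (hv : p ∣ Fintype.card G)
    (D : Finset G) (lam : ℕ) (g : G)
    (hrep : ∀ x : G, x ≠ 1 → ((D ×ˢ D).filter (fun q => q.1 * q.2⁻¹ = x)).card = lam)
    (hinv : ∀ d ∈ D, g * d⁻¹ ∈ D) (hn : ¬ ((D.card : ZMod p) - lam = 0)) :
    ∃ (H : Subgroup G) (a : G), H ≠ ⊤ ∧
      ((∀ x : G, x ∈ D → a⁻¹ * x ∈ H) ∨ (∀ x : G, a⁻¹ * x ∉ H → x ∈ D)) := by
  have : Fact p.Prime := ⟨hp⟩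
  have : CharP (MonoidAlgebra (ZMod p) G) p :=
    charP_of_injective_algebraMap (R := ZMod p)
      (FaithfulSMul.algebraMap_injective (ZMod p) (MonoidAlgebra (ZMod p) G)) p
  have : ExpChar (MonoidAlgebra (ZMod p) G) p := ExpChar.prime hp
  obtain ⟨q, hq⟩ : ∃ q, p = 2 * q + 1 := by
    rcases hp.eq_two_or_odd' with h | ⟨q, hq⟩
    · exact absurd h hodd
    · exact ⟨q, hq⟩
  let H : Subgroup G := (powMonoidHom p : G →* G).range
  have hH : H ≠ ⊤ := by
    intro htop
    obtain ⟨x, hx⟩ := exists_prime_orderOf_dvd_card p hv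
    have hsurj : Function.Surjective (powMonoidHom p : G →* G) := MonoidHom.range_eq_top.mp htop
    have hinj := Finite.injective_iff_surjective.mpr hsurj
    have h1 : x = 1 := by
      apply hinj
      rw [map_one, powMonoidHom_apply, ← hx, pow_orderOf_eq_one]
    rw [h1, orderOf_one] at hx
    exact hp.one_lt.ne hx
  obtain ⟨c, hc⟩ := pow_nT (G := G) p hv ((D.card : ZMod p) - lam) (lam : ZMod p) q
  have hsq := ind_sq p D lam g hrep hinv
  -- `p`-th power
  have h1 : ind p D ^ p = MonoidAlgebra.single (g ^ q) 1 *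
      (algebraMap (ZMod p) (MonoidAlgebra (ZMod p) G) (((D.card : ZMod p) - lam) ^ q) * ind p D
        + algebraMap (ZMod p) (MonoidAlgebra (ZMod p) G) (c * D.card) * T p G) := by
    have e1 : ind p D ^ p = (ind p D * ind p D) ^ q * ind p D := by
      have e0 : ind p D ^ p = ind p D ^ (2 * q + 1) := congrArg (fun n => ind p D ^ n) hq
      rw [e0, pow_succ, pow_mul, sq]
    have e2 : (MonoidAlgebra.single g (1 : ZMod p) : MonoidAlgebra (ZMod p) G) ^ q
        = MonoidAlgebra.single (g ^ q) 1 := by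
      rw [MonoidAlgebra.single_pow, one_pow]
    have e3 : ind p D * T p G
        = algebraMap (ZMod p) (MonoidAlgebra (ZMod p) G) (D.card : ZMod p) * T p G := by
      rw [ind_T, Algebra.smul_def]
    rw [e1, hsq, mul_pow, hc, e2, map_mul]
    linear_combination (MonoidAlgebra.single (g ^ q) (1 : ZMod p) *
      algebraMap (ZMod p) (MonoidAlgebra (ZMod p) G) c) * e3
  have h2 : ind p D ^ p = ∑ d ∈ D, MonoidAlgebra.single (d ^ p) 1 := by
    unfold ind
    rw [sum_pow_char p]
    refine Finset.sum_congr rfl fun d _ => ?_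
    rw [MonoidAlgebra.single_pow, one_pow]
  -- coefficients outside the coset
  have key : ∀ x : G, g ^ q * x ∉ H →
      ((D.card : ZMod p) - lam) ^ q * (if x ∈ D then 1 else 0) + c * D.card = 0 := by
    intro x hx
    have h3 : (ind p D ^ p).coeff (g ^ q * x) = 0 := by
      rw [h2, coeff_sum D (fun d => d ^ p)]
      have : D.filter (fun d => d ^ p = g ^ q * x) = ∅ := by
        ext y
        simp only [mem_filter, notMem_empty, iff_false, not_and]
        intro _ hy
        apply hx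
        rw [← hy]
        exact ⟨y, rfl⟩
      rw [this]; simp
    rw [h1] at h3
    rw [MonoidAlgebra.coeff_single_mul_mul] at h3
    rw [← Algebra.smul_def, ← Algebra.smul_def] at h3
    simp only [MonoidAlgebra.coeff_add, MonoidAlgebra.coeff_smul, Finsupp.add_apply,
      Finsupp.smul_apply, coeff_T, coeff_ind, smul_eq_mul, mul_one, one_mul] at h3
    exact h3
  refine ⟨H, (g ^ q)⁻¹, hH, ?_⟩
  have hnq : ((D.card : ZMod p) - lam) ^ q ≠ 0 := pow_ne_zero _ hn
  by_cases hc0 : c * (D.card : ZMod p) = 0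
  · left
    intro x hxD
    by_contra hxH
    rw [inv_inv] at hxH
    have := key x hxH
    rw [if_pos hxD, hc0] at this
    apply hnq
    simpa using this
  · right
    intro x hxH
    by_contra hxD
    rw [inv_inv] at hxH
    have := key x hxH
    rw [if_neg hxD] at this
    apply hc0
    simpa using this

open Pool.Agent.Helper17.Bireg

/-- prime divisors of `v` are bounded -/
theorem prime_le (D : Finset G) (lam : ℕ) (hlam : 1 ≤ lam) (g : G)
    (hrep : ∀ x : G, x ≠ 1 → ((D ×ˢ D).filter (fun q => q.1 * q.2⁻¹ = x)).card = lam)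
    (hinv : ∀ d ∈ D, g * d⁻¹ ∈ D) (hbig : 2 * lam + 1 < D.card) {p : ℕ} (hp : p.Prime)
    (hv : p ∣ Fintype.card G) : p ≤ max 2 lam := by
  by_cases h2 : p = 2
  · rw [h2]; exact le_max_left _ _
  have hyp : Pool.Agent.Helper17.NormalDS.Hyp D lam := by
    refine ⟨hrep, ?_⟩
    intro x d hd
    rw [mul_comm x d, mul_inv_cancel_right]; exact hd
  have hksq := hyp.ksq
  rw [Nat.card_eq_fintype_card] at hksq
  by_cases hn : (D.card : ZMod p) - lam = 0
  · have h1 : (D.card : ZMod p) = lam := by linear_combination hn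
    have h3 : ((D.card ^ 2 + lam : ℕ) : ZMod p) = ((D.card + lam * Fintype.card G : ℕ) : ZMod p) := by
      rw [hksq]
    push_cast at h3
    rw [(ZMod.natCast_eq_zero_iff _ _).mpr hv, h1] at h3
    have : Fact p.Prime := ⟨hp⟩
    have h4 : ((lam : ZMod p)) ^ 2 = 0 := by linear_combination h3
    have h5 : (lam : ZMod p) = 0 := pow_eq_zero_iff (two_ne_zero) |>.mp h4
    have h6 : p ∣ lam := (ZMod.natCast_eq_zero_iff _ _).mp h5
    exact (Nat.le_of_dvd hlam h6).trans (le_max_right _ _)
  · exfalso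
    obtain ⟨H, a, hH, hcase⟩ := dichotomy p hp h2 hv D lam g hrep hinv hn
    rcases hcase with h | h
    · obtain ⟨y, hy⟩ : ∃ y, y ∉ H := by
        by_contra hc
        push Not at hc
        exact hH (Subgroup.eq_top_iff' H |>.mpr hc)
      have hy1 : y ≠ 1 := by
        rintro rfl; exact hy H.one_mem
      have hpos : 0 < ((D ×ˢ D).filter (fun q => q.1 * q.2⁻¹ = y)).card := by
        rw [hrep y hy1]; omega
      obtain ⟨q, hq⟩ := Finset.card_pos.mp hpos
      obtain ⟨hq1, hq2⟩ := Finset.mem_filter.mp hq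
      obtain ⟨ha, hb⟩ := Finset.mem_product.mp hq1
      apply hy
      have h3 := H.mul_mem (h _ ha) (H.inv_mem (h _ hb))
      have e : a⁻¹ * q.1 * (a⁻¹ * q.2)⁻¹ = q.1 * q.2⁻¹ := by
        rw [mul_inv_rev, inv_inv, mul_comm q.2⁻¹ a, ← mul_assoc, mul_comm a⁻¹ q.1,
          inv_mul_cancel_right]
      rw [e, hq2] at h3
      exact h3
    · -- the complement of `D` lies in a coset
      have h3 : (univ.filter (fun x : G => a⁻¹ * x ∈ H)).card = Nat.card H := by
        rw [Nat.card_eq_fintype_card, Fintype.card_subtype]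
        refine Finset.card_bij (fun x _ => a⁻¹ * x) ?_ ?_ ?_
        · intro x hx; exact Finset.mem_filter.mpr ⟨Finset.mem_univ _, (Finset.mem_filter.mp hx).2⟩
        · intro x _ y _ hxy; exact mul_left_cancel hxy
        · intro y hy
          exact ⟨a * y, Finset.mem_filter.mpr ⟨Finset.mem_univ _, by
            simpa using (Finset.mem_filter.mp hy).2⟩, by simp⟩
      have h4 : Dᶜ.card ≤ Nat.card H := by
        rw [← h3]
        apply Finset.card_le_card
        intro x hx
        refine Finset.mem_filter.mpr ⟨Finset.mem_univ _, ?_⟩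
        by_contra hxH
        exact (Finset.mem_compl.mp hx) (h x hxH)
      have h5 : Nat.card H * H.index = Nat.card G := Subgroup.card_mul_index H
      have h6 : 2 ≤ H.index := by
        have a0 : H.index ≠ 0 := Subgroup.index_ne_zero_of_finite
        have a1 : H.index ≠ 1 := fun h => hH (Subgroup.index_eq_one.mp h)
        omega
      have h7 : 2 * Nat.card H ≤ Fintype.card G := by
        rw [← Nat.card_eq_fintype_card, ← h5, mul_comm 2]
        exact Nat.mul_le_mul_left _ h6
      have h8 : D.card + Dᶜ.card = Fintype.card G := Finset.card_add_card_compl D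
      have h9 : Fintype.card G ≤ 2 * D.card := by omega
      have h10 : lam * Fintype.card G ≤ lam * (2 * D.card) := Nat.mul_le_mul_left _ h9
      have h11 : D.card ^ 2 ≤ D.card * (1 + 2 * lam) := by nlinarith
      have h12 : D.card ≤ 1 + 2 * lam := by
        by_contra hc
        push Not at hc
        have : D.card * (1 + 2 * lam) < D.card * D.card :=
          Nat.mul_lt_mul_of_pos_left hc (by omega)
        rw [sq] at h11
        omega
      omega

/-- finiteness of abelian difference sets with multiplier `-1` -/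
theorem rev_main (lam : ℕ) (hlam : 1 ≤ lam) : ∃ K : ℕ, ∀ (G : Type u) [CommGroup G] [Fintype G]
    (D : Finset G) (g : G),
    (∀ x : G, x ≠ 1 → ((D ×ˢ D).filter (fun q => q.1 * q.2⁻¹ = x)).card = lam) →
    (∀ d ∈ D, g * d⁻¹ ∈ D) → D.card ≤ K := by
  set B : ℕ := lam + 2 with hB
  have hfin := Smooth.polya (4 * lam - 1) B (by omega)
  obtain ⟨X0, hX0⟩ := hfin.bddAbove
  refine ⟨2 * lam + 1 + X0, ?_⟩
  intro G _ _ D g hrep hinv
  by_contra hcon
  push Not at hcon
  have hyp : Pool.Agent.Helper17.NormalDS.Hyp D lam := by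
    refine ⟨hrep, ?_⟩
    intro x d hd
    rw [mul_comm x d, mul_inv_cancel_right]; exact hd
  have hksq := hyp.ksq
  have heq : (2 * D.card - 1) ^ 2 + (4 * lam - 1) = 4 * (lam * Nat.card G) := by
    obtain ⟨k, hk⟩ : ∃ k, D.card = k + 1 := ⟨D.card - 1, by omega⟩
    rw [hk] at hksq ⊢
    obtain ⟨l, hl⟩ : ∃ l, lam = l + 1 := ⟨lam - 1, by omega⟩
    rw [hl] at hksq ⊢
    have e1 : 2 * (k + 1) - 1 = 2 * k + 1 := by omega
    have e2 : 4 * (l + 1) - 1 = 4 * l + 3 := by omega
    rw [e1, e2]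
    nlinarith
  have hmem : 2 * D.card - 1 ∈
      {X : ℕ | ∀ p : ℕ, p.Prime → p ∣ X ^ 2 + (4 * lam - 1) → p ≤ B} := by
    intro p hp hpd
    rw [heq] at hpd
    rcases (Nat.Prime.dvd_mul hp).mp hpd with h2 | h2
    · have : p ∣ 2 ^ 2 := h2
      have h3 : p ∣ 2 := hp.dvd_of_dvd_pow this
      have h4 : p ≤ 2 := Nat.le_of_dvd (by norm_num) h3
      omega
    · rcases (Nat.Prime.dvd_mul hp).mp h2 with h3 | h3
      · have h4 : p ≤ lam := Nat.le_of_dvd hlam h3
        omega
      · rw [Nat.card_eq_fintype_card] at h3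
        have h4 := prime_le D lam hlam g hrep hinv (by omega) hp h3
        have h5 : max 2 lam ≤ B := by rw [hB]; omega
        omega
  have := hX0 hmem
  omega

/-- group version for designs -/
theorem rev_design (lam : ℕ) (hlam : 1 ≤ lam) : ∃ K : ℕ, ∀ (G : Type u) [CommGroup G] [Fintype G]
    (𝓑 : Finset (Finset G)) (k : ℕ) (b0 : G), (∀ b ∈ 𝓑, b.card = k) →
    (∀ x y : G, x ≠ y → (𝓑.filter (fun b => x ∈ b ∧ y ∈ b)).card = lam) →
    𝓑.card = Fintype.card G →
    (∀ g, ∀ b ∈ 𝓑, L g b ∈ 𝓑) → (∀ b ∈ 𝓑, ∃ b' ∈ 𝓑, ∀ x, x ∈ b → x⁻¹ * b0 ∈ b') →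
    Fintype.card G ≤ K := by
  obtain ⟨K, hK⟩ := rev_main.{u} lam hlam
  refine ⟨(K + lam) ^ 2 + lam, ?_⟩
  intro G _ _ 𝓑 k b0 hk hl hv hL ht
  have hr := hr_group 𝓑 k hk hv hL
  have hkv := param 𝓑 k lam hk hr hl (1 : G)
  have hkK : k ≤ K + lam := by
    by_contra hcon
    push Not at hcon
    have hdual := dual 𝓑 k lam hk hr hl hv hkv
    obtain ⟨D, hD⟩ : 𝓑.Nonempty := by rw [← Finset.card_pos, hv]; exact Fintype.card_pos
    have hDk : D.card = k := hk D hD
    have sL : ∀ g : G, L g D = D → g = 1 := by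
      apply stab_trivial D lam (fun g => L g D) (L_one D) (sum_L D)
      · intro g hg
        exact hdual D hD _ (hL g D hD) (Ne.symm hg)
      · rw [hDk]; omega
      · rw [hDk]; exact hkv
    have injL : Function.Injective (fun g : G => L g D) := by
      intro a b hab
      have hab' : L a D = L b D := hab
      have : L (b⁻¹ * a) D = D := by
        rw [← L_L, hab', L_L]; simp [L_one]
      exact (inv_mul_eq_one.mp (sL _ this)).symm
    have himg : (univ : Finset G).image (fun g => L g D) = 𝓑 := by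
      apply Finset.eq_of_subset_of_card_le
      · intro b hb
        obtain ⟨g, -, rfl⟩ := Finset.mem_image.mp hb
        exact hL g D hD
      · rw [Finset.card_image_of_injective _ injL, hv, Finset.card_univ]
    obtain ⟨b', hb', hb''⟩ := ht D hD
    rw [← himg] at hb'
    obtain ⟨h, -, rfl⟩ := Finset.mem_image.mp hb'
    have hrep : ∀ x : G, x ≠ 1 → ((D ×ˢ D).filter (fun q => q.1 * q.2⁻¹ = x)).card = lam := by
      intro x hx
      have hne : L x D ≠ D := fun h => hx (sL x h)
      rw [← hdual D hD _ (hL x D hD) (Ne.symm hne)]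
      symm
      refine Finset.card_bij (fun y _ => (y, x⁻¹ * y)) ?_ ?_ ?_
      · intro y hy
        obtain ⟨hy1, hy2⟩ := Finset.mem_inter.mp hy
        rw [mem_L] at hy2
        refine mf.mpr ⟨Finset.mem_product.mpr ⟨hy1, hy2⟩, ?_⟩
        show y * (x⁻¹ * y)⁻¹ = x
        rw [mul_inv_rev, inv_inv, mul_inv_cancel_left]
      · intro a _ b _ hab
        exact congrArg Prod.fst hab
      · intro q hq
        obtain ⟨hq1, hq2⟩ := mf.mp hq
        obtain ⟨ha, hb⟩ := Finset.mem_product.mp hq1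
        have e : q.2 = x⁻¹ * q.1 := by rw [← hq2]; simp
        exact ⟨q.1, Finset.mem_inter.mpr ⟨ha, by rw [mem_L, ← e]; exact hb⟩,
          Prod.ext rfl e.symm⟩
    have := hK G D (h⁻¹ * b0) hrep (by
      intro d hd
      have h1 := hb'' d hd
      rw [mem_L] at h1
      have e : h⁻¹ * b0 * d⁻¹ = h⁻¹ * (d⁻¹ * b0) := by
        rw [mul_assoc, mul_comm b0 d⁻¹]
      rw [e]; exact h1)
    omega
  have h1 : k * k + lam = k + lam * Fintype.card G := by exact_mod_cast hkv
  have h2 : Fintype.card G ≤ lam * Fintype.card G := Nat.le_mul_of_pos_left _ hlam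
  have h3 : k * k ≤ (K + lam) ^ 2 := by rw [sq]; exact Nat.mul_le_mul hkK hkK
  omega

/-- finiteness for symmetric designs with a transitive group inverted by an automorphism -/
theorem inverted_main (lam : ℕ) (hlam : 1 ≤ lam) : ∃ K : ℕ, ∀ (X : Type u) [Fintype X]
    (𝓑 : Finset (Finset X)) (k : ℕ) (A : Subgroup (Equiv.Perm X)) (τ : Equiv.Perm X),
    𝓑.card = Fintype.card X → (∀ b ∈ 𝓑, b.card = k) →
    (∀ x y : X, x ≠ y → (𝓑.filter (fun b => x ∈ b ∧ y ∈ b)).card = lam) →
    (∀ σ ∈ A, ∀ b ∈ 𝓑, b.image σ ∈ 𝓑) → (∀ b ∈ 𝓑, b.image τ ∈ 𝓑) →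
    (∀ x y : X, ∃ σ ∈ A, σ x = y) → (∀ σ ∈ A, τ * σ * τ⁻¹ = σ⁻¹) →
    Fintype.card X ≤ K := by
  obtain ⟨K, hK⟩ := rev_design.{u} lam hlam
  refine ⟨K, ?_⟩
  intro X _ 𝓑 k A τ hv hk hl hA hτ tA hinv
  have hcomm : ∀ a b : A, a * b = b * a := by
    intro a b
    apply Subtype.ext
    show a.1 * b.1 = b.1 * a.1
    have h1 := hinv _ (A.mul_mem a.2 b.2)
    have h2 : τ * (a.1 * b.1) * τ⁻¹ = a.1⁻¹ * b.1⁻¹ := by
      calc τ * (a.1 * b.1) * τ⁻¹ = (τ * a.1 * τ⁻¹) * (τ * b.1 * τ⁻¹) := by group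
        _ = a.1⁻¹ * b.1⁻¹ := by rw [hinv _ a.2, hinv _ b.2]
    rw [h1] at h2
    have h3 := congrArg (fun x => x⁻¹) h2
    simpa using h3
  rcases isEmpty_or_nonempty X with hX | ⟨⟨x0⟩⟩
  · simp
  let instA : CommGroup A := { (inferInstance : Group A) with mul_comm := hcomm }
  let instF : Fintype A := Fintype.ofFinite A
  have hinj : Function.Injective (fun a : A => a.1 x0) := by
    intro a b hab
    apply Subtype.ext
    ext y
    obtain ⟨c, hc, hcy⟩ := tA x0 y
    have h1 : ∀ a : A, a.1 (c x0) = c (a.1 x0) := by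
      intro a
      have := congrArg (fun z : A => z.1 x0) (hcomm a ⟨c, hc⟩)
      exact this
    rw [← hcy, h1, h1]
    exact congrArg c hab
  have hsurj : Function.Surjective (fun a : A => a.1 x0) := by
    intro y
    obtain ⟨σ, hσ, h⟩ := tA x0 y
    exact ⟨⟨σ, hσ⟩, h⟩
  let e : A ≃ X := Equiv.ofBijective _ ⟨hinj, hsurj⟩
  have he : ∀ a : A, e a = a.1 x0 := fun a => rfl
  let pb : Finset X → Finset A := fun b => b.image e.symm
  have mem_pb : ∀ (a : A) (b : Finset X), a ∈ pb b ↔ e a ∈ b := by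
    intro a b
    show a ∈ b.image e.symm ↔ _
    rw [Finset.mem_image]
    constructor
    · rintro ⟨x, hx, rfl⟩; simpa using hx
    · intro h; exact ⟨e a, h, by simp⟩
  have pbinj : Function.Injective pb := Finset.image_injective e.symm.injective
  have mem_im : ∀ (σ : Equiv.Perm X) (b : Finset X) (x : X), x ∈ b.image σ ↔ σ⁻¹ x ∈ b := by
    intro σ b x
    rw [Finset.mem_image]
    constructor
    · rintro ⟨y, hy, rfl⟩; simpa using hy
    · intro h; exact ⟨_, h, by simp⟩
  obtain ⟨b0, hb0⟩ := hsurj (τ x0)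
  have hcard := @hK A instA instF (𝓑.image pb) k b0 ?_ ?_ ?_ ?_ ?_
  · rw [Fintype.card_congr e] at hcard
    exact hcard
  · intro b hb
    obtain ⟨b', hb', rfl⟩ := Finset.mem_image.mp hb
    show (b'.image e.symm).card = k
    rw [Finset.card_image_of_injective _ e.symm.injective, hk b' hb']
  · intro x y hxy
    rw [← hl (e x) (e y) (fun h => hxy (e.injective h))]
    symm
    refine Finset.card_bij (fun b _ => pb b) ?_ ?_ ?_
    · intro b hb
      obtain ⟨h1, h2, h3⟩ := mf.mp hb
      exact mf.mpr ⟨Finset.mem_image_of_mem _ h1, (mem_pb _ _).mpr h2, (mem_pb _ _).mpr h3⟩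
    · intro a _ b _ hab; exact pbinj hab
    · intro b hb
      obtain ⟨h1, h2, h3⟩ := mf.mp hb
      obtain ⟨b', hb', rfl⟩ := Finset.mem_image.mp h1
      exact ⟨b', mf.mpr ⟨hb', (mem_pb _ _).mp h2, (mem_pb _ _).mp h3⟩, rfl⟩
  · rw [Finset.card_image_of_injective _ pbinj, hv, Fintype.card_congr e]
  · intro g b hb
    obtain ⟨b', hb', rfl⟩ := Finset.mem_image.mp hb
    have h1 : L g (pb b') = pb (b'.image g.1) := by
      ext a
      rw [mem_L, mem_pb, mem_pb, mem_im, he, he]
      rfl
    rw [h1]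
    exact Finset.mem_image_of_mem _ (hA g.1 g.2 b' hb')
  · intro b hb
    obtain ⟨b', hb', rfl⟩ := Finset.mem_image.mp hb
    refine ⟨pb (b'.image τ), Finset.mem_image_of_mem _ (hτ b' hb'), ?_⟩
    intro a ha
    rw [mem_pb] at ha ⊢
    rw [mem_im]
    have h1 : (τ⁻¹ : Equiv.Perm X) (e (a⁻¹ * b0)) = e a := by
      have h2 : e (a⁻¹ * b0) = a.1⁻¹ (τ x0) := by
        have : e (a⁻¹ * b0) = a.1⁻¹ (b0.1 x0) := rfl
        rw [this]
        exact congrArg _ hb0
      rw [h2, Equiv.Perm.inv_eq_iff_eq, ← hinv _ a.2]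
      simp [he]
    rw [h1]
    exact ha

end Pool.Agent.Helper17.Revers
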